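import Pool.Agent.H71.GEN.Cell
import Pool.Agent.H71.GEN.Lip
import Pool.Agent.H54.GN.Lb

/-!
# Larger balls for the gradient bound of a label
-/

set_option autoImplicit false

namespace Pool.GEN

open Finset Real MvPolynomial
open Pool.Agent.H49.Ent Pool.Agent.H32.Dense Pool.STK Pool.KA Pool.KSAT Pool.K2S Pool.PB Pool.S6C

variable {m J : ℕ}

/-- A polynomial which is bounded on a ball is bounded on the ball of twice the radius. -/
theorem ball_two (K : ℕ) : ∃ C : ℝ, 1 ≤ C ∧ ∀ (σ : Type) (P : MvPolynomial σ ℝ)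
    (x b : σ → ℝ) (ρ M : ℝ), P.totalDegree ≤ K → 0 < ρ →
    (∀ y : σ → ℝ, (∀ j, |y j - x j| ≤ ρ) → |MvPolynomial.eval y P| ≤ M) →
    (∀ j, |b j - x j| ≤ 2 * ρ) → |MvPolynomial.eval b P| ≤ C * M := by
  obtain ⟨C, hC, h⟩ := Pool.Agent.H40.SLP.lip_one K
  refine ⟨1 + 2 * C, by linarith, ?_⟩
  intro σ P x b ρ M hP hρ hM hb
  have hM0 : 0 ≤ M := (abs_nonneg _).trans (hM x (fun j => by rw [sub_self, abs_zero]; exact hρ.le))
  obtain ⟨g, hg⟩ : ∃ g : σ → Polynomial ℝ, g = fun j =>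
      Polynomial.C (x j) + Polynomial.C ((b j - x j) / 2) * Polynomial.X := ⟨_, rfl⟩
  have hgd : ∀ j, (g j).natDegree ≤ 1 := by
    intro j
    rw [hg]
    refine (Polynomial.natDegree_add_le _ _).trans (max_le ?_ ?_)
    · rw [Polynomial.natDegree_C]
      exact Nat.zero_le _
    · exact (Polynomial.natDegree_C_mul_le _ _).trans Polynomial.natDegree_X_le
  have hge : ∀ t, (MvPolynomial.aeval g P).eval t =
      MvPolynomial.eval (fun j => x j + (b j - x j) / 2 * t) P := by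
    intro t
    rw [Pool.KBX.eval_aeval_poly]
    congr 1
    congr 1
    funext j
    rw [hg]
    simp
  have h1 := h (MvPolynomial.aeval g P) M (Pool.KBX.natDegree_aeval_le P g hgd hP) (by
    intro t ht
    rw [hge]
    refine hM _ fun j => ?_
    have h2 : x j + (b j - x j) / 2 * t - x j = (b j - x j) * (t / 2) := by ring
    rw [h2, abs_mul, abs_of_nonneg (by linarith [ht.1] : (0 : ℝ) ≤ t / 2)]
    calc |b j - x j| * (t / 2) ≤ 2 * ρ * (1 / 2) :=
          mul_le_mul (hb j) (by linarith [ht.2]) (by linarith [ht.1]) (by linarith)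
      _ = ρ := by ring) 2 0 (by norm_num) (by norm_num)
  rw [hge, hge] at h1
  have e1 : (fun j => x j + (b j - x j) / 2 * 2) = b := by
    funext j
    ring
  have e2 : (fun j => x j + (b j - x j) / 2 * 0) = x := by
    funext j
    ring
  rw [e1, e2, sub_zero, abs_of_nonneg (by norm_num : (0 : ℝ) ≤ 2)] at h1
  have h3 := hM x (fun j => by rw [sub_self, abs_zero]; exact hρ.le)
  have h4 := abs_sub_abs_le_abs_sub (eval b P) (eval x P)
  nlinarith

/-- **Larger balls**: one step. -/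
theorem lb_grow (K : ℕ) : ∃ c : ℕ, ∀ (m J : ℕ) (F : Fam m J) (I : Finset (Fin m)) (k : Fin m)
    (e r w ρ P : ℕ) (A : F.Ω → Prop) (V : Type) (z : PtT F → V) (z' : LnT F → V)
    (G : V → MvPolynomial (Option (Fin m)) ℝ), LbOK F I k K e r w (ρ + 1) P A z z' G →
    LbOK F I k K (e + c) r w ρ P A z z' G := by
  obtain ⟨C, hC, h⟩ := ball_two K
  obtain ⟨c, hc⟩ := pow_unbounded_of_one_lt C (one_lt_two : (1 : ℝ) < 2)
  refine ⟨c, ?_⟩
  intro m J F I k e r w ρ P A V z z' G hL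
  refine ⟨hL.deg, hL.dep, hL.cls, hL.pos, hL.vel, fun ω hω b hb o => ?_⟩
  have h1 := h (Option (Fin m)) (pderiv o (G (z' (slam F w ω)))) (bt F ω) b (1 / 2 ^ (ρ + 1))
    (2 ^ e) (totalDegree_pdσ (hL.deg _) o) (by positivity) (fun y hy => hL.lip ω hω y hy o)
    (fun j => (hb j).trans (le_of_eq (by rw [pow_succ]; field_simp)))
  refine h1.trans ?_
  rw [pow_add, mul_comm]
  exact mul_le_mul_of_nonneg_left hc.le (by positivity)

/-- **Larger balls.** -/
theorem lb_grow' (K q : ℕ) : ∃ c : ℕ, ∀ (m J : ℕ) (F : Fam m J) (I : Finset (Fin m)) (k : Fin m)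
    (e r w ρ P : ℕ) (A : F.Ω → Prop) (V : Type) (z : PtT F → V) (z' : LnT F → V)
    (G : V → MvPolynomial (Option (Fin m)) ℝ), LbOK F I k K e r w ρ P A z z' G →
    LbOK F I k K (e + c) r w (ρ - q) P A z z' G := by
  obtain ⟨c, hc⟩ := lb_grow K
  refine ⟨q * c, ?_⟩
  intro m J F I k e r w ρ P A V z z' G
  induction q with
  | zero =>
    intro h
    rw [zero_mul, add_zero, Nat.sub_zero]
    exact h
  | succ q ih =>
    intro h
    have h1 := ih h
    by_cases hq : q + 1 ≤ ρ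
    · have e1 : ρ - q = (ρ - (q + 1)) + 1 := by omega
      rw [e1] at h1
      have h2 := hc m J F I k (e + q * c) r w (ρ - (q + 1)) P A V z z' G h1
      have e2 : e + (q + 1) * c = e + q * c + c := by ring
      rw [e2]
      exact h2
    · have e1 : ρ - (q + 1) = ρ - q := by omega
      rw [e1]
      refine h1.mono (Finset.Subset.refl _) le_rfl ?_ le_rfl le_rfl
      have : q * c ≤ (q + 1) * c := Nat.mul_le_mul_right c (Nat.le_succ q)
      omega

theorem Lb.grow' (K q : ℕ) : ∃ c : ℕ, ∀ (m J : ℕ) (F : Fam m J) (I : Finset (Fin m)) (k : Fin m)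
    (e r w ρ P : ℕ) (A : F.Ω → Prop), Lb F I k K e r w ρ P A →
    Lb F I k K (e + c) r w (ρ - q) P A := by
  obtain ⟨c, hc⟩ := lb_grow' K q
  refine ⟨c, ?_⟩
  rintro m J F I k e r w ρ P A ⟨V, z, z', G, h⟩
  exact ⟨V, z, z', G, hc m J F I k e r w ρ P A V z z' G h⟩

end Pool.GEN
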