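import Pool.Agent.H45.EXA.LbZ
import Pool.Agent.H45.EXA.Grw
import Pool.Agent.H71.GEN.Zab

/-!
# No label of one coordinate in the zooms of the families of a class
-/

set_option autoImplicit false

namespace Pool.GEN

open Finset Real MvPolynomial
open Pool.Agent.H49.Ent Pool.Agent.H32.Dense Pool.STK Pool.KA Pool.KSAT Pool.K2S Pool.PB Pool.S6C
open Pool.FLF (Fam.sub sub_CH)

variable {m n J : ℕ} {κ : Type}

/-- The time deficit of the restricted families of the class. -/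
def TmC (S : PCl m) (C₀ : ℝ) : Prop :=
  ∀ (τ : ℝ) (J : ℕ) (F : Fam m J) (A : F.Ω → Prop), 0 < τ → S.St τ J F A →
    0 < Pe F.p A ∧ ∀ h : IsLaw (Pool.Agent.H49.Ent.cond F.p A True),
      (F.res A True h).Tm (C₀ * τ * J)

/-- The time deficit of the sub-events. -/
theorem TmC.sub {S : PCl m} {C₀ : ℝ} (hbs : TmC S C₀) {τ τ' : ℝ} {F : Fam m J} {A B : F.Ω → Prop}
    (hτ : 0 < τ) (hτ' : 0 ≤ τ') (hS : S.St τ J F A) (hB : Sub B A)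
    (hPB : Real.exp (-(τ' * J)) * Pe F.p A ≤ Pe F.p B) (hB0 : 0 < Pe F.p B) :
    (Fam.sub F B hB0).Tm (C₀ * (τ + τ') * J) := by
  have h1 := S.res hτ' hS hB hPB
  obtain ⟨-, h3⟩ := hbs _ J F B (by linarith) h1
  have h4 := h3 (isLaw_cond F.isLaw hB0)
  unfold Fam.Tm at h4 ⊢
  refine h4.trans (le_of_eq ?_)
  exact (sub_CH F.T (fun ω => (F.l ω, F.Z ω))).symm

/-- **No label of one coordinate in the zooms.** -/
theorem zlb {S : PCl m} {C₀ : ℝ} (hC₀ : 0 ≤ C₀) (hbs : TmC S C₀)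
    {w₁ w₂ w' R R' P P' e e' : ℝ} (hw0 : 0 < w₁) (hw1 : w₁ < 1) (hw'0 : 0 ≤ w') (hw'1 : w' ≤ 1)
    (hw : w₁ + w' * (1 - w₁) < w₂) (hw2 : w₂ < 1) (hR0 : 0 ≤ R') (hR1 : R' ≤ 1)
    (hR : w₁ + R' * (1 - w₁) < R) (he0 : 0 ≤ e') (he1 : e' < 1) (he : e' * (1 - w₁) < e)
    (hP0 : 0 ≤ P) (hP'0 : 0 ≤ P') (hP : P < w₁ + P' * (1 - w₁))
    (hPe : P < w₁ + (1 - e') * (1 - w₁)) (I' : Finset (Fin n)) (i : Fin n)
    (ε : Fin n → Fin m) (hinj : Function.Injective ε) (K₁ : ℕ)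
    (habs : Bas S (fun J F A => ¬ Lb F (I'.image ε) (ε i) (K₁ + 1) ⌊e * J⌋₊ J ⌊w₂ * J⌋₊
      ⌊R * J⌋₊ ⌊P * J⌋₊ A)) :
    ∃ ψ : ℝ, 0 < ψ ∧ ∃ τ₀ : ℝ, 0 < τ₀ ∧ ∃ J₀ : ℕ, ∀ J ≥ J₀, ∀ (F : Fam m J) (A : F.Ω → Prop),
    S.St τ₀ J F A → ∀ (κ : Type) (g : F.Ω → κ),
    (∀ ω ω', A ω → A ω' → ptr F J ω = ptr F J ω' → g ω = g ω') →
    (∀ ω ω', A ω → A ω' → slam F ⌊w₁ * J⌋₊ ω = slam F ⌊w₁ * J⌋₊ ω' → g ω = g ω') →
    ∀ (J' : ℕ) (h : ⌊w₁ * J⌋₊ + J' ≤ J), J' = J - ⌊w₁ * J⌋₊ → ∀ B : F.Ω → Prop,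
    Real.exp (-(3 * ψ * J')) ≤ Pe (Pool.Agent.H49.Ent.cond F.p A True) B →
    ¬ Lb (zf F ⌊w₁ * J⌋₊ J' h g ε) I' i K₁ ⌊e' * J'⌋₊ J' ⌊w' * J'⌋₊ ⌊R' * J'⌋₊ ⌊P' * J'⌋₊ B := by
  classical
  obtain ⟨c, C, c₀, hc, hC, hzoom⟩ := lb_zoom m n K₁
  obtain ⟨c₁, hgrow⟩ := Lb.grow' K₁ 4
  obtain ⟨τ₁, hτ₁, J₁, hb⟩ := habs
  have hC0 : 0 < C := by linarith
  obtain ⟨lam, hlam⟩ : ∃ lam, lam = min ((1 - w₂) / 4) (min ((w₁ + P' * (1 - w₁) - P) / 4)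
    ((w₁ + (1 - e') * (1 - w₁) - P) / 4)) := ⟨_, rfl⟩
  have hlam0 : 0 < lam := by
    rw [hlam]
    exact lt_min (by linarith) (lt_min (by linarith) (by linarith))
  have hl1 : lam ≤ (1 - w₂) / 4 := by rw [hlam]; exact min_le_left _ _
  have hl2 : lam ≤ (w₁ + P' * (1 - w₁) - P) / 4 := by
    rw [hlam]
    exact (min_le_right _ _).trans (min_le_left _ _)
  have hl3 : lam ≤ (w₁ + (1 - e') * (1 - w₁) - P) / 4 := by
    rw [hlam]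
    exact (min_le_right _ _).trans (min_le_right _ _)
  obtain ⟨δ, hδ⟩ : ∃ δ, δ = min (τ₁ / 8) (lam / (8 * C * (C₀ + 1))) := ⟨_, rfl⟩
  have hδ0 : 0 < δ := by
    rw [hδ]
    exact lt_min (by linarith) (by positivity)
  have hδ1 : δ ≤ τ₁ / 8 := by rw [hδ]; exact min_le_left _ _
  have hδ2 : C * (C₀ * (3 * δ)) ≤ lam / 2 := by
    have h1 : δ ≤ lam / (8 * C * (C₀ + 1)) := by rw [hδ]; exact min_le_right _ _
    rw [le_div_iff₀ (by positivity)] at h1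
    have h2 : C * (C₀ * (3 * δ)) ≤ C * ((C₀ + 1) * (3 * δ)) :=
      mul_le_mul_of_nonneg_left (mul_le_mul_of_nonneg_right (by linarith) (by positivity)) hC0.le
    have h3 : C * ((C₀ + 1) * (3 * δ)) = δ * (8 * C * (C₀ + 1)) * (3 / 8) := by ring
    linarith
  obtain ⟨J₂, hJ₂⟩ := cst (1 / c) hδ0
  obtain ⟨J₃, hJ₃⟩ := lin (C + 1) (half_pos hlam0)
  obtain ⟨J₄, hJ₄⟩ := lin ((c₁ : ℝ) + 3) hlam0
  obtain ⟨J₅, hJ₅⟩ := lin (1 : ℝ) (sub_pos.2 hw)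
  obtain ⟨J₆, hJ₆⟩ := lin ((c₀ : ℝ) + 1) (sub_pos.2 hR)
  obtain ⟨J₇, hJ₇⟩ := lin ((c₀ : ℝ) + c₁ + 1) (sub_pos.2 he)
  obtain ⟨J₈, hJ₈⟩ := lin ((c₁ : ℝ) + 4)
    (mul_pos (sub_pos.2 he1) (sub_pos.2 hw1))
  obtain ⟨J₉, hJ₉⟩ := lin (4 : ℝ) (sub_pos.2 hw1)
  refine ⟨δ / 3, by linarith, δ, hδ0, max J₁ (max J₂ (max J₃ (max J₄ (max J₅ (max J₆
    (max J₇ (max J₈ J₉))))))), ?_⟩
  intro J hJ F A hS κ g hgp hgl J' h hJ' B hB hLb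
  simp only [ge_iff_le, max_le_iff] at hJ
  obtain ⟨hJ1, hJ2, hJ3, hJ4, hJ5, hJ6, hJ7, hJ8, hJ9⟩ := hJ
  replace hJ2 := hJ₂ J hJ2
  replace hJ3 := hJ₃ J hJ3
  replace hJ4 := hJ₄ J hJ4
  replace hJ5 := hJ₅ J hJ5
  replace hJ6 := hJ₆ J hJ6
  replace hJ7 := hJ₇ J hJ7
  replace hJ8 := hJ₈ J hJ8
  replace hJ9 := hJ₉ J hJ9
  obtain ⟨hA, -⟩ := hbs _ J F A hδ0 hS
  have hJr : (0 : ℝ) ≤ J := Nat.cast_nonneg J
  obtain ⟨W, hW⟩ : ∃ W, W = ⌊w₁ * (J : ℝ)⌋₊ := ⟨_, rfl⟩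
  have hWr : (W : ℝ) ≤ w₁ * J := by rw [hW]; exact Nat.floor_le (by positivity)
  have hWr' : w₁ * (J : ℝ) < W + 1 := by rw [hW]; exact Nat.lt_floor_add_one _
  have hWJ : W ≤ J := by omega
  have hsum : (W : ℝ) + J' = J := by
    have : W + J' = J := by omega
    exact_mod_cast this
  have hJ'0 : (0 : ℝ) ≤ J' := Nat.cast_nonneg J'
  have hw1' : 0 ≤ 1 - w₁ := by linarith
  have hJ'1 : (1 - w₁) * J ≤ (J' : ℝ) := by
    have : (1 - w₁) * (J : ℝ) = J - w₁ * J := by ring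
    linarith
  have hJ'2 : (J' : ℝ) ≤ (1 - w₁) * J + 1 := by
    have : (1 - w₁) * (J : ℝ) = J - w₁ * J := by ring
    linarith
  -- products
  have pr : ∀ x : ℝ, 0 ≤ x → x ≤ 1 → x * J' ≤ x * (1 - w₁) * J + 1 := by
    intro x h0 h1
    have := mul_le_mul_of_nonneg_left hJ'2 h0
    have e2 : x * ((1 - w₁) * (J : ℝ) + 1) = x * (1 - w₁) * J + x := by ring
    linarith
  have pr' : ∀ x : ℝ, 0 ≤ x → x * (1 - w₁) * J ≤ x * J' := by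
    intro x h0
    have := mul_le_mul_of_nonneg_left hJ'1 h0
    have e2 : x * ((1 - w₁) * (J : ℝ)) = x * (1 - w₁) * J := by ring
    linarith
  have f1 : (⌊w' * (J' : ℝ)⌋₊ : ℝ) ≤ w' * J' := Nat.floor_le (by positivity)
  have f2 : (⌊R' * (J' : ℝ)⌋₊ : ℝ) ≤ R' * J' := Nat.floor_le (by positivity)
  have f3 : (⌊e' * (J' : ℝ)⌋₊ : ℝ) ≤ e' * J' := Nat.floor_le (by positivity)
  have f4 : P' * (J' : ℝ) < ⌊P' * (J' : ℝ)⌋₊ + 1 := Nat.lt_floor_add_one _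
  have g1 := pr w' hw'0 hw'1
  have g2 := pr R' hR0 hR1
  have g3 := pr e' he0 he1.le
  have g4 := pr' P' hP'0
  have g5 := pr' (1 - e') (by linarith)
  have c1r : (0 : ℝ) ≤ c₁ := Nat.cast_nonneg c₁
  have c0r : (0 : ℝ) ≤ c₀ := Nat.cast_nonneg c₀
  -- the exponents
  have hE : ⌊e' * (J' : ℝ)⌋₊ + c₁ ≤ J' := by
    have : (⌊e' * (J' : ℝ)⌋₊ : ℝ) + c₁ ≤ J' := by
      have e2 : (1 - e') * (J' : ℝ) = J' - e' * J' := by ring
      have e3 : (1 - e') * (1 - w₁) * (J : ℝ) ≤ J' - e' * J' := by rw [← e2]; exact g5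
      linarith
    exact_mod_cast this
  have hJ'4 : 4 ≤ J' := by
    have : (4 : ℝ) ≤ J' := by linarith
    exact_mod_cast this
  have hRJ : ⌊R' * (J' : ℝ)⌋₊ ≤ J' := by
    refine Nat.floor_le_of_le ?_
    have := mul_le_mul_of_nonneg_right hR1 hJ'0
    linarith
  have hwJ' : ⌊w' * (J' : ℝ)⌋₊ ≤ J' := by
    refine Nat.floor_le_of_le ?_
    have := mul_le_mul_of_nonneg_right hw'1 hJ'0
    linarith
  have hwin : W + ⌊w' * (J' : ℝ)⌋₊ ≤ ⌊w₂ * (J : ℝ)⌋₊ := by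
    refine Nat.le_floor ?_
    push_cast
    have e2 : (w₂ - (w₁ + w' * (1 - w₁))) * (J : ℝ) = w₂ * J - w₁ * J - w' * (1 - w₁) * J := by
      ring
    linarith
  have hw2' : 0 ≤ w₂ := by
    have := mul_nonneg hw'0 hw1'
    linarith
  have hw2J : (⌊w₂ * (J : ℝ)⌋₊ : ℝ) ≤ w₂ * J := Nat.floor_le (by positivity)
  have hw2le : ⌊w₂ * (J : ℝ)⌋₊ ≤ J := by
    refine Nat.floor_le_of_le ?_
    have := mul_le_mul_of_nonneg_right hw2.le hJr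
    linarith
  have hrad : W + (⌊R' * (J' : ℝ)⌋₊ - 4) + c₀ ≤ ⌊R * (J : ℝ)⌋₊ := by
    refine (show _ ≤ W + ⌊R' * (J' : ℝ)⌋₊ + c₀ by omega).trans (Nat.le_floor ?_)
    push_cast
    have e2 : (R - (w₁ + R' * (1 - w₁))) * (J : ℝ) = R * J - w₁ * J - R' * (1 - w₁) * J := by
      ring
    linarith
  have hlip : ⌊e' * (J' : ℝ)⌋₊ + c₁ + c₀ ≤ ⌊e * (J : ℝ)⌋₊ := by
    refine Nat.le_floor ?_
    push_cast
    have e2 : (e - e' * (1 - w₁)) * (J : ℝ) = e * J - e' * (1 - w₁) * J := by ring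
    linarith
  obtain ⟨P₁, hP₁⟩ : ∃ P₁, P₁ = min ⌊P' * (J' : ℝ)⌋₊ (J' - (⌊e' * (J' : ℝ)⌋₊ + c₁)) := ⟨_, rfl⟩
  have hP1 : P₁ ≤ ⌊P' * (J' : ℝ)⌋₊ := by rw [hP₁]; exact min_le_left _ _
  have hP2 : P₁ ≤ J' - (⌊e' * (J' : ℝ)⌋₊ + c₁) := by rw [hP₁]; exact min_le_right _ _
  have hprec : (P + 3 * lam) * (J : ℝ) ≤ (W : ℝ) + P₁ := by
    rcases min_choice ⌊P' * (J' : ℝ)⌋₊ (J' - (⌊e' * (J' : ℝ)⌋₊ + c₁)) with h1 | h1
    · rw [hP₁, h1]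
      have h2 := mul_le_mul_of_nonneg_right hl2 hJr
      have e2 : (w₁ + P' * (1 - w₁) - P) / 4 * (J : ℝ) =
        (w₁ * J + P' * (1 - w₁) * J - P * J) / 4 := by ring
      have e3 : (P + 3 * lam) * (J : ℝ) = P * J + 3 * (lam * J) := by ring
      linarith
    · rw [hP₁, h1]
      have h2 := mul_le_mul_of_nonneg_right hl3 hJr
      have e2 : (w₁ + (1 - e') * (1 - w₁) - P) / 4 * (J : ℝ) =
        (w₁ * J + (1 - e') * (1 - w₁) * J - P * J) / 4 := by ring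
      have e3 : (P + 3 * lam) * (J : ℝ) = P * J + 3 * (lam * J) := by ring
      have h3 : ((J' - (⌊e' * (J' : ℝ)⌋₊ + c₁) : ℕ) : ℝ) =
          (J' : ℝ) - (⌊e' * (J' : ℝ)⌋₊ + c₁) := by
        rw [Nat.cast_sub hE]
        push_cast
        ring
      rw [h3]
      have e4 : (1 - e') * (J' : ℝ) = J' - e' * J' := by ring
      linarith
  -- the event
  have hev := evt hA (by omega : J' ≤ J) (by linarith : 0 ≤ δ / 3) hB
  have e3 : 3 * (δ / 3) * (J : ℝ) = δ * J := by ring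
  rw [e3] at hev
  have hPB0 : 0 < Pe F.p (fun ω => A ω ∧ B ω) :=
    lt_of_lt_of_le (mul_pos (Real.exp_pos _) hA) hev
  -- the time deficit
  obtain ⟨θ, hθ⟩ : ∃ θ, θ = C₀ * (δ + 2 * δ) * J := ⟨_, rfl⟩
  have hθ0 : 0 ≤ θ := by rw [hθ]; positivity
  obtain ⟨l, hl⟩ : ∃ l, l = ⌈C * (θ + 1)⌉₊ := ⟨_, rfl⟩
  have hl4 : C * (θ + 1) ≤ l := by rw [hl]; exact Nat.le_ceil _
  have hl5 : (l : ℝ) ≤ lam * J := by
    have h1 : (l : ℝ) < C * (θ + 1) + 1 := by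
      rw [hl]
      exact Nat.ceil_lt_add_one (by positivity)
    have h2 : C * θ ≤ lam / 2 * J := by
      have e1 : C * θ = C * (C₀ * (3 * δ)) * J := by rw [hθ]; ring
      rw [e1]
      exact mul_le_mul_of_nonneg_right hδ2 hJr
    have e2 : C * (θ + 1) = C * θ + C := by ring
    rw [e2] at h1
    linarith
  -- the label of the zoom
  have hLb1 : Lb (zf F W J' (by rw [hW]; exact h) g ε) I' i K₁ (⌊e' * (J' : ℝ)⌋₊ + c₁) J'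
      ⌊w' * (J' : ℝ)⌋₊ (⌊R' * (J' : ℝ)⌋₊ - 4) P₁ (fun ω => A ω ∧ B ω) := by
    subst hW
    have h1 := Lb.hered (zf F ⌊w₁ * (J : ℝ)⌋₊ J' h g ε) _ _ _ _ _ _ _ _ _ (fun ω => A ω ∧ B ω)
      (fun ω hω => hω.2) hLb
    have h2 := hgrow _ _ _ _ _ _ _ _ _ _ _ h1
    exact h2.mono (Finset.Subset.refl _) le_rfl le_rfl le_rfl le_rfl hwJ' le_rfl hP1
  have hcB : ∀ B'' : F.Ω → Prop, c * Pe F.p (fun ω => A ω ∧ B ω) ≤ Pe F.p B'' →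
      Real.exp (-(2 * δ * J)) * Pe F.p A ≤ Pe F.p B'' := by
    intro B'' h1
    refine le_trans ?_ h1
    refine le_trans ?_ (mul_le_mul_of_nonneg_left hev hc.le)
    rw [div_le_iff₀ hc] at hJ2
    have e1 : Real.exp (-(2 * δ * J)) = Real.exp (-(δ * J)) * Real.exp (-(δ * J)) := by
      rw [← Real.exp_add]
      congr 1
      ring
    have e2 : c * (Real.exp (-(δ * J)) * Pe F.p A) = c * Real.exp (-(δ * J)) * Pe F.p A := by ring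
    rw [e1, e2]
    refine mul_le_mul_of_nonneg_right (mul_le_mul_of_nonneg_right ?_ (Real.exp_pos _).le) hA.le
    rw [Real.exp_neg, inv_le_comm₀ (Real.exp_pos _) hc, ← one_div, div_le_iff₀ hc]
    exact hJ2
  obtain ⟨B', hB', hPB', hG⟩ := hzoom J F W J' (by rw [hW]; exact h) κ g (fun ω => A ω ∧ B ω)
    (fun ω ω' h1 h2 => hgp ω ω' h1.1 h2.1) (fun ω ω' h1 h2 h3 => hgl ω ω' h1.1 h2.1 (by
      rw [← hW]; exact h3)) ε hinj I' i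
    (⌊e' * (J' : ℝ)⌋₊ + c₁) ⌊w' * (J' : ℝ)⌋₊ (⌊R' * (J' : ℝ)⌋₊ - 4) P₁ hwJ' (by omega) (by omega)
    hLb1 θ l hPB0 hθ0 hl4 (by
      have h1 : (((W + ⌊w' * (J' : ℝ)⌋₊ : ℕ) : ℝ)) ≤ w₂ * J := by
        have : ((W + ⌊w' * (J' : ℝ)⌋₊ : ℕ) : ℝ) ≤ (⌊w₂ * (J : ℝ)⌋₊ : ℕ) := by exact_mod_cast hwin
        linarith
      have h2 : (1 - w₂) * J ≤ (J : ℝ) - ((W + ⌊w' * (J' : ℝ)⌋₊ : ℕ) : ℝ) := by
        have : (1 - w₂) * (J : ℝ) = J - w₂ * J := by ring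
        linarith
      have h3 := mul_le_mul_of_nonneg_right h2 (Real.log_nonneg one_le_two)
      have h4 : (0.69 : ℝ) ≤ Real.log 2 := by
        have := Real.log_two_gt_d9
        linarith
      have h5 : (1 - w₂) * (J : ℝ) * 0.69 ≤ (1 - w₂) * J * Real.log 2 :=
        mul_le_mul_of_nonneg_left h4 (mul_nonneg (by linarith) hJr)
      have h6 : lam * (J : ℝ) ≤ (1 - w₂) / 4 * J := mul_le_mul_of_nonneg_right hl1 hJr
      have h7 : 0 ≤ (1 - w₂) * (J : ℝ) := mul_nonneg (by linarith) hJr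
      linarith) (by
      have h1 : (l : ℝ) ≤ ((W + P₁ : ℕ) : ℝ) := by
        push_cast
        have e2 : (P + 3 * lam) * (J : ℝ) = P * J + 3 * (lam * J) := by ring
        have h2 : 0 ≤ P * (J : ℝ) := by positivity
        have h3 : 0 ≤ lam * (J : ℝ) := by positivity
        linarith
      exact_mod_cast h1) (by
      intro B'' hB'' hsub hPB''
      have h1 := hbs.sub hδ0 (by linarith : 0 ≤ 2 * δ) hS (fun ω hω => (hsub ω hω).1)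
        (hcB B'' hPB'') hB''
      rw [hθ]
      exact h1)
  -- the contradiction
  have hSB := S.res (by linarith : 0 ≤ 2 * δ) hS (fun ω hω => (hB' ω hω).1) (hcB B' hPB')
  refine hb J hJ1 F B' (S.mono (by linarith) hSB) ?_
  refine hG.mono (Finset.Subset.refl _) le_rfl hlip le_rfl hwin hw2le hrad ?_
  refine Nat.floor_le_of_le ?_
  have h1 : l ≤ W + P₁ := by
    have h1 : (l : ℝ) ≤ ((W + P₁ : ℕ) : ℝ) := by
      push_cast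
      have e2 : (P + 3 * lam) * (J : ℝ) = P * J + 3 * (lam * J) := by ring
      have h2 : 0 ≤ P * (J : ℝ) := by positivity
      have h3 : 0 ≤ lam * (J : ℝ) := by positivity
      linarith
    exact_mod_cast h1
  rw [Nat.cast_sub h1]
  push_cast
  have e2 : (P + 3 * lam) * (J : ℝ) = P * J + 3 * (lam * J) := by ring
  have h3 : 0 ≤ lam * (J : ℝ) := by positivity
  linarith

end Pool.GEN
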