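import Pool.Agent.H45.EXA.Nfb
import Pool.Agent.H45.EXA.Zlb
import Pool.Agent.H71.GEN.Zab

/-!
# Closed labels on natural boxes, for classes

`chn_of`: exactly closed labels of the coordinates `c i`, over the coordinates `c l`, `l < b i`, with
precisions arbitrarily near `s i` and arbitrarily small gradients near the own points; the
coordinates `c l` are full beyond the precisions `s l < 1`, given the coordinates before them and
any closed function. Then there are chains on natural boxes with small gradients. The defects of the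
lower labels are as small as wanted, with respect to the degrees of the labels after them.
-/

set_option autoImplicit false

namespace Pool.GRW

open Finset Real MvPolynomial
open Pool.Agent.H49.Ent Pool.Agent.H32.Dense Pool.STK Pool.BFL Pool.KA Pool.KSAT Pool.K2S Pool.PB
open Pool.GEN Pool.S6C
open Pool.FLF (Fam.sub)

variable {m : ℕ}

/-- **The hierarchical choice**: the defect of a label is small with respect to the classes of the
labels after it. -/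
theorem hier (r : ℕ) (Kf : ℕ → ℝ → ℕ) (φ : ℕ → ℝ) (hφ : ∀ M, 0 < φ M) :
    ∃ (K : ℕ → ℕ) (d : ℕ → ℝ), ∀ i < r, 0 < d i ∧ K i = Kf i (d i) ∧
      d i ≤ φ ((Finset.Ioo i r).sup K) := by
  have key : ∀ k ≤ r, ∃ (K : ℕ → ℕ) (d : ℕ → ℝ), ∀ i, r - k ≤ i → i < r → 0 < d i ∧
      K i = Kf i (d i) ∧ d i ≤ φ ((Finset.Ioo i r).sup K) := by
    intro k
    induction k with
    | zero =>
      intro _
      exact ⟨fun _ => 0, fun _ => 0, fun i h1 h2 => by omega⟩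
    | succ k ih =>
      intro hk
      obtain ⟨K, d, h⟩ := ih (by omega)
      obtain ⟨l, hl⟩ : ∃ l, l = r - (k + 1) := ⟨_, rfl⟩
      obtain ⟨dl, hdl⟩ : ∃ dl, dl = φ ((Finset.Ioo l r).sup K) := ⟨_, rfl⟩
      refine ⟨Function.update K l (Kf l dl), Function.update d l dl, fun i h1 h2 => ?_⟩
      have hsup : ∀ j, l ≤ j → (Finset.Ioo j r).sup (Function.update K l (Kf l dl)) =
          (Finset.Ioo j r).sup K := by
        intro j hj
        refine Finset.sup_congr rfl fun x hx => ?_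
        have := Finset.mem_Ioo.1 hx
        rw [Function.update_of_ne (by omega)]
      rcases Nat.eq_or_lt_of_le (show l ≤ i by omega) with h3 | h3
      · subst h3
        rw [Function.update_self, Function.update_self, hsup _ le_rfl]
        refine ⟨?_, rfl, hdl.le⟩
        rw [hdl]
        exact hφ _
      · rw [Function.update_of_ne (by omega), Function.update_of_ne (by omega), hsup i h3.le]
        exact h i (by omega) h2
  obtain ⟨K, d, h⟩ := key r le_rfl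
  exact ⟨K, d, fun i hi => h i (by omega) hi⟩

/-- The times are nearly full. -/
theorem tmc_bas {S : PCl m} {C₀ : ℝ} (h : TmC S C₀) {ψ : ℝ} (hψ : 0 < ψ) :
    Bas S (fun J F A => 0 < Pe F.p A ∧ (J : ℝ) * Real.log 2 - ψ * J ≤
      CH (Pool.Agent.H49.Ent.cond F.p A True) F.T (fun ω => (F.l ω, F.Z ω))) := by
  refine ⟨ψ / (|C₀| + 1), by positivity, 0, fun J _ F A hA => ?_⟩
  have hτ : 0 < ψ / (|C₀| + 1) := by positivity
  obtain ⟨h1, h2⟩ := h _ J F A hτ hA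
  refine ⟨h1, ?_⟩
  have h3 := h2 (isLaw_cond F.isLaw h1)
  unfold Fam.Tm at h3
  have h5 : CH (F.res A True (isLaw_cond F.isLaw h1)).p (F.res A True (isLaw_cond F.isLaw h1)).T
      (fun ω => ((F.res A True (isLaw_cond F.isLaw h1)).l ω,
        (F.res A True (isLaw_cond F.isLaw h1)).Z ω)) =
      CH (Pool.Agent.H49.Ent.cond F.p A True) F.T (fun ω => (F.l ω, F.Z ω)) := rfl
  rw [h5] at h3
  refine le_trans ?_ h3
  have hJ : (0 : ℝ) ≤ J := Nat.cast_nonneg J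
  have h6 : C₀ * (ψ / (|C₀| + 1)) ≤ ψ := by
    rw [mul_div_assoc']
    rw [div_le_iff₀ (by positivity)]
    have := le_abs_self C₀
    nlinarith
  have h7 := mul_le_mul_of_nonneg_right h6 hJ
  linarith

/-- **The times are nearly full behind the windows** of length `2 ^ (-w J)`, given the line, the side
information and the window. -/
def TmWn (S : PCl m) (w : ℝ) : Prop :=
  ∀ ψ : ℝ, 0 < ψ → Bas S (fun J F A => 0 < Pe F.p A ∧ ∀ L : ℕ, ⌊w * J⌋₊ + L ≤ J →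
    (L : ℝ) * Real.log 2 - ψ * J ≤ CH (Pool.Agent.H49.Ent.cond F.p A True) (F.T1 (⌊w * J⌋₊ + L))
      (slam F ⌊w * J⌋₊))

theorem TmC.wn {S : PCl m} {C₀ : ℝ} (h : TmC S C₀) (w : ℝ) : TmWn S w := by
  intro ψ hψ
  refine (tmc_bas h hψ).mono 0 fun J _ F A hh => ⟨hh.1, fun L hL => ?_⟩
  have k1 := Pool.Agent.H25.M5.time_full hh.2 (isLaw_cond F.isLaw hh.1)
    (Nat.le_add_right ⌊w * J⌋₊ L) hL
  rwa [Nat.add_sub_cancel_left] at k1

/-- **Chains from closed labels and fullness.** -/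
theorem chn_of' {S : PCl m} {c : ℕ → Fin m} {r : ℕ}
    (hc : Set.InjOn c (Set.Iio r)) {w : ℝ} (htm : TmWn S w) (hw0 : 0 ≤ w) (hw1 : w < 1) {s : ℕ → ℝ}
    {b : ℕ → ℕ} (hb : ∀ i, b i ≤ i) (hs0 : ∀ i < r, 0 ≤ s i)
    (hlt : ∀ i < r, ∀ l < b i, s l < 1)
    (hfull : ∀ ρ : ℝ, 0 < ρ → Bas S (fun J F A => ∀ (V : Type) (z : PtT F → V) (z' : LnT F → V),
      (∀ ω, A ω → z (ptr F J ω) = z' (slam F ⌊w * J⌋₊ ω)) → ∀ i < r, ∀ l < b i,
      ((1 - s l) - ρ) * Real.log 2 * J ≤ CH (Pool.Agent.H49.Ent.cond F.p A True)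
        (fun ω => F.X J ω (c l)) (fun ω => ((fun l' : Fin l => F.X J ω (c l')),
          z' (slam F ⌊w * J⌋₊ ω), F.W ω))))
    {rd : ℕ → ℝ} (hatt : ∀ i < r, ∀ e : ℝ, 0 < e → ∃ K : ℕ, Bas S (fun J F A =>
      Lb F ((range (b i)).image c) (c i) K ⌊e * J⌋₊ J ⌊w * J⌋₊ ⌊min (rd i + e) 1 * J⌋₊
        ⌊(s i - e) * J⌋₊ A))
    {φ : ℕ → ℝ} (hφ : ∀ M, 0 < φ M) {δ : ℝ} (hδ : 0 < δ) :
    ∃ (K : ℕ → ℕ) (d : ℕ → ℝ), (∀ i < r, 0 < d i ∧ d i ≤ δ ∧ d i ≤ φ ((Finset.Ioo i r).sup K)) ∧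
      Bas S (fun J F A => ∃ B : F.Ω → Prop, Sub B A ∧ Pe F.p A ≤ 2 * Pe F.p B ∧
        ChN F c r K ⌊w * J⌋₊ ⌊w * J⌋₊ ⌊δ * J⌋₊ (fun i => ⌊(s i - d i) * J⌋₊) B) := by
  classical
  have hl0 : 0 < Real.log 2 := Real.log_pos one_lt_two
  have hl1 : Real.log 2 ≤ 1 := by
    have := Real.log_two_lt_d9
    linarith
  have hl2 : 1 / 2 ≤ Real.log 2 := by
    have := Real.log_two_gt_d9
    linarith
  -- the room
  have hroom : ∃ χ : ℝ, 0 < χ ∧ w + χ ≤ 1 ∧ ∀ l < r, s l < 1 → s l + 3 * χ ≤ 1 := by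
    have key : ∀ k, ∃ χ : ℝ, 0 < χ ∧ w + χ ≤ 1 ∧ ∀ l < k, s l < 1 → s l + 3 * χ ≤ 1 := by
      intro k
      induction k with
      | zero => exact ⟨1 - w, by linarith, by linarith, fun l hl => absurd hl (Nat.not_lt_zero l)⟩
      | succ k ih =>
        obtain ⟨χ, h1, h2, h3⟩ := ih
        by_cases hk : s k < 1
        · refine ⟨min χ ((1 - s k) / 3), lt_min h1 (by linarith), by
            have := min_le_left χ ((1 - s k) / 3)
            linarith, fun l hl hl1 => ?_⟩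
          have e1 := min_le_left χ ((1 - s k) / 3)
          have e2 := min_le_right χ ((1 - s k) / 3)
          rcases Nat.lt_or_ge l k with h4 | h4
          · have := h3 l h4 hl1
            linarith
          · rw [show l = k by omega]
            linarith
        · refine ⟨χ, h1, h2, fun l hl hl1 => ?_⟩
          rcases Nat.lt_or_ge l k with h4 | h4
          · exact h3 l h4 hl1
          · rw [show l = k by omega] at hl1
            exact absurd hl1 hk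
    exact key r
  obtain ⟨χ, hχ, hwχ, hsχ⟩ := hroom
  -- the constants
  obtain ⟨Q, hQ⟩ : ∃ Q : ℝ, Q = 8 ^ r * (2 * ((r : ℝ) + 1) ^ 2) := ⟨_, rfl⟩
  have hQ0 : 0 < Q := by rw [hQ]; positivity
  obtain ⟨γ₀, hγ₀⟩ : ∃ γ₀ : ℝ, γ₀ = min (χ / 4) (δ / (8 * ((r : ℝ) + 1))) := ⟨_, rfl⟩
  have hγ0 : 0 < γ₀ := by rw [hγ₀]; exact lt_min (by positivity) (by positivity)
  have hγχ : γ₀ ≤ χ / 4 := by rw [hγ₀]; exact min_le_left _ _
  have hγδ : r * γ₀ ≤ δ / 8 := by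
    have h1 : γ₀ ≤ δ / (8 * ((r : ℝ) + 1)) := by rw [hγ₀]; exact min_le_right _ _
    have h2 : (r : ℝ) * (δ / (8 * ((r : ℝ) + 1))) ≤ δ / 8 := by
      rw [mul_div_assoc', div_le_div_iff₀ (by positivity) (by norm_num)]
      have : (0 : ℝ) ≤ r := Nat.cast_nonneg r
      nlinarith
    exact (mul_le_mul_of_nonneg_left h1 (Nat.cast_nonneg r)).trans h2
  obtain ⟨φ', hφ'⟩ : ∃ φ' : ℕ → ℝ, φ' = fun M =>
    min (min (φ M) (min (δ / 4) (χ / 2))) (γ₀ / (4 * (Cm r M * Q))) := ⟨_, rfl⟩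
  have hCm : ∀ M, 0 < Cm r M := fun M => zero_lt_one.trans_le (one_le_Cm r M)
  have hφ'0 : ∀ M, 0 < φ' M := by
    intro M
    rw [hφ']
    have := hCm M
    exact lt_min (lt_min (hφ M) (lt_min (by positivity) (by positivity))) (by positivity)
  have hφ1 : ∀ M, φ' M ≤ φ M := fun M => by
    rw [hφ']
    exact (min_le_left _ _).trans (min_le_left _ _)
  have hφ2 : ∀ M, φ' M ≤ δ / 4 := fun M => by
    rw [hφ']
    exact (min_le_left _ _).trans ((min_le_right _ _).trans (min_le_left _ _))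
  have hφ3 : ∀ M, φ' M ≤ χ / 2 := fun M => by
    rw [hφ']
    exact (min_le_left _ _).trans ((min_le_right _ _).trans (min_le_right _ _))
  have hφ4 : ∀ M, Cm r M * Q * φ' M ≤ γ₀ / 4 := by
    intro M
    have h1 : φ' M ≤ γ₀ / (4 * (Cm r M * Q)) := by
      rw [hφ']
      exact min_le_right _ _
    have h2 : 0 < Cm r M * Q := mul_pos (hCm M) hQ0
    refine (mul_le_mul_of_nonneg_left h1 h2.le).trans (le_of_eq ?_)
    have h3 := h2.ne'
    rw [mul_div_assoc', div_eq_div_iff (by positivity) (by norm_num)]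
    ring
  -- the labels
  have hKf : ∀ (i : ℕ) (e : ℝ), ∃ K : ℕ, i < r → 0 < e → Bas S (fun J F A =>
      Lb F ((range (b i)).image c) (c i) K ⌊e * J⌋₊ J ⌊w * J⌋₊ ⌊min (rd i + e) 1 * J⌋₊
        ⌊(s i - e) * J⌋₊ A) := by
    intro i e
    by_cases h : i < r ∧ 0 < e
    · obtain ⟨K, hK⟩ := hatt i h.1 e h.2
      exact ⟨K, fun _ _ => hK⟩
    · exact ⟨0, fun h1 h2 => absurd ⟨h1, h2⟩ h⟩
  choose Kf hKf using hKf
  obtain ⟨K, d, hKd⟩ := hier r Kf φ' hφ'0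
  refine ⟨K, d, fun i hi => ⟨(hKd i hi).1, ?_, (hKd i hi).2.2.trans (hφ1 _)⟩, ?_⟩
  · have h1 := (hKd i hi).2.2.trans (hφ2 _)
    linarith
  obtain ⟨Mt, hMt⟩ : ∃ Mt, Mt = (range r).sup K := ⟨_, rfl⟩
  have hMtQ : 0 < Cm r Mt * Q := mul_pos (hCm Mt) hQ0
  obtain ⟨ρ, hρ⟩ : ∃ ρ : ℝ, ρ = γ₀ / (4 * (Cm r Mt * Q)) := ⟨_, rfl⟩
  have hρ0 : 0 < ρ := by rw [hρ]; positivity
  have hρQ : Cm r Mt * Q * ρ = γ₀ / 4 := by
    rw [hρ, mul_div_assoc', div_eq_div_iff (by positivity) (by norm_num)]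
    ring
  have hall : Bas S (fun J F A => ∀ i < r, Lb F ((range (b i)).image c) (c i) (K i)
      ⌊d i * J⌋₊ J ⌊w * J⌋₊ ⌊min (rd i + d i) 1 * J⌋₊ ⌊(s i - d i) * J⌋₊ A) := by
    refine Bas.all r fun i hi => ?_
    have h1 := hKf i (d i) hi (hKd i hi).1
    rw [← (hKd i hi).2.1] at h1
    exact h1
  obtain ⟨J₁, hJ₁⟩ := exists_nat_ge ((m + 2) / χ)
  obtain ⟨J₂, hJ₂⟩ := exists_nat_ge (4 / χ)
  obtain ⟨J₃, hJ₃⟩ := exists_nat_ge (4 / δ)
  obtain ⟨J₄, hJ₄⟩ := exists_nat_ge (24 * (Cm r Mt * Q) / γ₀)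
  refine Bas.mono (J₁ + J₂ + J₃ + J₄) ((hfull ρ hρ0).and (hall.and (htm ρ hρ0))) ?_
  rintro J hJ F A ⟨hf, hlb, hA, htime⟩
  have hJ0 : (0 : ℝ) ≤ J := Nat.cast_nonneg J
  have hJ' : (J₁ : ℝ) + J₂ + J₃ + J₄ ≤ J := by exact_mod_cast hJ
  have hn1 : (0 : ℝ) ≤ J₁ := Nat.cast_nonneg _
  have hn2 : (0 : ℝ) ≤ J₂ := Nat.cast_nonneg _
  have hn3 : (0 : ℝ) ≤ J₃ := Nat.cast_nonneg _
  have hn4 : (0 : ℝ) ≤ J₄ := Nat.cast_nonneg _
  have k1 : (m : ℝ) + 2 ≤ χ * J := by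
    have : (m + 2) / χ ≤ J := by linarith
    rw [div_le_iff₀ hχ] at this
    linarith
  have k2 : 4 ≤ χ * J := by
    have : 4 / χ ≤ J := by linarith
    rw [div_le_iff₀ hχ] at this
    linarith
  have k3 : 4 ≤ δ * J := by
    have : 4 / δ ≤ J := by linarith
    rw [div_le_iff₀ hδ] at this
    linarith
  have k4 : 24 * (Cm r Mt * Q) ≤ γ₀ * J := by
    have : 24 * (Cm r Mt * Q) / γ₀ ≤ J := by linarith
    rw [div_le_iff₀ hγ0] at this
    linarith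
  -- one type of the labels
  choose V z z' G hG using hlb
  obtain ⟨L, hL⟩ : ∃ L, L = ⌊χ * (J : ℝ)⌋₊ := ⟨_, rfl⟩
  have hLle : (L : ℝ) ≤ χ * J := by
    rw [hL]
    exact Nat.floor_le (by positivity)
  have hLge : χ * J - 1 ≤ L := by
    rw [hL]
    have := Nat.lt_floor_add_one (χ * (J : ℝ))
    linarith
  have hd1 : ∀ i < r, d i ≤ δ / 4 := fun i hi => (hKd i hi).2.2.trans (hφ2 _)
  have hd2 : ∀ i < r, d i ≤ χ / 2 := fun i hi => (hKd i hi).2.2.trans (hφ3 _)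
  obtain ⟨θ, hθ⟩ : ∃ θ : ℕ → ℝ, θ = fun l => (|d l| + ρ) * J + 1 := ⟨_, rfl⟩
  obtain ⟨z₀, hz₀⟩ : ∃ z₀ : PtT F → (∀ i : Fin r, V i i.2), z₀ = fun y (i : Fin r) => z i i.2 y :=
    ⟨_, rfl⟩
  obtain ⟨z₀', hz₀'⟩ : ∃ z₀' : LnT F → (∀ i : Fin r, V i i.2), z₀' = fun y (i : Fin r) => z' i i.2 y :=
    ⟨_, rfl⟩
  obtain ⟨G₀, hG₀⟩ : ∃ G₀ : (∀ i : Fin r, V i i.2) → ℕ → MvPolynomial (Option (Fin m)) ℝ,
    G₀ = fun v i => if hi : i < r then G i hi (v ⟨i, hi⟩) else 0 := ⟨_, rfl⟩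
  have hG₀e : ∀ v i (hi : i < r), G₀ v i = G i hi (v ⟨i, hi⟩) := by
    intro v i hi
    rw [hG₀]
    exact dif_pos hi
  have hlab : ∀ i < r, LbOK F ((range (b i)).image c) (c i) (K i) ⌊d i * J⌋₊ J ⌊w * J⌋₊
      ⌊min (rd i + d i) 1 * J⌋₊ ⌊(s i - d i) * J⌋₊ A z₀ z₀' (fun v => G₀ v i) := by
    intro i hi
    have h1 := hG i hi
    have e1 : (fun v => G₀ v i) = fun v => G i hi (v ⟨i, hi⟩) := funext fun v => hG₀e v i hi
    rw [e1, hz₀, hz₀']
    refine ⟨fun v => h1.deg _, fun v => h1.dep _, fun ω hω => ?_, h1.pos, h1.vel, h1.lip⟩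
    funext j
    exact (hG j j.2).cls ω hω
  have hwJ : ⌊w * (J : ℝ)⌋₊ + L ≤ J := by
    have h1 : ((⌊w * (J : ℝ)⌋₊ + L : ℕ) : ℝ) ≤ J := by
      push_cast
      have := Nat.floor_le (show 0 ≤ w * (J : ℝ) by positivity)
      nlinarith
    exact_mod_cast h1
  have key := nat_fam (F := F) (A := A) (c := c) (b := b) (K := K)
    (e := fun i => ⌊d i * J⌋₊) (ρ := fun i => ⌊min (rd i + d i) 1 * (J : ℝ)⌋₊)
    (g := fun i => ⌊(s i - d i) * (J : ℝ)⌋₊) (M := fun l => (Finset.Ioo l r).sup K)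
    (w := ⌊w * (J : ℝ)⌋₊) (L := L) (Mt := Mt) (z := z₀) (z' := z₀') (G := G₀) (θ := θ)
    (θt := ρ * J) (γ := γ₀ * J) (e' := ⌊δ * (J : ℝ)⌋₊) hA hc hb hlab
    (fun v i hi => by rw [hG₀]; exact dif_neg (by omega))
    (fun i _ => Nat.floor_le_of_le (by
      calc min (rd i + d i) 1 * (J : ℝ) ≤ 1 * J :=
            mul_le_mul_of_nonneg_right (min_le_right _ _) hJ0
        _ = J := one_mul _)) hwJ ?_
    (fun l i h1 h2 => Finset.le_sup (f := K) (Finset.mem_Ioo.2 ⟨h1, h2⟩))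
    (fun i hi => by rw [hMt]; exact Finset.le_sup (f := K) (Finset.mem_range.2 hi))
    (fun l => by rw [hθ]; positivity) (by positivity) (htime L hwJ) ?_ ?_ ?_ ?_ ?_
  · obtain ⟨B, h1, h2, h3⟩ := key
    exact ⟨B, h1, h2, _, _, h3⟩
  · -- the room
    intro i hi l hl
    have hlr : l < r := (hl.trans_le (hb i)).trans hi
    have h1 := hsχ l hlr (hlt i hi l hl)
    have h2 := hd2 l hlr
    have h3 := (hKd l hlr).1
    have h4 : (⌊(s l - d l) * (J : ℝ)⌋₊ : ℝ) ≤ s l * J := by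
      rcases le_or_gt 0 ((s l - d l) * (J : ℝ)) with h5 | h5
      · refine (Nat.floor_le h5).trans ?_
        nlinarith
      · rw [Nat.floor_of_nonpos h5.le, Nat.cast_zero]
        exact mul_nonneg (hs0 l hlr) hJ0
    have h5 : (⌊d l * (J : ℝ)⌋₊ : ℝ) ≤ χ / 2 * J :=
      (Nat.floor_le (by positivity)).trans (mul_le_mul_of_nonneg_right h2 hJ0)
    have h6 : ((⌊(s l - d l) * (J : ℝ)⌋₊ + ⌊d l * (J : ℝ)⌋₊ + m + 2 + L : ℕ) : ℝ) ≤ J := by
      push_cast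
      nlinarith
    exact_mod_cast h6
  · -- fullness
    intro i hi l hl
    have hlr : l < r := (hl.trans_le (hb i)).trans hi
    have h1 := hf _ z₀ z₀' (fun ω hω => (hlab i hi).cls ω hω) i hi l hl
    refine le_trans ?_ h1
    rw [hθ]
    have h2 : (s l - d l) * (J : ℝ) < ⌊(s l - d l) * (J : ℝ)⌋₊ + 1 := Nat.lt_floor_add_one _
    have h3 := (hKd l hlr).1
    have h4 : |d l| = d l := abs_of_pos h3
    beta_reduce
    rw [h4]
    have h5 : ((J : ℝ) - ⌊(s l - d l) * (J : ℝ)⌋₊) * Real.log 2 ≤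
        (J - s l * J + d l * J + 1) * Real.log 2 :=
      mul_le_mul_of_nonneg_right (by linarith) hl0.le
    have h6 : (d l * J + 1) * Real.log 2 ≤ d l * J + 1 :=
      mul_le_of_le_one_right (by positivity) hl1
    have h7 : ρ * J * Real.log 2 ≤ ρ * J := mul_le_of_le_one_right (by positivity) hl1
    nlinarith
  · -- the losses of the coordinates
    intro i hi l hl
    have hlr : l < r := (hl.trans_le (hb i)).trans hi
    have h3 := (hKd l hlr).1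
    rw [← hQ, hθ]
    beta_reduce
    rw [abs_of_pos h3]
    have hM1 : Cm r ((Finset.Ioo l r).sup K) ≤ Cm r Mt := by
      refine Cm_mono ?_
      rw [hMt]
      refine Finset.sup_le fun x hx => Finset.le_sup (f := K) (Finset.mem_range.2 ?_)
      exact (Finset.mem_Ioo.1 hx).2
    have hC := hCm ((Finset.Ioo l r).sup K)
    have h4 : Cm r ((Finset.Ioo l r).sup K) * Q * d l ≤ γ₀ / 4 :=
      (mul_le_mul_of_nonneg_left (hKd l hlr).2.2 (by positivity)).trans (hφ4 _)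
    have h5 : Cm r ((Finset.Ioo l r).sup K) * Q * ρ ≤ γ₀ / 4 := by
      rw [← hρQ]
      exact mul_le_mul_of_nonneg_right (mul_le_mul_of_nonneg_right hM1 hQ0.le) hρ0.le
    have h6 : Cm r ((Finset.Ioo l r).sup K) * Q * 6 ≤ γ₀ * J / 4 := by
      have := mul_le_mul_of_nonneg_right hM1 hQ0.le
      linarith
    have h7 := mul_le_mul_of_nonneg_right h4 hJ0
    have h8 := mul_le_mul_of_nonneg_right h5 hJ0
    have e1 : Cm r ((Finset.Ioo l r).sup K) * ((d l + ρ) * J + 1 + 5) * Q =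
        Cm r ((Finset.Ioo l r).sup K) * Q * d l * J +
        Cm r ((Finset.Ioo l r).sup K) * Q * ρ * J + Cm r ((Finset.Ioo l r).sup K) * Q * 6 := by
      ring
    rw [e1]
    have : 0 ≤ γ₀ * J := by positivity
    linarith
  · -- the loss of the time
    rw [← hQ]
    have h5 := mul_le_mul_of_nonneg_right hρQ.le hJ0
    have e1 : Cm r Mt * (ρ * J + 1) * Q = Cm r Mt * Q * ρ * J + Cm r Mt * Q := by ring
    rw [e1]
    have : 0 ≤ γ₀ * J := by positivity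
    linarith
  · -- the room for the growth
    have h1 : γ₀ * J ≤ χ / 4 * J := mul_le_mul_of_nonneg_right hγχ hJ0
    have h2 : (χ * J - 1) * (1 / 2) ≤ L * Real.log 2 := by
      have h3 : 0 ≤ χ * J - 1 := by linarith
      exact mul_le_mul hLge hl2 (by norm_num) (Nat.cast_nonneg L)
    linarith
  · -- the gradient
    intro i hi
    have h1 : (⌊d i * (J : ℝ)⌋₊ : ℝ) ≤ δ / 4 * J :=
      (Nat.floor_le (mul_nonneg (hKd i hi).1.le hJ0)).trans
        (mul_le_mul_of_nonneg_right (hd1 i hi) hJ0)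
    have h2 : δ * (J : ℝ) < ⌊δ * (J : ℝ)⌋₊ + 1 := Nat.lt_floor_add_one _
    have h3 := mul_le_mul_of_nonneg_right hγδ hJ0
    have h4 : (⌊d i * (J : ℝ)⌋₊ : ℝ) * Real.log 2 ≤ δ / 4 * J * Real.log 2 :=
      mul_le_mul_of_nonneg_right h1 hl0.le
    have h5 : (δ * (J : ℝ) - 1) * Real.log 2 ≤ ⌊δ * (J : ℝ)⌋₊ * Real.log 2 :=
      mul_le_mul_of_nonneg_right (by linarith) hl0.le
    have h6 : δ * J * (1 / 2) ≤ δ * J * Real.log 2 :=
      mul_le_mul_of_nonneg_left hl2 (by positivity)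
    have e1 : (r : ℝ) * (γ₀ * J) = r * γ₀ * J := by ring
    beta_reduce
    rw [e1]
    nlinarith

/-- **Chains from closed labels and fullness**, for classes with full times. -/
theorem chn_of {S : PCl m} {C₀ : ℝ} (htm : TmC S C₀) {c : ℕ → Fin m} {r : ℕ}
    (hc : Set.InjOn c (Set.Iio r)) {w : ℝ} (hw0 : 0 ≤ w) (hw1 : w < 1) {s : ℕ → ℝ}
    {b : ℕ → ℕ} (hb : ∀ i, b i ≤ i) (hs0 : ∀ i < r, 0 ≤ s i)
    (hlt : ∀ i < r, ∀ l < b i, s l < 1)
    (hfull : ∀ ρ : ℝ, 0 < ρ → Bas S (fun J F A => ∀ (V : Type) (z : PtT F → V) (z' : LnT F → V),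
      (∀ ω, A ω → z (ptr F J ω) = z' (slam F ⌊w * J⌋₊ ω)) → ∀ i < r, ∀ l < b i,
      ((1 - s l) - ρ) * Real.log 2 * J ≤ CH (Pool.Agent.H49.Ent.cond F.p A True)
        (fun ω => F.X J ω (c l)) (fun ω => ((fun l' : Fin l => F.X J ω (c l')),
          z' (slam F ⌊w * J⌋₊ ω), F.W ω))))
    {rd : ℕ → ℝ} (hatt : ∀ i < r, ∀ e : ℝ, 0 < e → ∃ K : ℕ, Bas S (fun J F A =>
      Lb F ((range (b i)).image c) (c i) K ⌊e * J⌋₊ J ⌊w * J⌋₊ ⌊min (rd i + e) 1 * J⌋₊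
        ⌊(s i - e) * J⌋₊ A))
    {φ : ℕ → ℝ} (hφ : ∀ M, 0 < φ M) {δ : ℝ} (hδ : 0 < δ) :
    ∃ (K : ℕ → ℕ) (d : ℕ → ℝ), (∀ i < r, 0 < d i ∧ d i ≤ δ ∧ d i ≤ φ ((Finset.Ioo i r).sup K)) ∧
      Bas S (fun J F A => ∃ B : F.Ω → Prop, Sub B A ∧ Pe F.p A ≤ 2 * Pe F.p B ∧
        ChN F c r K ⌊w * J⌋₊ ⌊w * J⌋₊ ⌊δ * J⌋₊ (fun i => ⌊(s i - d i) * J⌋₊) B) :=
  chn_of' hc (TmC.wn htm w) hw0 hw1 hb hs0 hlt hfull hatt hφ hδ

end Pool.GRW
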