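import Pool.Agent.H71.GEN.Stm3

/-!
# Exactness (statements)

* `FTStmt m`: the positions of the families of a class have the entropy which is given by the
  thresholds of the closed labels. The families may have side information.
* `ExaStmt n`: in dimension `n + 1`, the coordinates different from `i₁` have this entropy, given
  an arbitrary closed label.
-/

set_option autoImplicit false

namespace Pool.GEN

open Finset Real MvPolynomial
open Pool.Agent.H49.Ent Pool.Agent.H32.Dense Pool.STK Pool.KA Pool.KSAT Pool.K2S Pool.PB Pool.S6C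
open Pool.FLF (Fam.sub)

variable {m n J : ℕ}

/-- The coordinates different from `i₁`, rounded. -/
noncomputable def vj (F : Fam n J) (i₁ : Fin n) (r : ℕ) (ω : F.Ω) : Fin n → ℤ :=
  Function.update (F.X r ω) i₁ 0

/-- **The facts about a class** of families with side information: the times are nearly uniform on
all events, the number of the points, spread fans. -/
structure ZC (S : PCl m) (C M : ℝ) : Prop where
  pos : ∀ (τ : ℝ) (J : ℕ) (F : Fam m J) (A : F.Ω → Prop), S.St τ J F A → 0 < Pe F.p A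
  tm : ∀ (τ : ℝ) (J : ℕ) (F : Fam m J) (A : F.Ω → Prop) (hA : 0 < Pe F.p A), 0 ≤ τ →
    S.St τ J F A → (Fam.sub F A hA).Tm (C * τ * J)
  cn : Bas S (fun J F A => ∀ k : ℕ, k ≤ J → (cnt F.p (ptr F k) A : ℝ) ≤ Real.exp (M * J))
  sp : ∀ g : ℝ, 0 < g → Bas S (fun J F A => ¬ PlU 0 (1 / 2 ^ ⌊g * J⌋₊) (Fam.pt F) F.d A)

/-- **(FT)** If the labels with `j` free coordinates, on the windows of length exponent `w`, have
precision at most `th j`, then the positions have entropy at least `∑ j, (1 - th j)`. -/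
def FTStmt (m : ℕ) : Prop :=
  ∀ (S : PCl m) (C M : ℝ), ZC S C M → ∀ (w : ℝ) (th : Fin m → ℝ), 0 < w →
    (∀ (j : Fin m) (I : Finset (Fin m)), I.card = (j : ℕ) → ∀ (K : ℕ) (h : ℝ), 0 < h →
      th j + h ≤ 1 → Bas S (fun J F A => ¬ GLab F I K J ⌊w * J⌋₊ ⌊(th j + h) * J⌋₊ A)) →
    ∀ ε : ℝ, 0 < ε → Bas S (fun J F A => ((∑ j, (1 - th j)) - ε) * Real.log 2 * J ≤
      CH (Pool.Agent.H49.Ent.cond F.p A True) (F.X J) F.W)

/-- **(EXA)** Exactness of the coordinates different from `i₁`, given an arbitrary closed label: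
labels on the windows `w`, thresholds on the windows `w₂`. -/
def ExaStmt (n : ℕ) : Prop :=
  ∀ (S : PCl (n + 1)) (M : ℝ), (∀ (τ : ℝ) (J : ℕ) (F : Fam (n + 1) J) (A : F.Ω → Prop),
      S.St τ J F A → F.Tr ∧ F.Tm (τ * J) ∧ F.Rb (τ * J) ∧ Real.exp (-(τ * J)) ≤ Pe F.p A) →
    (∀ g : ℝ, 0 < g → Bas S (fun J F A => ¬ PlU 0 (1 / 2 ^ ⌊g * J⌋₊) (Fam.pt F) F.d A)) →
    Bas S (fun J F A => ∀ k : ℕ, k ≤ J → (cnt F.p (ptr F k) A : ℝ) ≤ Real.exp (M * J)) →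
    ∀ (i₁ : Fin (n + 1)) (w w₂ p x : ℝ) (L : Fin n → ℝ), 0 < w → w < w₂ → w₂ ≤ 1 / 2 → 0 < x →
    w ≤ p → p ≤ 1 → (∀ j, 0 ≤ L j ∧ L j ≤ 1) →
    (∃ K : ℕ, Bas S (fun J F A => Lab F i₁ J K ⌊w * J⌋₊ ⌊w * J⌋₊ ⌊p * J⌋₊ A)) →
    (∀ (I : Finset (Fin (n + 1))), I.card = n → ∀ (K : ℕ), p + x ≤ 1 →
      Bas S (fun J F A => ¬ GLab F I K J ⌊w₂ * J⌋₊ ⌊(p + x) * J⌋₊ A)) →
    (∀ (j : Fin n) (I : Finset (Fin (n + 1))), I.card = (j : ℕ) → ∀ (K : ℕ) (h : ℝ), 0 < h →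
      L j + h ≤ 1 → Bas S (fun J F A => ¬ GLab F I K J ⌊w₂ * J⌋₊ ⌊(L j + h) * J⌋₊ A)) →
    Bas S (fun J F A => ∀ (κ : Type) (z : PtT F → κ) (z' : LnT F → κ),
      (∀ ω, A ω → z (ptr F J ω) = z' (slam F ⌊w * J⌋₊ ω)) →
      ((∑ j, (1 - L j)) - 4 * (n + 1) * x) * Real.log 2 * J ≤
        CH (Pool.Agent.H49.Ent.cond F.p A True) (vj F i₁ J)
          (fun ω => (z' (slam F ⌊w * J⌋₊ ω), F.W ω)))

end Pool.GEN
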