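import Pool.Agent.H45.EXA.Vst

/-!
# The sets of windows of the greedy orders

`Wv L ε`: the windows in `(0, 1)` at which the order `ε` is greedy and the numbers are continuous.
These sets are measurable (`wv_meas`), and the sets of the orders of a set of coordinates with an
active coordinate cover `(0, 1)` up to a countable set (`wv_cover`).
-/

set_option autoImplicit false

namespace Pool.GEN

open Finset Real MvPolynomial
open Pool.Agent.H49.Ent Pool.Agent.H32.Dense Pool.STK Pool.KA Pool.KSAT Pool.K2S Pool.PB Pool.S6C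

variable {m n J : ℕ}

/-- The windows at which the order is greedy and the numbers are continuous. -/
def Wv (L : Finset (Fin m) → Fin m → ℝ → ℝ → ℝ) (ε : Fin n → Fin m) : Set ℝ :=
  {w | 0 < w ∧ w < 1 ∧ Vgr L ε w ∧ Vct L ε w}

theorem wv_meas {S : PCl m} {L : Finset (Fin m) → Fin m → ℝ → ℝ → ℝ} (hL : LamW S L)
    (ε : Fin n → Fin m) : MeasurableSet (Wv L ε) := by
  have h1 : MeasurableSet {w | Vgr L ε w} := by
    have e1 : {w | Vgr L ε w} = ⋂ j : Fin n, ⋂ k : Fin n, ⋂ _ : j ≤ k,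
        {w | vs L ε w (j + 1) ≤ vn L ε j (ε k) w} := by
      ext w
      simp only [Set.mem_iInter, Set.mem_ofPred_eq]
      rfl
    rw [e1]
    refine MeasurableSet.iInter fun j => MeasurableSet.iInter fun k => MeasurableSet.iInter
      fun _ => ?_
    exact measurableSet_le (vs_mono hL ε (j + 1)).measurable (vn_mono hL ε j (ε k)).measurable
  have h2 : MeasurableSet {w | Vct L ε w} := by
    have e2 : {w | Vct L ε w} = {w | ¬ Vct L ε w}ᶜ := by
      ext w
      simp only [Set.mem_compl_iff, Set.mem_ofPred_eq, not_not]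
    rw [e2]
    exact (vct_ae hL ε).measurableSet.compl
  have e3 : Wv L ε = Set.Ioo 0 1 ∩ ({w | Vgr L ε w} ∩ {w | Vct L ε w}) := by
    ext w
    simp only [Wv, Set.mem_inter_iff, Set.mem_Ioo, Set.mem_ofPred_eq]
    tauto
  rw [e3]
  exact measurableSet_Ioo.inter (h1.inter h2)

/-- **A greedy order of the coordinates `φ` exists at every window**; it begins with the active
coordinate. -/
theorem vgr_ex {S : PCl m} {L : Finset (Fin m) → Fin m → ℝ → ℝ → ℝ} (hL : LamW S L)
    {φ : Fin n → Fin m} {κ : Fin n} {w : ℝ} (hw0 : 0 ≤ w)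
    (hw1 : w ≤ 1) (hκ : L ∅ (φ κ) w w = w) : ∃ σ : Equiv.Perm (Fin n), Vgr L (φ ∘ σ) w ∧
      ∀ j : Fin n, (j : ℕ) = 0 → σ j = κ := by
  classical
  obtain ⟨L', hL'⟩ : ∃ L' : Finset (Fin n) → Fin n → ℝ → ℝ,
    L' = fun I k r => L (I.image φ) (φ k) w (max r w) := ⟨_, rfl⟩
  obtain ⟨σ, s, hs, hmin, hmono, hfirst⟩ := order_exact L'
    (fun I k q => by rw [hL']; exact hw0.trans (hL.low _ _ _ _ hw1))
    (fun I I' k q q' hI hq => by
      rw [hL']
      exact hL.mono _ _ _ _ _ _ _ (Finset.image_subset_image hI) le_rfl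
        (max_le_max hq le_rfl)) κ
  have hbef : ∀ j : Fin n, (bef σ j).image φ = (Finset.Iio j).image (φ ∘ σ) := by
    intro j
    unfold bef
    rw [Finset.image_image]
    congr 1
    ext l
    simp
  have hsw : ∀ j, w ≤ s j := by
    intro j
    rw [hs, hL']
    exact hL.low _ _ _ _ hw1
  have hvs : ∀ i : ℕ, ∀ j : Fin n, (j : ℕ) = i →
      vs L (φ ∘ σ) w j = max (rad s 0 j) w ∧ vs L (φ ∘ σ) w (j + 1) = s j := by
    intro i
    induction i with
    | zero =>
      intro j hj
      have h1 : vs L (φ ∘ σ) w j = max (rad s 0 j) w := by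
        unfold rad
        rw [if_pos hj, max_eq_right hw0, hj]
        rfl
      refine ⟨h1, ?_⟩
      rw [vs_succ]
      unfold vn
      rw [h1, hs, hL', ← hbef]
      rfl
    | succ i ih =>
      intro j hj
      have hi : i < n := by omega
      have ih' := (ih ⟨i, hi⟩ rfl).2
      have h1 : vs L (φ ∘ σ) w j = max (rad s 0 j) w := by
        have e1 : rad s 0 j = s ⟨i, hi⟩ := by
          unfold rad
          rw [if_neg (by omega)]
          congr 1
          apply Fin.ext
          simp only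
          omega
        rw [e1, max_eq_left (hsw _), ← ih', hj]
      refine ⟨h1, ?_⟩
      rw [vs_succ]
      unfold vn
      rw [h1, hs, hL', ← hbef]
      rfl
  refine ⟨σ, ?_, hfirst ?_⟩
  · intro j k hjk
    rw [(hvs j j rfl).2]
    have hk : σ k ∉ bef σ j := by
      rw [mem_bef, Equiv.symm_apply_apply, not_lt]
      exact hjk
    refine (hmin j (σ k) hk).trans ?_
    unfold vn
    rw [(hvs j j rfl).1, hL', ← hbef]
    exact le_rfl
  · intro k
    rw [hL']
    simp only [Finset.image_empty, max_eq_right hw0]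
    rw [hκ]
    exact hL.low _ _ _ _ hw1

/-- **The sets of the orders cover the interval.** -/
theorem wv_cover {S : PCl m} {L : Finset (Fin m) → Fin m → ℝ → ℝ → ℝ} (hL : LamW S L)
    {φ : Fin n → Fin m} {κ : Fin n}
    (hκ : ∀ w : ℝ, 0 ≤ w → w < 1 → L ∅ (φ κ) w w = w) :
    ∃ D : Set ℝ, D.Countable ∧ ∀ w : ℝ, 0 < w → w < 1 → w ∉ D →
      ∃ σ : Equiv.Perm (Fin n), w ∈ Wv L (φ ∘ σ) ∧ ∀ j : Fin n, (j : ℕ) = 0 → σ j = κ := by
  refine ⟨⋃ σ : Equiv.Perm (Fin n), {w | ¬ Vct L (φ ∘ σ) w},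
    Set.countable_iUnion fun σ => vct_ae hL _, fun w hw0 hw1 hwD => ?_⟩
  obtain ⟨σ, h1, h2⟩ := vgr_ex hL hw0.le hw1.le (hκ w hw0.le hw1)
  refine ⟨σ, ⟨hw0, hw1, h1, ?_⟩, h2⟩
  by_contra hcon
  exact hwD (Set.mem_iUnion.2 ⟨σ, hcon⟩)

end Pool.GEN
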