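import Pool.Agent.H45.EXA.ExvA
import Pool.Agent.H2.GEN.ChS
import Pool.Agent.H34.GEN.DiaA

/-!
# No chain is better than the numbers of the closed labels

`lbp_of_chn`: a chain on natural boxes gives exact closed labels, without bounds for the gradients,
at every smaller radius. `chn_abs`: in a greedy order with exactness, no visible chain is better
than the numbers of the closed labels. `bet_le_vst`: the thresholds of the chains are at most the
numbers of the closed labels, if these are smaller than `1 - θ w`.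
-/

set_option autoImplicit false

namespace Pool.GRW

open Finset Real MvPolynomial
open Pool.Agent.H49.Ent Pool.Agent.H32.Dense Pool.STK Pool.BFL Pool.KA Pool.KSAT Pool.K2S Pool.PB
open Pool.GEN Pool.S6C Pool.CHT
open Pool.LBT (LSys Slo Tri ThrOf)
open Pool.GRD (LbP clo1 gr_cls)
open Pool.FLF (Fam.sub)

variable {m n J : ℕ}

/-- **Closed labels from chains**, at every smaller radius. -/
theorem lbp_of_chn (m r K : ℕ) : ∃ (C₁ : ℝ) (c₁ : ℕ), 1 ≤ C₁ ∧ 1 ≤ c₁ ∧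
    ∀ (J : ℕ) (F : Fam m J) (c : ℕ → Fin m) (a w e v u : ℕ) (g : ℕ → ℕ) (A : F.Ω → Prop)
      (θ : ℝ) (hA : 0 < Pe F.p A), Set.InjOn c (Set.Iio r) → w ≤ a → a + v ≤ J →
      (∀ i < r, e + g i + v + c₁ ≤ J) → 0 ≤ θ → (Fam.sub F A hA).Tm θ →
      C₁ * (θ + 1) ≤ ((J : ℝ) - w) * Real.log 2 → Real.exp (C₁ * (θ + 1)) ≤ 2 ^ u →
      ChN F c r (fun _ => K) a w e g A → ∀ i < r, r * u + 1 + c₁ ≤ g i + v →
      ∃ B : F.Ω → Prop, Sub B A ∧ Pe F.p A ≤ c₁ * Pe F.p B ∧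
        ∃ (V : Type) (z : PtT F → V) (z' : LnT F → V) (G : V → MvPolynomial (Option (Fin m)) ℝ),
        LbP F ((range i).image c) (c i) c₁ J (a + v) (g i + v - (r * u + 1 + c₁)) B z z' G := by
  classical
  obtain ⟨C₁, c₀, hC₁, hsl⟩ := ch_slope' m r (fun _ => max K 1) (fun _ => le_max_right _ _)
  obtain ⟨c', hc', hclo⟩ := clo1 r (max K 1)
  refine ⟨C₁, c₀ + 2 * c', hC₁, by omega, ?_⟩
  intro J F c a w e v u g A θ hA hc hwa haJ hvis hθ hTm h1 h2 hch i hi hgi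
  obtain ⟨G, H, hG⟩ := hch
  have hG' : ChOK F c r (fun _ => max K 1) a w e g A G H :=
    hG.mono le_rfl (fun _ => le_max_left _ _) le_rfl le_rfl
  have hinj : Pool.STAT.CLO.Inj c r := fun l hl l' hl' h => hc hl hl' h
  rcases Nat.lt_or_ge v (r * u + 1) with hv | hv
  · obtain ⟨z, z', P, B, hBA, hPe, -, -, -, -, hlb⟩ := hclo m J F c (fun _ => max K 1) a w e g A G H
      hwa (by omega) hinj (fun _ _ => le_rfl) hG'
    have h3 := (hlb i hi (by omega)).win (Nat.le_add_right a v) haJ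
    refine ⟨B, hBA, hPe.trans ?_, Pool.STAT.CLO.LV, _, _, _, h3.mono (Finset.Subset.refl _)
      (by omega) (by omega)⟩
    refine mul_le_mul_of_nonneg_right ?_ (Pe_nonneg F.isLaw _)
    exact_mod_cast (by omega : c' ≤ c₀ + 2 * c')
  · obtain ⟨B₁, hB₁, hP₁, hG₁, -⟩ := hsl J F c a w e v u g A G H θ hA hc hwa (by omega)
      (fun l hl => by have := hvis l hl; omega) hv hθ hTm h1 h2 hG'
    obtain ⟨z, z', P, B, hBA, hPe, -, -, -, -, hlb⟩ := hclo m J F c (fun _ => max K 1) (a + v) w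
      (e + c₀) _ B₁ _ _ (by omega) haJ hinj (fun _ _ => le_rfl) hG₁
    have hiu : (i + 1) * u ≤ r * u := Nat.mul_le_mul_right u (by omega)
    have h3 := hlb i hi (by
      show c' ≤ g i + v - (i + 1) * u
      omega)
    refine ⟨B, fun ω hω => hB₁ ω (hBA ω hω), ?_, Pool.STAT.CLO.LV, _, _, _,
      h3.mono (Finset.Subset.refl _) (by omega) ?_⟩
    · have h4 : Pe F.p A ≤ 2 * (c' * Pe F.p B) := by linarith
      refine h4.trans ?_
      have h5 : (2 * c' : ℝ) * Pe F.p B ≤ ((c₀ + 2 * c' : ℕ) : ℝ) * Pe F.p B := by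
        refine mul_le_mul_of_nonneg_right ?_ (Pe_nonneg F.isLaw _)
        push_cast
        have : (0 : ℝ) ≤ c₀ := Nat.cast_nonneg _
        linarith
      linarith
    · show g i + v - (r * u + 1 + (c₀ + 2 * c')) ≤ g i + v - (i + 1) * u - c'
      omega

/-- Statements about all events of positive relative probability. -/
theorem bas_part {S : PCl m} {Φ : Stat m} (h : Bas S Φ) {c : ℝ} (hc : 0 < c) :
    Bas S (fun J F A => ∀ B : F.Ω → Prop, Sub B A → Pe F.p A ≤ c * Pe F.p B → Φ J F B) := by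
  obtain ⟨τ, hτ, J₁, h⟩ := h
  obtain ⟨J₂, hJ₂⟩ := exists_nat_ge (Real.log c / (τ / 2))
  refine ⟨τ / 2, half_pos hτ, max J₁ J₂, fun J hJ F A hA B hB hP =>
    h J ((le_max_left _ _).trans hJ) F B ?_⟩
  have h2 : Real.exp (-(τ / 2 * J)) * Pe F.p A ≤ Pe F.p B := by
    have h3 : (J₂ : ℝ) ≤ J := by exact_mod_cast (le_max_right _ _).trans hJ
    have h4 : Real.log c ≤ τ / 2 * J := by
      have h5 := hJ₂.trans h3
      rw [div_le_iff₀ (by linarith)] at h5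
      linarith
    have h6 : Real.exp (-(τ / 2 * J)) ≤ 1 / c := by
      calc Real.exp (-(τ / 2 * J)) ≤ Real.exp (-Real.log c) := Real.exp_le_exp.2 (by linarith)
        _ = 1 / c := by rw [Real.exp_neg, Real.exp_log hc, one_div]
    calc Real.exp (-(τ / 2 * J)) * Pe F.p A ≤ 1 / c * (c * Pe F.p B) :=
          mul_le_mul h6 hP (Pe_nonneg F.isLaw A) (by positivity)
      _ = Pe F.p B := by field_simp
  have h1 := S.res (half_pos hτ).le hA hB h2
  rwa [add_halves] at h1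

/-- The time deficits of the members. -/
theorem tms_bas {S : PCl m} {C₀ : ℝ} (h : TmC S C₀) {ψ : ℝ} (hψ : 0 < ψ) :
    Bas S (fun J F A => ∃ hA : 0 < Pe F.p A, (Fam.sub F A hA).Tm (ψ * J)) := by
  refine (tmc_bas h hψ).mono 0 fun J _ F A hh => ⟨hh.1, ?_⟩
  unfold Fam.Tm
  have h1 : CH (Fam.sub F A hh.1).p (Fam.sub F A hh.1).T
      (fun ω => ((Fam.sub F A hh.1).l ω, (Fam.sub F A hh.1).Z ω)) =
      CH (Pool.Agent.H49.Ent.cond F.p A True) F.T (fun ω => (F.l ω, F.Z ω)) :=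
    Pool.FLF.sub_CH F.T (fun ω => (F.l ω, F.Z ω))
  rw [h1]
  exact hh.2

/-- **No visible chain is better than the numbers of the closed labels.** -/
theorem chn_abs {S : PCl m} {C₀ : ℝ} (hC₀ : 0 ≤ C₀) (htm : TmC S C₀)
    {L : Finset (Fin m) → Fin m → ℝ → ℝ → ℝ}
    (hL : LamW S L) {ε : Fin n → Fin m} (hε : Function.Injective ε) {c : ℕ → Fin m}
    (hcε : ∀ i : Fin n, c i = ε i) {w : ℝ} (hw : w ∈ Wv L ε) (hex : VExa S L ε w)
    {i : ℕ} (hi : i < n) (K : ℕ) {h : ℝ} (hh : 0 < h) (hh1 : vs L ε w (i + 1) + h ≤ 1) :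
    Bas S (fun J F A => ∀ (a w₀ e : ℕ) (g : ℕ → ℕ), w₀ ≤ a → a ≤ ⌊w * J⌋₊ →
      (∀ l ≤ i, (e : ℝ) + g l + (((⌊w * J⌋₊ - a : ℕ) : ℝ)) + h * J ≤ J) →
      (vs L ε w (i + 1) + h) * J ≤ g i + (((⌊w * J⌋₊ - a : ℕ) : ℝ)) →
      ¬ ChN F c (i + 1) (fun _ => K) a w₀ e g A) := by
  classical
  obtain ⟨hw0, hw1, hg, hct⟩ := hw
  have hl2 : 0 < Real.log 2 := Real.log_pos one_lt_two
  have hs1 : ∀ l, vs L ε w l ≤ 1 := vs_le1 hL ε hw1.le
  have hs0 : ∀ l, w ≤ vs L ε w l := le_vs hL ε hw1.le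
  have hmono := hg.mono hL hw1.le
  have hsi : vs L ε w i ≤ vs L ε w (i + 1) := hmono (Nat.le_succ i)
  have hpos : Bas S (fun _ F A => 0 < Pe F.p A) := (tmc_bas htm one_pos).mono 0
    fun _ _ _ _ h => h.1
  have hposA : ∀ (τ : ℝ) (J : ℕ) (F : Fam m J) (A : F.Ω → Prop), S.St τ J F A → 0 < Pe F.p A :=
    fun τ J F A hA => (htm (max τ 1) J F A (lt_of_lt_of_le one_pos (le_max_right _ _))
      (S.mono (le_max_left _ _) hA)).1
  -- absence
  obtain ⟨dd, hdd0, hdd1, habs⟩ := vst_abs hL ε hw1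
  obtain ⟨l, hl⟩ := exists_nat_gt (2 / h)
  have hl' : 1 / ((l : ℝ) + 1) ≤ h / 2 := by
    rw [div_lt_iff₀ hh] at hl
    rw [div_le_iff₀ (by positivity)]
    nlinarith
  obtain ⟨d, hd⟩ : ∃ d, d = dd l := ⟨_, rfl⟩
  have hd0 : 0 < d := by rw [hd]; exact hdd0 l
  have hd1 : w + d < 1 := by rw [hd]; exact hdd1 l
  have hvi1 : vs L ε w i < 1 := by linarith
  obtain ⟨η, hη⟩ : ∃ η, η = min (min (d / 4) ((1 - vs L ε w i) / 2)) (h / 8) := ⟨_, rfl⟩
  have hη0 : 0 < η := by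
    rw [hη]
    exact lt_min (lt_min (by linarith) (by linarith)) (by linarith)
  have hηd : η ≤ d / 4 := by rw [hη]; exact (min_le_left _ _).trans (min_le_left _ _)
  have hηv : η ≤ (1 - vs L ε w i) / 2 := by rw [hη]; exact (min_le_left _ _).trans (min_le_right _ _)
  have hηh : η ≤ h / 8 := by rw [hη]; exact min_le_right _ _
  obtain ⟨u₀, hu₀⟩ : ∃ u₀, u₀ = vs L ε w i + η := ⟨_, rfl⟩
  have hu1 : u₀ < 1 := by rw [hu₀]; linarith
  have hwu : w ≤ u₀ := by rw [hu₀]; linarith [hs0 i]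
  -- the attained label
  obtain ⟨K₂, hK₂⟩ := vst_att1 hL hw0 hw1 hg hct i ⟨i, hi⟩ rfl ⟨i, hi⟩ le_rfl η hη0
  -- fullness
  obtain ⟨εi, hεi⟩ : ∃ εi : Fin i → Fin m, εi = fun j : Fin i => c j := ⟨_, rfl⟩
  have hfull := Pool.EXW.full_cls (S := S) (ε := εi) (w := w) (u := u₀)
    (s := fun j => vs L ε w (j + 1)) (r := fun j => vs L ε w j)
    (fun τ J F A _ hA => hposA τ J F A hA) (hw0.le.trans hwu)
    (fun j => by
      have : vs L ε w (j + 1) ≤ vs L ε w i := hmono (by omega)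
      rw [hu₀]
      linarith)
    (fun j => by
      have : vs L ε w j ≤ vs L ε w i := hmono (by omega)
      rw [hu₀]
      linarith)
    (fun ρ hρ => by
      rw [hεi]
      exact vst_ini hpos hL hcε hw0 hw1 hg hct hex hi.le hρ)
    (fun e he => by
      obtain ⟨K₃, hK₃⟩ := vst_att hL hw0 hw1 hg hct he
      refine ⟨K₃, fun j => ?_⟩
      have h1 := hK₃ ⟨j, by omega⟩ ⟨j, by omega⟩ le_rfl
      have h2 : (Iio (⟨j, by omega⟩ : Fin n)).image ε = (Iio j).image εi := by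
        rw [img_eq hcε, hεi]
        exact (img_eq (n := i) (ε := fun j : Fin i => c j) (c := c) (fun _ => rfl) j).symm
      rw [h2, ← hcε ⟨j, by omega⟩] at h1
      rw [hεi] at h1 ⊢
      exact h1)
  have hIm : (univ : Finset (Fin i)).image εi = (range i).image c := by
    ext x
    simp only [mem_image, mem_univ, true_and, mem_range, hεi]
    constructor
    · rintro ⟨j, rfl⟩
      exact ⟨j, j.2, rfl⟩
    · rintro ⟨j, hj, rfl⟩
      exact ⟨⟨j, hj⟩, rfl⟩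
  have hIm' : (Iio (⟨i, hi⟩ : Fin n)).image ε = (range i).image c := img_eq hcε ⟨i, hi⟩
  obtain ⟨C₁, c₁, hC₁, hc₁, hlbp⟩ := lbp_of_chn m (i + 1) K
  obtain ⟨K', hK'⟩ : ∃ K', K' = max c₁ K₂ := ⟨_, rfl⟩
  have hgr := gr_cls hC₀ hposA (Pool.GEN.N34.tm_sub34 hC₀ htm) (univ.image εi) (c i) hwu
    (hw0.le.trans hwu) hu1 hfull K' hη0
  have hno := habs l K' ⟨i, hi⟩ (by simp only; linarith)
  have hno4 := bas_part hno (c := 4) (by norm_num)
  have hlb4 : Bas S (fun J F A => (Lb F ((Iio (⟨i, hi⟩ : Fin n)).image ε) (ε ⟨i, hi⟩) K₂ ⌊η * J⌋₊ J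
      ⌊w * J⌋₊ ⌊min (vs L ε w i + η) 1 * J⌋₊ ⌊(vs L ε w (i + 1) - η) * J⌋₊ A)) := hK₂
  have hpart := bas_part (hgr.and (hno4.and hlb4)) (c := (c₁ : ℝ)) (by exact_mod_cast hc₁)
  -- the time
  obtain ⟨ψ, hψ⟩ : ∃ ψ : ℝ, ψ = min ((1 - w) * Real.log 2 / (2 * C₁))
      (η * Real.log 2 / (2 * C₁ * ((i : ℝ) + 1))) := ⟨_, rfl⟩
  have hC₁0 : 0 < C₁ := by linarith
  have hw1' : 0 < 1 - w := by linarith
  have hψ0 : 0 < ψ := by rw [hψ]; exact lt_min (by positivity) (by positivity)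
  have hψ1 : C₁ * ψ ≤ (1 - w) * Real.log 2 / 2 := by
    have h1 : ψ ≤ (1 - w) * Real.log 2 / (2 * C₁) := by rw [hψ]; exact min_le_left _ _
    have h2 : C₁ * ((1 - w) * Real.log 2 / (2 * C₁)) = (1 - w) * Real.log 2 / 2 := by
      field_simp
    rw [← h2]
    exact mul_le_mul_of_nonneg_left h1 hC₁0.le
  have hψ2 : ((i : ℝ) + 1) * (C₁ * ψ) ≤ η * Real.log 2 / 2 := by
    have h1 : ψ ≤ η * Real.log 2 / (2 * C₁ * ((i : ℝ) + 1)) := by rw [hψ]; exact min_le_right _ _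
    have h2 : ((i : ℝ) + 1) * (C₁ * (η * Real.log 2 / (2 * C₁ * ((i : ℝ) + 1)))) =
        η * Real.log 2 / 2 := by
      field_simp
    rw [← h2]
    exact mul_le_mul_of_nonneg_left (mul_le_mul_of_nonneg_left h1 hC₁0.le) (by positivity)
  obtain ⟨D, hD⟩ : ∃ D : ℝ, D = ((i : ℝ) + 1) * (C₁ / Real.log 2 + 1) + c₁ + 4 := ⟨_, rfl⟩
  obtain ⟨J₁, hJ₁⟩ := exists_nat_ge (D / (η / 2))
  obtain ⟨J₂, hJ₂⟩ := exists_nat_ge (2 * C₁ / ((1 - w) * Real.log 2))
  obtain ⟨J₃, hJ₃⟩ := exists_nat_ge ((c₁ : ℝ) / h)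
  refine (hpart.and (tms_bas htm hψ0)).mono (max (max J₁ J₂) J₃) ?_
  rintro J hJ F A ⟨hall, hA, hTm⟩ a w₀ e g hwa haw hvis hgi hch
  have hJ0 : (0 : ℝ) ≤ J := Nat.cast_nonneg J
  have hJ1 : D ≤ η / 2 * J := by
    have h1 : (J₁ : ℝ) ≤ J := by
      exact_mod_cast ((le_max_left _ _).trans (le_max_left _ _)).trans hJ
    have h2 := hJ₁.trans h1
    rw [div_le_iff₀ (by linarith)] at h2
    linarith
  have hJ2 : 2 * C₁ ≤ (1 - w) * Real.log 2 * J := by
    have h1 : (J₂ : ℝ) ≤ J := by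
      exact_mod_cast ((le_max_right _ _).trans (le_max_left _ _)).trans hJ
    have h2 := hJ₂.trans h1
    rw [div_le_iff₀ (by positivity)] at h2
    linarith
  have hJ3 : (c₁ : ℝ) ≤ h * J := by
    have h1 : (J₃ : ℝ) ≤ J := by exact_mod_cast (le_max_right _ _).trans hJ
    have h2 := hJ₃.trans h1
    rw [div_le_iff₀ hh] at h2
    linarith
  obtain ⟨v, hv⟩ : ∃ v, v = ⌊w * J⌋₊ - a := ⟨_, rfl⟩
  rw [← hv] at hvis hgi
  have hwJ : ⌊w * J⌋₊ ≤ J := fl_le hw1.le J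
  obtain ⟨u, hu⟩ : ∃ u : ℕ, u = ⌈C₁ * (ψ * J + 1) / Real.log 2⌉₊ := ⟨_, rfl⟩
  have hu1' : Real.exp (C₁ * (ψ * J + 1)) ≤ 2 ^ u := by
    have e1 : C₁ * (ψ * J + 1) / Real.log 2 ≤ u := by rw [hu]; exact Nat.le_ceil _
    rw [div_le_iff₀ hl2] at e1
    have e2 : (2 : ℝ) ^ u = Real.exp (u * Real.log 2) := by
      rw [mul_comm, Real.exp_mul, Real.exp_log (by norm_num), Real.rpow_natCast]
    rw [e2]
    exact Real.exp_le_exp.2 e1
  have hu2 : (((i + 1 : ℕ) : ℝ)) * u ≤ η / 2 * J + ((i : ℝ) + 1) * (C₁ / Real.log 2 + 1) := by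
    have e1 : (u : ℝ) < C₁ * (ψ * J + 1) / Real.log 2 + 1 := by
      rw [hu]
      exact Nat.ceil_lt_add_one (by positivity)
    have e2 : C₁ * (ψ * J + 1) / Real.log 2 + 1 = C₁ * ψ * J / Real.log 2 + (C₁ / Real.log 2 + 1) := by
      ring
    rw [e2] at e1
    have e3 : ((i : ℝ) + 1) * (C₁ * ψ * J / Real.log 2) ≤ η / 2 * J := by
      have e4 : ((i : ℝ) + 1) * (C₁ * ψ * J / Real.log 2) =
          (((i : ℝ) + 1) * (C₁ * ψ)) * J / Real.log 2 := by ring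
      rw [e4, div_le_iff₀ hl2]
      have := mul_le_mul_of_nonneg_right hψ2 hJ0
      nlinarith
    push_cast
    have e5 := mul_le_mul_of_nonneg_left e1.le (show (0 : ℝ) ≤ (i : ℝ) + 1 by positivity)
    nlinarith
  have hlog : 0 < C₁ / Real.log 2 := by positivity
  have hloss : (((i + 1) * u + 1 + c₁ : ℕ) : ℝ) ≤ η * J - 3 := by
    push_cast
    push_cast at hu2
    linarith
  -- the label
  obtain ⟨B, hBA, hPe, V, z, z', G, hG⟩ := hlbp J F c a w₀ e v u g A (ψ * J) hA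
    (fun x hx y hy hxy => by
      have hx' : x < n := lt_of_lt_of_le hx hi
      have hy' : y < n := lt_of_lt_of_le hy hi
      have e1 := hcε ⟨x, hx'⟩
      have e2 := hcε ⟨y, hy'⟩
      simp only at e1 e2
      rw [e1, e2] at hxy
      exact congrArg Fin.val (hε hxy))
    hwa (by omega)
    (fun l hl => by
      have h1 := hvis l (by omega)
      have h2 : ((e + g l + v + c₁ : ℕ) : ℝ) ≤ J := by
        push_cast
        linarith
      exact_mod_cast h2)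
    (by positivity) hTm
    (by
      have e1 : (w₀ : ℝ) ≤ w * J := by
        have e2 : (w₀ : ℝ) ≤ ⌊w * J⌋₊ := by exact_mod_cast hwa.trans haw
        exact e2.trans (Nat.floor_le (by positivity))
      have e3 : (1 - w) * J * Real.log 2 ≤ ((J : ℝ) - w₀) * Real.log 2 :=
        mul_le_mul_of_nonneg_right (by linarith) hl2.le
      have e4 := mul_le_mul_of_nonneg_right hψ1 hJ0
      nlinarith)
    hu1' hch i (Nat.lt_succ_self i) (by
      have e1 : (((i + 1) * u + 1 + c₁ : ℕ) : ℝ) ≤ ((g i + v : ℕ) : ℝ) := by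
        push_cast
        push_cast at hloss
        have e2 : η * J ≤ (vs L ε w (i + 1) + h) * J := by
          refine mul_le_mul_of_nonneg_right ?_ hJ0
          linarith [hs0 (i + 1)]
        linarith
      exact_mod_cast e1)
  obtain ⟨P₁, hP₁⟩ : ∃ P₁ : ℕ, P₁ = g i + v - ((i + 1) * u + 1 + c₁) := ⟨_, rfl⟩
  rw [← hP₁, show a + v = ⌊w * J⌋₊ by omega] at hG
  have hP₁' : (vs L ε w (i + 1) + h - η) * J + 3 ≤ P₁ := by
    have e1 : (((g i + v : ℕ) : ℝ)) - (((i + 1) * u + 1 + c₁ : ℕ) : ℝ) ≤ P₁ := by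
      rw [sub_le_iff_le_add, hP₁]
      exact_mod_cast (by omega : g i + v ≤ g i + v - ((i + 1) * u + 1 + c₁) +
        ((i + 1) * u + 1 + c₁))
    push_cast at e1 hloss
    linarith
  obtain ⟨hgr', hno', V₂, z₂, z₂', G₂, hG₂⟩ := hall B hBA hPe
  obtain ⟨P', hP'⟩ : ∃ P' : ℕ, P' = ⌊(vs L ε w (i + 1) + 1 / ((l : ℝ) + 1)) * J⌋₊ := ⟨_, rfl⟩
  obtain ⟨B', hB', hPB', hG'⟩ := hgr' P₁ P' ⌊d * J⌋₊ ⌊η * J⌋₊ ⌊min (vs L ε w i + η) 1 * J⌋₊
    ⌊(vs L ε w (i + 1) - η) * J⌋₊ V V₂ z z' G z₂ z₂' G₂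
    (hG.mono (by rw [hIm]) (by rw [hK']; exact le_max_left _ _) le_rfl)
    (by
      have e1 := hG₂.mono (le_of_eq hIm') (show K₂ ≤ K' by rw [hK']; exact le_max_right _ _) le_rfl
        le_rfl le_rfl
      rw [← hcε ⟨i, hi⟩] at e1
      exact e1.mono (by rw [hIm]) le_rfl le_rfl le_rfl le_rfl)
    (by
      rw [hu₀]
      exact Nat.floor_le_floor (mul_le_mul_of_nonneg_right (min_le_left _ _) hJ0))
    (by
      have e1 : (P' : ℝ) ≤ (vs L ε w (i + 1) + 1 / ((l : ℝ) + 1)) * J := by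
        rw [hP']
        refine Nat.floor_le (mul_nonneg ?_ hJ0)
        have : (0 : ℝ) < 1 / ((l : ℝ) + 1) := by positivity
        linarith [hs0 (i + 1)]
      have e2 : (vs L ε w (i + 1) + 1 / ((l : ℝ) + 1)) * J + η * J ≤
          (vs L ε w (i + 1) + h - η) * J := by
        rw [← add_mul]
        exact mul_le_mul_of_nonneg_right (by linarith) hJ0
      linarith)
    (by
      have e1 := Nat.zero_le ⌊d * J⌋₊
      have e2 : (0 : ℝ) ≤ (⌊d * J⌋₊ : ℕ) := by exact_mod_cast e1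
      have e3 : u₀ * J + η * J ≤ (vs L ε w (i + 1) + h - η) * J := by
        rw [← add_mul, hu₀]
        exact mul_le_mul_of_nonneg_right (by linarith) hJ0
      linarith)
    (by
      have e1 := Nat.lt_floor_add_one ((vs L ε w (i + 1) - η) * (J : ℝ))
      have e2 := Nat.lt_floor_add_one (d * (J : ℝ))
      have e3 : u₀ * J + η * J + 3 * η * J ≤ (vs L ε w (i + 1) - η) * J + d * J + 2 * η * J := by
        have e4 : (u₀ + η + 3 * η) * J ≤ ((vs L ε w (i + 1) - η) + d + 2 * η) * J := by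
          rw [hu₀]
          exact mul_le_mul_of_nonneg_right (by linarith) hJ0
        linarith
      have e5 : (4 : ℝ) ≤ η / 2 * J := by
        have : 0 ≤ ((i : ℝ) + 1) * (C₁ / Real.log 2 + 1) := by positivity
        have h0 : (0 : ℝ) ≤ c₁ := Nat.cast_nonneg _
        linarith
      nlinarith)
    (by
      have e1 := Nat.floor_le (show 0 ≤ η * (J : ℝ) by positivity)
      have e2 := Nat.lt_floor_add_one (d * (J : ℝ))
      have e3 : η * J + η * J + 2 * (η * J) ≤ d * J := by nlinarith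
      have e5 : (4 : ℝ) ≤ η / 2 * J := by
        have : 0 ≤ ((i : ℝ) + 1) * (C₁ / Real.log 2 + 1) := by positivity
        have h0 : (0 : ℝ) ≤ c₁ := Nat.cast_nonneg _
        linarith
      nlinarith)
  have hw2 : w + dd l ≤ 1 := by rw [← hd]; exact hd1.le
  have e1 : ⌊u₀ * J⌋₊ ≤ ⌊(vs L ε w i + dd l) * J⌋₊ := by
    refine Nat.floor_le_floor (mul_le_mul_of_nonneg_right ?_ hJ0)
    rw [hu₀, ← hd]
    linarith
  have e2 : Lb F ((univ : Finset (Fin i)).image εi) (c i) K' ⌊d * J⌋₊ J ⌊w * J⌋₊ ⌊u₀ * J⌋₊ P' B' :=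
    ⟨V, z, z', G, hG'⟩
  rw [hIm, ← hIm', hcε ⟨i, hi⟩, hP', hd] at e2
  refine hno' B' hB' (by linarith) ?_
  exact e2.mono (Finset.Subset.refl _) le_rfl le_rfl le_rfl
    (Nat.floor_le_floor (mul_le_mul_of_nonneg_right (by linarith [hdd0 l]) hJ0)) (fl_le hw2 J) e1
    le_rfl

end Pool.GRW
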