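import Pool.Agent.H45.EXA.LbZ

/-!
# A label of one coordinate of the family is a fixed graph in the zoom

If the label is a function of the side information `g` of the zoom, then it is a label of the
zoom on the windows of length `1`, whose value is the side information.
-/

set_option autoImplicit false

namespace Pool.GEN

open Finset Real MvPolynomial
open Pool.Agent.H49.Ent Pool.Agent.H32.Dense Pool.STK Pool.KA Pool.KSAT Pool.K2S Pool.PB Pool.S6C
open Pool.FLF (Fam.sub)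

variable {m n J : ℕ} {κ : Type}

/-- The derivatives depend on the same variables. -/
theorem dep_pd {σ : Type} [Fintype σ] (G : MvPolynomial σ ℝ) (D : σ → Prop)
    (h : ∀ b b' : σ → ℝ, (∀ o, D o → b o = b' o) → eval b G = eval b' G) (o : σ)
    (b b' : σ → ℝ) (hb : ∀ o, D o → b o = b' o) :
    eval b (pderiv o G) = eval b' (pderiv o G) := by
  classical
  obtain ⟨g, hg⟩ : ∃ g : σ → MvPolynomial σ ℝ, g = fun o => if D o then X o else 0 := ⟨_, rfl⟩
  have hge : ∀ (b : σ → ℝ), (fun i => eval b (g i)) = fun i => if D i then b i else 0 := by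
    intro b
    funext i
    rw [hg]
    simp only
    split_ifs
    · rw [eval_X]
    · rw [map_zero]
  have e1 : aeval g G = G := by
    refine MvPolynomial.funext fun b => ?_
    rw [eval_aevalσ, hge]
    refine h _ _ fun o ho => ?_
    simp only [if_pos ho]
  have e2 : ∀ b : σ → ℝ, eval b (pderiv o G) =
      ∑ i, eval (fun i => if D i then b i else 0) (pderiv i G) * eval b (pderiv o (g i)) := by
    intro b
    conv_lhs => rw [← e1, pd_aeval, map_sum]
    refine Finset.sum_congr rfl fun i _ => ?_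
    rw [map_mul, eval_aevalσ, hge]
  have e3 : ∀ i (b : σ → ℝ), eval b (pderiv o (g i)) = if D i ∧ o = i then 1 else 0 := by
    intro i b
    rw [hg]
    simp only
    by_cases hD : D i
    · rw [if_pos hD, pderiv_X]
      by_cases hoi : o = i
      · subst hoi
        rw [Pi.single_eq_same, map_one, if_pos ⟨hD, rfl⟩]
      · rw [Pi.single_eq_of_ne (Ne.symm hoi), map_zero, if_neg (fun h => hoi h.2)]
    · rw [if_neg hD, map_zero, map_zero, if_neg (fun h => hD h.1)]
  rw [e2 b, e2 b']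
  refine Finset.sum_congr rfl fun i _ => ?_
  have e4 : (fun i => if D i then b i else 0) = fun i => if D i then b' i else 0 := by
    funext i
    split_ifs with hi
    · exact hb i hi
    · rfl
  rw [e3, e3, e4]

open Classical in
/-- The time and the coordinates of the family, in the coordinates of the zoom. -/
noncomputable def ds (w : ℕ) (a : ℝ) (cv vv : Fin m → ℝ) (e : Fin n → Fin m) :
    Option (Fin m) → MvPolynomial (Option (Fin n)) ℝ
  | none => C (1 / 2 ^ w) * (X none + C a)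
  | some k => if h : ∃ i, e i = k then
      C (1 / 2 ^ w) * (X (some h.choose) + C (cv k) + C (vv k) * X none) else 0

/-- The coordinate `k` of the zoom, by a label `G` of the family. -/
noncomputable def dq (w : ℕ) (a : ℝ) (cv vv : Fin m → ℝ) (e : Fin n → Fin m) (k : Fin m)
    (G : MvPolynomial (Option (Fin m)) ℝ) : MvPolynomial (Option (Fin n)) ℝ :=
  C (2 ^ w) * aeval (ds w a cv vv e) G - C (cv k) - C (vv k) * X none

section

variable {w : ℕ} {a : ℝ} {cv vv : Fin m → ℝ} {e : Fin n → Fin m}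

theorem ds_none : ds w a cv vv e none = C (1 / 2 ^ w) * (X none + C a) := rfl

open Classical in
theorem ds_some (k : Fin m) : ds w a cv vv e (some k) = if h : ∃ i, e i = k then
    C (1 / 2 ^ w) * (X (some h.choose) + C (cv k) + C (vv k) * X none) else 0 := rfl

theorem ds_e (he : Function.Injective e) (i : Fin n) : ds w a cv vv e (some (e i)) =
    C (1 / 2 ^ w) * (X (some i) + C (cv (e i)) + C (vv (e i)) * X none) := by
  classical
  rw [ds_some]
  have h : ∃ i', e i' = e i := ⟨i, rfl⟩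
  rw [dif_pos h, he h.choose_spec]

theorem eval_ds_none (b : Option (Fin n) → ℝ) :
    eval b (ds w a cv vv e none) = 1 / 2 ^ w * (b none + a) := by
  rw [ds_none, map_mul, map_add, eval_C, eval_C, eval_X]

theorem eval_ds_e (he : Function.Injective e) (b : Option (Fin n) → ℝ) (i : Fin n) :
    eval b (ds w a cv vv e (some (e i))) =
      1 / 2 ^ w * (b (some i) + cv (e i) + vv (e i) * b none) := by
  rw [ds_e he, map_mul, map_add, map_add, map_mul, eval_C, eval_C, eval_C, eval_X, eval_X]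

theorem eval_dq (b : Option (Fin n) → ℝ) (k : Fin m) (G : MvPolynomial (Option (Fin m)) ℝ) :
    eval b (dq w a cv vv e k G) = 2 ^ w * eval (fun o => eval b (ds w a cv vv e o)) G -
      cv k - vv k * b none := by
  unfold dq
  rw [map_sub, map_sub, map_mul, map_mul, eval_C, eval_C, eval_C, eval_X, eval_aevalσ]

theorem deg_ds (o : Option (Fin m)) : (ds w a cv vv e o).totalDegree ≤ 1 := by
  classical
  have key : ∀ (o : Option (Fin n)) (c c' : ℝ), (C (1 / 2 ^ w) * (X o + C c + C c' * X none) :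
      MvPolynomial (Option (Fin n)) ℝ).totalDegree ≤ 1 := by
    intro o c c'
    refine (totalDegree_mul _ _).trans ?_
    rw [totalDegree_C, zero_add]
    refine (totalDegree_add _ _).trans (max_le ((totalDegree_add _ _).trans (max_le ?_ ?_)) ?_)
    · rw [totalDegree_X]
    · rw [totalDegree_C]
      exact Nat.zero_le _
    · refine (totalDegree_mul _ _).trans ?_
      rw [totalDegree_C, totalDegree_X]
  rcases o with _ | k
  · rw [ds_none]
    have h1 := key none a 0
    rwa [C_0, zero_mul, add_zero] at h1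
  · rw [ds_some]
    split_ifs
    · exact key _ _ _
    · rw [totalDegree_zero]
      exact Nat.zero_le _

theorem deg_dq {K : ℕ} {k : Fin m} {G : MvPolynomial (Option (Fin m)) ℝ}
    (hG : G.totalDegree ≤ K) : (dq w a cv vv e k G).totalDegree ≤ K + 1 := by
  unfold dq
  refine (totalDegree_sub _ _).trans (max_le ((totalDegree_sub _ _).trans (max_le ?_ ?_)) ?_)
  · refine (totalDegree_mul _ _).trans ?_
    rw [totalDegree_C, zero_add]
    have := totalDegree_aevalσ (g := ds w a cv vv e) (fun o => deg_ds o) hG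
    omega
  · rw [totalDegree_C]
    exact Nat.zero_le _
  · refine (totalDegree_mul _ _).trans ?_
    rw [totalDegree_C, totalDegree_X]
    omega

theorem pd_ds_abs (hv : ∀ i, |vv i| ≤ 1) (b : Option (Fin n) → ℝ) (o : Option (Fin n))
    (k : Option (Fin m)) : |eval b (pderiv o (ds w a cv vv e k))| ≤ 1 / 2 ^ w := by
  classical
  have p0 : (0 : ℝ) < 1 / 2 ^ w := by positivity
  have hX : ∀ o' : Option (Fin n), eval b (pderiv o (X o' : MvPolynomial (Option (Fin n)) ℝ)) =
      if o = o' then 1 else 0 := by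
    intro o'
    rw [pderiv_X]
    by_cases ho : o = o'
    · subst ho
      rw [Pi.single_eq_same, map_one, if_pos rfl]
    · rw [Pi.single_eq_of_ne (Ne.symm ho), map_zero, if_neg ho]
  rcases k with _ | k
  · rw [ds_none, pderiv_C_mul, map_add, pderiv_C, add_zero, map_mul, eval_C, hX, abs_mul,
      abs_of_pos p0]
    split_ifs
    · rw [abs_one, mul_one]
    · rw [abs_zero, mul_zero]
      exact p0.le
  · rw [ds_some]
    split_ifs with h
    · rw [pderiv_C_mul, map_add, map_add, pderiv_C, pderiv_C_mul, add_zero, map_mul, map_add,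
        map_mul, eval_C, eval_C, hX, hX, abs_mul, abs_of_pos p0]
      refine (mul_le_mul_of_nonneg_left (?_ : _ ≤ (1 : ℝ)) p0.le).trans (le_of_eq (mul_one _))
      by_cases h1 : o = none
      · rw [h1, if_neg (by simp), if_pos rfl, zero_add, mul_one]
        exact hv k
      · rw [if_neg h1, mul_zero, add_zero]
        split_ifs
        · rw [abs_one]
        · rw [abs_zero]
          exact zero_le_one
    · rw [map_zero, map_zero, abs_zero]
      exact p0.le

/-- The slopes. -/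
theorem pd_dq {Cn : ℝ} (hv : ∀ i, |vv i| ≤ 1) (b : Option (Fin n) → ℝ) (k : Fin m)
    {G : MvPolynomial (Option (Fin m)) ℝ}
    (hG : ∀ o, |eval (fun o => eval b (ds w a cv vv e o)) (pderiv o G)| ≤ Cn)
    (o : Option (Fin n)) : |eval b (pderiv o (dq w a cv vv e k G))| ≤ (m + 1) * Cn + 1 := by
  classical
  have p0 : (0 : ℝ) < 2 ^ w := by positivity
  unfold dq
  have e1 : pderiv o (C (2 ^ w) * aeval (ds w a cv vv e) G - C (cv k) - C (vv k) * X none) =
      C (2 ^ w) * pderiv o (aeval (ds w a cv vv e) G) - C (vv k) * pderiv o (X none) := by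
    rw [map_sub, map_sub, pderiv_C_mul, pderiv_C, sub_zero, pderiv_C_mul]
  rw [e1, map_sub, map_mul, map_mul, eval_C, eval_C, pd_aeval, map_sum]
  have h1 : |∑ o', eval b (aeval (ds w a cv vv e) (pderiv o' G) *
      pderiv o (ds w a cv vv e o'))| ≤ (m + 1) * Cn * (1 / 2 ^ w) := by
    refine (Finset.abs_sum_le_sum_abs _ _).trans ?_
    have h2 : ∀ o' ∈ (Finset.univ : Finset (Option (Fin m))), |eval b (aeval (ds w a cv vv e)
        (pderiv o' G) * pderiv o (ds w a cv vv e o'))| ≤ Cn * (1 / 2 ^ w) := by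
      intro o' _
      rw [map_mul, eval_aevalσ, abs_mul]
      exact mul_le_mul (hG o') (pd_ds_abs hv b o o') (abs_nonneg _)
        ((abs_nonneg _).trans (hG o'))
    refine (Finset.sum_le_sum h2).trans (le_of_eq ?_)
    rw [Finset.sum_const, Finset.card_univ, Fintype.card_option, Fintype.card_fin, nsmul_eq_mul]
    push_cast
    ring
  have h3 : |vv k * eval b (pderiv o (X none : MvPolynomial (Option (Fin n)) ℝ))| ≤ 1 := by
    rw [abs_mul]
    have h4 := hv k
    have h5 := abs_nonneg (vv k)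
    have h6 : |eval b (pderiv o (X none : MvPolynomial (Option (Fin n)) ℝ))| ≤ 1 := by
      rw [pderiv_X]
      by_cases ho : o = none
      · subst ho
        rw [Pi.single_eq_same, map_one, abs_one]
      · rw [Pi.single_eq_of_ne (Ne.symm ho), map_zero, abs_zero]
        exact zero_le_one
    have h7 := abs_nonneg (eval b (pderiv o (X none : MvPolynomial (Option (Fin n)) ℝ)))
    nlinarith
  have h8 : |2 ^ w * ∑ o', eval b (aeval (ds w a cv vv e) (pderiv o' G) *
      pderiv o (ds w a cv vv e o'))| ≤ (m + 1) * Cn := by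
    rw [abs_mul, abs_of_pos p0]
    calc _ ≤ 2 ^ w * ((m + 1) * Cn * (1 / 2 ^ w)) := mul_le_mul_of_nonneg_left h1 p0.le
      _ = _ := by field_simp
  exact (abs_sub _ _).trans (add_le_add h8 h3)

end

/-- The constants of the substitution: the ball, the slopes and the position. -/
theorem dwn_pos {F : Fam m J} {w J' ρ ρ' P P₁ e₀ c₀ : ℕ} (hc₀ : 4 * (m : ℝ) + 9 ≤ 2 ^ c₀)
    (hρ : ρ + 2 ≤ w + ρ') (hρJ : ρ + 3 ≤ w + J') (hP : w + P₁ ≤ P) (hP₁ : P₁ + e₀ ≤ J')
    {ω : F.Ω} {e : Fin n → Fin m} (he : Function.Injective e) {i : Fin n} {I' : Finset (Fin n)}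
    {G : MvPolynomial (Option (Fin m)) ℝ} {zb : Option (Fin n) → ℝ}
    (hx : ∀ k, |zb (some k) - (2 ^ w * F.x ω (e k) - cl F w ω (e k) - tb F w ω * vl F ω (e k))| ≤
      3 / 2 ^ J')
    (ht : |zb none - tb F w ω| ≤ 1 / 2 ^ J')
    (hG : |F.x ω (e i) - eval (bt F ω) G| ≤ 1 / 2 ^ P)
    (hdep : ∀ b b' : Option (Fin m) → ℝ, b none = b' none →
      (∀ k ∈ I'.image e, b (some k) = b' (some k)) → eval b G = eval b' G)
    (hl : ∀ b : Option (Fin m) → ℝ, (∀ o, |b o - bt F ω o| ≤ 1 / 2 ^ ρ) →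
      ∀ o, |eval b (pderiv o G)| ≤ 2 ^ e₀) :
    (∀ b : Option (Fin n) → ℝ, (∀ o, |b o - zb o| ≤ 1 / 2 ^ ρ') → ∀ o,
      |eval b (pderiv o (dq w (F.T1 w ω) (fun i => cl F w ω i) (fun i => vl F ω i) e (e i) G))| ≤
        2 ^ (e₀ + c₀)) ∧
    |zb (some i) - eval zb (dq w (F.T1 w ω) (fun i => cl F w ω i) (fun i => vl F ω i) e (e i)
      G)| ≤ (4 * m + 9) / 2 ^ P₁ := by
  classical
  have pw : (0 : ℝ) < 2 ^ w := by positivity
  have pr : (0 : ℝ) < 2 ^ ρ := by positivity
  have pr' : (0 : ℝ) < 2 ^ ρ' := by positivity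
  have pJ : (0 : ℝ) < 2 ^ J' := by positivity
  have pe : (0 : ℝ) < 2 ^ e₀ := by positivity
  have pP : (0 : ℝ) < 2 ^ P₁ := by positivity
  have hm : (0 : ℝ) ≤ m := Nat.cast_nonneg m
  obtain ⟨S, hS⟩ : ∃ S, S = ds w (F.T1 w ω : ℝ) (fun i => (cl F w ω i : ℝ))
    (fun i => (vl F ω i : ℝ)) e := ⟨_, rfl⟩
  have hv : ∀ i, |(fun i => (vl F ω i : ℝ)) i| ≤ 1 := by
    intro i
    have h1 := vl_near F ω i
    have h2 : (-1 : ℝ) ≤ vl F ω i := by exact_mod_cast h1.1
    have h3 : (vl F ω i : ℝ) ≤ 1 := by exact_mod_cast h1.2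
    exact abs_le.2 ⟨h2, h3⟩
  -- the substitution at the base point
  have hSz : ∀ o, (o = none ∨ ∃ k, o = some (e k)) →
      |eval zb (S o) - bt F ω o| ≤ 1 / 2 ^ w * (4 / 2 ^ J') := by
    rintro o (rfl | ⟨k, rfl⟩)
    · rw [hS, eval_ds_none]
      have e1 : 1 / 2 ^ w * (zb none + (F.T1 w ω : ℝ)) - bt F ω none =
          1 / 2 ^ w * (zb none - tb F w ω) := by
        change _ - F.t ω = _
        unfold tb
        field_simp
        ring
      rw [e1, abs_mul, abs_of_pos (by positivity : (0 : ℝ) < 1 / 2 ^ w)]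
      refine mul_le_mul_of_nonneg_left (ht.trans ?_) (by positivity)
      exact div_le_div_of_nonneg_right (by norm_num) pJ.le
    · rw [hS, eval_ds_e he]
      have e1 : 1 / 2 ^ w * (zb (some k) + (cl F w ω (e k) : ℝ) + (vl F ω (e k) : ℝ) * zb none) -
          bt F ω (some (e k)) = 1 / 2 ^ w * ((zb (some k) - (2 ^ w * F.x ω (e k) -
          cl F w ω (e k) - tb F w ω * vl F ω (e k))) + vl F ω (e k) * (zb none - tb F w ω)) := by
        change _ - F.x ω (e k) = _
        field_simp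
        ring
      rw [e1, abs_mul, abs_of_pos (by positivity : (0 : ℝ) < 1 / 2 ^ w)]
      refine mul_le_mul_of_nonneg_left ((abs_add_le _ _).trans ?_) (by positivity)
      have h1 : |(vl F ω (e k) : ℝ) * (zb none - tb F w ω)| ≤ 1 / 2 ^ J' := by
        rw [abs_mul]
        calc _ ≤ 1 * (1 / 2 ^ J') := mul_le_mul (hv (e k)) ht (abs_nonneg _) zero_le_one
          _ = _ := one_mul _
      have h2 := add_le_add (hx k) h1
      refine h2.trans (le_of_eq ?_)
      ring
  -- the substitution near the base point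
  have hSb : ∀ b : Option (Fin n) → ℝ, ∀ δ : ℝ, (∀ o, |b o - zb o| ≤ δ) → ∀ o,
      (o = none ∨ ∃ k, o = some (e k)) → |eval b (S o) - eval zb (S o)| ≤
        1 / 2 ^ w * (2 * δ) := by
    intro b δ hb o ho
    have hδ : 0 ≤ δ := (abs_nonneg _).trans (hb none)
    rcases ho with rfl | ⟨k, rfl⟩
    · rw [hS, eval_ds_none, eval_ds_none]
      have e1 : 1 / 2 ^ w * (b none + (F.T1 w ω : ℝ)) - 1 / 2 ^ w * (zb none + (F.T1 w ω : ℝ)) =
          1 / 2 ^ w * (b none - zb none) := by ring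
      rw [e1, abs_mul, abs_of_pos (by positivity : (0 : ℝ) < 1 / 2 ^ w)]
      refine mul_le_mul_of_nonneg_left ((hb none).trans ?_) (by positivity)
      linarith
    · rw [hS, eval_ds_e he, eval_ds_e he]
      have e1 : 1 / 2 ^ w * (b (some k) + (cl F w ω (e k) : ℝ) + (vl F ω (e k) : ℝ) * b none) -
          1 / 2 ^ w * (zb (some k) + (cl F w ω (e k) : ℝ) + (vl F ω (e k) : ℝ) * zb none) =
          1 / 2 ^ w * ((b (some k) - zb (some k)) + vl F ω (e k) * (b none - zb none)) := by ring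
      rw [e1, abs_mul, abs_of_pos (by positivity : (0 : ℝ) < 1 / 2 ^ w)]
      refine mul_le_mul_of_nonneg_left ((abs_add_le _ _).trans ?_) (by positivity)
      have h1 : |(vl F ω (e k) : ℝ) * (b none - zb none)| ≤ δ := by
        rw [abs_mul]
        calc _ ≤ 1 * δ := mul_le_mul (hv (e k)) (hb none) (abs_nonneg _) zero_le_one
          _ = _ := one_mul _
      linarith [hb (some k)]
  have h4J : 1 / 2 ^ w * ((4 : ℝ) / 2 ^ J') ≤ 1 / 2 * (1 / 2 ^ ρ) := by
    have h1 : (2 : ℝ) ^ ρ * 8 ≤ 2 ^ w * 2 ^ J' := by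
      calc (2 : ℝ) ^ ρ * 8 = 2 ^ (ρ + 3) := by rw [pow_add]; norm_num
        _ ≤ 2 ^ (w + J') := pow_le_pow_right₀ one_le_two hρJ
        _ = _ := pow_add _ _ _
    have e1 : 1 / 2 ^ w * ((4 : ℝ) / 2 ^ J') = 4 / (2 ^ w * 2 ^ J') := by field_simp
    have e2 : 1 / 2 * ((1 : ℝ) / 2 ^ ρ) = 1 / (2 * 2 ^ ρ) := by field_simp
    rw [e1, e2, div_le_div_iff₀ (by positivity) (by positivity)]
    linarith
  have h2ρ : 1 / 2 ^ w * (2 * ((1 : ℝ) / 2 ^ ρ')) ≤ 1 / 2 * (1 / 2 ^ ρ) := by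
    have h1 : (2 : ℝ) ^ ρ * 4 ≤ 2 ^ w * 2 ^ ρ' := by
      calc (2 : ℝ) ^ ρ * 4 = 2 ^ (ρ + 2) := by rw [pow_add]; norm_num
        _ ≤ 2 ^ (w + ρ') := pow_le_pow_right₀ one_le_two hρ
        _ = _ := pow_add _ _ _
    have e1 : 1 / 2 ^ w * (2 * ((1 : ℝ) / 2 ^ ρ')) = 2 / (2 ^ w * 2 ^ ρ') := by field_simp
    have e2 : 1 / 2 * ((1 : ℝ) / 2 ^ ρ) = 1 / (2 * 2 ^ ρ) := by field_simp
    rw [e1, e2, div_le_div_iff₀ (by positivity) (by positivity)]
    linarith
  -- the dependence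
  obtain ⟨Dp, hDp⟩ : ∃ Dp : Option (Fin m) → Prop, Dp = fun o => o = none ∨
    ∃ k ∈ I'.image e, o = some k := ⟨_, rfl⟩
  have hDp' : ∀ o, Dp o → (o = none ∨ ∃ k, o = some (e k)) := by
    intro o ho
    rw [hDp] at ho
    rcases ho with h1 | ⟨k, hk, h1⟩
    · exact Or.inl h1
    · obtain ⟨k', -, hk'⟩ := Finset.mem_image.1 hk
      exact Or.inr ⟨k', by rw [h1, hk']⟩
  have hdep1 : ∀ b b' : Option (Fin m) → ℝ, (∀ o, Dp o → b o = b' o) → eval b G = eval b' G := by
    intro b b' hb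
    refine hdep b b' (hb none (by rw [hDp]; exact Or.inl rfl)) fun k hk => hb (some k) ?_
    rw [hDp]
    exact Or.inr ⟨k, hk, rfl⟩
  have hdep2 := dep_pd G Dp hdep1
  -- the slopes of `G` near the base point
  have hsl : ∀ b : Option (Fin n) → ℝ, (∀ o, |b o - zb o| ≤ 1 / 2 ^ ρ') → ∀ o,
      |eval (fun o => eval b (S o)) (pderiv o G)| ≤ 2 ^ e₀ := by
    intro b hb o
    obtain ⟨b', hb'⟩ : ∃ b' : Option (Fin m) → ℝ, b' = fun o => if Dp o then eval b (S o) else
      bt F ω o := ⟨_, rfl⟩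
    rw [hdep2 o _ b' (by
      intro o' ho'
      rw [hb']
      simp only [if_pos ho'])]
    refine hl b' (fun o' => ?_) o
    rw [hb']
    simp only
    split_ifs with ho'
    · have h1 := hSb b _ hb o' (hDp' o' ho')
      have h2 := hSz o' (hDp' o' ho')
      have e3 : eval b (S o') - bt F ω o' = (eval b (S o') - eval zb (S o')) +
          (eval zb (S o') - bt F ω o') := by ring
      rw [e3]
      refine (abs_add_le _ _).trans ((add_le_add (h1.trans h2ρ) (h2.trans h4J)).trans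
        (le_of_eq ?_))
      ring
    · rw [sub_self, abs_zero]
      positivity
  refine ⟨fun b hb o => ?_, ?_⟩
  · have h1 := pd_dq (w := w) (a := (F.T1 w ω : ℝ)) (cv := fun i => (cl F w ω i : ℝ))
      (vv := fun i => (vl F ω i : ℝ)) (e := e) (Cn := 2 ^ e₀) hv b (e i) (G := G)
      (fun o' => by
        rw [← hS]
        exact hsl b hb o') o
    refine h1.trans ?_
    rw [pow_add]
    have h2 : (1 : ℝ) ≤ 2 ^ e₀ := one_le_pow₀ one_le_two
    have h3 := mul_le_mul_of_nonneg_left hc₀ pe.le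
    have h4 : (m : ℝ) * 1 ≤ m * 2 ^ e₀ := mul_le_mul_of_nonneg_left h2 hm
    linarith
  · -- the position
    obtain ⟨b', hb'⟩ : ∃ b' : Option (Fin m) → ℝ, b' = fun o => if Dp o then eval zb (S o) else
      bt F ω o := ⟨_, rfl⟩
    have hbd : ∀ o, |b' o - bt F ω o| ≤ 1 / 2 ^ w * (4 / 2 ^ J') := by
      intro o
      rw [hb']
      simp only
      split_ifs with ho
      · exact hSz o (hDp' o ho)
      · rw [sub_self, abs_zero]
        positivity
    have e0 : eval (fun o => eval zb (S o)) G = eval b' G := by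
      refine hdep1 _ _ fun o ho => ?_
      rw [hb']
      simp only [if_pos ho]
    have h1 : |eval b' G - eval (bt F ω) G| ≤ 2 ^ e₀ * ((m + 1) * (1 / 2 ^ w * (4 / 2 ^ J'))) := by
      have h2 := mvσ G (bt F ω) b' (2 ^ e₀) (fun y hy o => by
        refine hl y (fun o' => (hy o').trans ((hbd o').trans (h4J.trans ?_))) o
        have : (0 : ℝ) ≤ 1 / 2 ^ ρ := by positivity
        linarith)
      refine h2.trans (mul_le_mul_of_nonneg_left ?_ pe.le)
      calc ∑ o, |b' o - bt F ω o| ≤ ∑ _o : Option (Fin m), 1 / 2 ^ w * (4 / 2 ^ J') :=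
            Finset.sum_le_sum fun o _ => hbd o
        _ = (m + 1) * (1 / 2 ^ w * (4 / 2 ^ J')) := by
            rw [Finset.sum_const, Finset.card_univ, Fintype.card_option, Fintype.card_fin,
              nsmul_eq_mul]
            push_cast
            ring
    have e1 : zb (some i) - eval zb (dq w (F.T1 w ω) (fun i => cl F w ω i)
        (fun i => vl F ω i) e (e i) G) =
        (zb (some i) - (2 ^ w * F.x ω (e i) - cl F w ω (e i) - tb F w ω * vl F ω (e i))) +
        2 ^ w * (F.x ω (e i) - eval (bt F ω) G) - 2 ^ w * (eval b' G - eval (bt F ω) G) +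
        vl F ω (e i) * (zb none - tb F w ω) := by
      rw [eval_dq, ← hS, e0]
      ring
    have h3 := hx i
    have h4 : |2 ^ w * (F.x ω (e i) - eval (bt F ω) G)| ≤ 1 / 2 ^ P₁ := by
      rw [abs_mul, abs_of_pos pw]
      refine (mul_le_mul_of_nonneg_left hG pw.le).trans ?_
      rw [mul_one_div, div_le_div_iff₀ (by positivity) pP, one_mul, ← pow_add]
      exact pow_le_pow_right₀ one_le_two hP
    have h5 : |2 ^ w * (eval b' G - eval (bt F ω) G)| ≤ 4 * ((m + 1) * (1 / 2 ^ P₁)) := by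
      rw [abs_mul, abs_of_pos pw]
      refine (mul_le_mul_of_nonneg_left h1 pw.le).trans ?_
      have e2 : 2 ^ w * (2 ^ e₀ * ((m + 1) * (1 / 2 ^ w * (4 / 2 ^ J')))) =
          4 * ((m + 1) * (2 ^ e₀ * ((1 : ℝ) / 2 ^ J'))) := by field_simp
      rw [e2]
      refine mul_le_mul_of_nonneg_left (mul_le_mul_of_nonneg_left ?_ (by positivity))
        (by norm_num)
      rw [mul_one_div, div_le_div_iff₀ pJ pP, one_mul, ← pow_add]
      exact pow_le_pow_right₀ one_le_two (by omega)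
    have h6 : |(vl F ω (e i) : ℝ) * (zb none - tb F w ω)| ≤ 1 / 2 ^ J' := by
      rw [abs_mul]
      calc _ ≤ 1 * (1 / 2 ^ J') := mul_le_mul (hv (e i)) ht (abs_nonneg _) zero_le_one
        _ = _ := one_mul _
    have h7 : (1 : ℝ) / 2 ^ J' ≤ 1 / 2 ^ P₁ := inv_mono (by omega)
    have e8 : (3 : ℝ) / 2 ^ J' = 3 * (1 / 2 ^ J') := by ring
    have e9 : (4 * (m : ℝ) + 9) / 2 ^ P₁ = (4 * m + 9) * (1 / 2 ^ P₁) := by ring
    rw [e8] at h3
    rw [e1, e9]
    rw [abs_le] at h3 h4 h5 h6 ⊢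
    constructor <;> linarith [h3.1, h3.2, h4.1, h4.2, h5.1, h5.2, h6.1, h6.2]

/-- The type of the side information of the zoom. -/
abbrev ZzT (m : ℕ) (κ ζ : Type) : Type := ((ℕ × κ) × ((Fin m → ℤ) × (Fin m → ℤ))) × ζ

/-- **A label of the family is a fixed graph in the zoom.** -/
theorem lb_dwn (m n K : ℕ) : ∃ (C : ℝ) (c₀ : ℕ), 1 ≤ C ∧ ∀ (J : ℕ) (F : Fam m J) (w J' : ℕ)
    (h : w + J' ≤ J) (κ : Type) (g : F.Ω → κ) (e : Fin n → Fin m), Function.Injective e →
    ∀ (I' : Finset (Fin n)) (i : Fin n) (e₀ ρ ρ' P P₁ : ℕ) (V : Type) (z : PtT F → V)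
    (z' : LnT F → V) (G : V → MvPolynomial (Option (Fin m)) ℝ) (B : F.Ω → Prop),
    LbOK F (I'.image e) (e i) K e₀ J w ρ P B z z' G → ∀ (φ : κ → V),
    (∀ ω, B ω → z' (slam F w ω) = φ (g ω)) → ρ + 2 ≤ w + ρ' → ρ + 3 ≤ w + J' → w + P₁ ≤ P →
    P₁ + e₀ ≤ J' → ∀ (θ : ℝ) (l : ℕ) (hB : 0 < Pe F.p B), 0 ≤ θ → C * (θ + 1) ≤ l →
    (l : ℝ) ≤ J' * Real.log 2 → l ≤ P₁ → (Fam.sub (zf F w J' h g e) B hB).Tm θ →
    ∃ B' : F.Ω → Prop, Sub B' B ∧ Pe F.p B / 2 ≤ Pe F.p B' ∧
      ∃ G' : ZzT m κ F.ζ → MvPolynomial (Option (Fin n)) ℝ,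
        LbOK (zf F w J' h g e) I' i (K + 1) (e₀ + c₀) J' 0 ρ' (P₁ - l) B'
          (fun y => y.2.2) (fun s => s.2.1) G' := by
  classical
  have hm0 : (0 : ℝ) ≤ m := Nat.cast_nonneg m
  obtain ⟨C₂, hC₂, hvel⟩ := vel_of_pos n (K + 1)
  obtain ⟨D₀, hD₀⟩ : ∃ D₀ : ℝ, D₀ = 4 * m + 9 := ⟨_, rfl⟩
  have hD1 : 1 ≤ D₀ := by rw [hD₀]; linarith
  obtain ⟨c₀, hc₀⟩ := pow_unbounded_of_one_lt (4 * (m : ℝ) + 9) (one_lt_two : (1 : ℝ) < 2)
  have hl2 : 0 < Real.log 2 := Real.log_pos (by norm_num)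
  have hl1 : Real.log 2 ≤ 1 := by
    have := Real.log_two_lt_d9
    linarith
  have hlD : 0 ≤ Real.log D₀ := Real.log_nonneg hD1
  obtain ⟨C, hC⟩ : ∃ C : ℝ, C = (C₂ + Real.log D₀) / Real.log 2 := ⟨_, rfl⟩
  have hC2 : C₂ ≤ C := by
    rw [hC, le_div_iff₀ hl2]
    nlinarith
  refine ⟨C, c₀, hC₂.trans hC2, ?_⟩
  intro J F w J' h κ g e hinj I' i e₀ ρ ρ' P P₁ V z z' G B hlab φ hφ hρ hρJ hP hP₁ θ l hB hθ hCl
    hlJ hlP hTm
  obtain ⟨G', hG'⟩ : ∃ G' : ZzT m κ F.ζ → MvPolynomial (Option (Fin n)) ℝ, G' = fun v =>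
      dq w (v.1.1.1 : ℝ) (fun i => (v.1.2.1 i : ℝ)) (fun i => (v.1.2.2 i : ℝ)) e (e i)
        (G (φ v.1.1.2)) := ⟨_, rfl⟩
  have hG'Y : ∀ ω, B ω → G' (lb F w g ω) = dq w (F.T1 w ω : ℝ) (fun i => (cl F w ω i : ℝ))
      (fun i => (vl F ω i : ℝ)) e (e i) (G (z' (slam F w ω))) := by
    intro ω hω
    rw [hφ ω hω, hG']
    rfl
  have hdeg : ∀ v, (G' v).totalDegree ≤ K + 1 := by
    intro v
    rw [hG']
    exact deg_dq (hlab.deg _)
  have hcomp := fun ω (hω : B ω) => dwn_pos (F := F) (n := n) (w := w) (J' := J') (ρ := ρ)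
    (ρ' := ρ') (P := P) (P₁ := P₁) (e₀ := e₀) (c₀ := c₀) hc₀.le hρ hρJ hP hP₁ (e := e) hinj
    (i := i) (I' := I') (G := G (z' (slam F w ω))) (zb := bt (zf F w J' h g e) ω) (ω := ω)
    (fun i => zf_x F h g e ω i) (by
      have h1 := zf_t F h g e ω
      have e1 : bt (zf F w J' h g e) ω none = (zf F w J' h g e).t ω := rfl
      rw [e1, abs_le]
      have : (0 : ℝ) ≤ 1 / 2 ^ J' := by positivity
      constructor <;> linarith [h1.1, h1.2]) (hlab.pos ω hω) (hlab.dep _) (hlab.lip ω hω)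
  have hpos : ∀ ω, B ω → |(zf F w J' h g e).x ω i - eval (bt (zf F w J' h g e) ω)
      (G' (lb F w g ω))| ≤ D₀ / 2 ^ P₁ := by
    intro ω hω
    rw [hG'Y ω hω, hD₀]
    exact (hcomp ω hω).2
  -- the velocities
  obtain ⟨B₃, hB3, hP3, hB3v⟩ := hvel J' (zf F w J' h g e) B hB 0
    (fun σ j => if j = i then G' σ.2.1 else X (some j))
    (D₀ / 2 ^ P₁) θ (Nat.zero_le _) (fun σ j => by
      split_ifs
      · exact hdeg _
      · rw [totalDegree_X]
        omega) (by positivity) hθ hTm (by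
      have h1 : C₂ * (θ + 1) ≤ C * (θ + 1) := mul_le_mul_of_nonneg_right hC2 (by linarith)
      rw [Nat.cast_zero, sub_zero]
      linarith) (fun ω hω j => by
      by_cases hj : j = i
      · simp only [if_pos hj]
        rw [hj]
        exact hpos ω hω
      · simp only [if_neg hj]
        rw [eval_X]
        change |(zf F w J' h g e).x ω j - (zf F w J' h g e).x ω j| ≤ _
        rw [sub_self, abs_zero]
        positivity)
  have hexp : Real.exp (C₂ * (θ + 1)) * D₀ ≤ 2 ^ l := by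
    have e1 : (2 : ℝ) ^ l = Real.exp (l * Real.log 2) := by
      rw [mul_comm, Real.exp_mul, Real.exp_log (by norm_num)]
      exact (Real.rpow_natCast 2 l).symm
    have e2 : D₀ = Real.exp (Real.log D₀) := (Real.exp_log (by linarith)).symm
    rw [e1, e2, ← Real.exp_add]
    refine Real.exp_le_exp.2 ?_
    have e3 : C * (θ + 1) * Real.log 2 = (C₂ + Real.log D₀) * (θ + 1) := by
      rw [hC]
      field_simp
    have e4 := mul_le_mul_of_nonneg_right hCl hl2.le
    rw [e3] at e4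
    have e5 : Real.log D₀ ≤ Real.log D₀ * (θ + 1) := by nlinarith
    have e6 : (C₂ + Real.log D₀) * (θ + 1) = C₂ * (θ + 1) + Real.log D₀ * (θ + 1) := by ring
    linarith
  have hexp1 : D₀ ≤ 2 ^ l := by
    refine le_trans ?_ hexp
    have h1 : 1 ≤ Real.exp (C₂ * (θ + 1)) := by
      rw [Real.one_le_exp_iff]
      have : 0 ≤ θ + 1 := by linarith
      nlinarith
    nlinarith
  have hpow : (2 : ℝ) ^ P₁ = 2 ^ (P₁ - l) * 2 ^ l := by
    rw [← pow_add]
    congr 1
    omega
  have hprec : ∀ x : ℝ, x ≤ 2 ^ l → x / 2 ^ P₁ ≤ 1 / 2 ^ (P₁ - l) := by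
    intro x hx
    rw [hpow, div_le_div_iff₀ (by positivity) (by positivity), one_mul, mul_comm]
    exact mul_le_mul_of_nonneg_left hx (by positivity)
  refine ⟨B₃, hB3, hP3, G', hdeg, ?_, fun ω hω => rfl, ?_, ?_, ?_⟩
  · intro v b b' h0 h1
    rw [hG']
    simp only
    rw [eval_dq, eval_dq, h0]
    congr 3
    refine hlab.dep _ _ _ ?_ fun k hk => ?_
    · rw [eval_ds_none, eval_ds_none, h0]
    · obtain ⟨k', hk', rfl⟩ := Finset.mem_image.1 hk
      rw [eval_ds_e hinj, eval_ds_e hinj, h0, h1 k' hk']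
  · intro ω hω
    exact (hpos ω (hB3 ω hω)).trans (hprec _ hexp1)
  · intro ω hω
    have h1 := hB3v ω hω i
    simp only [if_true] at h1
    refine h1.trans ?_
    have h2 := hprec _ hexp
    have h3 : Real.exp (C₂ * (θ + 1)) * 2 ^ 0 * (D₀ / 2 ^ P₁) =
        2 ^ 0 * (Real.exp (C₂ * (θ + 1)) * D₀ / 2 ^ P₁) := by ring
    have h4 : (2 : ℝ) ^ 0 / 2 ^ (P₁ - l) = 2 ^ 0 * (1 / 2 ^ (P₁ - l)) := by ring
    rw [h3, h4]
    exact mul_le_mul_of_nonneg_left h2 (by positivity)
  · intro ω hω b hb o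
    have h1 := (hcomp ω (hB3 ω hω)).1 b hb o
    rw [← hG'Y ω (hB3 ω hω)] at h1
    exact h1

end Pool.GEN
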