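import Pool.Agent.H71.GEN.Zf

/-!
# The entropy of the positions of a full zoom
-/

set_option autoImplicit false

namespace Pool.GEN

open Finset Real MvPolynomial
open Pool.Agent.H49.Ent Pool.Agent.H32.Dense Pool.STK Pool.KA Pool.KSAT Pool.K2S Pool.PB Pool.S6C
open Pool.KA Pool.FLF

variable {m n J : ℕ} {κ : Type}

/-- The time and the side information of a full zoom determine the time, the label and the side
information of the family. -/
theorem zf_W_det (F : Fam m J) {w J' : ℕ} (h : w + J' = J) (g : F.Ω → κ) (e : Fin n → Fin m)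
    {ω ω' : F.Ω} (hW : (zf F w J' h.le g e).W ω = (zf F w J' h.le g e).W ω') :
    F.T ω = F.T ω' ∧ lb F w g ω = lb F w g ω' := by
  have a1 := Prod.ext_iff.1 hW
  have a2 : lb F w g ω = lb F w g ω' := a1.2
  have a3 : (zf F w J' h.le g e).T ω = (zf F w J' h.le g e).T ω' := a1.1
  have a4 := (lb_iff.1 a2).1
  have a5 : F.T1 (w + J') ω = F.T1 (w + J') ω' := by
    have a6 : (F.box w (idC m κ) g).T1 J' ω = (F.box w (idC m κ) g).T1 J' ω' := a3
    rw [Box.T1_box F h.le (idC m κ) g ω, Box.T1_box F h.le (idC m κ) g ω', a4, a6]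
  refine ⟨?_, a2⟩
  have e1 : ∀ ω, F.T1 (w + J') ω = F.T ω := by
    intro ω
    change F.T ω / 2 ^ (J - (w + J')) = F.T ω
    rw [h, Nat.sub_self, pow_zero, Nat.div_one]
  rw [e1, e1] at a5
  exact a5

/-- **The entropy of the positions of a full zoom** is at most the entropy of the coordinates `e`
of the positions of the family, given any function of the side information `g`. -/
theorem exa_row (F : Fam m J) {w J' : ℕ} (h : w + J' = J) (g : F.Ω → κ) (e : Fin n → Fin m)
    {q : F.Ω → ℝ} (hq : IsLaw q) {V : Type} (y : F.Ω → V)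
    (hy : ∀ ω ω', 0 < q ω → 0 < q ω' → g ω = g ω' → y ω = y ω') :
    CH q ((zf F w J' h.le g e).X J') (zf F w J' h.le g e).W ≤
      CH q (fun ω i => F.X J ω (e i)) (fun ω => (y ω, F.W ω)) + n * Real.log 17 := by
  have h0 := hq.nonneg
  have pw : (0 : ℝ) < 2 ^ w := by positivity
  have pJ : (0 : ℝ) < 2 ^ J' := by positivity
  have a1 := CH_le_add h0 ((zf F w J' h.le g e).X J') (fun ω i => F.X J ω (e i))
    (zf F w J' h.le g e).W
  have a2 : CH q ((zf F w J' h.le g e).X J')
      (fun ω => ((fun i => F.X J ω (e i)), (zf F w J' h.le g e).W ω)) ≤ n * Real.log 17 := by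
    have key := ENP.CH_fl hq J' (zf F w J' h.le g e).x
      (fun ω => ((fun i => F.X J ω (e i)), (zf F w J' h.le g e).W ω)) 7 (by
        intro ω ω' _ _ hh i
        have b1 := Prod.ext_iff.mp hh
        obtain ⟨hT, hl⟩ := zf_W_det F h g e b1.2
        obtain ⟨b6, b7, b3, b4, b5⟩ := lb_iff.1 hl
        have c1 := zf_x F h.le g e ω i
        have c2 := zf_x F h.le g e ω' i
        have c3 : tb F w ω = tb F w ω' := by
          unfold tb Fam.t
          rw [hT, b6]
        rw [b3, b4, c3] at c1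
        have d1 := Plk.abs_sub_lt_of_floor (congrFun b1.1 i :
          ⌊(2 : ℝ) ^ J * F.x ω (e i)⌋ = ⌊(2 : ℝ) ^ J * F.x ω' (e i)⌋)
        have d2 : |2 ^ w * (F.x ω (e i) - F.x ω' (e i))| ≤ 1 / 2 ^ J' := by
          rw [le_div_iff₀ pJ]
          have e0 : (2 : ℝ) ^ J = 2 ^ w * 2 ^ J' := by rw [← h, pow_add]
          have e1 : (2 : ℝ) ^ J * F.x ω (e i) - 2 ^ J * F.x ω' (e i) =
              2 ^ w * (F.x ω (e i) - F.x ω' (e i)) * 2 ^ J' := by
            rw [e0]
            ring
          rw [e1, abs_mul, abs_of_pos pJ] at d1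
          exact d1
        have e1 : (7 : ℝ) / 2 ^ J' = 3 / 2 ^ J' + 3 / 2 ^ J' + 1 / 2 ^ J' := by ring
        rw [e1]
        rw [abs_le] at c1 c2 d2 ⊢
        constructor <;> linarith [c1.1, c1.2, c2.1, c2.2, d2.1, d2.2])
    have e : (2 : ℝ) * 7 + 3 = 17 := by norm_num
    rw [e] at key
    exact key
  have a3 : CH q (fun ω i => F.X J ω (e i)) (zf F w J' h.le g e).W ≤
      CH q (fun ω i => F.X J ω (e i)) (fun ω => (y ω, F.W ω)) := by
    refine CH_mono_cond h0 ?_
    intro ω ω' h1 h2 hh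
    obtain ⟨hT, hl⟩ := zf_W_det F h g e hh
    obtain ⟨b6, b7, b3, b4, b5⟩ := lb_iff.1 hl
    exact Prod.ext (hy ω ω' h1 h2 b7) (Prod.ext hT b5)
  linarith

end Pool.GEN
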