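import Pool.Agent.H45.EXA.Zbt
import Pool.Agent.H71.GEN.Zact2

/-!
# The numbers and the bad properties of the full zooms of a class

`NumV`: the numbers of the labels over the coordinates `ε`. `numz`: the numbers of the zooms.
`zfb`: the zooms of the families of a class have no bad property of the list `FBad`.
-/

set_option autoImplicit false

namespace Pool.GEN

open Finset Real MvPolynomial
open Pool.Agent.H49.Ent Pool.Agent.H32.Dense Pool.STK Pool.KA Pool.KSAT Pool.K2S Pool.PB Pool.S6C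
open Pool.FLF (Fam.sub)

variable {m n J : ℕ} {κ : Type}

/-- A positive lower bound for finitely many positive numbers. -/
theorem fmin45 (N : ℕ) (f : ℕ → ℝ) (hf : ∀ i, 0 < f i) :
    ∃ τ : ℝ, 0 < τ ∧ ∀ i ≤ N, τ ≤ f i := by
  obtain ⟨j, -, hj⟩ := Finset.exists_min_image (Finset.range (N + 1)) f
    ⟨0, Finset.mem_range.2 (Nat.succ_pos N)⟩
  exact ⟨f j, hf j, fun i hi => hj i (Finset.mem_range.2 (by omega))⟩

/-- The numbers of the labels over some coordinates, at the windows `w₁ < w₂`. -/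
structure NumV {n : ℕ} (w₁ w₂ x : ℝ) (s u : Fin n → ℝ) : Prop where
  ms : Monotone s
  mu : Monotone u
  s0 : ∀ j, 0 ≤ s j
  su : ∀ j, s j ≤ u j
  us : ∀ j, u j ≤ s j + x
  u1 : ∀ j, u j ≤ 1
  wu : ∀ j, w₂ ≤ u j
  z : ∀ j : Fin n, (j : ℕ) = 0 → s j ≤ w₁

/-- The attained precision of the zoom. -/
noncomputable def sz (w₁ dd t : ℝ) : ℝ := max 0 ((t - w₁) / (1 - w₁) - dd)

theorem sz_mono {w₁ dd : ℝ} (hw₁1 : w₁ < 1) : Monotone (sz w₁ dd) := by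
  intro a b hab
  have h0 : 0 < 1 - w₁ := by linarith
  have := div_le_div_of_nonneg_right (sub_le_sub_right hab w₁) h0.le
  exact max_le_max le_rfl (by linarith)

/-- **The numbers of the zoom.** -/
theorem numz {w₁ w₂ w₃ dd x xZ : ℝ} {s u : Fin n → ℝ} (h : NumV w₁ w₂ x s u) (hw₁ : 0 ≤ w₁)
    (hw₁1 : w₁ < 1) (hw₁₂ : w₁ ≤ w₂) (hw₃ : 0 ≤ w₃) (hdd : 0 ≤ dd) (hdd3 : dd ≤ 3 * w₃)
    (hx : (x + 3 * w₃) / (1 - w₁) + 2 * dd ≤ xZ) :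
    Nums xZ (fun j => sz w₁ dd (s j)) (fun j => uz w₁ w₃ dd (u j)) := by
  have h0 : 0 < 1 - w₁ := by linarith
  have hge : ∀ j, (u j - w₁) / (1 - w₁) ≤ uz w₁ w₃ dd (u j) := fun j =>
    uz_ge hw₁1 hdd (h.u1 j)
  have hu0 : ∀ j, 0 ≤ (u j - w₁) / (1 - w₁) := fun j =>
    div_nonneg (by linarith [h.wu j]) h0.le
  refine ⟨fun a b hab => sz_mono hw₁1 (h.ms hab), fun a b hab => uz_mono hw₁ hw₁1 hw₃ hdd3 (h.mu hab),
    fun j => le_max_left _ _, fun j => ?_, fun j => ?_, fun j => uz_le_one hw₁ hw₁1 hw₃ hdd3,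
    fun j hj => ?_⟩
  · refine max_le ((hu0 j).trans (hge j)) ?_
    have h1 : (s j - w₁) / (1 - w₁) ≤ (u j - w₁) / (1 - w₁) :=
      div_le_div_of_nonneg_right (by linarith [h.su j]) h0.le
    linarith [hge j]
  · have h1 : (s j - w₁) / (1 - w₁) - dd ≤ sz w₁ dd (s j) := le_max_right _ _
    have h2 := uz_le (w₁ := w₁) (w₂ := w₃) (dd := dd) (t := u j) hw₁1 hw₃ hdd
    have h3 : (u j - w₁) / (1 - w₁) + 3 * w₃ / (1 - w₁) =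
        (s j - w₁) / (1 - w₁) + (u j - s j + 3 * w₃) / (1 - w₁) := by
      field_simp
      ring
    have h4 : (u j - s j + 3 * w₃) / (1 - w₁) ≤ (x + 3 * w₃) / (1 - w₁) :=
      div_le_div_of_nonneg_right (by linarith [h.us j]) h0.le
    linarith
  · have h1 : (s j - w₁) / (1 - w₁) ≤ 0 := div_nonpos_of_nonpos_of_nonneg (by
      linarith [h.z j hj]) h0.le
    exact max_eq_left (by linarith)

/-- **No bad property of the zooms.** -/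
theorem zfb {S : PCl m} {C₀ : ℝ} (hC₀ : 0 ≤ C₀) (hbs : TmC S C₀) {w₁ : ℚ}
    {w₂ w₃ dd wZ e₂ r₂ : ℝ} (hw0 : 0 < w₁) (hw11 : w₁ < 1) (hw21 : w₂ < 1) (hw3 : 0 < w₃)
    (hdd : 0 < dd) (hwZ : 0 < wZ) (hwZ1 : wZ ≤ 1 / 2) (hw : w₁ + wZ * (1 - w₁) < w₂)
    (he₂ : wZ * (1 - w₁) < e₂) (hr₂ : (dd + wZ) * (1 - w₁) < r₂) (hdw : dd + wZ ≤ 3 * w₃)
    {u : Fin n → ℝ} (humono : Monotone u) (hu : ∀ j, (w₁ : ℝ) ≤ u j)
    {ε : Fin n → Fin m} (hinj : Function.Injective ε)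
    (habs : ∀ (j : Fin n) (K : ℕ) (h : ℝ), 0 < h → u j + h ≤ 1 → Bas S (fun J F A =>
      ¬ Lb F ((Finset.Iio j).image ε) (ε j) K ⌊e₂ * J⌋₊ J ⌊w₂ * J⌋₊ ⌊(rad u w₂ j + r₂) * J⌋₊
        ⌊(u j + h) * J⌋₊ A))
    {N : ℚ → ℚ → ℝ} (hN : ∀ k : Fin n, (k : ℕ) = 0 → ActB N S (ε k)) (i : ℕ) :
    ∃ ψ : ℝ, 0 < ψ ∧ ∃ τ₀ : ℝ, 0 < τ₀ ∧ ∃ J₀ : ℕ, ∀ J ≥ J₀, ∀ (F : Fam m J) (A : F.Ω → Prop),
    S.St τ₀ J F A → ∀ (κ : Type) (z : PtT F → κ) (z' : LnT F → κ),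
    (∀ ω, A ω → z (ptr F J ω) = z' (slam F ⌊(w₁ : ℝ) * J⌋₊ ω)) →
    ∀ (hl : IsLaw (Pool.Agent.H49.Ent.cond F.p A True)) (J' : ℕ)
    (hJ : ⌊(w₁ : ℝ) * J⌋₊ + J' = J) (B : F.Ω → Prop),
    Real.exp (-(3 * ψ * J')) ≤ Pe (Pool.Agent.H49.Ent.cond F.p A True) B →
    ¬ FBad (NZ N w₁) (fun j => uz w₁ w₃ dd (u j)) wZ i J'
      (zf (F.res A True hl) ⌊(w₁ : ℝ) * J⌋₊ J' hJ.le (fun ω => z' (slam F ⌊(w₁ : ℝ) * J⌋₊ ω)) ε)
        B := by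
  classical
  have hi0 : (0 : ℝ) < 1 / ((i : ℝ) + 1) := by positivity
  obtain ⟨ψ₁, hψ₁, τ₁, hτ₁, J₁, hz⟩ := zbt' hC₀ hbs (w₁ := w₁) (w₂ := w₂) (w₃ := w₃) (dd := dd)
    (wZ := wZ) (e₂ := e₂) (r₂ := r₂) (by exact_mod_cast hw0) (by exact_mod_cast hw11) hw21 hw3 hdd
    hwZ hwZ1 hw he₂ hr₂ hdw humono hu hinj habs i hi0
  -- the velocities
  have hact : ∀ c : ℕ, ∃ ψ : ℝ, 0 < ψ ∧ ∃ τ₀ : ℝ, 0 < τ₀ ∧ ∃ J₀ : ℕ, ∀ J ≥ J₀,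
      ∀ (F : Fam m J) (A : F.Ω → Prop),
      S.St τ₀ J F A → ∀ (κ : Type) (z : PtT F → κ) (z' : LnT F → κ),
      (∀ ω, A ω → z (ptr F J ω) = z' (slam F ⌊(w₁ : ℝ) * J⌋₊ ω)) →
      ∀ (hl : IsLaw (Pool.Agent.H49.Ent.cond F.p A True)) (J' : ℕ)
      (hJ : ⌊(w₁ : ℝ) * J⌋₊ + J' = J) (B : F.Ω → Prop),
      Real.exp (-(3 * ψ * J')) ≤ Pe (Pool.Agent.H49.Ent.cond F.p A True) B →
      ∀ (q q' : ℚ) (k : Fin n), (k : ℕ) = 0 → Encodable.encode (q, q') = c → 0 ≤ q → q ≤ q' →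
      q' ≤ 1 → ¬ ActF (NZ N w₁) q q' (1 / ((i : ℝ) + 1)) k J'
        (zf (F.res A True hl) ⌊(w₁ : ℝ) * J⌋₊ J' hJ.le
          (fun ω => z' (slam F ⌊(w₁ : ℝ) * J⌋₊ ω)) ε) B := by
    intro c
    by_cases hc : ∃ (q q' : ℚ) (k : Fin n), (k : ℕ) = 0 ∧ Encodable.encode (q, q') = c ∧ 0 ≤ q ∧
        q ≤ q' ∧ q' ≤ 1
    · obtain ⟨q, q', k, hk, hqc, h0, h1, h2⟩ := hc
      obtain ⟨ψ, hψ, τ₀, hτ₀, J₀, hza⟩ := z_act n (fun τ J F A hτ hS => (hbs τ J F A hτ hS).1)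
        (hN k hk) hw0 hw11 h0 h1 h2 hi0
      refine ⟨ψ, hψ, τ₀, hτ₀, J₀, ?_⟩
      intro J hJ₀ F A hS κ z z' hcls hl J' hJ B hB p p' k' hk' hpc _ _ _
      have e1 : (p, p') = (q, q') := Encodable.encode_injective (hpc.trans hqc.symm)
      obtain ⟨rfl, rfl⟩ := Prod.ext_iff.1 e1
      have e2 : k' = k := Fin.ext (hk'.trans hk.symm)
      rw [e2]
      exact hza J hJ₀ F A hS κ z z' hcls hl J' hJ ε k rfl B hB
    · refine ⟨1, one_pos, 1, one_pos, 0, ?_⟩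
      intro J _ F A _ κ z z' _ hl J' hJ B _ q q' k hk hqc h0 h1 h2
      exact absurd ⟨q, q', k, hk, hqc, h0, h1, h2⟩ hc
  choose ψ₂ hψ₂ τ₂ hτ₂ J₂ hza using hact
  obtain ⟨ψm, hψm, hψm'⟩ := fmin45 i ψ₂ hψ₂
  obtain ⟨τm, hτm, hτm'⟩ := fmin45 i τ₂ hτ₂
  refine ⟨min ψ₁ ψm, lt_min hψ₁ hψm, min τ₁ τm, lt_min hτ₁ hτm,
    max J₁ (∑ c ∈ range (i + 1), J₂ c), ?_⟩
  intro J hJ₀ F A hS κ z z' hcls hl J' hJ B hB hbad
  have hmon : ∀ ψ : ℝ, min ψ₁ ψm ≤ ψ →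
      Real.exp (-(3 * ψ * J')) ≤ Pe (Pool.Agent.H49.Ent.cond F.p A True) B := by
    intro ψ h1
    refine le_trans (Real.exp_le_exp.2 ?_) hB
    have h3 := mul_le_mul_of_nonneg_right h1 (Nat.cast_nonneg (α := ℝ) J')
    linarith
  rcases hbad with ⟨q, q', k, hk, hqc, h0, h1, h2, h3⟩ | hbt
  · obtain ⟨c, hc⟩ : ∃ c, c = Encodable.encode (q, q') := ⟨_, rfl⟩
    rw [← hc] at hqc
    have hJc : J₂ c ≤ J := (Finset.single_le_sum (f := J₂) (fun _ _ => Nat.zero_le _)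
      (Finset.mem_range.2 (by omega))).trans ((le_max_right _ _).trans hJ₀)
    refine hza c J hJc F A (S.mono ((min_le_right _ _).trans (hτm' c hqc)) hS) κ z z' hcls hl J' hJ
      B (hmon _ ((min_le_right _ _).trans (hψm' c hqc))) q q' k hk hc.symm h0 h1 h2 h3
  · refine hz J ((le_max_left _ _).trans hJ₀) F A (S.mono (min_le_left _ _) hS) κ
      (fun ω => z' (slam F ⌊(w₁ : ℝ) * J⌋₊ ω)) (fun ω ω' h1 h2 h3 => ?_)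
      (fun ω ω' _ _ h3 => by rw [h3]) J' hJ.le (by omega) hl B
      (hmon _ (min_le_left _ _)) hbt
    rw [← hcls ω h1, ← hcls ω' h2, h3]

end Pool.GEN
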