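import Pool.Agent.H45.EXA.Zbx
import Pool.Agent.H45.EXA.Zfb
import Pool.Agent.H45.EXA.Row
import Pool.Agent.H33.EXA.Gra
import Pool.Agent.H1.GEN.Fx

/-!
# Statements on the large events of the full zooms of a class

`ZBas S w₁ ε Φ`: the statement `Φ` holds for all large events of the full zooms at the window `w₁`,
with the coordinates `ε`, of the families of the class `S`, for any closed side information.

`zbas_fbad`: no bad property of the list `FBadX`. `zgra`: the attained labels of the zooms.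
`exa_core`: exactness of the coordinates `ε` given any closed function, from the theorem for
families with side information.
-/

set_option autoImplicit false

namespace Pool.GEN

open Finset Real MvPolynomial
open Pool.Agent.H49.Ent Pool.Agent.H32.Dense Pool.STK Pool.KA Pool.KSAT Pool.K2S Pool.PB Pool.S6C
open Pool.FLF (Fam.sub)

variable {m n J : ℕ}

/-- The statement holds for all large events of the full zooms of the families of the class. -/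
def ZBas (S : PCl m) (w₁ : ℝ) (ε : Fin n → Fin m) (Φ : Stat n) : Prop :=
  ∃ ψ : ℝ, 0 < ψ ∧ ∃ τ₀ : ℝ, 0 < τ₀ ∧ ∃ J₀ : ℕ, ∀ J ≥ J₀, ∀ (F : Fam m J) (A : F.Ω → Prop),
    S.St τ₀ J F A → ∀ (κ : Type) (z : PtT F → κ) (z' : LnT F → κ),
    (∀ ω, A ω → z (ptr F J ω) = z' (slam F ⌊w₁ * J⌋₊ ω)) →
    ∀ (hl : IsLaw (Pool.Agent.H49.Ent.cond F.p A True)) (J' : ℕ) (hJ : ⌊w₁ * J⌋₊ + J' = J)
    (B : F.Ω → Prop), Real.exp (-(3 * ψ * J')) ≤ Pe (Pool.Agent.H49.Ent.cond F.p A True) B →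
    Φ J' (zf (F.res A True hl) ⌊w₁ * J⌋₊ J' hJ.le (fun ω => z' (slam F ⌊w₁ * J⌋₊ ω)) ε) B

theorem ZBas.mono {S : PCl m} {w₁ : ℝ} {ε : Fin n → Fin m} {Φ Φ' : Stat n}
    (h : ZBas S w₁ ε Φ) (hΦ : ∀ (J : ℕ) (F : Fam n J) (A : F.Ω → Prop), Φ J F A → Φ' J F A) :
    ZBas S w₁ ε Φ' := by
  obtain ⟨ψ, hψ, τ₀, hτ₀, J₀, h⟩ := h
  exact ⟨ψ, hψ, τ₀, hτ₀, J₀, fun J hJ₀ F A hS κ z z' hc hl J' hJ B hB =>
    hΦ _ _ _ (h J hJ₀ F A hS κ z z' hc hl J' hJ B hB)⟩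

/-- Finitely many statements. -/
theorem ZBas.le {S : PCl m} {w₁ : ℝ} {ε : Fin n → Fin m} {Φ : ℕ → Stat n} (N : ℕ)
    (h : ∀ c, ZBas S w₁ ε (Φ c)) : ZBas S w₁ ε (fun J F A => ∀ c ≤ N, Φ c J F A) := by
  choose ψ hψ τ₀ hτ₀ J₀ h using h
  obtain ⟨ψm, hψm, hψm'⟩ := fmin45 N ψ hψ
  obtain ⟨τm, hτm, hτm'⟩ := fmin45 N τ₀ hτ₀
  refine ⟨ψm, hψm, τm, hτm, ∑ c ∈ range (N + 1), J₀ c, ?_⟩
  intro J hJ₀ F A hS κ z z' hc hl J' hJ B hB c hcN
  refine h c J ((Finset.single_le_sum (f := J₀) (fun _ _ => Nat.zero_le _)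
    (Finset.mem_range.2 (by omega))).trans hJ₀) F A (S.mono (hτm' c hcN) hS) κ z z' hc hl J' hJ B ?_
  refine le_trans (Real.exp_le_exp.2 ?_) hB
  have h3 := mul_le_mul_of_nonneg_right (hψm' c hcN) (Nat.cast_nonneg (α := ℝ) J')
  linarith

/-- Two statements. -/
theorem ZBas.and {S : PCl m} {w₁ : ℝ} {ε : Fin n → Fin m} {Φ Φ' : Stat n}
    (h : ZBas S w₁ ε Φ) (h' : ZBas S w₁ ε Φ') :
    ZBas S w₁ ε (fun J F A => Φ J F A ∧ Φ' J F A) := by
  have h1 : ZBas S w₁ ε (fun J F A => ∀ c ≤ 1, (if c = 0 then Φ else Φ' : Stat n) J F A) :=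
    ZBas.le 1 (fun c => by
      split_ifs
      · exact h
      · exact h')
  refine h1.mono fun J F A h2 => ⟨?_, ?_⟩
  · have := h2 0 (by norm_num)
    simpa using this
  · have := h2 1 le_rfl
    simpa using this

/-- **The velocities of the zooms are active.** -/
theorem zbas_act {S : PCl m} {C₀ : ℝ} (hbs : TmC S C₀) {w₁ : ℚ} (hw0 : 0 < w₁) (hw11 : w₁ < 1)
    {ε : Fin n → Fin m} {N : ℚ → ℚ → ℝ} (hN : ∀ k : Fin n, (k : ℕ) = 0 → ActB N S (ε k))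
    {h : ℝ} (hh : 0 < h) (i : ℕ) : ZBas S (w₁ : ℝ) ε (fun J G B =>
      ∀ (q q' : ℚ) (k : Fin n), (k : ℕ) = 0 → Encodable.encode (q, q') ≤ i → 0 ≤ q → q ≤ q' →
        q' ≤ 1 → ¬ ActF (NZ N w₁) q q' h k J G B) := by
  have hact : ∀ c : ℕ, ZBas S (w₁ : ℝ) ε (fun J G B =>
      ∀ (q q' : ℚ) (k : Fin n), (k : ℕ) = 0 → Encodable.encode (q, q') = c → 0 ≤ q → q ≤ q' →
        q' ≤ 1 → ¬ ActF (NZ N w₁) q q' h k J G B) := by
    intro c
    by_cases hc : ∃ (q q' : ℚ) (k : Fin n), (k : ℕ) = 0 ∧ Encodable.encode (q, q') = c ∧ 0 ≤ q ∧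
        q ≤ q' ∧ q' ≤ 1
    · obtain ⟨q, q', k, hk, hqc, h0, h1, h2⟩ := hc
      obtain ⟨ψ, hψ, τ₀, hτ₀, J₀, hza⟩ := z_act n (fun τ J F A hτ hS => (hbs τ J F A hτ hS).1)
        (hN k hk) hw0 hw11 h0 h1 h2 hh
      refine ⟨ψ, hψ, τ₀, hτ₀, J₀, ?_⟩
      intro J hJ₀ F A hS κ z z' hcls hl J' hJ B hB p p' k' hk' hpc _ _ _
      have e1 : (p, p') = (q, q') := Encodable.encode_injective (hpc.trans hqc.symm)
      obtain ⟨rfl, rfl⟩ := Prod.ext_iff.1 e1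
      have e2 : k' = k := Fin.ext (hk'.trans hk.symm)
      rw [e2]
      exact hza J hJ₀ F A hS κ z z' hcls hl J' hJ ε k rfl B hB
    · refine ⟨1, one_pos, 1, one_pos, 0, ?_⟩
      intro J _ F A _ κ z z' _ hl J' hJ B _ q q' k hk hqc h0 h1 h2
      exact absurd ⟨q, q', k, hk, hqc, h0, h1, h2⟩ hc
  refine (ZBas.le i hact).mono fun J G B h1 q q' k hk hqc => ?_
  exact h1 _ hqc q q' k hk rfl

/-- **No bad property of the zooms**, from the labels and the velocities. -/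
theorem zbas_fbad {S : PCl m} {C₀ : ℝ} (hbs : TmC S C₀) {w₁ : ℚ} (hw0 : 0 < w₁) (hw11 : w₁ < 1)
    {ε : Fin n → Fin m} {N : ℚ → ℚ → ℝ} (hN : ∀ k : Fin n, (k : ℕ) = 0 → ActB N S (ε k))
    {s : Fin n → ℝ} {d : ℕ → ℝ} {e : ℝ}
    (hb : ∀ l K : ℕ, e ≤ 1 / ((l : ℝ) + 1) →
      ZBas S (w₁ : ℝ) ε (fun J G B => ¬ BtrX s (d l) (1 / ((l : ℝ) + 1)) K J G B)) (i : ℕ) :
    ZBas S (w₁ : ℝ) ε (fun J G B => ¬ FBadX (NZ N w₁) s d e i J G B) := by
  have hi0 : (0 : ℝ) < 1 / ((i : ℝ) + 1) := by positivity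
  have h1 := zbas_act hbs hw0 hw11 hN hi0 i
  have h2 : ∀ l : ℕ, ZBas S (w₁ : ℝ) ε (fun J G B => e ≤ 1 / ((l : ℝ) + 1) →
      ¬ BtrX s (d l) (1 / ((l : ℝ) + 1)) i J G B) := by
    intro l
    by_cases hl : e ≤ 1 / ((l : ℝ) + 1)
    · exact (hb l i hl).mono fun J G B h3 _ => h3
    · exact ⟨1, one_pos, 1, one_pos, 0, fun J _ F A _ κ z z' _ hl' J' hJ B _ h3 => absurd h3 hl⟩
  refine (h1.and (ZBas.le i h2)).mono fun J G B h3 hbad => ?_
  rcases hbad with ⟨q, q', k, a1, a2, a3, a4, a5, a6⟩ | ⟨l, a1, a2, a3⟩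
  · exact h3.1 q q' k a1 a2 a3 a4 a5 a6
  · exact h3.2 l a1 a2 a3

/-- The two forms of the attained labels. -/
theorem Gra.x {K : ℕ} {e : ℝ} (he : 0 ≤ e) {s s' u : Fin n → ℝ} {F : Fam n J}
    (h : Gra K e s' u J F) (hs : ∀ j, s j - e ≤ s' j) (hu : ∀ j, u j ≤ min (s j + e) 1) :
    GraX K e s J F := by
  obtain ⟨G, h1, h2⟩ := h
  refine ⟨G, h1, fun ω hω j k hjk => ⟨?_, fun b hb o => ?_⟩⟩
  · refine (h2 ω hω j k hjk).1.trans (inv_mono (Nat.floor_le_floor ?_))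
    exact mul_le_mul_of_nonneg_right (hs j) (Nat.cast_nonneg J)
  · refine (h2 ω hω j k hjk).2 b (fun o' => (hb o').trans (inv_mono (Nat.floor_le_floor
      (mul_le_mul_of_nonneg_right ?_ (Nat.cast_nonneg J))))) o
    unfold rad
    split_ifs
    · exact le_min (by linarith) zero_le_one
    · exact hu _

/-- **The attained labels of the zooms.** -/
theorem zgra {S : PCl m} {w₁ : ℝ} (hw0 : 0 < w₁) (hw11 : w₁ < 1) {e e₁ : ℝ} (he : 0 < e)
    (he10 : 0 ≤ e₁) (he1 : e₁ < e * (1 - w₁)) {s : Fin n → ℝ} (hs0 : ∀ j, 0 ≤ s j)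
    (hs1 : ∀ j, s j ≤ 1) (hsz : ∀ j : Fin n, (j : ℕ) = 0 → s j = 0) {P R : Fin n → ℝ}
    (hP : ∀ j, s j ≤ e ∨ w₁ + (s j - e) * (1 - w₁) < P j)
    (hR : ∀ j, s j ≤ e ∨ R j < w₁ + min (rad s 0 j + e) 1 * (1 - w₁) ∨
      (1 ≤ rad s 0 j + e ∧ R j ≤ 1))
    {ε : Fin n → Fin m} (hinj : Function.Injective ε) {K₀ : ℕ}
    (hatt : ∀ j k, j ≤ k → Bas S (fun J F A => Lb F ((Finset.Iio j).image ε) (ε k) K₀ ⌊e₁ * J⌋₊ J
      ⌊w₁ * J⌋₊ ⌊R j * J⌋₊ ⌊P j * J⌋₊ A)) :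
    ∃ τ₀ : ℝ, 0 < τ₀ ∧ ∃ J₀ : ℕ, ∀ J ≥ J₀, ∀ (F : Fam m J) (A : F.Ω → Prop), S.St τ₀ J F A →
      ∃ (κ₀ : Type) (z₀ : PtT F → κ₀) (z₀' : LnT F → κ₀),
        (∀ ω, A ω → z₀ (ptr F J ω) = z₀' (slam F ⌊w₁ * J⌋₊ ω)) ∧
        ∀ (κ : Type) (g : F.Ω → κ) (φ : κ → κ₀),
          (∀ ω, A ω → z₀' (slam F ⌊w₁ * J⌋₊ ω) = φ (g ω)) →
          ∀ (hl : IsLaw (Pool.Agent.H49.Ent.cond F.p A True)) (J' : ℕ)
          (hJ : ⌊w₁ * J⌋₊ + J' = J),
          GraX (K₀ + 1) e s J' (zf (F.res A True hl) ⌊w₁ * J⌋₊ J' hJ.le g ε) := by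
  classical
  have h01 : 0 < 1 - w₁ := by linarith
  obtain ⟨c₀, hgra⟩ := gra_zf m n K₀
  have hall : Bas S (fun J F A => ∀ p : Fin n × Fin n, p.1 ≤ p.2 →
      Lb F ((Finset.Iio p.1).image ε) (ε p.2) K₀ ⌊e₁ * J⌋₊ J ⌊w₁ * J⌋₊ ⌊R p.1 * J⌋₊
        ⌊P p.1 * J⌋₊ A) := by
    refine Bas.fin fun p => ?_
    by_cases hp : p.1 ≤ p.2
    · exact Bas.mono 0 (hatt p.1 p.2 hp) fun J _ F A h _ => h
    · exact ⟨1, one_pos, 0, fun J _ F A _ h => absurd h hp⟩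
  obtain ⟨τ₀, hτ₀, J₁, hb⟩ := hall
  -- the largest resolution
  have hJP : ∀ j : Fin n, ∃ J₀ : ℕ, ∀ J ≥ J₀, s j ≤ e ∨
      (w₁ + (s j - e) * (1 - w₁)) * J + c₀ + 2 ≤ P j * J := by
    intro j
    rcases hP j with h1 | h1
    · exact ⟨0, fun J _ => Or.inl h1⟩
    · obtain ⟨J₀, hJ₀⟩ := lin ((c₀ : ℝ) + 2) (sub_pos.2 h1)
      refine ⟨J₀, fun J hJ => Or.inr ?_⟩
      have := hJ₀ J hJ
      have e2 : (P j - (w₁ + (s j - e) * (1 - w₁))) * (J : ℝ) =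
        P j * J - (w₁ + (s j - e) * (1 - w₁)) * J := by ring
      linarith
  have hJR : ∀ j : Fin n, ∃ J₀ : ℕ, ∀ J ≥ J₀, s j ≤ e ∨
      R j * J + 2 ≤ (w₁ + min (rad s 0 j + e) 1 * (1 - w₁)) * J ∨
      (1 ≤ rad s 0 j + e ∧ R j ≤ 1) := by
    intro j
    rcases hR j with h1 | h1 | h1
    · exact ⟨0, fun J _ => Or.inl h1⟩
    · obtain ⟨J₀, hJ₀⟩ := lin (2 : ℝ) (sub_pos.2 h1)
      refine ⟨J₀, fun J hJ => Or.inr (Or.inl ?_)⟩
      have := hJ₀ J hJ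
      have e2 : (w₁ + min (rad s 0 j + e) 1 * (1 - w₁) - R j) * (J : ℝ) =
        (w₁ + min (rad s 0 j + e) 1 * (1 - w₁)) * J - R j * J := by ring
      linarith
    · exact ⟨0, fun J _ => Or.inr (Or.inr h1)⟩
  choose J₂ hJ₂ using hJP
  choose J₃ hJ₃ using hJR
  obtain ⟨J₄, hJ₄⟩ := lin ((c₀ : ℝ) + 2) (sub_pos.2 he1)
  obtain ⟨J₅, hJ₅⟩ := lin (4 : ℝ) hw0
  refine ⟨τ₀, hτ₀, max (max J₁ (∑ j, J₂ j)) (max (∑ j, J₃ j) (max J₄ J₅)), ?_⟩
  intro J hJ F A hS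
  have hJ1 : J₁ ≤ J := (le_max_left _ _).trans ((le_max_left _ _).trans hJ)
  have hJ2 : ∑ j, J₂ j ≤ J := (le_max_right _ _).trans ((le_max_left _ _).trans hJ)
  have hJ3 : ∑ j, J₃ j ≤ J := (le_max_left _ _).trans ((le_max_right _ _).trans hJ)
  have hJ4 := hJ₄ J ((le_max_left _ _).trans ((le_max_right _ _).trans
    ((le_max_right _ _).trans hJ)))
  have hJ5 := hJ₅ J ((le_max_right _ _).trans ((le_max_right _ _).trans
    ((le_max_right _ _).trans hJ)))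
  have hJr : (0 : ℝ) ≤ J := Nat.cast_nonneg J
  -- the labels
  have hlab : ∀ j k : Fin n, ∃ (V : Type) (z : PtT F → V) (z' : LnT F → V)
      (G : V → MvPolynomial (Option (Fin m)) ℝ), (∀ ω, A ω → z (ptr F J ω) =
        z' (slam F ⌊w₁ * J⌋₊ ω)) ∧ (j ≤ k → LbOK F ((Finset.Iio j).image ε) (ε k) K₀ ⌊e₁ * J⌋₊ J
        ⌊w₁ * J⌋₊ ⌊R j * J⌋₊ ⌊P j * J⌋₊ A z z' G) := by
    intro j k
    by_cases hjk : j ≤ k
    · obtain ⟨V, z, z', G, h⟩ := hb J hJ1 F A hS (j, k) hjk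
      exact ⟨V, z, z', G, h.cls, fun _ => h⟩
    · exact ⟨Unit, fun _ => (), fun _ => (), fun _ => 0, fun _ _ => rfl, fun h => absurd h hjk⟩
  choose V z z' G hcls hL using hlab
  refine ⟨∀ j k, V j k, fun x j k => z j k x, fun y j k => z' j k y, fun ω hω => ?_, ?_⟩
  · funext j k
    exact hcls j k ω hω
  intro κ g φ hφ hl J' hJ'
  -- the scales
  obtain ⟨W, hW⟩ : ∃ W, W = ⌊w₁ * (J : ℝ)⌋₊ := ⟨_, rfl⟩
  have hWr : (W : ℝ) ≤ w₁ * J := by rw [hW]; exact Nat.floor_le (by positivity)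
  have hWr' : w₁ * (J : ℝ) < W + 1 := by rw [hW]; exact Nat.lt_floor_add_one _
  have hsum : (W : ℝ) + J' = J := by
    have : W + J' = J := by rw [hW]; exact hJ'
    exact_mod_cast this
  have hJ'0 : (0 : ℝ) ≤ J' := Nat.cast_nonneg J'
  have ew : (1 - w₁) * (J : ℝ) = J - w₁ * J := by ring
  have hJ'1 : (1 - w₁) * J ≤ (J' : ℝ) := by linarith
  have hJ'2 : (J' : ℝ) ≤ (1 - w₁) * J + 1 := by linarith
  have hW3 : 3 ≤ W := by
    have : (3 : ℝ) ≤ W := by linarith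
    exact_mod_cast this
  have c0r : (0 : ℝ) ≤ c₀ := Nat.cast_nonneg c₀
  have hee : ⌊e₁ * (J : ℝ)⌋₊ + c₀ ≤ ⌊e * (J' : ℝ)⌋₊ := by
    refine Nat.le_floor ?_
    push_cast
    have h1 := Nat.floor_le (mul_nonneg he10 hJr)
    have h2 : e * ((1 - w₁) * J) ≤ e * J' := mul_le_mul_of_nonneg_left hJ'1 he.le
    have e2 : (e * (1 - w₁) - e₁) * (J : ℝ) = e * ((1 - w₁) * J) - e₁ * J := by ring
    linarith
  have hGra := hgra J W J' (by rw [hW]; exact hJ'.le) F A hl ε hinj ⌊e₁ * (J : ℝ)⌋₊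
    (fun j => ⌊R j * J⌋₊) (fun j => ⌊P j * J⌋₊) V z z' G (fun j k hjk => by
      have h1 := hL j k hjk
      rw [← hW] at h1
      exact h1) e (fun j => max 0 (s j - e)) (fun j => min (s j + e) 1) hW3
    (fun j hj => by
      rw [hsz j hj]
      exact max_eq_left (by linarith)) (fun j => min_le_right _ _) (fun j => by
      by_cases hje : s j ≤ e
      · left
        exact max_eq_left (by linarith)
      right
      have hmax : max 0 (s j - e) = s j - e := max_eq_right (by linarith)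
      have hJ2j := (hJ₂ j J ((Finset.single_le_sum (f := J₂) (fun _ _ => Nat.zero_le _)
        (Finset.mem_univ j)).trans hJ2)).resolve_left hje
      have hJ3j := (hJ₃ j J ((Finset.single_le_sum (f := J₃) (fun _ _ => Nat.zero_le _)
        (Finset.mem_univ j)).trans hJ3)).resolve_left hje
      have f1 : (⌊(s j - e) * (J' : ℝ)⌋₊ : ℝ) ≤ (s j - e) * J' :=
        Nat.floor_le (mul_nonneg (by linarith) hJ'0)
      have f2 : (s j - e) * (J' : ℝ) ≤ (s j - e) * (1 - w₁) * J + 1 := by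
        have h1 := mul_le_mul_of_nonneg_left hJ'2 (by linarith : 0 ≤ s j - e)
        have e2 : (s j - e) * ((1 - w₁) * (J : ℝ) + 1) = (s j - e) * (1 - w₁) * J + (s j - e) := by
          ring
        linarith [hs1 j]
      rw [hmax]
      refine ⟨?_, ?_, ?_⟩
      · refine Nat.le_floor ?_
        push_cast
        have e2 : (w₁ + (s j - e) * (1 - w₁)) * (J : ℝ) = w₁ * J + (s j - e) * (1 - w₁) * J := by
          ring
        linarith
      · have h1 : (⌊(s j - e) * (J' : ℝ)⌋₊ : ℝ) + ⌊e₁ * (J : ℝ)⌋₊ + c₀ ≤ J' := by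
          have h2 : ((⌊e₁ * (J : ℝ)⌋₊ + c₀ : ℕ) : ℝ) ≤ e * J' := by
            have h3 : ((⌊e₁ * (J : ℝ)⌋₊ + c₀ : ℕ) : ℝ) ≤ (⌊e * (J' : ℝ)⌋₊ : ℕ) := by
              exact_mod_cast hee
            exact h3.trans (Nat.floor_le (mul_nonneg he.le hJ'0))
          push_cast at h2
          have h3 : s j * (J' : ℝ) ≤ 1 * J' := mul_le_mul_of_nonneg_right (hs1 j) hJ'0
          have e2 : (s j - e) * (J' : ℝ) = s j * J' - e * J' := by ring
          linarith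
        exact_mod_cast h1
      · have hj0 : (j : ℕ) ≠ 0 := fun hj => hje (by rw [hsz j hj]; exact he.le)
        have hradu : rad (fun j => min (s j + e) 1) 0 j = min (rad s 0 j + e) 1 := by
          unfold rad
          rw [if_neg hj0, if_neg hj0]
        rw [hradu]
        rcases hJ3j with h1 | ⟨h1, h2⟩
        · refine Nat.floor_le_of_le ?_
          push_cast
          have hmin0 : 0 ≤ min (rad s 0 j + e) 1 := by
            refine le_min ?_ zero_le_one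
            have : 0 ≤ rad s 0 j := by
              unfold rad
              rw [if_neg hj0]
              exact hs0 _
            linarith
          have f3 := Nat.lt_floor_add_one (min (rad s 0 j + e) 1 * (J' : ℝ))
          have f4 := mul_le_mul_of_nonneg_left hJ'1 hmin0
          have e2 : (w₁ + min (rad s 0 j + e) 1 * (1 - w₁)) * (J : ℝ) =
            w₁ * J + min (rad s 0 j + e) 1 * ((1 - w₁) * J) := by ring
          linarith
        · rw [min_eq_right h1, one_mul, Nat.floor_natCast]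
          refine Nat.floor_le_of_le ?_
          push_cast
          have := mul_le_mul_of_nonneg_right h2 hJr
          linarith) hee κ g (fun j k v => φ v j k) (fun j k _ ω hω => by
      have h1 := hφ ω hω
      rw [← hW] at h1
      exact congrFun (congrFun h1 j) k)
  have hX := hGra.x (s := s) he.le (fun j => le_max_right _ _) (fun j => le_rfl)
  subst hW
  exact hX

end Pool.GEN
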