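import Pool.Agent.H71.GEN.Zact2
import Pool.Agent.H45.EXA.Zbas

/-!
# Activity at real scales

`VA S κ a b c`: in the class `S` the digits `a J, …, b J` of the velocity `κ` have at least the
entropy `c`, given the point and the digits before `a J` of all velocities. `NR`: the largest such
number. `ActM.real`: the numbers of the zoom at a real window. `z_actR`: the zooms at a real window
are active.
-/

set_option autoImplicit false

namespace Pool.GEN

open Finset Real MvPolynomial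
open Pool.Agent.H49.Ent Pool.Agent.H32.Dense Pool.STK Pool.KA Pool.KSAT Pool.K2S Pool.PB Pool.S6C
open Pool.FLF (Fam.sub)

variable {m n J : ℕ} {κ : Type}

/-- The number `c` is valid for the digits between `a J` and `b J` of the velocity `kap`. -/
def VA (S : PCl m) (kap : Fin m) (a b c : ℝ) : Prop :=
  ∀ h : ℝ, 0 < h → Bas S (fun J F A => (c - h) * Real.log 2 * J ≤
    CH (Pool.Agent.H49.Ent.cond F.p A True) (fun ω => F.D ⌊b * J⌋₊ ω kap)
      (fun ω => (F.D ⌊a * J⌋₊ ω, (F.X J ω, F.W ω))))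

/-- Positive probabilities. -/
def PosC (S : PCl m) : Prop :=
  ∀ (τ : ℝ) (J : ℕ) (F : Fam m J) (A : F.Ω → Prop), 0 < τ → S.St τ J F A → 0 < Pe F.p A

theorem VA.anti {S : PCl m} {kap : Fin m} {a b c c' : ℝ} (h : VA S kap a b c) (hc : c' ≤ c) :
    VA S kap a b c' := by
  intro h₁ hh₁
  refine Bas.mono 0 (h h₁ hh₁) fun J _ F A h2 => le_trans ?_ h2
  exact mul_le_mul_of_nonneg_right (mul_le_mul_of_nonneg_right (by linarith)
    (Real.log_pos one_lt_two).le) (Nat.cast_nonneg J)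

theorem VA.zero {S : PCl m} (hpos : PosC S) (kap : Fin m) (a b : ℝ) : VA S kap a b 0 := by
  intro h hh
  refine ⟨1, one_pos, 0, fun J _ F A hA => ?_⟩
  refine le_trans ?_ (CH_nonneg (isLaw_cond F.isLaw (hpos 1 J F A one_pos hA)).nonneg _ _)
  have h1 : 0 ≤ Real.log 2 * (J : ℝ) := by
    have := Real.log_pos (one_lt_two (α := ℝ))
    positivity
  have h2 : (0 - h) * Real.log 2 * (J : ℝ) = -(h * (Real.log 2 * J)) := by ring
  rw [h2]
  have := mul_nonneg hh.le h1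
  linarith

theorem VA.cl {S : PCl m} {kap : Fin m} {a b c : ℝ} (h : ∀ δ : ℝ, 0 < δ → VA S kap a b (c - δ)) :
    VA S kap a b c := by
  intro h₁ hh₁
  refine Bas.mono 0 (h (h₁ / 2) (half_pos hh₁) (h₁ / 2) (half_pos hh₁)) fun J _ F A h2 =>
    le_trans (le_of_eq ?_) h2
  ring

/-- Rational numbers give real numbers. -/
theorem VA.of {S : PCl m} (hpos : PosC S) {N : ℚ → ℚ → ℝ} {kap : Fin m} (hN : ActB N S kap)
    {a b : ℝ} {a' b' : ℚ} (h0 : 0 ≤ a') (hab : a' ≤ b') (h1 : b' ≤ 1) (ha : (a' : ℝ) ≤ a)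
    (hb : (b' : ℝ) ≤ b) : VA S kap a b (N a' b' - m * (a - a')) := by
  intro h hh
  have hl2 : 0 < Real.log 2 := Real.log_pos one_lt_two
  have ha0 : (0 : ℝ) ≤ a' := by exact_mod_cast h0
  have hb0 : (0 : ℝ) ≤ b' := by exact_mod_cast h0.trans hab
  obtain ⟨τ, hτ, J₁, hc⟩ := hN a' b' h0 hab h1 (h / 2) (half_pos hh)
  obtain ⟨J₂, hJ₂⟩ := lin (m * (Real.log 2 + Real.log 5)) (mul_pos (half_pos hh) hl2)
  refine ⟨τ, hτ, max J₁ J₂, fun J hJ F A hA => ?_⟩
  have hlow := hc J ((le_max_left _ _).trans hJ) F A hA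
  have hJ2 := hJ₂ J ((le_max_right _ _).trans hJ)
  have hJr : (0 : ℝ) ≤ J := Nat.cast_nonneg J
  have hq := isLaw_cond F.isLaw (hpos τ J F A hτ hA)
  simp only at hlow
  obtain ⟨μ, hμ⟩ : ∃ μ, μ = Pool.Agent.H49.Ent.cond F.p A True := ⟨_, rfl⟩
  beta_reduce
  rw [← hμ] at hlow hq ⊢
  have h0' := hq.nonneg
  obtain ⟨a₁, ha₁⟩ : ∃ a₁, a₁ = ⌊a * (J : ℝ)⌋₊ := ⟨_, rfl⟩
  obtain ⟨b₁, hb₁⟩ : ∃ b₁, b₁ = ⌊b * (J : ℝ)⌋₊ := ⟨_, rfl⟩
  obtain ⟨a₂, ha₂⟩ : ∃ a₂, a₂ = ⌊(a' : ℝ) * J⌋₊ := ⟨_, rfl⟩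
  obtain ⟨b₂, hb₂⟩ : ∃ b₂, b₂ = ⌊(b' : ℝ) * J⌋₊ := ⟨_, rfl⟩
  rw [← ha₁, ← hb₁]
  rw [← ha₂, ← hb₂] at hlow
  have hb12 : b₂ ≤ b₁ := by
    rw [hb₁, hb₂]
    exact Nat.floor_le_floor (mul_le_mul_of_nonneg_right hb hJr)
  have ha12 : a₂ ≤ a₁ := by
    rw [ha₁, ha₂]
    exact Nat.floor_le_floor (mul_le_mul_of_nonneg_right ha hJr)
  have hcoarse : ∀ {r r' : ℕ}, r ≤ r' → ∀ (k : Fin m) (ω ω' : F.Ω), F.D r' ω k = F.D r' ω' k →
      F.D r ω k = F.D r ω' k := by
    intro r r' hr k ω ω' hh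
    obtain ⟨l, hl'⟩ : ∃ l, r' = r + l := ⟨r' - r, by omega⟩
    have e1 : ∀ ω, F.D r ω k = ⌊((2 : ℝ) ^ r' * F.d ω k) / ((2 ^ l : ℕ) : ℝ)⌋ := by
      intro ω
      change ⌊(2 : ℝ) ^ r * F.d ω k⌋ = _
      congr 1
      rw [hl', pow_add]
      push_cast
      field_simp
    rw [e1, e1, Int.floor_div_natCast, Int.floor_div_natCast]
    have e3 : ⌊(2 : ℝ) ^ r' * F.d ω k⌋ = ⌊(2 : ℝ) ^ r' * F.d ω' k⌋ := hh
    rw [e3]
  have c1 : CH μ (fun ω => F.D b₂ ω kap) (fun ω => (F.D a₁ ω, (F.X J ω, F.W ω))) ≤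
      CH μ (fun ω => F.D b₁ ω kap) (fun ω => (F.D a₁ ω, (F.X J ω, F.W ω))) := by
    refine CH_mono_left h0' fun ω ω' _ _ hh' => ?_
    exact hcoarse hb12 kap ω ω' (Prod.ext_iff.mp hh').1
  have c2 := CH_le_add h0' (fun ω => F.D b₂ ω kap) (F.D a₁)
    (fun ω => (F.D a₂ ω, (F.X J ω, F.W ω)))
  have c3 : CH μ (F.D a₁) (fun ω => (F.D a₂ ω, (F.X J ω, F.W ω))) ≤
      m * Real.log (2 * 2 ^ (a₁ - a₂) + 3) := by
    refine ENP.CH_fl hq a₁ F.d (fun ω => (F.D a₂ ω, (F.X J ω, F.W ω))) (2 ^ (a₁ - a₂)) ?_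
    intro ω ω' _ _ hh i
    have d1 := Prod.ext_iff.mp hh
    have d2 := Plk.abs_sub_lt_of_floor (congrFun d1.1 i :
      ⌊(2 : ℝ) ^ a₂ * F.d ω i⌋ = ⌊(2 : ℝ) ^ a₂ * F.d ω' i⌋)
    simp only at d2
    rw [← mul_sub, abs_mul, abs_of_pos (by positivity : (0 : ℝ) < 2 ^ a₂)] at d2
    have pa : (0 : ℝ) < 2 ^ a₁ := by positivity
    rw [le_div_iff₀ pa]
    have d3 : (2 : ℝ) ^ a₁ = 2 ^ (a₁ - a₂) * 2 ^ a₂ := by
      rw [← pow_add]
      congr 1
      omega
    rw [d3]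
    have pc : (0 : ℝ) < 2 ^ (a₁ - a₂) := by positivity
    nlinarith
  have c4 : CH μ (fun ω => F.D b₂ ω kap) (fun ω => (F.D a₁ ω, (F.D a₂ ω, (F.X J ω, F.W ω)))) ≤
      CH μ (fun ω => F.D b₂ ω kap) (fun ω => (F.D a₁ ω, (F.X J ω, F.W ω))) := by
    refine CH_mono_cond h0' fun ω ω' _ _ hh => ?_
    have d1 := Prod.ext_iff.mp hh
    have d2 := Prod.ext_iff.mp d1.2
    exact Prod.ext d1.1 d2.2
  have c5 : Real.log (2 * 2 ^ (a₁ - a₂) + 3) ≤ (a - a') * J * Real.log 2 +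
      (Real.log 2 + Real.log 5) := by
    have e1 : (2 : ℝ) * 2 ^ (a₁ - a₂) + 3 ≤ 5 * 2 ^ (a₁ - a₂) := by
      have : (1 : ℝ) ≤ 2 ^ (a₁ - a₂) := one_le_pow₀ (by norm_num)
      linarith
    have e2 := Real.log_le_log (by positivity) e1
    rw [Real.log_mul (by norm_num) (by positivity), Real.log_pow] at e2
    have e3 : ((a₁ - a₂ : ℕ) : ℝ) ≤ (a - a') * J + 1 := by
      rw [Nat.cast_sub ha12]
      have f1 : (a₁ : ℝ) ≤ a * J := by
        rw [ha₁]
        exact Nat.floor_le (mul_nonneg (ha0.trans ha) hJr)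
      have f2 : (a' : ℝ) * J < a₂ + 1 := by
        rw [ha₂]
        exact Nat.lt_floor_add_one _
      have e4 : (a - a') * (J : ℝ) = a * J - a' * J := by ring
      linarith
    have e4 := mul_le_mul_of_nonneg_right e3 hl2.le
    have e5 : ((a - a') * (J : ℝ) + 1) * Real.log 2 = (a - a') * J * Real.log 2 + Real.log 2 := by
      ring
    linarith
  have c6 : (m : ℝ) * Real.log (2 * 2 ^ (a₁ - a₂) + 3) ≤
      m * ((a - a') * J * Real.log 2 + (Real.log 2 + Real.log 5)) :=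
    mul_le_mul_of_nonneg_left c5 (Nat.cast_nonneg m)
  have e6 : (N a' b' - m * (a - a') - h) * Real.log 2 * (J : ℝ) =
      (N a' b' - h / 2) * Real.log 2 * J - m * ((a - a') * J * Real.log 2) -
        h / 2 * Real.log 2 * J := by ring
  have e7 : (m : ℝ) * ((a - a') * J * Real.log 2 + (Real.log 2 + Real.log 5)) =
      m * ((a - a') * J * Real.log 2) + m * (Real.log 2 + Real.log 5) := by ring
  rw [e6]
  linarith

/-- **The number of the activity** at real scales, at most `B`. -/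
noncomputable def NR (S : PCl m) (kap : Fin m) (B a b : ℝ) : ℝ :=
  sSup {c | c ≤ B ∧ VA S kap a b c}

theorem NR.le {S : PCl m} {kap : Fin m} {B a b c : ℝ} (hc : c ≤ B) (h : VA S kap a b c) :
    c ≤ NR S kap B a b :=
  le_csSup ⟨B, fun _ hx => hx.1⟩ ⟨hc, h⟩

theorem NR.valid {S : PCl m} (hpos : PosC S) {kap : Fin m} {B : ℝ} (hB : 0 ≤ B) (a b : ℝ) :
    VA S kap a b (NR S kap B a b) := by
  refine VA.cl fun δ hδ => ?_
  have hne : {c | c ≤ B ∧ VA S kap a b c}.Nonempty := ⟨0, hB, VA.zero hpos kap a b⟩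
  obtain ⟨c, hc, hlt⟩ := exists_lt_of_lt_csSup hne (show NR S kap B a b - δ < NR S kap B a b by
    linarith)
  exact hc.2.anti hlt.le

/-- The numbers of the zoom at the real window `w`. -/
noncomputable def NZR (S : PCl m) (kap : Fin m) (B w : ℝ) (q q' : ℚ) : ℝ :=
  NR S kap B ((1 - w) * q) ((1 - w) * q') / (1 - w)

/-- **The pure part of (ACT) for the zoom at a real window.** -/
theorem ActM.real {S : PCl m} (hpos : PosC S) {N : ℚ → ℚ → ℝ} {al : ℝ} {g₀ : ℝ → ℝ} (hal : 0 ≤ al)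
    (h : ActM N al g₀) {kap : Fin m} (hN : ActB N S kap) {w : ℝ} (hw0 : 0 ≤ w) (hw1 : w < 1) :
    ActM (NZR S kap (al + 1) w) al (fun ε => min (g₀ (ε / 2)) 1) := by
  have h1w : (0 : ℝ) < 1 - w := by linarith
  intro ε hε g hg hgg M
  rcases Nat.eq_zero_or_pos M with rfl | hM
  · simp
  have hMr : (0 : ℝ) < M := by exact_mod_cast hM
  have hM1 : (1 : ℝ) ≤ M := by exact_mod_cast hM
  have hgr : (0 : ℝ) < g := by exact_mod_cast hg
  have hg0 : (g : ℝ) ≤ g₀ (ε / 2) := hgg.trans (min_le_left _ _)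
  have hg1 : (g : ℝ) ≤ 1 := hgg.trans (min_le_right _ _)
  obtain ⟨gr, hgr'⟩ : ∃ gr : ℝ, gr = (1 - w) * g := ⟨_, rfl⟩
  have gr0 : 0 < gr := by rw [hgr']; positivity
  have grg : gr ≤ g := by
    rw [hgr']
    nlinarith
  obtain ⟨δ, hδ⟩ : ∃ δ : ℝ, δ = ε / 2 * gr / (al + m * M + 1) := ⟨_, rfl⟩
  have hden : 0 < al + m * M + 1 := by positivity
  have hδ0 : 0 < δ := by rw [hδ]; positivity
  have hδe : δ * (al + m * M + 1) = ε / 2 * gr := by
    rw [hδ]
    field_simp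
  obtain ⟨g₁, hg₁a, hg₁b⟩ := exists_rat_btwn (show max (gr - δ) (gr / 2) < gr from
    max_lt (by linarith) (by linarith))
  have hg₁δ : gr - δ < g₁ := (le_max_left _ _).trans_lt hg₁a
  have hg₁0 : (0 : ℝ) < g₁ := by
    have := (le_max_right (gr - δ) (gr / 2)).trans_lt hg₁a
    linarith
  have hg₁0' : 0 < g₁ := by exact_mod_cast hg₁0
  have h2 := h (ε / 2) (half_pos hε) g₁ hg₁0' (by linarith) M
  have hsub : ((range M).filter fun i : ℕ => NZR S kap (al + 1) w (i * (g / M))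
      ((i + 1) * (g / M)) < (al - ε) * ((g : ℝ) / M)) ⊆
      ((range M).filter fun i : ℕ => N (i * (g₁ / M)) ((i + 1) * (g₁ / M)) <
      (al - ε / 2) * ((g₁ : ℝ) / M)) := by
    intro i hi
    rw [Finset.mem_filter, Finset.mem_range] at hi ⊢
    refine ⟨hi.1, ?_⟩
    by_contra hcon
    push Not at hcon
    refine absurd hi.2 (not_lt.2 ?_)
    have hiM : (i : ℝ) + 1 ≤ M := by exact_mod_cast hi.1
    have hi0 : (0 : ℝ) ≤ i := Nat.cast_nonneg i
    -- the intervals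
    have ea : (((i : ℚ) * (g₁ / M) : ℚ) : ℝ) = i * (g₁ / M) := by push_cast; ring
    have eb : ((((i : ℚ) + 1) * (g₁ / M) : ℚ) : ℝ) = (i + 1) * (g₁ / M) := by push_cast; ring
    have ea2 : (1 - w) * (((i : ℚ) * (g / M) : ℚ) : ℝ) = i * (gr / M) := by
      rw [hgr']
      push_cast
      ring
    have eb2 : (1 - w) * ((((i : ℚ) + 1) * (g / M) : ℚ) : ℝ) = (i + 1) * (gr / M) := by
      rw [hgr']
      push_cast
      ring
    have hdiv : (g₁ : ℝ) / M ≤ gr / M := div_le_div_of_nonneg_right hg₁b.le hMr.le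
    have hV : VA S kap ((1 - w) * (((i : ℚ) * (g / M) : ℚ) : ℝ))
        ((1 - w) * ((((i : ℚ) + 1) * (g / M) : ℚ) : ℝ))
        (N (i * (g₁ / M)) ((i + 1) * (g₁ / M)) - m * ((1 - w) * (((i : ℚ) * (g / M) : ℚ) : ℝ) -
          (((i : ℚ) * (g₁ / M) : ℚ) : ℝ))) := by
      refine VA.of hpos hN (by positivity) ?_ ?_ ?_ ?_
      · refine mul_le_mul_of_nonneg_right (by linarith) (by positivity)
      · have h3 : (((i : ℚ) + 1) * (g₁ / M)) ≤ 1 := by
          have h4 : ((((i : ℚ) + 1) * (g₁ / M) : ℚ) : ℝ) ≤ ((1 : ℚ) : ℝ) := by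
            rw [eb]
            push_cast
            have h5 : (g₁ : ℝ) ≤ 1 := by linarith
            calc ((i : ℝ) + 1) * (g₁ / M) ≤ M * (1 / M) := by
                  refine mul_le_mul hiM ?_ (by positivity) hMr.le
                  exact div_le_div_of_nonneg_right h5 hMr.le
              _ = 1 := by field_simp
          exact_mod_cast h4
        exact h3
      · rw [ea, ea2]
        exact mul_le_mul_of_nonneg_left hdiv hi0
      · rw [eb, eb2]
        exact mul_le_mul_of_nonneg_left hdiv (by linarith)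
    rw [ea, ea2] at hV
    have hd : (i : ℝ) * (gr / M) - i * (g₁ / M) ≤ δ := by
      have e1 : (i : ℝ) * (gr / M) - i * (g₁ / M) = i / M * (gr - g₁) := by
        field_simp
      rw [e1]
      have h3 : (i : ℝ) / M ≤ 1 := by
        rw [div_le_one hMr]
        linarith
      have h4 : 0 ≤ (i : ℝ) / M := by positivity
      nlinarith
    -- the number
    have hx : (al - ε) * (gr / M) ≤ NR S kap (al + 1)
        ((1 - w) * (((i : ℚ) * (g / M) : ℚ) : ℝ))
        ((1 - w) * ((((i : ℚ) + 1) * (g / M) : ℚ) : ℝ)) := by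
      refine NR.le ?_ ?_
      · have h3 : gr / M ≤ 1 := by
          rw [div_le_one hMr]
          linarith
        have h4 : 0 ≤ gr / M := by positivity
        calc (al - ε) * (gr / M) ≤ al * (gr / M) :=
              mul_le_mul_of_nonneg_right (by linarith) h4
          _ ≤ al * 1 := mul_le_mul_of_nonneg_left h3 hal
          _ ≤ al + 1 := by linarith
      · rw [ea2]
        refine hV.anti ?_
        have h3 : (m : ℝ) * (i * (gr / M) - i * (g₁ / M)) ≤ m * δ :=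
          mul_le_mul_of_nonneg_left hd (Nat.cast_nonneg m)
        refine le_trans ?_ (sub_le_sub hcon h3)
        -- the algebra
        have e1 : (al - ε / 2) * ((g₁ : ℝ) / M) = (al - ε / 2) * (gr / M) -
            (al - ε / 2) * ((gr - g₁) / M) := by ring
        have h4 : (al - ε / 2) * ((gr - g₁) / M) ≤ al * (δ / M) := by
          have h5 : (gr - g₁) / M ≤ δ / M := div_le_div_of_nonneg_right (by linarith) hMr.le
          have h6 : 0 ≤ (gr - g₁) / M := div_nonneg (by linarith) hMr.le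
          calc (al - ε / 2) * ((gr - g₁) / M) ≤ al * ((gr - g₁) / M) :=
                mul_le_mul_of_nonneg_right (by linarith) h6
            _ ≤ al * (δ / M) := mul_le_mul_of_nonneg_left h5 hal
        have h7 : al * (δ / M) + m * δ ≤ ε / 2 * (gr / M) := by
          have e2 : al * (δ / M) + m * δ = (δ * (al + m * M)) / M := by
            field_simp
          have e3 : ε / 2 * (gr / M) = ε / 2 * gr / M := by ring
          rw [e2, e3, ← hδe]
          refine div_le_div_of_nonneg_right ?_ hMr.le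
          exact mul_le_mul_of_nonneg_left (by linarith) hδ0.le
        have e4 : (al - ε) * (gr / M) = (al - ε / 2) * (gr / M) - ε / 2 * (gr / M) := by ring
        rw [e1, e4]
        linarith
    unfold NZR
    rw [le_div_iff₀ h1w]
    refine le_trans (le_of_eq ?_) hx
    rw [hgr']
    ring
  have h3 : (((range M).filter fun i : ℕ => NZR S kap (al + 1) w (i * (g / M))
      ((i + 1) * (g / M)) < (al - ε) * ((g : ℝ) / M)).card : ℝ) ≤
      ((range M).filter fun i : ℕ => N (i * (g₁ / M)) ((i + 1) * (g₁ / M)) <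
      (al - ε / 2) * ((g₁ : ℝ) / M)).card := by
    exact_mod_cast Finset.card_le_card hsub
  refine h3.trans (h2.trans ?_)
  exact mul_le_mul_of_nonneg_right (by linarith) hMr.le

end Pool.GEN
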