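import Pool.Agent.H45.EXA.Vgr
import Pool.Agent.H72.EXW.Full

/-!
# Fullness of each coordinate

`vst_crd`: each coordinate of a greedy order is full beyond its number, given the exact coordinates
before it and any closed function. `vst_ini`: the first coordinates are exact.
-/

set_option autoImplicit false

namespace Pool.GRW

open Finset Real MvPolynomial
open Pool.Agent.H49.Ent Pool.Agent.H32.Dense Pool.STK Pool.BFL Pool.KA Pool.KSAT Pool.K2S Pool.PB
open Pool.GEN Pool.S6C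

variable {m n J : ℕ}

/-- The coordinates before the place `j`, in a list which extends the order. -/
theorem img_eq {ε : Fin n → Fin m} {c : ℕ → Fin m} (hc : ∀ i : Fin n, c i = ε i) (j : Fin n) :
    (Iio j).image ε = (range j).image c := by
  ext x
  simp only [mem_image, mem_Iio, mem_range]
  constructor
  · rintro ⟨i, hi, rfl⟩
    exact ⟨i, hi, hc i⟩
  · rintro ⟨i, hi, rfl⟩
    exact ⟨⟨i, hi.trans j.2⟩, hi, (hc ⟨i, hi.trans j.2⟩).symm⟩

/-- **Fullness of each coordinate**, for families. -/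
theorem crd_fam {F : Fam m J} {A : F.Ω → Prop} (hA : 0 < Pe F.p A) {ε : Fin n → Fin m}
    {K e w : ℕ} {ρ P : Fin n → ℕ}
    (hlb : ∀ j, Lb F ((Iio j).image ε) (ε j) K e J w (ρ j) (P j) A)
    (hρ : ∀ j, ρ j ≤ J) (hP : ∀ j, P j ≤ J) {E : ℝ}
    (hex : ∀ (V : Type) (z : PtT F → V) (z' : LnT F → V),
      (∀ ω, A ω → z (ptr F J ω) = z' (slam F w ω)) →
      E ≤ CH (Pool.Agent.H49.Ent.cond F.p A True) (fun ω j => F.X J ω (ε j))
        (fun ω => (z' (slam F w ω), F.W ω)))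
    (V : Type) (z : PtT F → V) (z' : LnT F → V)
    (hz : ∀ ω, A ω → z (ptr F J ω) = z' (slam F w ω)) (i : Fin n) :
    E - ∑ j ∈ univ.erase i, (((J : ℝ) - P j + e) * Real.log 2 + Real.log (2 * m + 9)) ≤
      CH (Pool.Agent.H49.Ent.cond F.p A True) (fun ω => F.X J ω (ε i))
        (fun ω => ((fun l : Fin i => F.X J ω (ε ⟨l, l.2.trans i.2⟩)), z' (slam F w ω), F.W ω)) := by
  classical
  have hq := isLaw_cond F.isLaw hA
  have h0 := hq.nonneg
  have hqA : ∀ ω, 0 < Pool.Agent.H49.Ent.cond F.p A True ω → A ω := fun ω hω =>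
    of_eq_true ((cond_pos_iff F.isLaw.nonneg A True ω).1 hω).2
  choose V₁ y y' G hG using hlb
  obtain ⟨Z, hZ⟩ : ∃ Z : F.Ω → (V × (∀ j, V₁ j)) × (ℕ × F.ζ),
      Z = fun ω => ((z' (slam F w ω), fun j => y' j (slam F w ω)), F.W ω) := ⟨_, rfl⟩
  have hE := hex (V × (∀ j, V₁ j)) (fun p => (z p, fun j => y j p))
    (fun s => (z' s, fun j => y' j s)) (fun ω hω => by
      refine Prod.ext (hz ω hω) (funext fun j => ?_)
      exact (hG j).cls ω hω)
  have hE' : E ≤ CH (Pool.Agent.H49.Ent.cond F.p A True) (fun ω j => F.X J ω (ε j)) Z := by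
    rw [hZ]
    exact hE
  obtain ⟨b, hb⟩ : ∃ b : Fin n → ℝ, b = fun j => if j = i then
      CH (Pool.Agent.H49.Ent.cond F.p A True) (fun ω => F.X J ω (ε i))
        (fun ω => ((fun l : Fin i => F.X J ω (ε ⟨l, l.2.trans i.2⟩)), z' (slam F w ω), F.W ω))
      else ((J : ℝ) - P j + e) * Real.log 2 + Real.log (2 * m + 9) := ⟨_, rfl⟩
  have h1 := Pool.EXW.chain_le hq (fun (j : Fin n) ω => F.X J ω (ε j)) Z b (fun j => by
      by_cases hji : j = i
      · subst hji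
        rw [hb]
        simp only [if_true]
        refine CH_mono_cond h0 fun ω ω' _ _ hh => ?_
        have h4 := Prod.ext_iff.mp hh
        have h5 : Z ω = Z ω' := h4.2
        rw [hZ] at h5
        have h6 := Prod.ext_iff.mp h5
        refine Prod.ext (funext fun l => ?_) (Prod.ext (Prod.ext_iff.mp h6.1).1 h6.2)
        have h7 := congrFun h4.1 ⟨l, l.2.trans j.2⟩
        have h8 : (⟨l, l.2.trans j.2⟩ : Fin n) < j := l.2
        simp only [if_pos h8] at h7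
        exact h7
      · rw [hb]
        simp only [if_neg hji]
        refine Pool.EXW.one_cell (hG j) (hρ j) (hP j) hq hqA fun ω ω' _ _ hc => ?_
        have h2 := Prod.ext_iff.mp hc
        have h3 : Z ω = Z ω' := h2.2
        rw [hZ] at h3
        have h4 := Prod.ext_iff.mp h3
        have h5 := Prod.ext_iff.mp h4.1
        refine ⟨fun k hk => ?_, congrFun h5.2 j, congrArg Prod.fst h4.2⟩
        obtain ⟨l, hl, rfl⟩ := mem_image.1 hk
        have h6 := congrFun h2.1 l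
        simp only [if_pos (mem_Iio.1 hl)] at h6
        exact h6)
  have h2 : ∑ j, b j = CH (Pool.Agent.H49.Ent.cond F.p A True) (fun ω => F.X J ω (ε i))
        (fun ω => ((fun l : Fin i => F.X J ω (ε ⟨l, l.2.trans i.2⟩)), z' (slam F w ω), F.W ω)) +
      ∑ j ∈ univ.erase i, (((J : ℝ) - P j + e) * Real.log 2 + Real.log (2 * m + 9)) := by
    rw [← Finset.add_sum_erase _ _ (mem_univ i)]
    congr 1
    · rw [hb]
      simp only [if_true]
    · refine Finset.sum_congr rfl fun j hj => ?_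
      rw [hb]
      simp only [if_neg (Finset.ne_of_mem_erase hj)]
  have h3 := hE'.trans h1
  rw [h2] at h3
  linarith

/-- The initial exactness from the fullness of the coordinates: the chain rule. -/
theorem ini_fam {Ω : Type} [Fintype Ω] {q : Ω → ℝ} (h0 : ∀ ω, 0 ≤ q ω) {T : Type}
    (X : ℕ → Ω → ℤ) (Z : Ω → T) (b : ℕ → ℝ) (i : ℕ)
    (h : ∀ l < i, b l ≤ CH q (X l) (fun ω => ((fun l' : Fin l => X l' ω), Z ω))) :
    ∑ l ∈ range i, b l ≤ CH q (fun ω (l : Fin i) => X l ω) Z := by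
  induction i with
  | zero =>
    rw [Finset.sum_range_zero]
    exact CH_nonneg h0 _ _
  | succ i ih =>
    have h1 := ih fun l hl => h l (by omega)
    have h2 := h i (by omega)
    have h3 := CH_chain h0 (X i) (fun ω (l : Fin i) => X l ω) Z
    have h4 : CH q (fun ω => (X i ω, fun l : Fin i => X l ω)) Z ≤
        CH q (fun ω (l : Fin (i + 1)) => X l ω) Z := by
      refine CH_mono_left h0 fun ω ω' _ _ hh => ?_
      have h5 := (Prod.ext_iff.mp hh).1
      refine Prod.ext ?_ (funext fun l => ?_)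
      · exact congrFun h5 ⟨i, Nat.lt_succ_self i⟩
      · exact congrFun h5 ⟨l, by omega⟩
    rw [Finset.sum_range_succ]
    linarith

/-- The exactness of a greedy order, as a property of the class. -/
def VExa (S : PCl m) (L : Finset (Fin m) → Fin m → ℝ → ℝ → ℝ) (ε : Fin n → Fin m) (w : ℝ) :
    Prop :=
  ∀ ρ : ℝ, 0 < ρ → Bas S (fun J F A => ∀ (V : Type) (z : PtT F → V) (z' : LnT F → V),
      (∀ ω, A ω → z (ptr F J ω) = z' (slam F ⌊w * J⌋₊ ω)) →
      ((∑ j : Fin n, (1 - vs L ε w (j + 1))) - ρ) * Real.log 2 * J ≤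
        CH (Pool.Agent.H49.Ent.cond F.p A True)
        (fun ω j => F.X J ω (ε j)) (fun ω => (z' (slam F ⌊w * J⌋₊ ω), F.W ω)))

/-- **Fullness of each coordinate** of a greedy order, given the coordinates before it. -/
theorem vst_crd {S : PCl m} (hpos : Bas S (fun _ F A => 0 < Pe F.p A))
    {L : Finset (Fin m) → Fin m → ℝ → ℝ → ℝ} (hL : LamW S L) {ε : Fin n → Fin m} {c : ℕ → Fin m}
    (hcε : ∀ i : Fin n, c i = ε i) {w : ℝ} (hw0 : 0 < w) (hw : w < 1) (hg : Vgr L ε w)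
    (hct : Vct L ε w) (hex : VExa S L ε w) {ρ : ℝ} (hρ : 0 < ρ) :
    Bas S (fun J F A => ∀ (V : Type) (z : PtT F → V) (z' : LnT F → V),
      (∀ ω, A ω → z (ptr F J ω) = z' (slam F ⌊w * J⌋₊ ω)) → ∀ i < n,
      ((1 - vs L ε w (i + 1)) - ρ) * Real.log 2 * J ≤ CH (Pool.Agent.H49.Ent.cond F.p A True)
        (fun ω => F.X J ω (c i)) (fun ω => ((fun l : Fin i => F.X J ω (c l)),
          z' (slam F ⌊w * J⌋₊ ω), F.W ω))) := by
  classical
  have hl0 : 0 < Real.log 2 := Real.log_pos one_lt_two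
  have hl1 : Real.log 2 ≤ 1 := by
    have := Real.log_two_lt_d9
    linarith
  have hl2 : 1 / 2 ≤ Real.log 2 := by
    have := Real.log_two_gt_d9
    linarith
  obtain ⟨e, he⟩ : ∃ e : ℝ, e = ρ / (8 * ((n : ℝ) + 1)) := ⟨_, rfl⟩
  have hn0 : (0 : ℝ) ≤ n := Nat.cast_nonneg n
  have he0 : 0 < e := by rw [he]; positivity
  have he1 : (n : ℝ) * (2 * e) ≤ ρ / 4 := by
    have e1 : ((n : ℝ) + 1) * e = ρ / 8 := by
      rw [he]
      field_simp
    nlinarith
  obtain ⟨K, hK⟩ := vst_att hL hw0 hw hg hct he0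
  have hall : Bas S (fun J F A => ∀ j : Fin n, Lb F ((Iio j).image ε) (ε j) K ⌊e * J⌋₊ J ⌊w * J⌋₊
      ⌊min (vs L ε w j + e) 1 * J⌋₊ ⌊(vs L ε w (j + 1) - e) * J⌋₊ A) :=
    Bas.fin fun j => hK j j le_rfl
  obtain ⟨D, hD⟩ : ∃ D, D = (n : ℝ) * (1 + Real.log (2 * m + 9)) := ⟨_, rfl⟩
  obtain ⟨J₂, hJ₂⟩ := exists_nat_ge (D / (ρ / 8))
  refine ((hex (ρ / 4) (by linarith)).and (hall.and hpos)).mono J₂ fun J hJ F A h V z z' hz i hi => ?_
  obtain ⟨h1, h2, h3⟩ := h
  have hJ0 : (0 : ℝ) ≤ J := Nat.cast_nonneg J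
  have hJ2 : (J₂ : ℝ) ≤ J := by exact_mod_cast hJ
  have hD1 : D ≤ ρ / 8 * J := by
    have := hJ₂.trans hJ2
    rw [div_le_iff₀ (by linarith)] at this
    linarith
  have hPJ : ∀ j : Fin n, ⌊(vs L ε w (j + 1) - e) * J⌋₊ ≤ J := fun j =>
    fl_le (by linarith [vs_le1 hL ε hw.le (j + 1 : ℕ)]) J
  have h4 := crd_fam h3 h2 (fun j => fl_le (min_le_right _ _) J) hPJ h1 V z z' hz ⟨i, hi⟩
  have h5 : (fun ω => ((fun l : Fin i => F.X J ω (c l)), z' (slam F ⌊w * J⌋₊ ω), F.W ω)) =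
      fun ω => ((fun l : Fin i => F.X J ω (ε ⟨l, l.2.trans hi⟩)), z' (slam F ⌊w * J⌋₊ ω),
        F.W ω) := by
    funext ω
    congr 1
    funext l
    rw [← hcε ⟨l, l.2.trans hi⟩]
  rw [h5, show c i = ε ⟨i, hi⟩ from hcε ⟨i, hi⟩]
  refine le_trans ?_ h4
  have hlog : 0 ≤ Real.log (2 * (m : ℝ) + 9) := Real.log_nonneg (by
    have : (0 : ℝ) ≤ m := Nat.cast_nonneg m
    linarith)
  have h6 : ∑ j ∈ univ.erase (⟨i, hi⟩ : Fin n),
      (((J : ℝ) - (⌊(vs L ε w (j + 1) - e) * J⌋₊ : ℕ) + (⌊e * J⌋₊ : ℕ)) * Real.log 2 +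
        Real.log (2 * m + 9)) ≤ ∑ j ∈ univ.erase (⟨i, hi⟩ : Fin n),
      ((1 - vs L ε w (j + 1)) * Real.log 2 * J + (2 * e * J + (1 + Real.log (2 * m + 9)))) := by
    refine Finset.sum_le_sum fun j _ => ?_
    have k1 := Nat.lt_floor_add_one ((vs L ε w (j + 1) - e) * (J : ℝ))
    have k2 := Nat.floor_le (show 0 ≤ e * (J : ℝ) by positivity)
    have k3 : ((J : ℝ) - (⌊(vs L ε w (j + 1) - e) * J⌋₊ : ℕ) + (⌊e * J⌋₊ : ℕ)) ≤
        (1 - vs L ε w (j + 1)) * J + (2 * e * J + 1) := by linarith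
    have k4 := mul_le_mul_of_nonneg_right k3 hl0.le
    have k5 : (2 * e * J + 1) * Real.log 2 ≤ (2 * e * J + 1) * 1 :=
      mul_le_mul_of_nonneg_left hl1 (by positivity)
    nlinarith
  have h7 : ∑ j ∈ univ.erase (⟨i, hi⟩ : Fin n),
      ((1 - vs L ε w (j + 1)) * Real.log 2 * J + (2 * e * J + (1 + Real.log (2 * m + 9)))) ≤
      (∑ j : Fin n, (1 - vs L ε w (j + 1))) * Real.log 2 * J -
        (1 - vs L ε w (i + 1)) * Real.log 2 * J + n * (2 * e * J + (1 + Real.log (2 * m + 9))) := by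
    rw [Finset.sum_add_distrib, Finset.sum_const, Finset.card_erase_of_mem (mem_univ _),
      Finset.card_univ, Fintype.card_fin, nsmul_eq_mul, ← Finset.sum_mul, ← Finset.sum_mul]
    have e1 := Finset.add_sum_erase univ (fun j : Fin n => 1 - vs L ε w (j + 1))
      (mem_univ (⟨i, hi⟩ : Fin n))
    simp only at e1
    rw [← e1]
    have e2 : ((n - 1 : ℕ) : ℝ) ≤ n := by exact_mod_cast Nat.sub_le n 1
    have e3 := mul_le_mul_of_nonneg_right e2
      (show 0 ≤ 2 * e * J + (1 + Real.log (2 * m + 9)) by positivity)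
    nlinarith
  have h8 : (n : ℝ) * (2 * e * J + (1 + Real.log (2 * m + 9))) ≤ ρ / 4 * J + ρ / 8 * J := by
    have e1 : (n : ℝ) * (2 * e * J + (1 + Real.log (2 * m + 9))) = n * (2 * e) * J + D := by
      rw [hD]
      ring
    rw [e1]
    have := mul_le_mul_of_nonneg_right he1 hJ0
    linarith
  have h9 : ρ * Real.log 2 * J - ρ / 4 * Real.log 2 * J ≥ ρ / 4 * J + ρ / 8 * J := by
    have : ρ * J * (1 / 2) ≤ ρ * J * Real.log 2 := mul_le_mul_of_nonneg_left hl2 (by positivity)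
    nlinarith
  nlinarith

/-- **The first coordinates are exact.** -/
theorem vst_ini {S : PCl m} (hpos : Bas S (fun _ F A => 0 < Pe F.p A))
    {L : Finset (Fin m) → Fin m → ℝ → ℝ → ℝ} (hL : LamW S L) {ε : Fin n → Fin m} {c : ℕ → Fin m}
    (hcε : ∀ i : Fin n, c i = ε i) {w : ℝ} (hw0 : 0 < w) (hw : w < 1) (hg : Vgr L ε w)
    (hct : Vct L ε w) (hex : VExa S L ε w) {i : ℕ} (hi : i ≤ n) {ρ : ℝ} (hρ : 0 < ρ) :
    Bas S (fun J F A => ∀ (V : Type) (z : PtT F → V) (z' : LnT F → V),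
      (∀ ω, A ω → z (ptr F J ω) = z' (slam F ⌊w * J⌋₊ ω)) →
      ((∑ j : Fin i, (1 - vs L ε w (j + 1))) - ρ) * Real.log 2 * J ≤
        CH (Pool.Agent.H49.Ent.cond F.p A True)
        (fun ω (j : Fin i) => F.X J ω (c j)) (fun ω => (z' (slam F ⌊w * J⌋₊ ω), F.W ω))) := by
  classical
  have hl0 : 0 < Real.log 2 := Real.log_pos one_lt_two
  have hn0 : (0 : ℝ) ≤ n := Nat.cast_nonneg n
  refine ((vst_crd hpos hL hcε hw0 hw hg hct hex (ρ := ρ / ((n : ℝ) + 1)) (by positivity)).and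
    hpos).mono 0 fun J hJ F A h V z z' hz => ?_
  obtain ⟨h1, h3⟩ := h
  have hq := isLaw_cond F.isLaw h3
  have hJ0 : (0 : ℝ) ≤ J := Nat.cast_nonneg J
  have h4 := ini_fam hq.nonneg (fun l ω => F.X J ω (c l))
    (fun ω => (z' (slam F ⌊w * J⌋₊ ω), F.W ω))
    (fun l => ((1 - vs L ε w (l + 1)) - ρ / ((n : ℝ) + 1)) * Real.log 2 * J) i
    (fun l hl => h1 V z z' hz l (hl.trans_le hi))
  refine le_trans ?_ h4
  have e0 : ∑ l ∈ range i, ((1 - vs L ε w (l + 1)) - ρ / ((n : ℝ) + 1)) =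
      (∑ j : Fin i, (1 - vs L ε w (j + 1))) - i * (ρ / ((n : ℝ) + 1)) := by
    rw [Finset.sum_sub_distrib (fun l => 1 - vs L ε w (l + 1)) (fun _ => ρ / ((n : ℝ) + 1)),
      Finset.sum_const, card_range, nsmul_eq_mul,
      ← Fin.sum_univ_eq_sum_range (fun l => 1 - vs L ε w (l + 1)) i]
  rw [← Finset.sum_mul, ← Finset.sum_mul, e0]
  refine mul_le_mul_of_nonneg_right (mul_le_mul_of_nonneg_right ?_ hl0.le) hJ0
  have e1 : (i : ℝ) * (ρ / ((n : ℝ) + 1)) ≤ ρ := by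
    rw [mul_div_assoc', div_le_iff₀ (by positivity)]
    have : (i : ℝ) ≤ n := by exact_mod_cast hi
    nlinarith
  linarith

end Pool.GRW
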