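import Pool.Agent.H45.EXA.Exa
import Pool.Agent.H45.EXA.ActZ

/-!
# Exactness at real windows

`exar`: the form of `exax` for real windows.
-/

set_option autoImplicit false

namespace Pool.GEN

open Finset Real MvPolynomial
open Pool.Agent.H49.Ent Pool.Agent.H32.Dense Pool.STK Pool.KA Pool.KSAT Pool.K2S Pool.PB Pool.S6C
open Pool.FLF (Fam.sub)

variable {m n J : ℕ}

/-- **The velocities of the zooms are active**, real windows. -/
theorem zbas_actR {S : PCl m} {C₀ : ℝ} (hbs : TmC S C₀) {w₁ : ℝ} (hw0 : 0 < w₁) (hw11 : w₁ < 1)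
    {ε : Fin n → Fin m} {kap : Fin m} (hk0 : ∀ k : Fin n, (k : ℕ) = 0 → ε k = kap) {B₀ : ℝ}
    (hB₀ : 0 ≤ B₀) {h : ℝ} (hh : 0 < h) (i : ℕ) : ZBas S w₁ ε (fun J G B =>
      ∀ (q q' : ℚ) (k : Fin n), (k : ℕ) = 0 → Encodable.encode (q, q') ≤ i → 0 ≤ q → q ≤ q' →
        q' ≤ 1 → ¬ ActF (NZR S kap B₀ w₁) q q' h k J G B) := by
  have hpos : PosC S := fun τ J F A hτ hA => (hbs τ J F A hτ hA).1
  have hact : ∀ c : ℕ, ZBas S w₁ ε (fun J G B =>
      ∀ (q q' : ℚ) (k : Fin n), (k : ℕ) = 0 → Encodable.encode (q, q') = c → 0 ≤ q → q ≤ q' →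
        q' ≤ 1 → ¬ ActF (NZR S kap B₀ w₁) q q' h k J G B) := by
    intro c
    by_cases hc : ∃ (q q' : ℚ) (k : Fin n), (k : ℕ) = 0 ∧ Encodable.encode (q, q') = c ∧ 0 ≤ q ∧
        q ≤ q' ∧ q' ≤ 1
    · obtain ⟨q, q', k, hk, hqc, h0, h1, h2⟩ := hc
      obtain ⟨ψ, hψ, τ₀, hτ₀, J₀, hza⟩ := z_actR n (fun τ J F A hτ hS => (hbs τ J F A hτ hS).1)
        (kap := kap) hw0 hw11 (q := (q : ℝ)) (q' := (q' : ℝ)) (by exact_mod_cast h0)
        (by exact_mod_cast h1) (by exact_mod_cast h2) (NR.valid hpos hB₀ _ _) hh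
      refine ⟨ψ, hψ, τ₀, hτ₀, J₀, ?_⟩
      intro J hJ₀ F A hS κ z z' hcls hl J' hJ' B hB p p' k' hk' hpc _ _ _
      have e1 : (p, p') = (q, q') := Encodable.encode_injective (hpc.trans hqc.symm)
      obtain ⟨rfl, rfl⟩ := Prod.ext_iff.1 e1
      exact hza J hJ₀ F A hS κ z z' hcls hl J' hJ' ε k' (hk0 k' hk') B hB
    · refine ⟨1, one_pos, 1, one_pos, 0, ?_⟩
      intro J _ F A _ κ z z' _ hl J' hJ' B _ q q' k hk hqc h0 h1 h2
      exact absurd ⟨q, q', k, hk, hqc, h0, h1, h2⟩ hc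
  refine (ZBas.le i hact).mono fun J G B h1 q q' k hk hqc => ?_
  exact h1 _ hqc q q' k hk rfl

/-- **No bad property of the zooms**, real windows. -/
theorem zbas_fbadR {S : PCl m} {C₀ : ℝ} (hbs : TmC S C₀) {w₁ : ℝ} (hw0 : 0 < w₁) (hw11 : w₁ < 1)
    {ε : Fin n → Fin m} {kap : Fin m} (hk0 : ∀ k : Fin n, (k : ℕ) = 0 → ε k = kap) {B₀ : ℝ}
    (hB₀ : 0 ≤ B₀) {s : Fin n → ℝ} {d : ℕ → ℝ} {e : ℝ}
    (hb : ∀ l K : ℕ, e ≤ 1 / ((l : ℝ) + 1) →
      ZBas S w₁ ε (fun J G B => ¬ BtrX s (d l) (1 / ((l : ℝ) + 1)) K J G B)) (i : ℕ) :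
    ZBas S w₁ ε (fun J G B => ¬ FBadX (NZR S kap B₀ w₁) s d e i J G B) := by
  have hi0 : (0 : ℝ) < 1 / ((i : ℝ) + 1) := by positivity
  have h1 := zbas_actR hbs hw0 hw11 hk0 hB₀ hi0 i
  have h2 : ∀ l : ℕ, ZBas S w₁ ε (fun J G B => e ≤ 1 / ((l : ℝ) + 1) →
      ¬ BtrX s (d l) (1 / ((l : ℝ) + 1)) i J G B) := by
    intro l
    by_cases hl : e ≤ 1 / ((l : ℝ) + 1)
    · exact (hb l i hl).mono fun J G B h3 _ => h3
    · exact ⟨1, one_pos, 1, one_pos, 0, fun J _ F A _ κ z z' _ hl' J' hJ' B _ h3 => absurd h3 hl⟩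
  refine (h1.and (ZBas.le i h2)).mono fun J G B h3 hbad => ?_
  rcases hbad with ⟨q, q', k, a1, a2, a3, a4, a5, a6⟩ | ⟨l, a1, a2, a3⟩
  · exact h3.1 q q' k a1 a2 a3 a4 a5 a6
  · exact h3.2 l a1 a2 a3

/-- **Exactness at any real window.** Labels of the coordinates `ε k` over the coordinates `ε i`,
`i < j ≤ k`, with precision `s j - e` at the window `w₁`; no labels of the coordinates `ε j` with
precision `s j + 1 / (l + 1)` at the windows `w₁ + d l`, for all `l` with `e ≤ 1 / (l + 1)`. Then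
the coordinates `ε` of the positions are full above the precisions `s j`, given any function
which is closed at the window `w₁`. -/
theorem exar (n : ℕ) (hF : FZX n) : ∀ ρ al : ℝ, 0 < ρ → 0 < al → ∀ g₀ : ℝ → ℝ,
    (∀ ε : ℝ, 0 < ε → 0 < g₀ ε) → ∀ w₁ : ℝ, 0 < w₁ → w₁ < 1 →
    ∀ (s : Fin n → ℝ) (d : ℕ → ℝ), NumW w₁ s d → ∃ e : ℝ, 0 < e ∧
    ∀ (K₀ : ℕ) (N : ℚ → ℚ → ℝ), ActM N al g₀ → ∀ (m : ℕ) (C₀ : ℝ) (S : PCl m)
    (ε : Fin n → Fin m), Function.Injective ε → 0 ≤ C₀ → TmC S C₀ →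
    (∀ j k, j ≤ k → Bas S (fun J F A => Lb F ((Finset.Iio j).image ε) (ε k) K₀ ⌊e * J⌋₊ J
      ⌊w₁ * J⌋₊ ⌊min (rad s w₁ j + e) 1 * J⌋₊ ⌊(s j - e) * J⌋₊ A)) →
    (∀ l K : ℕ, e ≤ 1 / ((l : ℝ) + 1) → ∀ j : Fin n, s j + 1 / ((l : ℝ) + 1) ≤ 1 →
      Bas S (fun J F A => ¬ Lb F ((Finset.Iio j).image ε) (ε j) K ⌊d l * J⌋₊ J
        ⌊(w₁ + d l) * J⌋₊ ⌊(rad s w₁ j + d l) * J⌋₊ ⌊(s j + 1 / ((l : ℝ) + 1)) * J⌋₊ A)) →
    (∀ k : Fin n, (k : ℕ) = 0 → ActB N S (ε k)) →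
    Bas S (fun J F A => ∀ (V : Type) (z : PtT F → V) (z' : LnT F → V),
      (∀ ω, A ω → z (ptr F J ω) = z' (slam F ⌊w₁ * J⌋₊ ω)) →
      ((∑ j, (1 - s j)) - ρ) * Real.log 2 * J ≤ CH (Pool.Agent.H49.Ent.cond F.p A True)
        (fun ω j => F.X J ω (ε j)) (fun ω => (z' (slam F ⌊w₁ * J⌋₊ ω), F.W ω))) := by
  intro ρ al hρ hal g₀ hg₀ w₁ hw0 hw11 s d hnum
  have h01 : (0 : ℝ) < 1 - w₁ := by linarith
  -- the numbers of the zoom
  obtain ⟨sZ, hsZ⟩ : ∃ sZ : Fin n → ℝ, sZ = fun j => (s j - w₁) / (1 - w₁) := ⟨_, rfl⟩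
  have hsZj : ∀ j, sZ j * (1 - w₁) = s j - w₁ := by
    intro j
    rw [hsZ]
    field_simp
  have hL : ∀ l : ℕ, ∃ L : ℕ, 2 * ((l : ℝ) + 1) / (1 - w₁) ≤ L + 1 ∧
      (L : ℝ) + 1 ≤ 3 * ((l : ℝ) + 1) / (1 - w₁) := by
    intro l
    obtain ⟨L, hL⟩ : ∃ L, L = ⌊2 * ((l : ℝ) + 1) / (1 - w₁)⌋₊ := ⟨_, rfl⟩
    have h0 : 0 ≤ 2 * ((l : ℝ) + 1) / (1 - w₁) := by positivity
    refine ⟨L, ?_, ?_⟩
    · rw [hL]
      exact (Nat.lt_floor_add_one _).le
    · have h1 : (L : ℝ) ≤ 2 * ((l : ℝ) + 1) / (1 - w₁) := by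
        rw [hL]
        exact Nat.floor_le h0
      have h2 : (1 : ℝ) ≤ ((l : ℝ) + 1) / (1 - w₁) := by
        rw [le_div_iff₀ h01]
        have : (0 : ℝ) ≤ l := Nat.cast_nonneg l
        linarith
      have e1 : 3 * ((l : ℝ) + 1) / (1 - w₁) = 2 * ((l : ℝ) + 1) / (1 - w₁) +
        ((l : ℝ) + 1) / (1 - w₁) := by ring
      linarith
  choose L hL1 hL2 using hL
  obtain ⟨dZ, hdZ⟩ : ∃ dZ : ℕ → ℝ, dZ = fun l => min (d (L l) / 2) (1 / (4 * ((l : ℝ) + 1))) :=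
    ⟨_, rfl⟩
  have hdZ0 : ∀ l, 0 < dZ l := by
    intro l
    rw [hdZ]
    exact lt_min (half_pos (hnum.d0 _)) (by positivity)
  have hnumZ : NumX sZ dZ := by
    rw [hsZ]
    refine ⟨fun a b hab => ?_, fun j => ?_, fun j => ?_, fun j hj => ?_, hdZ0⟩
    · exact div_le_div_of_nonneg_right (sub_le_sub_right (hnum.ms hab) _) h01.le
    · exact div_nonneg (by linarith [hnum.sw j]) h01.le
    · rw [div_le_one h01]
      linarith [hnum.s1 j]
    · rw [hnum.z j hj, sub_self, zero_div]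
  obtain ⟨eZ, heZ, hmain⟩ := hF (ρ / 2) al (half_pos hρ) hal (fun ε => min (g₀ (ε / 2)) 1)
    (fun ε hε => lt_min (hg₀ _ (half_pos hε)) one_pos) sZ dZ hnumZ
  obtain ⟨e, he⟩ : ∃ e, e = eZ * (1 - w₁) / 4 := ⟨_, rfl⟩
  have he0 : 0 < e := by
    rw [he]
    positivity
  refine ⟨e, he0, ?_⟩
  intro K₀ N hN m C₀ S ε hinj hC₀ hbs hatt habs hact
  rcases Nat.eq_zero_or_pos n with rfl | hn
  · refine ⟨1, one_pos, 0, fun J _ F A hA V z z' _ => ?_⟩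
    refine le_trans ?_ (CH_nonneg (isLaw_cond F.isLaw (hbs 1 J F A one_pos hA).1).nonneg _ _)
    have h1 : (∑ j : Fin 0, (1 - s j)) - ρ ≤ 0 := by
      rw [Finset.univ_eq_empty, Finset.sum_empty]
      linarith
    exact mul_nonpos_of_nonpos_of_nonneg (mul_nonpos_of_nonpos_of_nonneg h1
      (Real.log_pos one_lt_two).le) (Nat.cast_nonneg J)
  obtain ⟨kap, hkap⟩ : ∃ kap, kap = ε ⟨0, hn⟩ := ⟨_, rfl⟩
  have hk0 : ∀ k : Fin n, (k : ℕ) = 0 → ε k = kap := fun k hk => by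
    rw [hkap]
    congr 1
    exact Fin.ext hk
  have hpos : PosC S := fun τ J F A hτ hA => (hbs τ J F A hτ hA).1
  have hactk : ActB N S kap := by
    rw [hkap]
    exact hact _ rfl
  have hradw : ∀ j : Fin n, w₁ + rad sZ 0 j * (1 - w₁) = rad s w₁ j := by
    intro j
    unfold rad
    split_ifs with h0
    · rw [zero_mul, add_zero]
    · rw [hsZj]
      ring
  have hmain' := hmain (K₀ + 1) (NZR S kap (al + 1) w₁)
    (ActM.real hpos hal.le hN hactk hw0.le hw11)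
  have hcore := exa_core (ε := ε) hC₀ hbs hw0 hw11 (half_pos hρ)
    (c := (∑ j, (1 - sZ j)) - ρ / 2) (Gr := fun J G => GraX (K₀ + 1) eZ sZ J G)
    (Bad := FBadX (NZR S kap (al + 1) w₁) sZ dZ eZ) hmain' (by
      intro i
      refine zbas_fbadR hbs hw0 hw11 hk0 (by linarith : 0 ≤ al + 1) (fun l K hl => ?_) i
      have a1 := hL1 l
      have a2 := hL2 l
      have l0 : (0 : ℝ) < (l : ℝ) + 1 := by positivity
      have L0 : (0 : ℝ) < (L l : ℝ) + 1 := by positivity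
      have b1 : 1 / ((L l : ℝ) + 1) ≤ (1 - w₁) / (2 * ((l : ℝ) + 1)) := by
        rw [div_le_div_iff₀ L0 (by positivity)]
        rw [div_le_iff₀ h01] at a1
        linarith
      have b2 : (1 - w₁) / (3 * ((l : ℝ) + 1)) ≤ 1 / ((L l : ℝ) + 1) := by
        rw [div_le_div_iff₀ (by positivity) L0]
        rw [le_div_iff₀ h01] at a2
        linarith
      have b3 : e ≤ 1 / ((L l : ℝ) + 1) := by
        refine le_trans ?_ b2
        rw [he, le_div_iff₀ (by positivity)]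
        rw [le_div_iff₀ l0] at hl
        have h1 : eZ * ((l : ℝ) + 1) * (1 - w₁) ≤ 1 * (1 - w₁) :=
          mul_le_mul_of_nonneg_right hl h01.le
        have e1 : eZ * (1 - w₁) / 4 * (3 * ((l : ℝ) + 1)) =
          3 / 4 * (eZ * ((l : ℝ) + 1) * (1 - w₁)) := by ring
        rw [e1]
        linarith
      have c1 : dZ l ≤ d (L l) / 2 := by rw [hdZ]; exact min_le_left _ _
      have c2 : dZ l ≤ 1 / (4 * ((l : ℝ) + 1)) := by rw [hdZ]; exact min_le_right _ _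
      have c3 : 1 / (4 * ((l : ℝ) + 1)) = 1 / ((l : ℝ) + 1) / 4 := by
        field_simp
      have c4 : (1 - w₁) / (2 * ((l : ℝ) + 1)) = 1 / ((l : ℝ) + 1) * (1 - w₁) / 2 := by
        field_simp
      have hq0 : 0 < 1 / ((l : ℝ) + 1) * (1 - w₁) := by positivity
      have c5 : dZ l * (1 - w₁) ≤ 1 / ((l : ℝ) + 1) * (1 - w₁) / 4 := by
        have := mul_le_mul_of_nonneg_right (c2.trans (le_of_eq c3)) h01.le
        linarith
      have c6 : dZ l * (1 - w₁) ≤ dZ l := by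
        have := hdZ0 l
        nlinarith
      obtain ⟨ψ, hψ, τ₀, hτ₀, J₀, hz⟩ := zbxw hC₀ hbs (w₁ := w₁) (D := d (L l))
        (dZ := dZ l) (h := 1 / ((l : ℝ) + 1)) (h₂ := 1 / ((L l : ℝ) + 1)) hw0 hw11
        (hnum.d1 _) (hdZ0 l) (by linarith [hnum.d0 (L l)]) (by positivity)
        (by linarith) hnum.sw hnum.ms hinj K (fun j hj => habs (L l) (K + 1) b3 j hj)
      refine ⟨ψ, hψ, τ₀, hτ₀, J₀, ?_⟩
      intro J hJ₀ F A hS κ z z' hcls hl' J' hJ' B hB hbt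
      refine hz J hJ₀ F A hS κ (fun ω => z' (slam F ⌊w₁ * J⌋₊ ω))
        (fun ω ω' h1 h2 h3 => ?_) (fun ω ω' _ _ h3 => by rw [h3]) J' hJ'.le (by omega) hl' B hB ?_
      · rw [← hcls ω h1, ← hcls ω' h2, h3]
      · obtain ⟨j, h1, h2⟩ := hbt
        rw [hsZ] at h1 h2
        exact ⟨j, h1, h2⟩) (by
      refine zgra hw0 hw11 heZ he0.le (e₁ := e) (by rw [he]; nlinarith [mul_pos heZ h01])
        hnumZ.s0 hnumZ.s1 hnumZ.z (P := fun j => s j - e) (R := fun j => min (rad s w₁ j + e) 1)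
        (fun j => ?_) (fun j => ?_) hinj hatt
      · by_cases h1 : sZ j ≤ eZ
        · exact Or.inl h1
        · right
          have e1 : (sZ j - eZ) * (1 - w₁) = sZ j * (1 - w₁) - eZ * (1 - w₁) := by ring
          rw [e1, hsZj, he]
          have := mul_pos heZ h01
          linarith
      · right
        by_cases h1 : 1 ≤ rad sZ 0 j + eZ
        · exact Or.inr ⟨h1, min_le_right _ _⟩
        · left
          push Not at h1
          rw [min_eq_left h1.le]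
          have e1 : (rad sZ 0 j + eZ) * (1 - w₁) = rad sZ 0 j * (1 - w₁) + eZ * (1 - w₁) := by
            ring
          have h2 := hradw j
          have h3 := mul_pos heZ h01
          refine lt_of_le_of_lt (min_le_left _ _) ?_
          rw [e1, he]
          linarith)
  refine Bas.mono 0 hcore fun J _ F A h V z z' hcls => ?_
  refine le_trans ?_ (h V z z' hcls)
  refine mul_le_mul_of_nonneg_right (mul_le_mul_of_nonneg_right ?_
    (Real.log_pos one_lt_two).le) (Nat.cast_nonneg J)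
  have e1 : ((∑ j, (1 - sZ j)) - ρ / 2) * (1 - w₁) = (∑ j, (1 - s j)) - ρ / 2 * (1 - w₁) := by
    rw [sub_mul, Finset.sum_mul]
    congr 1
    refine Finset.sum_congr rfl fun j _ => ?_
    have := hsZj j
    linear_combination -this
  rw [e1]
  have h2 : ρ / 2 * (1 - w₁) ≤ ρ / 2 := by nlinarith
  linarith

end Pool.GEN
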