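import Pool.Agent.H54.GN.ThrX
import Pool.Agent.H54.GN.NoLb
import Pool.Agent.H45.EXA.ExaR

/-!
# The numbers of the closed labels of a class at all windows

`tqe`: labels of the coordinate `k` over `I`, of class `K`, with gradients at most `2 ^ (e J)`, at
the windows `2 ^ (-w J)` and on the balls of radius `2 ^ (-ρ J)`. `lamw`: every class has a subclass
with numbers `L I k w r`: the limits of the thresholds for the gradients tending to zero and the
windows and the radii tending to `w` and `r` from above. Better labels are absent in a neighbourhood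
(`LamW.abs`); the numbers at smaller windows are attained (`LamW.att`).
-/

set_option autoImplicit false

namespace Pool.GEN

open Finset Real MvPolynomial
open Pool.Agent.H49.Ent Pool.Agent.H32.Dense Pool.STK Pool.KA Pool.KSAT Pool.K2S Pool.PB Pool.S6C

variable {m J : ℕ}

/-- The property with a threshold: labels of the coordinate `k` over `I`. -/
noncomputable def tqe (m : ℕ) (I : Finset (Fin m)) (k : Fin m) (K : ℕ) (e w ρ : ℝ) : Thr m where
  Q s J F A := s ≤ 0 ∨ Lb F I k K ⌊e * J⌋₊ J ⌊w * J⌋₊ ⌊ρ * J⌋₊ ⌊s * J⌋₊ A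
  her := by
    rintro s J F A B hB (h | h)
    · exact Or.inl h
    · exact Or.inr (Lb.hered F I k K _ _ _ _ _ A B hB h)
  anti := by
    rintro s s' J F A hs (h | h)
    · exact Or.inl (hs.trans h)
    · right
      obtain ⟨V, z, z', G, h⟩ := h
      exact ⟨V, z, z', G, h.mono (Finset.Subset.refl _) le_rfl le_rfl le_rfl
        (Nat.floor_le_floor (mul_le_mul_of_nonneg_right hs (Nat.cast_nonneg J)))⟩
  triv := Or.inl

/-- Attained up to the defect, hence below another threshold. -/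
theorem tqe_le {S : PCl m} (hS : S.Ne) {I I' : Finset (Fin m)} {k k' : Fin m} {K K' : ℕ}
    {e e' w w' ρ ρ' s s' : ℝ} (hs1 : s ≤ 1)
    (att : ∀ τ > 0, Clp S ((tqe m I k K e w ρ).Q (s - τ)))
    (no : ∀ h : ℝ, s' < h → h ≤ 1 → ∃ ψ > 0, Clp S ((tqe m I' k' K' e' w' ρ').No h ψ))
    (imp : ∀ (J : ℕ) (F : Fam m J) (A : F.Ω → Prop) (P : ℕ),
      Lb F I k K ⌊e * J⌋₊ J ⌊w * J⌋₊ ⌊ρ * J⌋₊ P A →
      Lb F I' k' K' ⌊e' * J⌋₊ J ⌊w' * J⌋₊ ⌊ρ' * J⌋₊ P A) : s ≤ s' := by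
  by_contra hcon
  push Not at hcon
  have h1 : (s + s') / 2 ≤ s' := by
    refine le_of_att hS no (by linarith) fun δ hδ => ?_
    refine Clp.mono (J₂ := 0) (att ((s - s') / 2) (by linarith)) ?_
    intro J _ F A hQ
    refine ⟨A, fun _ h => h, ?_, ?_⟩
    · have : Real.exp (-(δ * J)) ≤ 1 := by
        rw [Real.exp_le_one_iff]
        have : 0 ≤ δ * (J : ℝ) := by positivity
        linarith
      calc _ ≤ 1 * Pe F.p A := mul_le_mul_of_nonneg_right this (Pe_nonneg F.isLaw A)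
        _ = _ := one_mul _
    · have e : s - (s - s') / 2 = (s + s') / 2 := by ring
      rw [e] at hQ
      rcases hQ with hQ | hQ
      · exact Or.inl hQ
      · exact Or.inr (imp J F A _ hQ)
  linarith

/-- **The numbers of a class**: `L I k w r` for the labels of the coordinate `k` over `I`, at the
windows `w` and on balls of radius `r`. -/
structure LamW (S : PCl m) (L : Finset (Fin m) → Fin m → ℝ → ℝ → ℝ) : Prop where
  le1 : ∀ I k w r, L I k w r ≤ 1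
  low : ∀ I k w r, w ≤ 1 → w ≤ L I k w r
  mono : ∀ I I' k w w' r r', I ⊆ I' → w ≤ w' → r ≤ r' → L I k w r ≤ L I' k w' r'
  att : ∀ (I : Finset (Fin m)) (k : Fin m) (w' w r e : ℝ), 0 < w → w ≤ 1 → w' < w → 0 < e →
    ∃ K, Bas S (fun J F A => Lb F I k K ⌊e * J⌋₊ J ⌊w * J⌋₊ ⌊(r + e) * J⌋₊
      ⌊(L I k w' r - e) * J⌋₊ A)
  abs : ∀ (I : Finset (Fin m)) (k : Fin m) (w r h : ℝ), L I k w r < h → h ≤ 1 →
    ∃ d : ℝ, 0 < d ∧ w + d ≤ 1 ∧ ∀ d' ≤ d, ∀ K, Bas S (fun J F A =>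
      ¬ Lb F I k K ⌊d' * J⌋₊ J ⌊(w + d') * J⌋₊ ⌊(r + d') * J⌋₊ ⌊h * J⌋₊ A)

theorem LamW.sub {S S' : PCl m} {L : Finset (Fin m) → Fin m → ℝ → ℝ → ℝ} (h : LamW S L)
    (hs : ∀ (τ : ℝ) (J : ℕ) (F : Fam m J) (A : F.Ω → Prop), S'.St τ J F A → S.St τ J F A) :
    LamW S' L where
  le1 := h.le1
  low := h.low
  mono := h.mono
  att I k w' w r e h1 h2 h3 h4 := by
    obtain ⟨K, hK⟩ := h.att I k w' w r e h1 h2 h3 h4
    exact ⟨K, Bas.sub hs hK⟩
  abs I k w r h' h1 h2 := by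
    obtain ⟨d, hd, hd1, h3⟩ := h.abs I k w r h' h1 h2
    exact ⟨d, hd, hd1, fun d' hd' K => Bas.sub hs (h3 d' hd' K)⟩

/-- **The numbers exist.** -/
theorem lamw (S : PCl m) (hS : S.Ne) :
    ∃ (S' : PCl m) (L : Finset (Fin m) → Fin m → ℝ → ℝ → ℝ), S'.Ne ∧
      (∀ (τ : ℝ) (J : ℕ) (F : Fam m J) (A : F.Ω → Prop), S'.St τ J F A → S.St τ J F A) ∧
      LamW S' L := by
  classical
  rcases isEmpty_or_nonempty (Fin m) with hem | hem
  · exact ⟨S, fun _ _ _ _ => 1, hS, fun _ _ _ _ h => h, ⟨fun _ k => hem.elim k,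
      fun _ k => hem.elim k, fun _ _ k => hem.elim k, fun _ k => hem.elim k,
      fun _ k => hem.elim k⟩⟩
  -- the thresholds
  have hinh : Nonempty (Finset (Fin m) × Fin m × ℕ × ℚ × ℚ × ℚ) := ⟨(∅, hem.some, 0, 0, 0, 0)⟩
  obtain ⟨f, hf⟩ := exists_surjective_nat (Finset (Fin m) × Fin m × ℕ × ℚ × ℚ × ℚ)
  obtain ⟨s, S', h01, hsub, hne, hatt, hno, -⟩ := ext S hS
    (fun n => tqe m (f n).1 (f n).2.1 (f n).2.2.1 (f n).2.2.2.1 (f n).2.2.2.2.1 (f n).2.2.2.2.2)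
  obtain ⟨g, hg⟩ : ∃ g : Finset (Fin m) × Fin m × ℕ × ℚ × ℚ × ℚ → ℕ, ∀ a, f (g a) = a :=
    ⟨Function.surjInv hf, Function.surjInv_eq hf⟩
  obtain ⟨T, hT⟩ : ∃ T : Finset (Fin m) → Fin m → ℕ → ℚ → ℚ → ℚ → ℝ,
    T = fun I k K e w q => s (g (I, k, K, e, w, q)) := ⟨_, rfl⟩
  have T0 : ∀ I k K e w q, 0 ≤ T I k K e w q := fun I k K e w q => by rw [hT]; exact (h01 _).1
  have T1 : ∀ I k K e w q, T I k K e w q ≤ 1 := fun I k K e w q => by rw [hT]; exact (h01 _).2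
  have att : ∀ (I : Finset (Fin m)) (k : Fin m) (K : ℕ) (e w q : ℚ), ∀ τ > 0,
      Bas S' ((tqe m I k K e w q).Q (T I k K e w q - τ)) := by
    intro I k K e w q τ hτ
    obtain ⟨n, hn⟩ : ∃ n, n = g (I, k, K, e, w, q) := ⟨_, rfl⟩
    have hfn : f n = (I, k, K, e, w, q) := by rw [hn, hg]
    have hg0 : (0 : ℝ) < (n : ℝ) + 1 := by positivity
    refine ⟨min τ (1 / ((n : ℝ) + 1)), lt_min hτ (by positivity), 0, fun J _ F A hA => ?_⟩
    have h2 := hatt n (min τ (1 / ((n : ℝ) + 1))) J F A (by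
      calc _ ≤ ((n : ℝ) + 1) * (1 / ((n : ℝ) + 1)) :=
            mul_le_mul_of_nonneg_left (min_le_right _ _) hg0.le
        _ = 1 := by field_simp) hA
    have e1 : T I k K e w q = s n := by rw [hT, hn]
    rw [e1]
    simp only [hfn] at h2
    exact (tqe m I k K e w q).anti (by linarith [min_le_left τ (1 / ((n : ℝ) + 1))]) h2
  have no : ∀ I k K (e w q : ℚ), ∀ h : ℝ, T I k K e w q < h → h ≤ 1 →
      ∃ ψ > 0, Clp S' ((tqe m I k K e w q).No h ψ) := by
    intro I k K e w q h h1 h2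
    obtain ⟨n, hn⟩ : ∃ n, n = g (I, k, K, e, w, q) := ⟨_, rfl⟩
    have hfn : f n = (I, k, K, e, w, q) := by rw [hn, hg]
    have e1 : T I k K e w q = s n := by rw [hT, hn]
    rw [e1] at h1
    have h3 := hno n h h1 h2
    simp only [hfn] at h3
    exact h3
  -- comparison
  have cmp : ∀ (I I' : Finset (Fin m)) (k : Fin m) (K : ℕ) (e w q : ℚ), I ⊆ I' →
      w ≤ 1 → T I k K e w q ≤ T I' k K e w q := by
    intro I I' k K e w q hI hw
    refine tqe_le hne (T1 I k K e w q) (fun τ hτ => (att I k K e w q τ hτ).clp)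
      (no I' k K e w q) ?_
    intro J F A P h
    exact h.mono hI le_rfl le_rfl le_rfl le_rfl (fl_le (by exact_mod_cast hw) J) le_rfl le_rfl
  have Tlow : ∀ (I : Finset (Fin m)) (k : Fin m) (K : ℕ) (e w q : ℚ), 0 < w → w ≤ 1 →
      (w : ℝ) ≤ T I k K e w q := by
    intro I k K e w q hw hw1
    have hw0 : (0 : ℝ) < w := by exact_mod_cast hw
    have hw1' : (w : ℝ) ≤ 1 := by exact_mod_cast hw1
    by_contra hcon
    push Not at hcon
    have h1 : (T I k K e w q + w) / 2 ≤ T I k K e w q := by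
      refine le_of_att hne (no I k K e w q) (by linarith) fun δ hδ => ?_
      obtain ⟨J₁, hJ₁⟩ := box_thrn m (w := (w : ℝ)) (h := (T I k K e w q + w) / 2)
        (by linarith [T0 I k K e w q]) (by linarith) hw1' hδ
      refine Clp.of one_pos J₁ fun J hJ F A _ => ?_
      obtain ⟨B, h2, h3, h4⟩ := hJ₁ J hJ F A
      exact ⟨B, h2, h3, Or.inr (h4 I k K _ _)⟩
    linarith
  -- the suprema over the classes
  have bd1 : ∀ I k e w q, BddAbove (Set.range fun K => T I k K e w q) := by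
    intro I k e w q
    exact ⟨1, by rintro y ⟨K, rfl⟩; exact T1 I k K e w q⟩
  obtain ⟨Λ, hΛ⟩ : ∃ Λ : Finset (Fin m) → Fin m → ℚ → ℚ → ℚ → ℝ,
    Λ = fun I k e w q => ⨆ K, T I k K e w q := ⟨_, rfl⟩
  have leΛ : ∀ I k K e w q, T I k K e w q ≤ Λ I k e w q := by
    intro I k K e w q
    rw [hΛ]
    exact le_ciSup (bd1 I k e w q) K
  have Λle : ∀ I k e w q b, (∀ K, T I k K e w q ≤ b) → Λ I k e w q ≤ b := by
    intro I k e w q b h
    rw [hΛ]
    exact ciSup_le h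
  have Λ0 : ∀ I k e w q, 0 ≤ Λ I k e w q := fun I k e w q =>
    (T0 I k 0 e w q).trans (leΛ I k 0 e w q)
  have Λ1 : ∀ I k e w q, Λ I k e w q ≤ 1 := fun I k e w q =>
    Λle I k e w q 1 fun K => T1 I k K e w q
  -- the numbers
  obtain ⟨R, hR⟩ : ∃ R : Finset (Fin m) → Fin m → ℝ → ℝ → Set ℝ, R = fun I k (w r : ℝ) =>
    {x | x = 1 ∨ ∃ e w' q : ℚ, 0 < e ∧ 0 < w' ∧ w' ≤ 1 ∧ w < w' ∧ r < q ∧ x = Λ I k e w' q} :=
    ⟨_, rfl⟩
  have R1 : ∀ I k w r, (1 : ℝ) ∈ R I k w r := fun I k w r => by rw [hR]; exact Or.inl rfl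
  have Rin : ∀ I k (w r : ℝ) (e w' q : ℚ), 0 < e → 0 < w' → w' ≤ 1 → w < w' → r < q →
      Λ I k e w' q ∈ R I k w r := fun I k w r e w' q h1 h2 h3 h4 h5 => by
    rw [hR]
    exact Or.inr ⟨e, w', q, h1, h2, h3, h4, h5, rfl⟩
  have Rmem : ∀ I k w r x, x ∈ R I k w r → x = 1 ∨ ∃ e w' q : ℚ, 0 < e ∧ 0 < w' ∧ w' ≤ 1 ∧
      w < w' ∧ r < q ∧ x = Λ I k e w' q := fun I k w r x h => by rw [hR] at h; exact h
  have Rbd : ∀ I k w r, BddBelow (R I k w r) := by
    intro I k w r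
    refine ⟨0, fun x hx => ?_⟩
    rcases Rmem _ _ _ _ _ hx with rfl | ⟨e, w', q, -, -, -, -, -, rfl⟩
    · exact zero_le_one
    · exact Λ0 _ _ _ _ _
  refine ⟨S', fun I k w r => sInf (R I k w r), hne, hsub, ?_⟩
  refine ⟨fun I k w r => csInf_le (Rbd I k w r) (R1 I k w r), fun I k w r hw => ?_,
    fun I I' k w w' r r' hI hw hr => ?_, fun I k w' w r e hw hw1 hww he => ?_,
    fun I k w r h hL hh1 => ?_⟩
  · refine le_csInf ⟨1, R1 I k w r⟩ fun x hx => ?_
    rcases Rmem _ _ _ _ _ hx with rfl | ⟨e, w', q, -, h2, h3, h4, -, rfl⟩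
    · exact hw
    · exact h4.le.trans ((Tlow I k 0 e w' q h2 h3).trans (leΛ I k 0 e w' q))
  · refine le_csInf ⟨1, R1 I' k w' r'⟩ fun x hx => ?_
    rcases Rmem _ _ _ _ _ hx with rfl | ⟨e, w'', q, h1, h2, h3, h4, h5, rfl⟩
    · exact csInf_le (Rbd I k w r) (R1 I k w r)
    · refine (csInf_le (Rbd I k w r) (Rin I k w r e w'' q h1 h2 h3 (lt_of_le_of_lt hw h4)
        (lt_of_le_of_lt hr h5))).trans ?_
      exact Λle I k e w'' q _ fun K => (cmp I I' k K e w'' q hI h3).trans (leΛ I' k K e w'' q)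
  · -- attained
    obtain ⟨w'', h1, h2⟩ := exists_rat_btwn (show max w' 0 < w from max_lt hww hw)
    obtain ⟨q, h3, h4⟩ := exists_rat_btwn (show r < r + e by linarith)
    obtain ⟨e'', h5, h6⟩ := exists_rat_btwn he
    have h0w : (0 : ℝ) < w'' := (le_max_right _ _).trans_lt h1
    have h0w' : (0 : ℚ) < w'' := by exact_mod_cast h0w
    have hw''1 : w'' ≤ 1 := by
      have : (w'' : ℝ) ≤ 1 := h2.le.trans hw1
      exact_mod_cast this
    have h0e : (0 : ℚ) < e'' := by exact_mod_cast h5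
    have hle : sInf (R I k w' r) ≤ Λ I k e'' w'' q :=
      csInf_le (Rbd I k w' r) (Rin I k w' r e'' w'' q h0e h0w' hw''1
        ((le_max_left _ _).trans_lt h1) h3)
    have hex : ∃ K, sInf (R I k w' r) - e / 2 < T I k K e'' w'' q := by
      by_contra hcon
      push Not at hcon
      have h7 := Λle I k e'' w'' q _ hcon
      linarith
    obtain ⟨K, hK⟩ := hex
    have hTl := Tlow I k K e'' w'' q h0w' hw''1
    obtain ⟨τ, hτ⟩ : ∃ τ, τ = min (e / 2) ((w'' : ℝ) / 2) := ⟨_, rfl⟩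
    have hτ0 : 0 < τ := by rw [hτ]; exact lt_min (by linarith) (by linarith)
    have hτ1 : τ ≤ e / 2 := by rw [hτ]; exact min_le_left _ _
    have hτ2 : τ ≤ (w'' : ℝ) / 2 := by rw [hτ]; exact min_le_right _ _
    refine ⟨K, Bas.mono 0 (att I k K e'' w'' q τ hτ0) ?_⟩
    intro J _ F A hQ
    have hJ : (0 : ℝ) ≤ J := Nat.cast_nonneg J
    rcases hQ with hQ | hQ
    · exfalso
      linarith
    · refine hQ.mono (Finset.Subset.refl _) le_rfl ?_ le_rfl ?_ (fl_le hw1 J) ?_ ?_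
      · exact Nat.floor_le_floor (mul_le_mul_of_nonneg_right h6.le hJ)
      · exact Nat.floor_le_floor (mul_le_mul_of_nonneg_right h2.le hJ)
      · exact Nat.floor_le_floor (mul_le_mul_of_nonneg_right h4.le hJ)
      · exact Nat.floor_le_floor (mul_le_mul_of_nonneg_right (by linarith) hJ)
  · -- absent
    obtain ⟨x, hx, hxh⟩ := exists_lt_of_csInf_lt ⟨1, R1 I k w r⟩ hL
    rcases Rmem _ _ _ _ _ hx with rfl | ⟨e, w', q, h1, h2, h3, h4, h5, rfl⟩
    · exact absurd hxh (not_lt.2 hh1)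
    have h1' : (0 : ℝ) < e := by exact_mod_cast h1
    have h3' : (w' : ℝ) ≤ 1 := by exact_mod_cast h3
    refine ⟨min (e : ℝ) (min ((w' : ℝ) - w) ((q : ℝ) - r)),
      lt_min h1' (lt_min (by linarith) (by linarith)), ?_, fun d' hd' K => ?_⟩
    · have := (min_le_right (e : ℝ) (min ((w' : ℝ) - w) ((q : ℝ) - r))).trans (min_le_left _ _)
      linarith
    · have d1 : d' ≤ e := hd'.trans (min_le_left _ _)
      have d2 : d' ≤ w' - w := hd'.trans ((min_le_right _ _).trans (min_le_left _ _))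
      have d3 : d' ≤ q - r := hd'.trans ((min_le_right _ _).trans (min_le_right _ _))
      have hTh : T I k K e w' q < h := lt_of_le_of_lt (leΛ I k K e w' q) hxh
      obtain ⟨ψ, hψ, hc'⟩ := no I k K e w' q h hTh hh1
      refine Bas.neg (Q := fun J F A => Lb F I k K ⌊d' * J⌋₊ J ⌊(w + d') * J⌋₊
        ⌊(r + d') * J⌋₊ ⌊h * J⌋₊ A) (fun J F => Lb.hered F _ _ _ _ _ _ _ _) ?_
      refine Clp.mono (J₂ := 0) hc' ?_
      intro J _ F A hN hG
      have hJ : (0 : ℝ) ≤ J := Nat.cast_nonneg J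
      refine hN A (fun _ h => h) ?_ (Or.inr ?_)
      · have : Real.exp (-(ψ * J)) ≤ 1 := by
          rw [Real.exp_le_one_iff]
          have : 0 ≤ ψ * (J : ℝ) := by positivity
          linarith
        calc _ ≤ 1 * Pe F.p A := mul_le_mul_of_nonneg_right this (Pe_nonneg F.isLaw A)
          _ = _ := one_mul _
      · refine hG.mono (Finset.Subset.refl _) le_rfl ?_ le_rfl ?_ (fl_le h3' J) ?_ le_rfl
        · exact Nat.floor_le_floor (mul_le_mul_of_nonneg_right d1 hJ)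
        · exact Nat.floor_le_floor (mul_le_mul_of_nonneg_right (by linarith) hJ)
        · exact Nat.floor_le_floor (mul_le_mul_of_nonneg_right (by linarith) hJ)

/-- No label of an active coordinate over the empty set is better than the window. -/
theorem noLbW {S : PCl m} {κ : Fin m} {N : ℚ → ℚ → ℝ} {al : ℝ} (hal : 0 < al) (hQ : ActQ N al)
    (hB : ActB N S κ) (hpos : Bas S (fun _ F A => 0 < Pe F.p A)) {w h : ℝ} (hw : 0 ≤ w)
    (hh : 0 < h) (K : ℕ) (e ρ : ℕ → ℕ) : Bas S (fun J F A =>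
      ¬ Lb F ∅ κ K (e J) J ⌊(w + h / 4) * J⌋₊ (ρ J) ⌊(w + h) * J⌋₊ A) := by
  obtain ⟨c, hc0, hc⟩ := act_dir hal hQ hB hpos (show 0 < h / 4 by linarith)
  obtain ⟨J₂, hJ₂⟩ := exists_nat_gt (Real.log 9 / c)
  refine Bas.mono J₂ (hpos.and hc) ?_
  intro J hJ F A hA
  obtain ⟨hA, hH⟩ := hA
  rintro ⟨V, z, z', G, hG⟩
  have hJ0 : (0 : ℝ) ≤ J := Nat.cast_nonneg J
  have key := hG.ch_dir (q := ⌊h / 4 * J⌋₊) hA (by
      have h1 : ((⌊h / 4 * (J : ℝ)⌋₊ + ⌊(w + h / 4) * (J : ℝ)⌋₊ : ℕ) : ℝ) ≤ (w + h) * J := by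
        push_cast
        have a1 := Nat.floor_le (show 0 ≤ h / 4 * (J : ℝ) by positivity)
        have a2 := Nat.floor_le (show 0 ≤ (w + h / 4) * (J : ℝ) by positivity)
        have a3 : 0 ≤ h * (J : ℝ) := by positivity
        have e1 : h / 4 * (J : ℝ) + (w + h / 4) * J = (w + h) * J - h * J / 2 := by ring
        linarith
      exact Nat.le_floor h1)
    (fun ω => (F.X J ω, F.W ω)) (fun s => s) (fun ω => rfl)
  have h1 : (J₂ : ℝ) ≤ J := by exact_mod_cast hJ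
  have h2 : Real.log 9 / c < J := lt_of_lt_of_le hJ₂ h1
  rw [div_lt_iff₀ hc0] at h2
  have h3 := hH.trans key
  linarith

/-- **The number of an active coordinate** over the empty set is the window. -/
theorem LamW.act {S : PCl m} (hS : S.Ne) {L : Finset (Fin m) → Fin m → ℝ → ℝ → ℝ}
    (hL : LamW S L) {κ : Fin m} {N : ℚ → ℚ → ℝ} {al : ℝ} (hal : 0 < al) (hQ : ActQ N al)
    (hB : ActB N S κ) (hpos : Bas S (fun _ F A => 0 < Pe F.p A)) {w r : ℝ} (hw : 0 ≤ w)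
    (hw1 : w < 1) : L ∅ κ w r = w := by
  refine le_antisymm ?_ (hL.low _ _ _ _ hw1.le)
  refine le_of_forall_pos_le_add fun h hh => ?_
  by_contra hcon
  push Not at hcon
  -- a label at a larger window
  obtain ⟨h', hh'⟩ : ∃ h', h' = min (h / 2) ((1 - w) / 2) := ⟨_, rfl⟩
  have hh'0 : 0 < h' := by rw [hh']; exact lt_min (by linarith) (by linarith)
  have hh'1 : h' ≤ h / 2 := by rw [hh']; exact min_le_left _ _
  have hh'2 : h' ≤ (1 - w) / 2 := by rw [hh']; exact min_le_right _ _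
  obtain ⟨K, hK⟩ := hL.att ∅ κ w (w + h' / 4) r (h' / 2) (by linarith) (by linarith)
    (by linarith) (by linarith)
  have h2 := noLbW hal hQ hB hpos hw hh'0 K (fun J => ⌊h' / 2 * J⌋₊)
    (fun J => ⌊(r + h' / 2) * J⌋₊)
  refine Clp.not_false hS (Clp.mono (J₂ := 0) (hK.and h2).clp ?_)
  intro J _ F A hAB
  obtain ⟨h3, h4⟩ := hAB
  have hJ : (0 : ℝ) ≤ J := Nat.cast_nonneg J
  refine h4 (h3.mono (Finset.Subset.refl _) le_rfl le_rfl le_rfl le_rfl
    (fl_le (by linarith) J) le_rfl ?_)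
  exact Nat.floor_le_floor (mul_le_mul_of_nonneg_right (by linarith) hJ)

end Pool.GEN
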