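import Pool.Agent.H45.EXA.Zbt

/-!
# No better labels in the zooms: a list of coordinates

`zlbs`: the form of `zlb` for all coordinates. `zbx`: the zooms at a small window, same numbers.
`zbxw`: the zooms at any window.
-/

set_option autoImplicit false

namespace Pool.GEN

open Finset Real MvPolynomial
open Pool.Agent.H49.Ent Pool.Agent.H32.Dense Pool.STK Pool.KA Pool.KSAT Pool.K2S Pool.PB Pool.S6C
open Pool.FLF (Fam.sub)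

variable {m n J : ℕ} {κ : Type}

/-- The exponents of the absent labels of the zoom (with primes) and of the family. -/
structure ZIneq (w₁ w₂ w' R R' P P' e e' : ℝ) : Prop where
  w'0 : 0 ≤ w'
  w'1 : w' ≤ 1
  hw : w₁ + w' * (1 - w₁) < w₂
  w2 : w₂ < 1
  R0 : 0 ≤ R'
  R1 : R' ≤ 1
  hR : w₁ + R' * (1 - w₁) < R
  e0 : 0 ≤ e'
  e1 : e' < 1
  he : e' * (1 - w₁) < e
  P0 : 0 ≤ P
  P'0 : 0 ≤ P'
  hP : P < w₁ + P' * (1 - w₁)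
  hPe : P < w₁ + (1 - e') * (1 - w₁)

/-- **No better labels in the zooms**, all coordinates. -/
theorem zlbs {S : PCl m} {C₀ : ℝ} (hC₀ : 0 ≤ C₀) (hbs : TmC S C₀) {w₁ : ℝ} (hw0 : 0 < w₁)
    (hw11 : w₁ < 1) {Q : Fin n → Prop} {w₂ w' R R' P P' e e' : Fin n → ℝ}
    (hq : ∀ j, Q j → ZIneq w₁ (w₂ j) (w' j) (R j) (R' j) (P j) (P' j) (e j) (e' j))
    {ε : Fin n → Fin m} (hinj : Function.Injective ε) (K : ℕ)
    (habs : ∀ j : Fin n, Q j → Bas S (fun J F A =>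
      ¬ Lb F ((Finset.Iio j).image ε) (ε j) (K + 1) ⌊e j * J⌋₊ J ⌊w₂ j * J⌋₊ ⌊R j * J⌋₊
        ⌊P j * J⌋₊ A)) :
    ∃ ψ : ℝ, 0 < ψ ∧ ∃ τ₀ : ℝ, 0 < τ₀ ∧ ∃ J₀ : ℕ, ∀ J ≥ J₀, ∀ (F : Fam m J) (A : F.Ω → Prop),
    S.St τ₀ J F A → ∀ (κ : Type) (g : F.Ω → κ),
    (∀ ω ω', A ω → A ω' → ptr F J ω = ptr F J ω' → g ω = g ω') →
    (∀ ω ω', A ω → A ω' → slam F ⌊w₁ * J⌋₊ ω = slam F ⌊w₁ * J⌋₊ ω' → g ω = g ω') →
    ∀ (J' : ℕ) (h : ⌊w₁ * J⌋₊ + J' ≤ J), J' = J - ⌊w₁ * J⌋₊ →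
    ∀ (hl : IsLaw (Pool.Agent.H49.Ent.cond F.p A True)) (B : F.Ω → Prop),
    Real.exp (-(3 * ψ * J')) ≤ Pe (Pool.Agent.H49.Ent.cond F.p A True) B → ∀ j, Q j →
    ¬ Lb (zf (F.res A True hl) ⌊w₁ * J⌋₊ J' h g ε) (Finset.Iio j) j K ⌊e' j * J'⌋₊ J'
      ⌊w' j * J'⌋₊ ⌊R' j * J'⌋₊ ⌊P' j * J'⌋₊ B := by
  classical
  have hone : ∀ j : Fin n, ∃ ψ : ℝ, 0 < ψ ∧ ∃ τ₀ : ℝ, 0 < τ₀ ∧ ∃ J₀ : ℕ, ∀ J ≥ J₀,
      ∀ (F : Fam m J) (A : F.Ω → Prop),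
      S.St τ₀ J F A → ∀ (κ : Type) (g : F.Ω → κ),
      (∀ ω ω', A ω → A ω' → ptr F J ω = ptr F J ω' → g ω = g ω') →
      (∀ ω ω', A ω → A ω' → slam F ⌊w₁ * J⌋₊ ω = slam F ⌊w₁ * J⌋₊ ω' → g ω = g ω') →
      ∀ (J' : ℕ) (h : ⌊w₁ * J⌋₊ + J' ≤ J), J' = J - ⌊w₁ * J⌋₊ →
      ∀ (hl : IsLaw (Pool.Agent.H49.Ent.cond F.p A True)) (B : F.Ω → Prop),
      Real.exp (-(3 * ψ * J')) ≤ Pe (Pool.Agent.H49.Ent.cond F.p A True) B → Q j →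
      ¬ Lb (zf (F.res A True hl) ⌊w₁ * J⌋₊ J' h g ε) (Finset.Iio j) j K ⌊e' j * J'⌋₊ J'
        ⌊w' j * J'⌋₊ ⌊R' j * J'⌋₊ ⌊P' j * J'⌋₊ B := by
    intro j
    by_cases hj : Q j
    swap
    · exact ⟨1, one_pos, 1, one_pos, 0, fun J _ F A _ κ g _ _ J' h _ hl B _ h1 => absurd h1 hj⟩
    obtain ⟨a1, a2, a3, a4, a5, a6, a7, a8, a9, a10, a11, a12, a13, a14⟩ := hq j hj
    obtain ⟨ψ, hψ, τ₀, hτ₀, J₀, hz⟩ := zlb hC₀ hbs hw0 hw11 a1 a2 a3 a4 a5 a6 a7 a8 a9 a10 a11 a12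
      a13 a14 (Finset.Iio j) j ε hinj K (habs j hj)
    refine ⟨ψ, hψ, τ₀, hτ₀, J₀, ?_⟩
    intro J hJ F A hS κ g hgp hgl J' h hJ' hl B hB _ hL
    exact hz J hJ F A hS κ g hgp hgl J' h hJ' B hB (lb_zf_res hl hL)
  choose ψ hψ τ₀ hτ₀ J₀ hz using hone
  obtain ⟨ψm, hψm, hψm'⟩ : ∃ ψm : ℝ, 0 < ψm ∧ ∀ j, ψm ≤ ψ j := by
    rcases isEmpty_or_nonempty (Fin n) with he | he
    · exact ⟨1, one_pos, fun j => he.elim j⟩
    · obtain ⟨j₀, -, hj₀⟩ := Finset.exists_min_image (Finset.univ : Finset (Fin n)) ψ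
        Finset.univ_nonempty
      exact ⟨ψ j₀, hψ j₀, fun j => hj₀ j (Finset.mem_univ j)⟩
  obtain ⟨τm, hτm, hτm'⟩ : ∃ τm : ℝ, 0 < τm ∧ ∀ j, τm ≤ τ₀ j := by
    rcases isEmpty_or_nonempty (Fin n) with he | he
    · exact ⟨1, one_pos, fun j => he.elim j⟩
    · obtain ⟨j₀, -, hj₀⟩ := Finset.exists_min_image (Finset.univ : Finset (Fin n)) τ₀
        Finset.univ_nonempty
      exact ⟨τ₀ j₀, hτ₀ j₀, fun j => hj₀ j (Finset.mem_univ j)⟩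
  refine ⟨ψm, hψm, τm, hτm, ∑ j, J₀ j, ?_⟩
  intro J hJ F A hS κ g hgp hgl J' h hJ' hl B hB j hj
  refine hz j J ((Finset.single_le_sum (f := J₀) (fun _ _ => Nat.zero_le _)
    (Finset.mem_univ j)).trans hJ) F A (S.mono (hτm' j) hS) κ g hgp hgl J' h hJ' hl B ?_ hj
  refine le_trans (Real.exp_le_exp.2 ?_) hB
  have h3 : ψm * (J' : ℝ) ≤ ψ j * J' := mul_le_mul_of_nonneg_right (hψm' j) (Nat.cast_nonneg _)
  linarith

/-- **The zooms at a small window**: the same numbers `s`. -/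
theorem zbx {S : PCl m} {C₀ : ℝ} (hC₀ : 0 ≤ C₀) (hbs : TmC S C₀) {w₁ D dZ h h₂ : ℝ}
    (hw0 : 0 < w₁) (hw11 : w₁ < 1) (hD : D < 1) (hdZ : 0 < dZ) (hwD : w₁ + dZ < D)
    (hh : 0 < h₂) (hh2 : h₂ < h) (hdh : dZ + h₂ ≤ h)
    {s : Fin n → ℝ} (hs0 : ∀ j, 0 ≤ s j) (hsm : Monotone s)
    {ε : Fin n → Fin m} (hinj : Function.Injective ε) (K : ℕ)
    (habs : ∀ j : Fin n, s j + h₂ ≤ 1 → Bas S (fun J F A =>
      ¬ Lb F ((Finset.Iio j).image ε) (ε j) (K + 1) ⌊D * J⌋₊ J ⌊D * J⌋₊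
        ⌊(rad s 0 j + D) * J⌋₊ ⌊(s j + h₂) * J⌋₊ A)) :
    ∃ ψ : ℝ, 0 < ψ ∧ ∃ τ₀ : ℝ, 0 < τ₀ ∧ ∃ J₀ : ℕ, ∀ J ≥ J₀, ∀ (F : Fam m J) (A : F.Ω → Prop),
    S.St τ₀ J F A → ∀ (κ : Type) (g : F.Ω → κ),
    (∀ ω ω', A ω → A ω' → ptr F J ω = ptr F J ω' → g ω = g ω') →
    (∀ ω ω', A ω → A ω' → slam F ⌊w₁ * J⌋₊ ω = slam F ⌊w₁ * J⌋₊ ω' → g ω = g ω') →
    ∀ (J' : ℕ) (hJ : ⌊w₁ * J⌋₊ + J' ≤ J), J' = J - ⌊w₁ * J⌋₊ →
    ∀ (hl : IsLaw (Pool.Agent.H49.Ent.cond F.p A True)) (B : F.Ω → Prop),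
    Real.exp (-(3 * ψ * J')) ≤ Pe (Pool.Agent.H49.Ent.cond F.p A True) B →
    ¬ ∃ j : Fin n, s j + h ≤ 1 ∧
      Lb (zf (F.res A True hl) ⌊w₁ * J⌋₊ J' hJ g ε) (Finset.Iio j) j K ⌊dZ * J'⌋₊ J' ⌊dZ * J'⌋₊
        ⌊(rad s 0 j + dZ) * J'⌋₊ ⌊(s j + h) * J'⌋₊ B := by
  have h01 : 0 < 1 - w₁ := by linarith
  have hrad0 : ∀ j : Fin n, 0 ≤ rad s 0 j := by
    intro j
    unfold rad
    split_ifs
    · exact le_rfl
    · exact hs0 _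
  have hrads : ∀ j : Fin n, rad s 0 j ≤ s j := by
    intro j
    unfold rad
    split_ifs with h0
    · exact hs0 j
    · refine hsm ?_
      rw [Fin.le_def]
      simp only
      omega
  obtain ⟨ψ, hψ, τ₀, hτ₀, J₀, hz⟩ := zlbs hC₀ hbs hw0 hw11 (Q := fun j => s j + h ≤ 1)
    (w₂ := fun _ => D) (w' := fun _ => dZ) (R := fun j => rad s 0 j + D)
    (R' := fun j => rad s 0 j + dZ) (P := fun j => s j + h₂) (P' := fun j => s j + h)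
    (e := fun _ => D) (e' := fun _ => dZ) (fun j hj => by
      have h1 := hrad0 j
      have h2 := hrads j
      have h3 := hs0 j
      have h4 : dZ * (1 - w₁) ≤ dZ := by nlinarith
      have h4' : dZ * (1 - w₁) < dZ := by nlinarith
      have h5 : (rad s 0 j + dZ) * (1 - w₁) ≤ rad s 0 j + dZ := by nlinarith
      have h6 : (s j + h) * (1 - w₁) = s j + h - w₁ * (s j + h) := by ring
      have h7 : w₁ * (s j + h) ≤ w₁ * 1 := mul_le_mul_of_nonneg_left hj hw0.le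
      have h8 : (1 - dZ) * (1 - w₁) = 1 - w₁ - dZ * (1 - w₁) := by ring
      exact ⟨hdZ.le, by linarith, by linarith, hD, by linarith, by linarith, by linarith,
        hdZ.le, by linarith, by linarith, by linarith, by linarith, by linarith, by linarith⟩)
    hinj K (fun j hj => habs j (by linarith))
  refine ⟨ψ, hψ, τ₀, hτ₀, J₀, ?_⟩
  intro J hJ₀ F A hS κ g hgp hgl J' hJ hJ' hl B hB hcon
  obtain ⟨j, hj, hL⟩ := hcon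
  exact hz J hJ₀ F A hS κ g hgp hgl J' hJ hJ' hl B hB j hj hL

/-- **The zooms at any window**: the numbers of the zoom are `(s j - w₁) / (1 - w₁)`. -/
theorem zbxw {S : PCl m} {C₀ : ℝ} (hC₀ : 0 ≤ C₀) (hbs : TmC S C₀) {w₁ D dZ h h₂ : ℝ}
    (hw0 : 0 < w₁) (hw11 : w₁ < 1) (hD : w₁ + D < 1) (hdZ : 0 < dZ) (hwD : dZ * (1 - w₁) < D)
    (hh : 0 < h₂) (hdh : h₂ + dZ * (1 - w₁) < h * (1 - w₁))
    {s : Fin n → ℝ} (hs0 : ∀ j, w₁ ≤ s j) (hsm : Monotone s)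
    {ε : Fin n → Fin m} (hinj : Function.Injective ε) (K : ℕ)
    (habs : ∀ j : Fin n, s j + h₂ ≤ 1 → Bas S (fun J F A =>
      ¬ Lb F ((Finset.Iio j).image ε) (ε j) (K + 1) ⌊D * J⌋₊ J ⌊(w₁ + D) * J⌋₊
        ⌊(rad s w₁ j + D) * J⌋₊ ⌊(s j + h₂) * J⌋₊ A)) :
    ∃ ψ : ℝ, 0 < ψ ∧ ∃ τ₀ : ℝ, 0 < τ₀ ∧ ∃ J₀ : ℕ, ∀ J ≥ J₀, ∀ (F : Fam m J) (A : F.Ω → Prop),
    S.St τ₀ J F A → ∀ (κ : Type) (g : F.Ω → κ),
    (∀ ω ω', A ω → A ω' → ptr F J ω = ptr F J ω' → g ω = g ω') →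
    (∀ ω ω', A ω → A ω' → slam F ⌊w₁ * J⌋₊ ω = slam F ⌊w₁ * J⌋₊ ω' → g ω = g ω') →
    ∀ (J' : ℕ) (hJ : ⌊w₁ * J⌋₊ + J' ≤ J), J' = J - ⌊w₁ * J⌋₊ →
    ∀ (hl : IsLaw (Pool.Agent.H49.Ent.cond F.p A True)) (B : F.Ω → Prop),
    Real.exp (-(3 * ψ * J')) ≤ Pe (Pool.Agent.H49.Ent.cond F.p A True) B →
    ¬ ∃ j : Fin n, (s j - w₁) / (1 - w₁) + h ≤ 1 ∧
      Lb (zf (F.res A True hl) ⌊w₁ * J⌋₊ J' hJ g ε) (Finset.Iio j) j K ⌊dZ * J'⌋₊ J' ⌊dZ * J'⌋₊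
        ⌊(rad (fun j => (s j - w₁) / (1 - w₁)) 0 j + dZ) * J'⌋₊
        ⌊((s j - w₁) / (1 - w₁) + h) * J'⌋₊ B := by
  have h01 : 0 < 1 - w₁ := by linarith
  have hx0 : ∀ j, 0 ≤ (s j - w₁) / (1 - w₁) := fun j =>
    div_nonneg (by linarith [hs0 j]) h01.le
  have hxe : ∀ j, (s j - w₁) / (1 - w₁) * (1 - w₁) = s j - w₁ := fun j => by field_simp
  have hrad0 : ∀ j : Fin n, 0 ≤ rad (fun j => (s j - w₁) / (1 - w₁)) 0 j := by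
    intro j
    unfold rad
    split_ifs
    · exact le_rfl
    · exact hx0 _
  have hrads : ∀ j : Fin n, rad (fun j => (s j - w₁) / (1 - w₁)) 0 j ≤
      (s j - w₁) / (1 - w₁) := by
    intro j
    unfold rad
    split_ifs with h0
    · exact hx0 j
    · refine div_le_div_of_nonneg_right (sub_le_sub_right (hsm ?_) _) h01.le
      rw [Fin.le_def]
      simp only
      omega
  have hrade : ∀ j : Fin n, w₁ + rad (fun j => (s j - w₁) / (1 - w₁)) 0 j * (1 - w₁) =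
      rad s w₁ j := by
    intro j
    unfold rad
    split_ifs with h0
    · rw [zero_mul, add_zero]
    · rw [hxe]
      ring
  obtain ⟨ψ, hψ, τ₀, hτ₀, J₀, hz⟩ := zlbs hC₀ hbs hw0 hw11
    (Q := fun j => (s j - w₁) / (1 - w₁) + h ≤ 1)
    (w₂ := fun _ => w₁ + D) (w' := fun _ => dZ) (R := fun j => rad s w₁ j + D)
    (R' := fun j => rad (fun j => (s j - w₁) / (1 - w₁)) 0 j + dZ) (P := fun j => s j + h₂)
    (P' := fun j => (s j - w₁) / (1 - w₁) + h)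
    (e := fun _ => D) (e' := fun _ => dZ) (fun j hj => by
      have h1 := hrad0 j
      have h2 := hrads j
      have h3 := hs0 j
      have h3' := hxe j
      have h5 := hrade j
      have hd1 : dZ < h := by
        by_contra hc
        push Not at hc
        have := mul_le_mul_of_nonneg_right hc h01.le
        linarith
      have h6 : ((s j - w₁) / (1 - w₁) + h) * (1 - w₁) =
          (s j - w₁) / (1 - w₁) * (1 - w₁) + h * (1 - w₁) := by ring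
      have h7 : (rad (fun j => (s j - w₁) / (1 - w₁)) 0 j + dZ) * (1 - w₁) =
          rad (fun j => (s j - w₁) / (1 - w₁)) 0 j * (1 - w₁) + dZ * (1 - w₁) := by ring
      have h8 : (1 - dZ) * (1 - w₁) = 1 - w₁ - dZ * (1 - w₁) := by ring
      have h9 := mul_le_mul_of_nonneg_right hj h01.le
      have h10 := hx0 j
      have h11 : 0 < dZ * (1 - w₁) := mul_pos hdZ h01
      exact ⟨hdZ.le, by linarith, by linarith, hD, by linarith, by linarith, by linarith,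
        hdZ.le, by linarith, by linarith, by linarith, by linarith, by linarith, by linarith⟩)
    hinj K (fun j hj => habs j (by
      have h9 := mul_le_mul_of_nonneg_right hj h01.le
      have h6 : ((s j - w₁) / (1 - w₁) + h) * (1 - w₁) =
          (s j - w₁) / (1 - w₁) * (1 - w₁) + h * (1 - w₁) := by ring
      have h3' := hxe j
      have h11 : 0 < dZ * (1 - w₁) := mul_pos hdZ h01
      linarith))
  refine ⟨ψ, hψ, τ₀, hτ₀, J₀, ?_⟩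
  intro J hJ₀ F A hS κ g hgp hgl J' hJ hJ' hl B hB hcon
  obtain ⟨j, hj, hL⟩ := hcon
  exact hz J hJ₀ F A hS κ g hgp hgl J' hJ hJ' hl B hB j hj hL

end Pool.GEN
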