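import Pool.Agent.H45.EXA.ExvB

/-!
# The thresholds of the chains at almost all windows

`bet_le_vst`: in a greedy order of the closed labels with exactness, the threshold of the chains on
the diagonal is at most the number of the closed labels, if this number is smaller than `1 - θ w`.
`bet_eq_vst`: equality. `pgr`: the order is greedy for the thresholds of the chains.
-/

set_option autoImplicit false

namespace Pool.GRW

open Finset Real MvPolynomial
open Pool.Agent.H49.Ent Pool.Agent.H32.Dense Pool.STK Pool.BFL Pool.KA Pool.KSAT Pool.K2S Pool.PB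
open Pool.GEN Pool.S6C Pool.CHT
open Pool.LBT (LSys Slo Tri ThrOf)

variable {m n J : ℕ}

/-- **The thresholds of the chains are at most the numbers of the closed labels.** -/
theorem bet_le_vst {θ : ℝ} (hθ : 0 < θ) {S : PCl m} (hS : S.Ne) {C₀ : ℝ} (hC₀ : 0 ≤ C₀)
    (htm : TmC S C₀) {L : Finset (Fin m) → Fin m → ℝ → ℝ → ℝ} (hL : LamW S L)
    {P : List (Fin m) × Fin m → ℝ → ℝ → ℝ} (hP : ThrOf (chsys m θ) S P)
    {ε : Fin n → Fin m} (hε : Function.Injective ε) {c : ℕ → Fin m}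
    (hcε : ∀ i : Fin n, c i = ε i) {w : ℝ} (hw : w ∈ Wv L ε) (hex : VExa S L ε w)
    {j : ℕ} (hj : j < n) (hlt : vs L ε w (j + 1) < 1 - θ * w) :
    bet P c j w w ≤ vs L ε w (j + 1) := by
  classical
  have hw0 := hw.1
  have hw1 := hw.2.1
  have hmono := hw.2.2.1.mono hL hw1.le
  have hs0 : ∀ l, w ≤ vs L ε w l := le_vs hL ε hw1.le
  by_contra hcon
  push Not at hcon
  obtain ⟨p, hp⟩ : ∃ p, p = P ((List.range j).map c, c j) w w := ⟨_, rfl⟩
  have hbp : bet P c j w w = p := by rw [hp]; rfl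
  rw [hbp] at hcon
  obtain ⟨h, hh⟩ : ∃ h, h = min ((p - vs L ε w (j + 1)) / 8) ((1 - θ * w - vs L ε w (j + 1)) / 8) :=
    ⟨_, rfl⟩
  have hh0 : 0 < h := by rw [hh]; exact lt_min (by linarith) (by linarith)
  have hh1 : 8 * h ≤ p - vs L ε w (j + 1) := by
    have : h ≤ (p - vs L ε w (j + 1)) / 8 := by rw [hh]; exact min_le_left _ _
    linarith
  have hh2 : 8 * h ≤ 1 - θ * w - vs L ε w (j + 1) := by
    have : h ≤ (1 - θ * w - vs L ε w (j + 1)) / 8 := by rw [hh]; exact min_le_right _ _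
    linarith
  have hθw : 0 < θ * w := mul_pos hθ hw0
  obtain ⟨K, hK⟩ := hP.att ((List.range j).map c, c j) w w h hw0 le_rfl hw1.le hh0 (by
    rw [← hp]
    linarith [hs0 (j + 1)])
  rw [← hp] at hK
  have hno := Bas.all (S := S) (j + 1) (fun i hi => chn_abs hC₀ htm hL hε hcε hw hex
    (show i < n by omega) K hh0 (by
      have : vs L ε w (i + 1) ≤ vs L ε w (j + 1) := hmono (by omega)
      linarith))
  obtain ⟨J₁, hJ₁⟩ := exists_nat_ge (1 / h)
  refine Clp.not_false hS (Bas.clp ((hK.and hno).mono J₁ ?_))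
  rintro J hJ F A ⟨hT, hno⟩
  have hJ0 : (0 : ℝ) ≤ J := Nat.cast_nonneg J
  have hJ1 : 1 ≤ h * J := by
    have h1 : (J₁ : ℝ) ≤ J := by exact_mod_cast hJ
    have h2 := hJ₁.trans h1
    rw [div_le_iff₀ hh0] at h2
    linarith
  obtain ⟨a₀, w₀, g, h1, h2, h3, h4, h5, hch⟩ : Cht θ ((List.range j).map c) (c j) K ⌊w * J⌋₊
    ⌊w * J⌋₊ ⌊(p - h) * J⌋₊ J F A := hT
  have hlen : ((List.range j).map c).length = j := by simp
  rw [hlen] at h4 h5 hch
  obtain ⟨e, he⟩ : ∃ e, e = lipE θ K ⌊w * J⌋₊ J := ⟨_, rfl⟩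
  rw [← he] at hch
  have hch' : ChN F c (j + 1) (fun _ => K) a₀ w₀ e g A := by
    refine ChN.congr hch (fun l hl => ?_) fun _ _ => rfl
    rcases Nat.lt_or_ge l j with h6 | h6
    · simp [h6]
    · have : l = j := by omega
      subst this
      simp
  have hwJf : ((⌊w * J⌋₊ : ℕ) : ℝ) ≤ w * J := Nat.floor_le (by positivity)
  have heJ : (e : ℝ) ≤ θ * w * J := by
    have e1 : (e : ℝ) ≤ |θ| * ⌊w * J⌋₊ := by
      rw [he]
      unfold lipE
      rcases le_or_gt 0 (|θ| * (⌊w * J⌋₊ : ℝ) - (J : ℝ) / (K + 1)) with h6 | h6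
      · have h7 := Nat.floor_le h6
        have : 0 ≤ (J : ℝ) / (K + 1) := by positivity
        linarith
      · rw [Nat.floor_of_nonpos h6.le, Nat.cast_zero]
        positivity
    rw [abs_of_pos hθ] at e1
    have e2 := mul_le_mul_of_nonneg_left hwJf hθ.le
    linarith
  obtain ⟨v, hv⟩ : ∃ v, v = ⌊w * J⌋₊ - a₀ := ⟨_, rfl⟩
  obtain ⟨T, hT⟩ : ∃ T : ℕ → ℕ, T = fun l => ⌊(vs L ε w (l + 1) + 2 * h) * J⌋₊ := ⟨_, rfl⟩
  have hTf : ∀ l, (T l : ℝ) ≤ (vs L ε w (l + 1) + 2 * h) * J := fun l => by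
    rw [hT]
    refine Nat.floor_le (mul_nonneg ?_ hJ0)
    linarith [hs0 (l + 1)]
  have hTl : ∀ l, (vs L ε w (l + 1) + h) * J ≤ T l := fun l => by
    have e1 := Nat.lt_floor_add_one ((vs L ε w (l + 1) + 2 * h) * (J : ℝ))
    have e2 : T l = ⌊(vs L ε w (l + 1) + 2 * h) * J⌋₊ := by rw [hT]
    rw [e2]
    linarith
  have hTv : ∀ l, v ≤ T l := fun l => by
    have e1 : ⌊w * J⌋₊ ≤ T l := by
      rw [hT]
      refine Nat.floor_le_floor (mul_le_mul_of_nonneg_right ?_ hJ0)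
      linarith [hs0 (l + 1)]
    omega
  have hexi : ∃ i, T i ≤ g i + v := by
    refine ⟨j, ?_⟩
    have e1 : T j ≤ ⌊(p - h) * J⌋₊ := by
      rw [hT]
      exact Nat.floor_le_floor (mul_le_mul_of_nonneg_right (by linarith) hJ0)
    omega
  obtain ⟨i, hi⟩ : ∃ i, i = Nat.find hexi := ⟨_, rfl⟩
  have hi1 : T i ≤ g i + v := by
    rw [hi]
    exact Nat.find_spec hexi
  have hi2 : ∀ l < i, g l + v < T l := by
    intro l hl
    have := Nat.find_min hexi (by rw [hi] at hl; exact hl)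
    omega
  have hij : i ≤ j := by
    rw [hi]
    refine Nat.find_min' hexi ?_
    have e1 : T j ≤ ⌊(p - h) * J⌋₊ := by
      rw [hT]
      exact Nat.floor_le_floor (mul_le_mul_of_nonneg_right (by linarith) hJ0)
    omega
  obtain ⟨g', hg'⟩ : ∃ g' : ℕ → ℕ, g' = fun l => if l = i then T i - v else g l := ⟨_, rfl⟩
  have hgi : g' i = T i - v := by rw [hg']; exact if_pos rfl
  have hgl : ∀ l, l ≠ i → g' l = g l := fun l hl => by rw [hg']; exact if_neg hl
  have hch2 : ChN F c (i + 1) (fun _ => K) a₀ w₀ e g' A := by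
    obtain ⟨G, H, hG⟩ := hch'
    have h6 : ChN F c (i + 1) (fun _ => K) a₀ w₀ e g A :=
      ⟨G, H, hG.mono (by omega) (fun _ => le_rfl) le_rfl le_rfl⟩
    refine h6.last (fun l hl => hgl l (by omega)) fun l hl => ?_
    have : l = i := by omega
    subst this
    rw [hgi]
    have := hTv l
    omega
  refine hno i (by omega) a₀ w₀ e g' h1 h2 (fun l hl => ?_) ?_ hch2
  · rw [← hv]
    have e1 : g' l + v ≤ T l := by
      rcases Nat.eq_or_lt_of_le hl with h6 | h6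
      · rw [h6, hgi]
        have := hTv i
        omega
      · rw [hgl l (by omega)]
        exact (hi2 l h6).le
    have e2 : (g' l : ℝ) + v ≤ (vs L ε w (l + 1) + 2 * h) * J :=
      le_trans (by exact_mod_cast e1) (hTf l)
    have e3 : vs L ε w (l + 1) ≤ vs L ε w (j + 1) := hmono (by omega)
    have e4 : (vs L ε w (l + 1) + 2 * h) * (J : ℝ) ≤ (1 - θ * w - 6 * h) * J :=
      mul_le_mul_of_nonneg_right (by linarith) hJ0
    nlinarith
  · rw [← hv]
    have e1 : T i ≤ g' i + v := by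
      rw [hgi]
      have := hTv i
      omega
    have e2 : (T i : ℝ) ≤ g' i + v := by exact_mod_cast e1
    exact (hTl i).trans e2

/-- **The thresholds of the chains are the numbers of the closed labels.** -/
theorem bet_eq_vst {θ : ℝ} (hθ : 0 < θ) {S : PCl m} (hS : S.Ne) {C₀ : ℝ} (hC₀ : 0 ≤ C₀)
    (htm : TmC S C₀) {L : Finset (Fin m) → Fin m → ℝ → ℝ → ℝ} (hL : LamW S L)
    {P : List (Fin m) × Fin m → ℝ → ℝ → ℝ} (hP : ThrOf (chsys m θ) S P)
    {ε : Fin n → Fin m} (hε : Function.Injective ε) {c : ℕ → Fin m}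
    (hcε : ∀ i : Fin n, c i = ε i) {w : ℝ} (hw : w ∈ Wp L P ε) (hex : VExa S L ε w)
    {j : ℕ} (hj : j < n) (hlt : vs L ε w (j + 1) < 1 - θ * w) :
    bet P c j w w = vs L ε w (j + 1) :=
  le_antisymm (bet_le_vst hθ hS hC₀ htm hL hP hε hcε hw.1 hex hj hlt)
    (vst_le_bet hθ hS htm ((tmc_bas htm one_pos).mono 0 fun _ _ _ _ h => h.1) hL hP hε hcε hw hex
      le_rfl hj)

/-- **The order is greedy for the thresholds of the chains**, below `1 - θ w`. -/
theorem pgr {θ : ℝ} (hθ : 0 < θ) {S : PCl m} (hS : S.Ne) {C₀ : ℝ} (hC₀ : 0 ≤ C₀)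
    (htm : TmC S C₀) {L : Finset (Fin m) → Fin m → ℝ → ℝ → ℝ} (hL : LamW S L)
    {P : List (Fin m) × Fin m → ℝ → ℝ → ℝ} (hP : ThrOf (chsys m θ) S P)
    {ε : Fin n → Fin m} (hε : Function.Injective ε) {c : ℕ → Fin m}
    (hcε : ∀ i : Fin n, c i = ε i) {w : ℝ} (hw : w ∈ Wp L P ε) (hex : VExa S L ε w)
    {j k : ℕ} (hjk : j ≤ k) (hk : k < n) :
    min (bet P c j w w) (1 - θ * w) ≤ P ((List.range j).map c, c k) w w := by
  have h1 := vst_le_bet hθ hS htm ((tmc_bas htm one_pos).mono 0 fun _ _ _ _ h => h.1) hL hP hε hcε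
    hw hex hjk hk
  rcases lt_or_ge (vs L ε w (j + 1)) (1 - θ * w) with h2 | h2
  · exact (min_le_left _ _).trans ((bet_le_vst hθ hS hC₀ htm hL hP hε hcε hw.1 hex
      (hjk.trans_lt hk) h2).trans h1)
  · exact (min_le_right _ _).trans (h2.trans h1)

/-- The number of a level is smaller than `1 - θ w` if and only if its threshold is. -/
theorem bet_lt_iff {θ : ℝ} (hθ : 0 < θ) {S : PCl m} (hS : S.Ne) {C₀ : ℝ} (hC₀ : 0 ≤ C₀)
    (htm : TmC S C₀) {L : Finset (Fin m) → Fin m → ℝ → ℝ → ℝ} (hL : LamW S L)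
    {P : List (Fin m) × Fin m → ℝ → ℝ → ℝ} (hP : ThrOf (chsys m θ) S P)
    {ε : Fin n → Fin m} (hε : Function.Injective ε) {c : ℕ → Fin m}
    (hcε : ∀ i : Fin n, c i = ε i) {w : ℝ} (hw : w ∈ Wp L P ε) (hex : VExa S L ε w)
    {j : ℕ} (hj : j < n) :
    bet P c j w w < 1 - θ * w ↔ vs L ε w (j + 1) < 1 - θ * w := by
  constructor
  · intro h
    exact (vst_le_bet hθ hS htm ((tmc_bas htm one_pos).mono 0 fun _ _ _ _ h => h.1) hL hP hε hcε
      hw hex le_rfl hj).trans_lt h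
  · intro h
    exact (bet_le_vst hθ hS hC₀ htm hL hP hε hcε hw.1 hex hj h).trans_lt h

end Pool.GRW
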