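import Pool.Agent.H45.EXA.Crd
import Pool.Agent.H45.EXA.Nbc
import Pool.Agent.H2.GEN.ChT
import Pool.Agent.H90.STAT.FulC

/-!
# The numbers of the closed labels and the thresholds of the chains

`vst_le_thr`: in a greedy order, the number of a coordinate is at most the thresholds of the chains
of natural exponents over the coordinates before it, at all larger windows; `vst_le_bet`: at the
window itself, if the thresholds are continuous on the diagonal. `vst_exb`: exactness with the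
thresholds.
-/

set_option autoImplicit false

namespace Pool.GRW

open Finset Real MvPolynomial
open Pool.Agent.H49.Ent Pool.Agent.H32.Dense Pool.STK Pool.BFL Pool.KA Pool.KSAT Pool.K2S Pool.PB
open Pool.GEN Pool.S6C Pool.CHT
open Pool.LBT (LSys Slo Tri ThrOf)

variable {m n J : ℕ}

/-- The gradients of the system, at real windows. -/
theorem le_lipE' {θ e w : ℝ} (hw : 0 ≤ w) (h : e < θ * w) : ∃ K₀ J₀ : ℕ, ∀ K ≥ K₀,
    ∀ J ≥ J₀, ⌊e * J⌋₊ ≤ lipE θ K ⌊w * J⌋₊ J := by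
  obtain ⟨θ', hθe⟩ : ∃ θ', θ' = |θ| := ⟨_, rfl⟩
  have hθ : 0 ≤ θ' := by rw [hθe]; exact abs_nonneg _
  have h0 : 0 < θ' * w - e := by
    have : θ * w ≤ θ' * w := mul_le_mul_of_nonneg_right (by rw [hθe]; exact le_abs_self _) hw
    linarith
  unfold lipE
  rw [← hθe]
  obtain ⟨K₀, hK₀⟩ := exists_nat_ge (2 / (θ' * w - e))
  obtain ⟨J₀, hJ₀⟩ := exists_nat_ge (2 * θ' / (θ' * w - e))
  refine ⟨K₀, J₀, fun K hK J hJ => ?_⟩
  refine Nat.floor_le_floor ?_
  have hJ0 : (0 : ℝ) ≤ J := Nat.cast_nonneg J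
  have h1 : 2 / (θ' * w - e) ≤ (K : ℝ) + 1 := by
    have : (K₀ : ℝ) ≤ K := by exact_mod_cast hK
    linarith
  have h2 : 2 * θ' / (θ' * w - e) ≤ (J : ℝ) := by
    have : (J₀ : ℝ) ≤ J := by exact_mod_cast hJ
    linarith
  rw [div_le_iff₀ h0] at h1 h2
  have h3 : (J : ℝ) / (K + 1) ≤ (θ' * w - e) / 2 * J := by
    rw [div_le_iff₀ (by positivity)]
    nlinarith
  have h4 := Nat.lt_floor_add_one (w * J)
  have h5 : θ' * (w * J) ≤ θ' * (⌊w * J⌋₊ + 1) := mul_le_mul_of_nonneg_left h4.le hθ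
  nlinarith

/-- Statements about all halves. -/
theorem bas_half {S : PCl m} {Φ : Stat m} (h : Bas S Φ) :
    Bas S (fun J F A => ∀ B : F.Ω → Prop, Sub B A → Pe F.p A ≤ 2 * Pe F.p B → Φ J F B) := by
  obtain ⟨τ, hτ, J₁, h⟩ := h
  obtain ⟨J₂, hJ₂⟩ := exists_nat_ge (Real.log 2 / (τ / 2))
  refine ⟨τ / 2, half_pos hτ, max J₁ J₂, fun J hJ F A hA B hB hP =>
    h J ((le_max_left _ _).trans hJ) F B ?_⟩
  have h2 : Real.exp (-(τ / 2 * J)) * Pe F.p A ≤ Pe F.p B := by
    have h3 : (J₂ : ℝ) ≤ J := by exact_mod_cast (le_max_right _ _).trans hJ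
    have h4 : Real.log 2 ≤ τ / 2 * J := by
      have h5 := hJ₂.trans h3
      rw [div_le_iff₀ (by linarith)] at h5
      linarith
    have h6 : Real.exp (-(τ / 2 * J)) ≤ 1 / 2 := by
      calc Real.exp (-(τ / 2 * J)) ≤ Real.exp (-Real.log 2) := Real.exp_le_exp.2 (by linarith)
        _ = 1 / 2 := by
          rw [Real.exp_neg, Real.exp_log (by norm_num)]
          norm_num
    have h7 := mul_le_mul_of_nonneg_right h6 (Pe_nonneg F.isLaw A)
    linarith
  have h1 := S.res (half_pos hτ).le hA hB h2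
  rwa [add_halves] at h1

/-- The first place where the precision is full. -/
theorem fst_one (v : ℕ → ℝ) (hv : ∀ l, v l ≤ 1) (j : ℕ) :
    ∃ jj ≤ j, (∀ l < jj, v l < 1) ∧ (jj < j → v jj = 1) := by
  induction j with
  | zero => exact ⟨0, le_rfl, fun l hl => absurd hl (Nat.not_lt_zero l), fun h => by omega⟩
  | succ j ih =>
    obtain ⟨jj, h1, h2, h3⟩ := ih
    rcases Nat.eq_or_lt_of_le h1 with h | h
    · subst h
      by_cases hj : v jj = 1
      · exact ⟨jj, by omega, h2, fun _ => hj⟩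
      · refine ⟨jj + 1, le_rfl, fun l hl => ?_, fun h => by omega⟩
        rcases Nat.lt_or_ge l jj with h4 | h4
        · exact h2 l h4
        · rw [show l = jj by omega]
          exact lt_of_le_of_ne (hv jj) hj
    · exact ⟨jj, by omega, h2, fun _ => h3 h⟩

/-- **The numbers of the closed labels are at most the thresholds of the chains**, at larger
windows. -/
theorem vst_le_thr {θ : ℝ} (hθ : 0 < θ) {S : PCl m} (hS : S.Ne) {C₀ : ℝ} (htm : TmC S C₀)
    (hpos : Bas S (fun _ F A => 0 < Pe F.p A)) {L : Finset (Fin m) → Fin m → ℝ → ℝ → ℝ}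
    (hL : LamW S L) {P : List (Fin m) × Fin m → ℝ → ℝ → ℝ} (hP : ThrOf (chsys m θ) S P)
    {ε : Fin n → Fin m} (hε : Function.Injective ε) {c : ℕ → Fin m}
    (hcε : ∀ i : Fin n, c i = ε i) {w : ℝ} (hw : w ∈ Wv L ε) (hex : VExa S L ε w)
    {j k : ℕ} (hjk : j ≤ k) (hk : k < n) {w' : ℝ} (hww : w < w') (hw' : w' ≤ 1) :
    vs L ε w (j + 1) ≤ P ((List.range j).map c, c k) w' w' := by
  classical
  obtain ⟨hw0, hw1, hg, hct⟩ := hw
  by_contra hcon
  push Not at hcon
  obtain ⟨p, hp⟩ : ∃ p, p = P ((List.range j).map c, c k) w' w' := ⟨_, rfl⟩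
  rw [← hp] at hcon
  obtain ⟨h, hh⟩ : ∃ h, h = (vs L ε w (j + 1) - p) / 2 := ⟨_, rfl⟩
  have hh0 : 0 < h := by rw [hh]; linarith
  have hs1 : ∀ l, vs L ε w l ≤ 1 := vs_le1 hL ε hw1.le
  have hs0 : ∀ l, w ≤ vs L ε w l := le_vs hL ε hw1.le
  obtain ⟨δ, hδ⟩ : ∃ δ, δ = min h (θ * w / 2) := ⟨_, rfl⟩
  have hθw : 0 < θ * w := mul_pos hθ hw0
  have hδ0 : 0 < δ := by rw [hδ]; exact lt_min hh0 (by linarith)
  have hδh : δ ≤ h := by rw [hδ]; exact min_le_left _ _
  have hδθ : δ < θ * w := by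
    have : δ ≤ θ * w / 2 := by rw [hδ]; exact min_le_right _ _
    linarith
  obtain ⟨jj, hjj, hlt, heq⟩ := fst_one (fun l => vs L ε w (l + 1)) (fun l => hs1 _) j
  obtain ⟨c'', hc''⟩ : ∃ c'', c'' = Function.update c j (c k) := ⟨_, rfl⟩
  have hcj : c'' j = c k := by rw [hc'']; exact Function.update_self _ _ _
  have hcl : ∀ l, l ≠ j → c'' l = c l := fun l hl => by rw [hc'']; exact Function.update_of_ne hl _ _
  obtain ⟨b, hb⟩ : ∃ b : ℕ → ℕ, b = fun i => min i jj := ⟨_, rfl⟩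
  have hb1 : ∀ i, b i ≤ i := fun i => by rw [hb]; exact min_le_left _ _
  have hb2 : ∀ i, b i ≤ jj := fun i => by rw [hb]; exact min_le_right _ _
  have hb3 : ∀ l < jj, b l = l := fun l hl => by rw [hb]; exact min_eq_left hl.le
  obtain ⟨s, hs⟩ : ∃ s : ℕ → ℝ, s = fun i => vs L ε w (b i + 1) := ⟨_, rfl⟩
  have hsl : ∀ l < jj, s l = vs L ε w (l + 1) := fun l hl => by
    rw [hs]
    simp only
    rw [hb3 l hl]
  have hinj : ∀ {x y : ℕ}, x < n → y < n → c x = c y → x = y := by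
    intro x y hx hy hxy
    have h1 := hcε ⟨x, hx⟩
    have h2 := hcε ⟨y, hy⟩
    simp only at h1 h2
    rw [h1, h2] at hxy
    exact congrArg Fin.val (hε hxy)
  obtain ⟨K, d, hKd, hB⟩ := chn_of htm (c := c'') (r := j + 1) (w := w) (s := s) (b := b)
    (fun x hx y hy hxy => by
      have hx' : x < j + 1 := hx
      have hy' : y < j + 1 := hy
      by_cases hxj : x = j
      · by_cases hyj : y = j
        · omega
        · rw [hxj, hcj, hcl y hyj] at hxy
          have := hinj hk (by omega) hxy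
          omega
      · by_cases hyj : y = j
        · rw [hyj, hcj, hcl x hxj] at hxy
          have := hinj (by omega) hk hxy
          omega
        · rw [hcl x hxj, hcl y hyj] at hxy
          exact hinj (by omega) (by omega) hxy)
    hw0.le hw1 hb1 (fun i _ => by rw [hs]; exact hw0.le.trans (hs0 _))
    (fun i _ l hl => by
      have hl' : l < jj := hl.trans_le (hb2 i)
      rw [hsl l hl']
      exact hlt l hl')
    (fun ρ hρ => by
      refine (vst_crd hpos hL hcε hw0 hw1 hg hct hex hρ).mono 0 ?_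
      intro J _ F A h1 V z z' hz i _ l hl
      have hl' : l < jj := hl.trans_le (hb2 i)
      have h2 := h1 V z z' hz l (by omega)
      rw [hsl l hl', hcl l (by omega)]
      have h3 : (fun ω => ((fun l' : Fin l => F.X J ω (c'' l')), z' (slam F ⌊w * J⌋₊ ω), F.W ω)) =
          fun ω => ((fun l' : Fin l => F.X J ω (c l')), z' (slam F ⌊w * J⌋₊ ω), F.W ω) := by
        funext ω
        congr 1
        funext l'
        rw [hcl l' (by omega)]
      rw [h3]
      exact h2)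
    (rd := fun i => vs L ε w (b i))
    (fun i hi e he => by
      have hbn : b i < n := by have := hb1 i; omega
      have him : (range (b i)).image c'' = (Iio (⟨b i, hbn⟩ : Fin n)).image ε := by
        rw [img_eq hcε ⟨b i, hbn⟩]
        refine Finset.image_congr fun l hl => ?_
        have hl' : l < b i := by simpa using hl
        exact hcl l (by have := hb2 i; omega)
      obtain ⟨k', hk', hbk, hck⟩ : ∃ k' : ℕ, ∃ hk' : k' < n, b i ≤ k' ∧ c'' i = ε ⟨k', hk'⟩ := by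
        by_cases hij : i = j
        · refine ⟨k, hk, ?_, ?_⟩
          · have := hb1 i
            omega
          · rw [hij, hcj]
            exact hcε ⟨k, hk⟩
        · refine ⟨i, by omega, hb1 i, ?_⟩
          rw [hcl i hij]
          exact hcε ⟨i, by omega⟩
      obtain ⟨K, hK⟩ := vst_att1 hL hw0 hw1 hg hct (b i) ⟨b i, hbn⟩ rfl ⟨k', hk'⟩
        (by rw [Fin.le_def]; exact hbk) e he
      refine ⟨K, hK.mono 0 fun J _ F A h1 => ?_⟩
      rw [him, hck, hs]
      exact h1)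
    (φ := fun _ => 1) (fun _ => one_pos) hδ0
  -- the chain labels
  obtain ⟨K₁, J₁, hK₁⟩ := le_lipE' hw0.le hδθ
  obtain ⟨K₀, hK₀⟩ : ∃ K₀, K₀ = max K₁ ((range (j + 1)).sup K) := ⟨_, rfl⟩
  have hph : p + h ≤ 1 := by
    have := hs1 (j + 1)
    rw [hh]
    linarith
  have hno := bas_half (hP.no' ((List.range j).map c, c k) K₀ (h := h) hw0.le le_rfl hww hww le_rfl
    hw' hh0 (by rw [← hp]; exact hph))
  refine Clp.not_false hS (Bas.clp ((hB.and hno).mono J₁ ?_))
  rintro J hJ F A ⟨⟨B, hBA, hPe, hch⟩, h2⟩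
  refine h2 B hBA hPe ?_
  have hJ0 : (0 : ℝ) ≤ J := Nat.cast_nonneg J
  have hmap : (List.range j).map c = (List.range j).map c'' := by
    refine List.map_congr_left fun l hl => ?_
    rw [List.mem_range] at hl
    exact (hcl l (by omega)).symm
  have hsj : vs L ε w (j + 1) ≤ s j := by
    rw [hs]
    simp only
    rcases Nat.eq_or_lt_of_le hjj with h3 | h3
    · rw [show b j = j by rw [hb, h3]; exact min_self j]
    · have h4 := heq h3
      rw [show b j = jj by rw [hb]; exact min_eq_right hjj]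
      rw [h4]
      exact hs1 _
  have hT := Cht.of_chN (θ := θ) (P := ⌊(p + h) * J⌋₊) (K₀ := K₀) (a := ⌊w * J⌋₊) (w := ⌊w * J⌋₊)
    hch le_rfl le_rfl le_rfl ?_ ?_ ?_ ?_
  · rw [hcj, ← hmap, hp] at hT
    exact hT
  · refine Nat.add_le_add_right (Nat.floor_le_floor (mul_le_mul_of_nonneg_right ?_ hJ0)) _
    have h3 := (hKd j (Nat.lt_succ_self j)).2.1
    have h4 : vs L ε w (j + 1) = p + 2 * h := by rw [hh]; ring
    linarith
  · intro l hl
    rw [hK₀]
    exact (Finset.le_sup (f := K) (mem_range.2 hl)).trans (le_max_right _ _)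
  · exact hK₁ K₀ (by rw [hK₀]; exact le_max_left _ _) J hJ
  · intro l hl
    refine Pool.LBT.fl_le' ?_ J
    have h3 := (hKd l (by omega)).1
    have h4 : s l ≤ 1 := by rw [hs]; exact hs1 _
    linarith

/-! ### The diagonals -/

/-- The threshold on the diagonal. -/
noncomputable def dg (P : List (Fin m) × Fin m → ℝ → ℝ → ℝ) (l : List (Fin m) × Fin m) (v : ℝ) :
    ℝ :=
  P l (max 0 (min v 1)) (max 0 (min v 1))

theorem dg_eq (P : List (Fin m) × Fin m → ℝ → ℝ → ℝ) (l : List (Fin m) × Fin m) {v : ℝ}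
    (h0 : 0 ≤ v) (h1 : v ≤ 1) : dg P l v = P l v v := by
  unfold dg
  rw [min_eq_left h1, max_eq_right h0]

theorem dg_mono {θ : ℝ} {S : PCl m} {P : List (Fin m) × Fin m → ℝ → ℝ → ℝ}
    (hP : ThrOf (chsys m θ) S P) (l : List (Fin m) × Fin m) : Monotone (dg P l) := by
  intro a b h
  unfold dg
  have h1 : max 0 (min a 1) ≤ max 0 (min b 1) := max_le_max le_rfl (min_le_min h le_rfl)
  exact (hP.law l).mono (le_max_left _ _) le_rfl h1 h1 le_rfl (max_le zero_le_one (min_le_right _ _))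

/-- The windows of the greedy order at which the thresholds are continuous on the diagonal. -/
def Wp (L : Finset (Fin m) → Fin m → ℝ → ℝ → ℝ) (P : List (Fin m) × Fin m → ℝ → ℝ → ℝ)
    (ε : Fin n → Fin m) : Set ℝ :=
  {w | w ∈ Wv L ε ∧ ∀ l, ContinuousAt (dg P l) w}

theorem dg_ae {θ : ℝ} {S : PCl m} {P : List (Fin m) × Fin m → ℝ → ℝ → ℝ}
    (hP : ThrOf (chsys m θ) S P) : {w | ¬ ∀ l, ContinuousAt (dg P l) w}.Countable := by
  have h1 : {w | ¬ ∀ l, ContinuousAt (dg P l) w} ⊆ ⋃ l, {w | ¬ ContinuousAt (dg P l) w} := by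
    intro w hw
    have h2 : ¬ ∀ l, ContinuousAt (dg P l) w := hw
    push Not at h2
    obtain ⟨l, h3⟩ := h2
    exact Set.mem_iUnion.2 ⟨l, h3⟩
  exact Set.Countable.mono h1 (Set.countable_iUnion fun l =>
    (dg_mono hP l).countable_not_continuousAt)

theorem wp_meas {θ : ℝ} {S : PCl m} {L : Finset (Fin m) → Fin m → ℝ → ℝ → ℝ} (hL : LamW S L)
    {P : List (Fin m) × Fin m → ℝ → ℝ → ℝ} (hP : ThrOf (chsys m θ) S P) (ε : Fin n → Fin m) :
    MeasurableSet (Wp L P ε) := by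
  have h1 : MeasurableSet {w | ∀ l, ContinuousAt (dg P l) w} := by
    have e2 : {w | ∀ l, ContinuousAt (dg P l) w} = {w | ¬ ∀ l, ContinuousAt (dg P l) w}ᶜ := by
      ext w
      simp only [Set.mem_compl_iff, Set.mem_ofPred_eq, not_not]
    rw [e2]
    exact (dg_ae hP).measurableSet.compl
  exact (wv_meas hL ε).inter h1

/-- **The sets of the orders cover the interval**, up to a countable set. -/
theorem wp_cover {θ : ℝ} {S : PCl m} {L : Finset (Fin m) → Fin m → ℝ → ℝ → ℝ} (hL : LamW S L)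
    {P : List (Fin m) × Fin m → ℝ → ℝ → ℝ} (hP : ThrOf (chsys m θ) S P)
    {φ : Fin n → Fin m} {κ : Fin n}
    (hκ : ∀ w : ℝ, 0 ≤ w → w < 1 → L ∅ (φ κ) w w = w) :
    ∃ D : Set ℝ, D.Countable ∧ ∀ w : ℝ, 0 < w → w < 1 → w ∉ D →
      ∃ σ : Equiv.Perm (Fin n), w ∈ Wp L P (φ ∘ σ) ∧ ∀ j : Fin n, (j : ℕ) = 0 → σ j = κ := by
  obtain ⟨D, hD, h1⟩ := wv_cover hL hκ
  refine ⟨D ∪ {w | ¬ ∀ l, ContinuousAt (dg P l) w}, hD.union (dg_ae hP), fun w h0 h2 h3 => ?_⟩
  obtain ⟨σ, h4, h5⟩ := h1 w h0 h2 fun h => h3 (Or.inl h)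
  refine ⟨σ, ⟨h4, ?_⟩, h5⟩
  by_contra hcon
  exact h3 (Or.inr hcon)

/-- **The numbers of the closed labels are at most the thresholds of the chains**, for all the
coordinates which come after in the order. -/
theorem vst_le_bet {θ : ℝ} (hθ : 0 < θ) {S : PCl m} (hS : S.Ne) {C₀ : ℝ} (htm : TmC S C₀)
    (hpos : Bas S (fun _ F A => 0 < Pe F.p A)) {L : Finset (Fin m) → Fin m → ℝ → ℝ → ℝ}
    (hL : LamW S L) {P : List (Fin m) × Fin m → ℝ → ℝ → ℝ} (hP : ThrOf (chsys m θ) S P)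
    {ε : Fin n → Fin m} (hε : Function.Injective ε) {c : ℕ → Fin m}
    (hcε : ∀ i : Fin n, c i = ε i) {w : ℝ} (hw : w ∈ Wp L P ε) (hex : VExa S L ε w)
    {j k : ℕ} (hjk : j ≤ k) (hk : k < n) :
    vs L ε w (j + 1) ≤ P ((List.range j).map c, c k) w w := by
  have hw0 := hw.1.1
  have hw1 := hw.1.2.1
  refine le_of_forall_pos_le_add fun e he => ?_
  have h1 := hw.2 ((List.range j).map c, c k)
  rw [Metric.continuousAt_iff] at h1
  obtain ⟨δ, hδ, h2⟩ := h1 e he
  obtain ⟨w', hw'⟩ : ∃ w', w' = min (w + δ / 2) 1 := ⟨_, rfl⟩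
  have hww : w < w' := by rw [hw']; exact lt_min (by linarith) hw1
  have hw'1 : w' ≤ 1 := by rw [hw']; exact min_le_right _ _
  have hw'2 : w' ≤ w + δ / 2 := by rw [hw']; exact min_le_left _ _
  have h3 := @h2 w' (by rw [Real.dist_eq, abs_lt]; constructor <;> linarith)
  rw [Real.dist_eq, dg_eq P _ (hw0.le.trans hww.le) hw'1, dg_eq P _ hw0.le hw1.le] at h3
  have h4 := vst_le_thr hθ hS htm hpos hL hP hε hcε hw.1 hex hjk hk hww hw'1
  have h5 := (abs_lt.1 h3).2
  linarith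

/-- **Exactness with the thresholds of the chains.** -/
theorem vst_exb {θ : ℝ} (hθ : 0 < θ) {S : PCl m} (hS : S.Ne) {C₀ : ℝ} (htm : TmC S C₀)
    (hpos : Bas S (fun _ F A => 0 < Pe F.p A)) {L : Finset (Fin m) → Fin m → ℝ → ℝ → ℝ}
    (hL : LamW S L) {P : List (Fin m) × Fin m → ℝ → ℝ → ℝ} (hP : ThrOf (chsys m θ) S P)
    {ε : Fin n → Fin m} (hε : Function.Injective ε) {c : ℕ → Fin m}
    (hcε : ∀ i : Fin n, c i = ε i) {w : ℝ} (hw : w ∈ Wp L P ε) (hex : VExa S L ε w)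
    {ρ : ℝ} (hρ : 0 < ρ) : Bas S (fun J F A => Pool.STAT.ExW F A ε ⌊w * J⌋₊
      (((∑ j : Fin n, (1 - bet P c j w w)) - ρ) * Real.log 2 * J)) := by
  refine (hex ρ hρ).mono 0 fun J _ F A h => ?_
  intro V z z' hz
  refine le_trans ?_ (h V z z' hz)
  have hl2 : 0 < Real.log 2 := Real.log_pos one_lt_two
  refine mul_le_mul_of_nonneg_right (mul_le_mul_of_nonneg_right ?_ hl2.le) (Nat.cast_nonneg J)
  refine sub_le_sub_right (Finset.sum_le_sum fun j _ => ?_) _
  have h1 := vst_le_bet hθ hS htm hpos hL hP hε hcε hw hex (le_refl (j : ℕ)) j.2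
  unfold bet
  linarith

end Pool.GRW
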