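import Pool.Agent.H45.EXA.Zbas

/-!
# Exactness of some coordinates given any closed function

`exa_core`: from the exactness theorem for families with side information, for the numbers of the
zooms. `exax`: for the numbers of a class at any window. The entropy of the coordinates `ε` of the
positions, given any function which is closed at the window `w₁`, is at least `∑ j, (1 - s j)`.
-/

set_option autoImplicit false

namespace Pool.GEN

open Finset Real MvPolynomial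
open Pool.Agent.H49.Ent Pool.Agent.H32.Dense Pool.STK Pool.KA Pool.KSAT Pool.K2S Pool.PB Pool.S6C
open Pool.FLF (Fam.sub)

variable {m n J : ℕ}

/-- **Exactness**, for the numbers of the zooms. -/
theorem exa_core {S : PCl m} {C₀ : ℝ} (hC₀ : 0 ≤ C₀) (hbs : TmC S C₀) {w₁ : ℝ} (hw0 : 0 < w₁)
    (hw11 : w₁ < 1) {ε : Fin n → Fin m} {c ρ : ℝ} (hρ : 0 < ρ)
    {Gr : ∀ J : ℕ, Fam n J → Prop} {Bad : ℕ → Stat n}
    (hF : ∀ ψ : ℕ → ℝ, (∀ i, 0 < ψ i) → ∃ η : ℝ, 0 < η ∧ ∃ M J₁ : ℕ, ∀ J ≥ J₁,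
      ∀ G : Fam n J, G.Tm (η * J) → Gd G → Gr J G →
      (∃ i ≤ M, ∃ B : G.Ω → Prop, Real.exp (-(3 * ψ i * J)) ≤ Pe G.p B ∧ Bad i J G B) ∨
      c * Real.log 2 * J ≤ CH G.p (G.X J) G.W)
    (hbad : ∀ i, ZBas S w₁ ε (fun J G B => ¬ Bad i J G B))
    (hgra : ∃ τ₀ : ℝ, 0 < τ₀ ∧ ∃ J₀ : ℕ, ∀ J ≥ J₀, ∀ (F : Fam m J) (A : F.Ω → Prop),
      S.St τ₀ J F A → ∃ (κ₀ : Type) (z₀ : PtT F → κ₀) (z₀' : LnT F → κ₀),
        (∀ ω, A ω → z₀ (ptr F J ω) = z₀' (slam F ⌊w₁ * J⌋₊ ω)) ∧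
        ∀ (κ : Type) (g : F.Ω → κ) (φ : κ → κ₀),
          (∀ ω, A ω → z₀' (slam F ⌊w₁ * J⌋₊ ω) = φ (g ω)) →
          ∀ (hl : IsLaw (Pool.Agent.H49.Ent.cond F.p A True)) (J' : ℕ)
          (hJ : ⌊w₁ * J⌋₊ + J' = J),
          Gr J' (zf (F.res A True hl) ⌊w₁ * J⌋₊ J' hJ.le g ε)) :
    Bas S (fun J F A => ∀ (V : Type) (z : PtT F → V) (z' : LnT F → V),
      (∀ ω, A ω → z (ptr F J ω) = z' (slam F ⌊w₁ * J⌋₊ ω)) →
      (c * (1 - w₁) - ρ) * Real.log 2 * J ≤ CH (Pool.Agent.H49.Ent.cond F.p A True)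
        (fun ω j => F.X J ω (ε j)) (fun ω => (z' (slam F ⌊w₁ * J⌋₊ ω), F.W ω))) := by
  classical
  have h01 : 0 < 1 - w₁ := by linarith
  have hl2 : 0 < Real.log 2 := Real.log_pos one_lt_two
  choose ψ hψ τ₁ hτ₁ J₁ hz using hbad
  obtain ⟨η, hη, M, J₂, hmain⟩ := hF ψ hψ
  obtain ⟨τ₂, hτ₂, J₃, hg⟩ := hgra
  obtain ⟨τm, hτm, hτm'⟩ := fmin45 M τ₁ hτ₁
  obtain ⟨τ, hτ⟩ : ∃ τ, τ = min (min τm τ₂) (η * (1 - w₁) / (C₀ + 1)) := ⟨_, rfl⟩
  have hτ0 : 0 < τ := by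
    rw [hτ]
    exact lt_min (lt_min hτm hτ₂) (div_pos (mul_pos hη h01) (by linarith))
  have t1 : τ ≤ τm := by rw [hτ]; exact (min_le_left _ _).trans (min_le_left _ _)
  have t2 : τ ≤ τ₂ := by rw [hτ]; exact (min_le_left _ _).trans (min_le_right _ _)
  have t3 : C₀ * τ ≤ η * (1 - w₁) := by
    have h1 : τ ≤ η * (1 - w₁) / (C₀ + 1) := by rw [hτ]; exact min_le_right _ _
    rw [le_div_iff₀ (by linarith)] at h1
    have e1 : τ * (C₀ + 1) = C₀ * τ + τ := by ring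
    linarith
  obtain ⟨J₄, hJ₄⟩ := lin (J₂ : ℝ) h01
  obtain ⟨J₅, hJ₅⟩ := lin ((n : ℝ) * Real.log 17) (mul_pos hρ hl2)
  refine ⟨τ, hτ0, max (max (∑ i ∈ range (M + 1), J₁ i) J₃) (max J₄ J₅), ?_⟩
  intro J hJ F A hS V z z' hcls
  have hJ1 : ∑ i ∈ range (M + 1), J₁ i ≤ J :=
    (le_max_left _ _).trans ((le_max_left _ _).trans hJ)
  have hJ3 : J₃ ≤ J := (le_max_right _ _).trans ((le_max_left _ _).trans hJ)
  have hJ4 := hJ₄ J ((le_max_left _ _).trans ((le_max_right _ _).trans hJ))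
  have hJ5 := hJ₅ J ((le_max_right _ _).trans ((le_max_right _ _).trans hJ))
  have hJr : (0 : ℝ) ≤ J := Nat.cast_nonneg J
  obtain ⟨hA, hTmA⟩ := hbs _ J F A hτ0 hS
  have hl := isLaw_cond F.isLaw hA
  obtain ⟨κ₀, z₀, z₀', hz₀, hgr⟩ := hg J hJ3 F A (S.mono t2 hS)
  -- the scale
  have hWJ : ⌊w₁ * (J : ℝ)⌋₊ ≤ J := by
    refine Nat.floor_le_of_le ?_
    have := mul_le_mul_of_nonneg_right hw11.le hJr
    linarith
  obtain ⟨J', hJ'⟩ : ∃ J', ⌊w₁ * (J : ℝ)⌋₊ + J' = J := ⟨J - ⌊w₁ * (J : ℝ)⌋₊, by omega⟩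
  have hWr : (⌊w₁ * (J : ℝ)⌋₊ : ℝ) ≤ w₁ * J := Nat.floor_le (by positivity)
  have hsum : (⌊w₁ * (J : ℝ)⌋₊ : ℝ) + J' = J := by exact_mod_cast hJ'
  have hJ'0 : (0 : ℝ) ≤ J' := Nat.cast_nonneg J'
  have hJ'1 : (1 - w₁) * J ≤ (J' : ℝ) := by
    have : (1 - w₁) * (J : ℝ) = J - w₁ * J := by ring
    linarith
  have hJ'2 : J₂ ≤ J' := by
    have : (J₂ : ℝ) ≤ J' := by linarith
    exact_mod_cast this
  -- the side information
  obtain ⟨g, hg'⟩ : ∃ g : F.Ω → V × κ₀, g = fun ω =>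
      (fun s : LnT F => (z' s, z₀' s)) (slam F ⌊w₁ * (J : ℝ)⌋₊ ω) := ⟨_, rfl⟩
  have hcls' : ∀ ω, A ω → (fun x : PtT F => (z x, z₀ x)) (ptr F J ω) =
      (fun s : LnT F => (z' s, z₀' s)) (slam F ⌊w₁ * (J : ℝ)⌋₊ ω) := by
    intro ω hω
    exact Prod.ext (hcls ω hω) (hz₀ ω hω)
  have hGr := hgr (V × κ₀) g (fun v => v.2) (fun ω _ => by rw [hg']) hl J' hJ'
  have hTm : (zf (F.res A True hl) ⌊w₁ * (J : ℝ)⌋₊ J' hJ'.le g ε).Tm (η * J') := by
    have h1 := zf_Tm (F.res A True hl) hJ'.le g ε (by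
      intro ω ω' _ _ hh
      have a1 := Prod.ext_iff.1 hh
      have a2 := Prod.ext_iff.1 a1.2
      simp only at a1 a2
      have a3 : slam F ⌊w₁ * (J : ℝ)⌋₊ ω = slam F ⌊w₁ * (J : ℝ)⌋₊ ω' :=
        Prod.ext a1.1 (Prod.ext a2.2 a2.1)
      rw [hg']
      simp only
      rw [a3]) (hTmA hl)
    unfold Fam.Tm at h1 ⊢
    refine le_trans ?_ h1
    have h2 : C₀ * τ * J ≤ η * J' := by
      calc C₀ * τ * J ≤ η * (1 - w₁) * J := mul_le_mul_of_nonneg_right t3 hJr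
        _ = η * ((1 - w₁) * J) := by ring
        _ ≤ η * J' := mul_le_mul_of_nonneg_left hJ'1 hη.le
    linarith
  rcases hmain J' hJ'2 _ hTm (zf_Gd _ hJ'.le g ε) hGr with ⟨i, hi, B, hB, hb⟩ | h1
  · exfalso
    have hJi : J₁ i ≤ J := (Finset.single_le_sum (f := J₁) (fun _ _ => Nat.zero_le _)
      (Finset.mem_range.2 (by omega))).trans hJ1
    rw [hg'] at hb hB
    exact hz i J hJi F A (S.mono (t1.trans (hτm' i hi)) hS) (V × κ₀) (fun x => (z x, z₀ x))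
      (fun s => (z' s, z₀' s)) hcls' hl J' hJ' B hB hb
  · have h2 := exa_row (F.res A True hl) hJ' g ε (q := Pool.Agent.H49.Ent.cond F.p A True) hl
      (fun ω => z' (slam F ⌊w₁ * (J : ℝ)⌋₊ ω)) (by
        intro ω ω' _ _ hh
        rw [hg'] at hh
        exact (Prod.ext_iff.1 hh).1)
    have h3 : c * Real.log 2 * J' ≤ CH (Pool.Agent.H49.Ent.cond F.p A True)
        (fun ω j => F.X J ω (ε j)) (fun ω => (z' (slam F ⌊w₁ * (J : ℝ)⌋₊ ω), F.W ω)) +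
        n * Real.log 17 := h1.trans h2
    by_cases hc : 0 ≤ c
    · have h4 : c * (1 - w₁) * Real.log 2 * J ≤ c * Real.log 2 * J' := by
        have h5 := mul_le_mul_of_nonneg_left hJ'1 (mul_nonneg hc hl2.le)
        have e1 : c * Real.log 2 * ((1 - w₁) * (J : ℝ)) = c * (1 - w₁) * Real.log 2 * J := by ring
        linarith
      have e2 : (c * (1 - w₁) - ρ) * Real.log 2 * (J : ℝ) =
          c * (1 - w₁) * Real.log 2 * J - ρ * Real.log 2 * J := by ring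
      rw [e2]
      linarith
    · push Not at hc
      refine le_trans ?_ (CH_nonneg hl.nonneg _ _)
      refine mul_nonpos_of_nonpos_of_nonneg (mul_nonpos_of_nonpos_of_nonneg ?_ hl2.le) hJr
      have := mul_nonneg (by linarith : 0 ≤ -c) h01.le
      linarith

/-- The numbers of the labels over some coordinates, at the window `w₁`. -/
structure NumW {n : ℕ} (w₁ : ℝ) (s : Fin n → ℝ) (d : ℕ → ℝ) : Prop where
  ms : Monotone s
  sw : ∀ j, w₁ ≤ s j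
  s1 : ∀ j, s j ≤ 1
  z : ∀ j : Fin n, (j : ℕ) = 0 → s j = w₁
  d0 : ∀ l, 0 < d l
  d1 : ∀ l, w₁ + d l < 1

/-- **Exactness at any window.** Labels of the coordinates `ε k` over the coordinates `ε i`,
`i < j ≤ k`, with precision `s j - e` at the window `w₁`; no labels of the coordinates `ε j` with
precision `s j + 1 / (l + 1)` at the windows `w₁ + d l`, for all `l` with `e ≤ 1 / (l + 1)`. Then
the coordinates `ε` of the positions are full above the precisions `s j`, given any function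
which is closed at the window `w₁`. -/
theorem exax (n : ℕ) (hF : FZX n) : ∀ ρ al : ℝ, 0 < ρ → 0 < al → ∀ g₀ : ℝ → ℝ,
    (∀ ε : ℝ, 0 < ε → 0 < g₀ ε) → ∀ w₁ : ℚ, 0 < w₁ → w₁ < 1 →
    ∀ (s : Fin n → ℝ) (d : ℕ → ℝ), NumW (w₁ : ℝ) s d → ∃ e : ℝ, 0 < e ∧
    ∀ (K₀ : ℕ) (N : ℚ → ℚ → ℝ), ActM N al g₀ → ∀ (m : ℕ) (C₀ : ℝ) (S : PCl m)
    (ε : Fin n → Fin m), Function.Injective ε → 0 ≤ C₀ → TmC S C₀ →
    (∀ j k, j ≤ k → Bas S (fun J F A => Lb F ((Finset.Iio j).image ε) (ε k) K₀ ⌊e * J⌋₊ J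
      ⌊(w₁ : ℝ) * J⌋₊ ⌊min (rad s w₁ j + e) 1 * J⌋₊ ⌊(s j - e) * J⌋₊ A)) →
    (∀ l K : ℕ, e ≤ 1 / ((l : ℝ) + 1) → ∀ j : Fin n, s j + 1 / ((l : ℝ) + 1) ≤ 1 →
      Bas S (fun J F A => ¬ Lb F ((Finset.Iio j).image ε) (ε j) K ⌊d l * J⌋₊ J
        ⌊((w₁ : ℝ) + d l) * J⌋₊ ⌊(rad s w₁ j + d l) * J⌋₊ ⌊(s j + 1 / ((l : ℝ) + 1)) * J⌋₊ A)) →
    (∀ k : Fin n, (k : ℕ) = 0 → ActB N S (ε k)) →
    Bas S (fun J F A => ∀ (V : Type) (z : PtT F → V) (z' : LnT F → V),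
      (∀ ω, A ω → z (ptr F J ω) = z' (slam F ⌊(w₁ : ℝ) * J⌋₊ ω)) →
      ((∑ j, (1 - s j)) - ρ) * Real.log 2 * J ≤ CH (Pool.Agent.H49.Ent.cond F.p A True)
        (fun ω j => F.X J ω (ε j)) (fun ω => (z' (slam F ⌊(w₁ : ℝ) * J⌋₊ ω), F.W ω))) := by
  intro ρ al hρ hal g₀ hg₀ w₁ hw0 hw11 s d hnum
  have hw0' : (0 : ℝ) < w₁ := by exact_mod_cast hw0
  have hw11' : (w₁ : ℝ) < 1 := by exact_mod_cast hw11
  have h01 : (0 : ℝ) < 1 - w₁ := by linarith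
  -- the numbers of the zoom
  obtain ⟨sZ, hsZ⟩ : ∃ sZ : Fin n → ℝ, sZ = fun j => (s j - w₁) / (1 - w₁) := ⟨_, rfl⟩
  have hsZj : ∀ j, sZ j * (1 - w₁) = s j - w₁ := by
    intro j
    rw [hsZ]
    field_simp
  have hL : ∀ l : ℕ, ∃ L : ℕ, 2 * ((l : ℝ) + 1) / (1 - w₁) ≤ L + 1 ∧
      (L : ℝ) + 1 ≤ 3 * ((l : ℝ) + 1) / (1 - w₁) := by
    intro l
    obtain ⟨L, hL⟩ : ∃ L, L = ⌊2 * ((l : ℝ) + 1) / (1 - w₁)⌋₊ := ⟨_, rfl⟩
    have h0 : 0 ≤ 2 * ((l : ℝ) + 1) / (1 - w₁) := by positivity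
    refine ⟨L, ?_, ?_⟩
    · rw [hL]
      exact (Nat.lt_floor_add_one _).le
    · have h1 : (L : ℝ) ≤ 2 * ((l : ℝ) + 1) / (1 - w₁) := by
        rw [hL]
        exact Nat.floor_le h0
      have h2 : (1 : ℝ) ≤ ((l : ℝ) + 1) / (1 - w₁) := by
        rw [le_div_iff₀ h01]
        have : (0 : ℝ) ≤ l := Nat.cast_nonneg l
        linarith
      have e1 : 3 * ((l : ℝ) + 1) / (1 - w₁) = 2 * ((l : ℝ) + 1) / (1 - w₁) +
        ((l : ℝ) + 1) / (1 - w₁) := by ring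
      linarith
  choose L hL1 hL2 using hL
  obtain ⟨dZ, hdZ⟩ : ∃ dZ : ℕ → ℝ, dZ = fun l => min (d (L l) / 2) (1 / (4 * ((l : ℝ) + 1))) :=
    ⟨_, rfl⟩
  have hdZ0 : ∀ l, 0 < dZ l := by
    intro l
    rw [hdZ]
    exact lt_min (half_pos (hnum.d0 _)) (by positivity)
  have hnumZ : NumX sZ dZ := by
    rw [hsZ]
    refine ⟨fun a b hab => ?_, fun j => ?_, fun j => ?_, fun j hj => ?_, hdZ0⟩
    · exact div_le_div_of_nonneg_right (sub_le_sub_right (hnum.ms hab) _) h01.le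
    · exact div_nonneg (by linarith [hnum.sw j]) h01.le
    · rw [div_le_one h01]
      linarith [hnum.s1 j]
    · rw [hnum.z j hj, sub_self, zero_div]
  obtain ⟨eZ, heZ, hmain⟩ := hF (ρ / 2) al (half_pos hρ) hal g₀ hg₀ sZ dZ hnumZ
  obtain ⟨e, he⟩ : ∃ e, e = eZ * (1 - w₁) / 4 := ⟨_, rfl⟩
  have he0 : 0 < e := by
    rw [he]
    positivity
  refine ⟨e, he0, ?_⟩
  intro K₀ N hN m C₀ S ε hinj hC₀ hbs hatt habs hact
  have hradw : ∀ j : Fin n, w₁ + rad sZ 0 j * (1 - w₁) = rad s w₁ j := by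
    intro j
    unfold rad
    split_ifs with h0
    · rw [zero_mul, add_zero]
    · rw [hsZj]
      ring
  have hmain' := hmain (K₀ + 1) (NZ N w₁) (hN.zoom hw0.le hw11)
  have hcore := exa_core (ε := ε) hC₀ hbs hw0' hw11' (half_pos hρ)
    (c := (∑ j, (1 - sZ j)) - ρ / 2) (Gr := fun J G => GraX (K₀ + 1) eZ sZ J G)
    (Bad := FBadX (NZ N w₁) sZ dZ eZ) hmain' (by
      intro i
      refine zbas_fbad hbs hw0 hw11 hact (fun l K hl => ?_) i
      have a1 := hL1 l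
      have a2 := hL2 l
      have l0 : (0 : ℝ) < (l : ℝ) + 1 := by positivity
      have L0 : (0 : ℝ) < (L l : ℝ) + 1 := by positivity
      have b1 : 1 / ((L l : ℝ) + 1) ≤ (1 - w₁) / (2 * ((l : ℝ) + 1)) := by
        rw [div_le_div_iff₀ L0 (by positivity)]
        rw [div_le_iff₀ h01] at a1
        linarith
      have b2 : (1 - w₁) / (3 * ((l : ℝ) + 1)) ≤ 1 / ((L l : ℝ) + 1) := by
        rw [div_le_div_iff₀ (by positivity) L0]
        rw [le_div_iff₀ h01] at a2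
        linarith
      have b3 : e ≤ 1 / ((L l : ℝ) + 1) := by
        refine le_trans ?_ b2
        rw [he, le_div_iff₀ (by positivity)]
        rw [le_div_iff₀ l0] at hl
        have h1 : eZ * ((l : ℝ) + 1) * (1 - w₁) ≤ 1 * (1 - w₁) :=
          mul_le_mul_of_nonneg_right hl h01.le
        have e1 : eZ * (1 - w₁) / 4 * (3 * ((l : ℝ) + 1)) =
          3 / 4 * (eZ * ((l : ℝ) + 1) * (1 - w₁)) := by ring
        rw [e1]
        linarith
      have c1 : dZ l ≤ d (L l) / 2 := by rw [hdZ]; exact min_le_left _ _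
      have c2 : dZ l ≤ 1 / (4 * ((l : ℝ) + 1)) := by rw [hdZ]; exact min_le_right _ _
      have c3 : 1 / (4 * ((l : ℝ) + 1)) = 1 / ((l : ℝ) + 1) / 4 := by
        field_simp
      have c4 : (1 - w₁) / (2 * ((l : ℝ) + 1)) = 1 / ((l : ℝ) + 1) * (1 - w₁) / 2 := by
        field_simp
      have hq0 : 0 < 1 / ((l : ℝ) + 1) * (1 - (w₁ : ℝ)) := by positivity
      have c5 : dZ l * (1 - w₁) ≤ 1 / ((l : ℝ) + 1) * (1 - w₁) / 4 := by
        have := mul_le_mul_of_nonneg_right (c2.trans (le_of_eq c3)) h01.le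
        linarith
      have c6 : dZ l * (1 - w₁) ≤ dZ l := by
        have := hdZ0 l
        nlinarith
      obtain ⟨ψ, hψ, τ₀, hτ₀, J₀, hz⟩ := zbxw hC₀ hbs (w₁ := (w₁ : ℝ)) (D := d (L l))
        (dZ := dZ l) (h := 1 / ((l : ℝ) + 1)) (h₂ := 1 / ((L l : ℝ) + 1)) hw0' hw11'
        (hnum.d1 _) (hdZ0 l) (by linarith [hnum.d0 (L l)]) (by positivity)
        (by linarith) hnum.sw hnum.ms hinj K (fun j hj => habs (L l) (K + 1) b3 j hj)
      refine ⟨ψ, hψ, τ₀, hτ₀, J₀, ?_⟩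
      intro J hJ₀ F A hS κ z z' hcls hl' J' hJ' B hB hbt
      refine hz J hJ₀ F A hS κ (fun ω => z' (slam F ⌊(w₁ : ℝ) * J⌋₊ ω))
        (fun ω ω' h1 h2 h3 => ?_) (fun ω ω' _ _ h3 => by rw [h3]) J' hJ'.le (by omega) hl' B hB ?_
      · rw [← hcls ω h1, ← hcls ω' h2, h3]
      · obtain ⟨j, h1, h2⟩ := hbt
        rw [hsZ] at h1 h2
        exact ⟨j, h1, h2⟩) (by
      refine zgra hw0' hw11' heZ he0.le (e₁ := e) (by rw [he]; nlinarith [mul_pos heZ h01])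
        hnumZ.s0 hnumZ.s1 hnumZ.z (P := fun j => s j - e) (R := fun j => min (rad s w₁ j + e) 1)
        (fun j => ?_) (fun j => ?_) hinj hatt
      · by_cases h1 : sZ j ≤ eZ
        · exact Or.inl h1
        · right
          have e1 : (sZ j - eZ) * (1 - w₁) = sZ j * (1 - w₁) - eZ * (1 - w₁) := by ring
          rw [e1, hsZj, he]
          have := mul_pos heZ h01
          linarith
      · right
        by_cases h1 : 1 ≤ rad sZ 0 j + eZ
        · exact Or.inr ⟨h1, min_le_right _ _⟩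
        · left
          push Not at h1
          rw [min_eq_left h1.le]
          have e1 : (rad sZ 0 j + eZ) * (1 - w₁) = rad sZ 0 j * (1 - w₁) + eZ * (1 - w₁) := by
            ring
          have h2 := hradw j
          have h3 := mul_pos heZ h01
          refine lt_of_le_of_lt (min_le_left _ _) ?_
          rw [e1, he]
          linarith)
  refine Bas.mono 0 hcore fun J _ F A h V z z' hcls => ?_
  refine le_trans ?_ (h V z z' hcls)
  refine mul_le_mul_of_nonneg_right (mul_le_mul_of_nonneg_right ?_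
    (Real.log_pos one_lt_two).le) (Nat.cast_nonneg J)
  have e1 : ((∑ j, (1 - sZ j)) - ρ / 2) * (1 - w₁) = (∑ j, (1 - s j)) - ρ / 2 * (1 - w₁) := by
    rw [sub_mul, Finset.sum_mul]
    congr 1
    refine Finset.sum_congr rfl fun j _ => ?_
    have := hsZj j
    linear_combination -this
  rw [e1]
  have h2 : ρ / 2 * (1 - w₁) ≤ ρ / 2 := by nlinarith
  linarith

end Pool.GEN
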