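import Pool.Agent.H95.GN.Uni
import Pool.Agent.H95.GN.Lag
import Pool.Agent.H71.GEN.Poly
import Pool.Agent.H25.LIVE.Good

/-!
# The growth of polynomials on natural boxes, in one direction

The variables `u 0, u 1, …` of a triangular system `Φ` of polynomials, which is a function of the
context: `Φ i` depends on `u j`, `j < i`. `DBx u Φ δ l n x`: the points which agree with `x` in the
variables before `l`, and whose variables `u i`, `l ≤ i < n`, are near `Φ i`, up to `δ i`. `gstep`: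
if a polynomial of the context is small on the box in the variables after `l`, and the variable
`u l` is full given the context and the variables before it, then it is small on the box in the
variables from `l` on, for most samples. The constant depends on the degrees of the polynomials
`Φ i`, `l < i`, only.
-/

set_option autoImplicit false

namespace Pool.GRW

open Finset Real
open Pool.Agent.H49.Ent Pool.Agent.H32.Dense Pool.STK Pool.BFL
open Pool.UNJ (cel lagm uni_core)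
open Pool.LIV (Pb_mono25 Pb_or25)
open Pool.GEN (totalDegree_aevalσ eval_aevalσ)

/-- The polynomial depends on the variables `u l`, `l < i`, only. -/
def DepU {σ : Type} (u : ℕ → σ) (i : ℕ) (P : MvPolynomial σ ℝ) : Prop :=
  ∀ b b' : σ → ℝ, (∀ l < i, b (u l) = b' (u l)) →
    MvPolynomial.eval b P = MvPolynomial.eval b' P

/-- **The natural box in the variables from `l` on.** -/
def DBx {σ : Type} (u : ℕ → σ) (Φ : ℕ → MvPolynomial σ ℝ) (δ : ℕ → ℝ) (l n : ℕ) (x b : σ → ℝ) :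
    Prop :=
  (∀ i < l, b (u i) = x (u i)) ∧
    ∀ i, l ≤ i → i < n → |b (u i) - MvPolynomial.eval b (Φ i)| ≤ δ i

/-- **The chart of the box**: the variables before `l` are fixed; the variable `i` is the distance
to `Φ i`, in the unit `δ i` for `l < i`. -/
theorem chart {σ : Type} {n : ℕ} {u : ℕ → σ} (hu : Set.InjOn u (Set.Iio n)) {K : ℕ} (hK : 1 ≤ K)
    (x : σ → ℝ) {Φ : ℕ → MvPolynomial σ ℝ} (δ : ℕ → ℝ) {l : ℕ} (hl : l < n)
    (hdep : ∀ i, DepU u i (Φ i)) (hdeg : ∀ i, l < i → i < n → (Φ i).totalDegree ≤ K) :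
    ∃ p : σ → MvPolynomial (Fin n) ℝ, (∀ o, (p o).totalDegree ≤ K ^ n) ∧
      ∀ y : Fin n → ℝ, (∀ i < l, MvPolynomial.eval y (p (u i)) = x (u i)) ∧
        MvPolynomial.eval y (p (u l)) = MvPolynomial.eval x (Φ l) + y ⟨l, hl⟩ ∧
        ∀ i (hi : i < n), l < i → MvPolynomial.eval y (p (u i)) =
          MvPolynomial.eval (fun o => MvPolynomial.eval y (p o)) (Φ i) + δ i * y ⟨i, hi⟩ := by
  classical
  have key : ∀ k, l + 1 ≤ k → k ≤ n → ∃ p : σ → MvPolynomial (Fin n) ℝ,
      (∀ o, (p o).totalDegree ≤ K ^ k) ∧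
      ∀ y : Fin n → ℝ, (∀ i < l, MvPolynomial.eval y (p (u i)) = x (u i)) ∧
        MvPolynomial.eval y (p (u l)) = MvPolynomial.eval x (Φ l) + y ⟨l, hl⟩ ∧
        ∀ i (hi : i < n), l < i → i < k → MvPolynomial.eval y (p (u i)) =
          MvPolynomial.eval (fun o => MvPolynomial.eval y (p o)) (Φ i) + δ i * y ⟨i, hi⟩ := by
    intro k hk
    induction k, hk using Nat.le_induction with
    | base =>
      intro _
      obtain ⟨p, hp⟩ : ∃ p : σ → MvPolynomial (Fin n) ℝ, p = Function.update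
        (fun o => MvPolynomial.C (x o)) (u l) (MvPolynomial.C (MvPolynomial.eval x (Φ l)) +
        MvPolynomial.X ⟨l, hl⟩) := ⟨_, rfl⟩
      have hpl : p (u l) = MvPolynomial.C (MvPolynomial.eval x (Φ l)) +
          MvPolynomial.X ⟨l, hl⟩ := by
        rw [hp]
        exact Function.update_self _ _ _
      have hpo : ∀ o, o ≠ u l → p o = MvPolynomial.C (x o) := by
        intro o ho
        rw [hp]
        exact Function.update_of_ne ho _ _
      have h1 : 1 ≤ K ^ (l + 1) := Nat.one_le_pow _ _ (by omega)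
      refine ⟨p, fun o => ?_, fun y => ⟨fun i hi => ?_, ?_, fun i hi k1 k2 => ?_⟩⟩
      · by_cases ho : o = u l
        · rw [ho, hpl]
          refine (MvPolynomial.totalDegree_add _ _).trans (max_le ?_ ?_)
          · rw [MvPolynomial.totalDegree_C]
            exact Nat.zero_le _
          · rw [MvPolynomial.totalDegree_X]
            exact h1
        · rw [hpo o ho, MvPolynomial.totalDegree_C]
          exact Nat.zero_le _
      · have h2 : u i ≠ u l := fun h => by
          have := hu (show i ∈ Set.Iio n from hi.trans hl) (show l ∈ Set.Iio n from hl) h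
          omega
        rw [hpo _ h2, MvPolynomial.eval_C]
      · rw [hpl, map_add, MvPolynomial.eval_C, MvPolynomial.eval_X]
      · omega
    | succ k hk ih =>
      intro hkn
      obtain ⟨p, h1, h2⟩ := ih (by omega)
      obtain ⟨q, hq⟩ : ∃ q : σ → MvPolynomial (Fin n) ℝ, q = Function.update p (u k)
        (MvPolynomial.aeval p (Φ k) + MvPolynomial.C (δ k) * MvPolynomial.X ⟨k, by omega⟩) :=
        ⟨_, rfl⟩
      have hqk : q (u k) = MvPolynomial.aeval p (Φ k) +
          MvPolynomial.C (δ k) * MvPolynomial.X ⟨k, by omega⟩ := by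
        rw [hq]
        exact Function.update_self _ _ _
      have hqo : ∀ o, o ≠ u k → q o = p o := by
        intro o ho
        rw [hq]
        exact Function.update_of_ne ho _ _
      have hne : ∀ i < k, u i ≠ u k := by
        intro i hi h
        have := hu (show i ∈ Set.Iio n from by simp only [Set.mem_Iio]; omega)
          (show k ∈ Set.Iio n from by simp only [Set.mem_Iio]; omega) h
        omega
      have hev : ∀ i ≤ k, ∀ y : Fin n → ℝ,
          MvPolynomial.eval (fun o => MvPolynomial.eval y (q o)) (Φ i) =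
          MvPolynomial.eval (fun o => MvPolynomial.eval y (p o)) (Φ i) := by
        intro i hi y
        refine hdep i _ _ fun i' hi' => ?_
        show MvPolynomial.eval y (q (u i')) = MvPolynomial.eval y (p (u i'))
        rw [hqo _ (hne i' (by omega))]
      have hKk : K ^ k ≤ K ^ (k + 1) := Nat.pow_le_pow_right hK (by omega)
      refine ⟨q, fun o => ?_, fun y => ⟨fun i hi => ?_, ?_, fun i hi k1 k2 => ?_⟩⟩
      · by_cases ho : o = u k
        · rw [ho, hqk]
          refine (MvPolynomial.totalDegree_add _ _).trans (max_le ?_ ?_)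
          · rw [pow_succ]
            exact totalDegree_aevalσ (g := p) h1 (hdeg k (by omega) (by omega))
          · refine (MvPolynomial.totalDegree_mul _ _).trans ?_
            rw [MvPolynomial.totalDegree_C, MvPolynomial.totalDegree_X, zero_add]
            exact Nat.one_le_pow _ _ (by omega)
        · rw [hqo o ho]
          exact (h1 o).trans hKk
      · rw [hqo _ (hne i (by omega))]
        exact (h2 y).1 i hi
      · rw [hqo _ (hne l (by omega))]
        exact (h2 y).2.1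
      · rcases Nat.lt_or_ge i k with h3 | h3
        · rw [hqo _ (hne i h3), hev i h3.le]
          exact (h2 y).2.2 i hi k1 h3
        · have h4 : i = k := by omega
          subst h4
          rw [hev i le_rfl, hqk, map_add, eval_aevalσ, map_mul, MvPolynomial.eval_C,
            MvPolynomial.eval_X]
  obtain ⟨p, h1, h2⟩ := key n hl le_rfl
  exact ⟨p, h1, fun y => ⟨(h2 y).1, (h2 y).2.1, fun i hi h3 => (h2 y).2.2 i hi h3 hi⟩⟩

/-- The nodes. -/
noncomputable def nod {n E : ℕ} (y : Fin n → Fin (E + 1)) (i : Fin n) : ℝ :=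
  (((y i : Fin (E + 1)) : ℕ) : ℝ) / (E + 1)

theorem nod_le {n E : ℕ} (y : Fin n → Fin (E + 1)) (i : Fin n) : 0 ≤ nod y i ∧ nod y i ≤ 1 := by
  unfold nod
  have h1 : (((y i : Fin (E + 1)) : ℕ) : ℝ) ≤ E := by
    have := (y i).2
    exact_mod_cast Nat.lt_succ_iff.1 this
  refine ⟨by positivity, ?_⟩
  rw [div_le_one (by positivity)]
  linarith

/-- **One direction.** -/
theorem gstep (n K : ℕ) : ∃ C : ℝ, 1 ≤ C ∧
    ∀ {σ Ω V : Type} [Fintype Ω] (q : Ω → ℝ) (u : ℕ → σ) (l : ℕ) (X : Ω → σ → ℝ) (v : Ω → V)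
      (Φ : V → ℕ → MvPolynomial σ ℝ) (D : V → MvPolynomial σ ℝ) (g : ℕ → ℕ) (L : ℕ)
      (Gd : Ω → Prop) (τ θ η : ℝ), IsLaw q → Set.InjOn u (Set.Iio n) → l < n →
      (∀ x i, l < i → i < n → (Φ x i).totalDegree ≤ K) → (∀ x, (D x).totalDegree ≤ K) →
      (∀ x i, DepU u i (Φ x i)) → (∀ x, DepU u n (D x)) → 0 ≤ θ → 0 < η → η ≤ 1 → 0 < τ →
      L * Real.log 2 - θ ≤
        CH q (fun ω => ⌊(2 : ℝ) ^ (g l + L) * (X ω (u l) - MvPolynomial.eval (X ω) (Φ (v ω) l))⌋)
          (fun ω => (⌊(2 : ℝ) ^ g l * (X ω (u l) - MvPolynomial.eval (X ω) (Φ (v ω) l))⌋,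
            ((fun i : Fin l => X ω (u i)), v ω))) →
      Pb q (fun ω => ¬ Gd ω) ≤ η / 8 → C * (θ + 1) / η ≤ L * Real.log 2 →
      (∀ ω, Gd ω → |X ω (u l) - MvPolynomial.eval (X ω) (Φ (v ω) l)| ≤ 2 / 2 ^ g l) →
      (∀ ω, Gd ω → ∀ b, DBx u (Φ (v ω)) (fun i => 2 / 2 ^ g i) (l + 1) n (X ω) b →
        |MvPolynomial.eval b (D (v ω))| ≤ τ) →
      Pb q (fun ω => ¬ ∀ b, DBx u (Φ (v ω)) (fun i => 2 / 2 ^ g i) l n (X ω) b →
        |MvPolynomial.eval b (D (v ω))| ≤ Real.exp (C * (θ + 1) / η) * τ) ≤ η := by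
  classical
  obtain ⟨K₁, hK₁⟩ : ∃ K₁, K₁ = max K 1 := ⟨_, rfl⟩
  have hK₁1 : 1 ≤ K₁ := by rw [hK₁]; exact le_max_right _ _
  have hKK₁ : K ≤ K₁ := by rw [hK₁]; exact le_max_left _ _
  obtain ⟨E, hE⟩ : ∃ E, E = K₁ ^ n * K₁ := ⟨_, rfl⟩
  obtain ⟨C₁, hC₁, hcore⟩ := uni_core 1 (2 * E) 4 (by norm_num)
  obtain ⟨C₂, hC₂, hlag⟩ := lagm n E 1 le_rfl
  obtain ⟨N, hN⟩ : ∃ N : ℝ, N = ((E + 1 : ℕ) : ℝ) ^ n := ⟨_, rfl⟩
  have hN1 : 1 ≤ N := by
    rw [hN]
    exact one_le_pow₀ (by push_cast; have : (0 : ℝ) ≤ E := Nat.cast_nonneg E; linarith)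
  have hlog0 : 0 ≤ Real.log (C₂ * N) := Real.log_nonneg (by nlinarith)
  refine ⟨2 * C₁ + Real.log (C₂ * N), by linarith, ?_⟩
  intro σ Ω V _ q u l X v Φ D g L Gd τ θ η hq hu hl hdeg hdegD hdep hdepD hθ hη hη1 hτ hfull hGd
    hL hown hbox
  have h0 := hq.nonneg
  have hθη : 1 ≤ (θ + 1) / η := by
    rw [le_div_iff₀ hη]
    linarith
  -- the base point, as a function of the context
  obtain ⟨xx, hxx⟩ : ∃ xx : (Fin l → ℝ) × V → σ → ℝ, xx = fun γ o =>
    if h : ∃ i : Fin l, u i = o then γ.1 h.choose else 0 := ⟨_, rfl⟩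
  have hxxe : ∀ γ, ∀ i (hi : i < l), xx γ (u i) = γ.1 ⟨i, hi⟩ := by
    intro γ i hi
    have h : ∃ i' : Fin l, u i' = u i := ⟨⟨i, hi⟩, rfl⟩
    rw [hxx]
    simp only
    rw [dif_pos h]
    have h1 : h.choose = ⟨i, hi⟩ := Fin.ext
      (hu (show (h.choose : ℕ) ∈ Set.Iio n from h.choose.2.trans hl)
        (show i ∈ Set.Iio n from hi.trans hl) h.choose_spec)
    rw [h1]
  have hch : ∀ γ : (Fin l → ℝ) × V, ∃ p : σ → MvPolynomial (Fin n) ℝ,
      (∀ o, (p o).totalDegree ≤ K₁ ^ n) ∧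
      ∀ y : Fin n → ℝ, (∀ i < l, MvPolynomial.eval y (p (u i)) = xx γ (u i)) ∧
        MvPolynomial.eval y (p (u l)) = MvPolynomial.eval (xx γ) (Φ γ.2 l) + y ⟨l, hl⟩ ∧
        ∀ i (hi : i < n), l < i → MvPolynomial.eval y (p (u i)) =
          MvPolynomial.eval (fun o => MvPolynomial.eval y (p o)) (Φ γ.2 i) +
            2 / 2 ^ g i * y ⟨i, hi⟩ := fun γ =>
    chart hu hK₁1 (xx γ) (fun i => 2 / 2 ^ g i) hl (hdep γ.2) fun i hi hin =>
      (hdeg γ.2 i hi hin).trans hKK₁
  choose p hp1 hp2 using hch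
  obtain ⟨Q, hQ⟩ : ∃ Q : (Fin l → ℝ) × V → MvPolynomial (Fin n) ℝ, Q = fun γ =>
    MvPolynomial.aeval (p γ) (D γ.2) := ⟨_, rfl⟩
  have hQe : ∀ γ y, MvPolynomial.eval y (Q γ) =
      MvPolynomial.eval (fun o => MvPolynomial.eval y (p γ o)) (D γ.2) := by
    intro γ y
    rw [hQ]
    exact eval_aevalσ _ _ _
  have hQd : ∀ γ, (Q γ).totalDegree ≤ E := by
    intro γ
    rw [hQ, hE]
    exact totalDegree_aevalσ (hp1 γ) ((hdegD γ.2).trans hKK₁)
  -- the sum of the squares at the nodes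
  obtain ⟨sb, hsb⟩ : ∃ sb : (Fin n → Fin (E + 1)) → Fin n → MvPolynomial (Fin 1) ℝ,
    sb = fun y i => if i = ⟨l, hl⟩ then MvPolynomial.X 0 else MvPolynomial.C (nod y i) :=
    ⟨_, rfl⟩
  have hsbd : ∀ y i, (sb y i).totalDegree ≤ 1 := by
    intro y i
    rw [hsb]
    simp only
    split_ifs
    · rw [MvPolynomial.totalDegree_X]
    · rw [MvPolynomial.totalDegree_C]
      exact Nat.zero_le _
  obtain ⟨yy, hyy⟩ : ∃ yy : (Fin n → Fin (E + 1)) → ℝ → Fin n → ℝ,
    yy = fun y s i => if i = ⟨l, hl⟩ then s else nod y i := ⟨_, rfl⟩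
  have hsbe : ∀ y (b : Fin 1 → ℝ), (fun i => MvPolynomial.eval b (sb y i)) = yy y (b 0) := by
    intro y b
    funext i
    rw [hsb, hyy]
    simp only
    split_ifs
    · rw [MvPolynomial.eval_X]
    · rw [MvPolynomial.eval_C]
  obtain ⟨D', hD'⟩ : ∃ D' : (Fin l → ℝ) × V → MvPolynomial (Fin 1) ℝ, D' = fun γ =>
    ∑ y : Fin n → Fin (E + 1), (MvPolynomial.aeval (sb y) (Q γ)) ^ 2 := ⟨_, rfl⟩
  have hD'e : ∀ γ (b : Fin 1 → ℝ), MvPolynomial.eval b (D' γ) =
      ∑ y : Fin n → Fin (E + 1), (MvPolynomial.eval (yy y (b 0)) (Q γ)) ^ 2 := by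
    intro γ b
    rw [hD']
    simp only
    rw [map_sum]
    refine Finset.sum_congr rfl fun y _ => ?_
    rw [map_pow, eval_aevalσ, hsbe]
  have hD'd : ∀ γ, (D' γ).totalDegree ≤ 2 * E := by
    intro γ
    rw [hD']
    refine MvPolynomial.totalDegree_finsetSum_le fun y _ => ?_
    refine (MvPolynomial.totalDegree_pow _ _).trans (Nat.mul_le_mul_left 2 ?_)
    have := totalDegree_aevalσ (hsbd y) (hQd γ)
    rwa [one_mul] at this
  -- the context and the own distance
  obtain ⟨c, hc⟩ : ∃ c : Ω → (Fin l → ℝ) × V, c = fun ω => ((fun i : Fin l => X ω (u i)), v ω) :=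
    ⟨_, rfl⟩
  have hcx : ∀ ω, ∀ i < l, xx (c ω) (u i) = X ω (u i) := by
    intro ω i hi
    rw [hxxe _ i hi, hc]
  have hcv : ∀ ω, (c ω).2 = v ω := fun ω => by rw [hc]
  have hΦl : ∀ ω (b : σ → ℝ), (∀ i < l, b (u i) = X ω (u i)) →
      MvPolynomial.eval b (Φ (v ω) l) = MvPolynomial.eval (X ω) (Φ (v ω) l) :=
    fun ω b hb => hdep _ l _ _ hb
  have hxΦ : ∀ ω, MvPolynomial.eval (xx (c ω)) (Φ (c ω).2 l) =
      MvPolynomial.eval (X ω) (Φ (v ω) l) := by
    intro ω
    rw [hcv]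
    exact hΦl ω _ (hcx ω)
  obtain ⟨ζ, hζ⟩ : ∃ ζ : Ω → ℝ, ζ = fun ω => X ω (u l) - MvPolynomial.eval (X ω) (Φ (v ω) l) :=
    ⟨_, rfl⟩
  -- the polynomial is small at the own point
  have hsm : ∀ ω, Gd ω → |MvPolynomial.eval (fun _ : Fin 1 => ζ ω) (D' (c ω))| ≤ N * τ ^ 2 := by
    intro ω hω
    rw [hD'e, abs_of_nonneg (Finset.sum_nonneg fun _ _ => sq_nonneg _)]
    have hbx : ∀ y : Fin n → Fin (E + 1), DBx u (Φ (v ω)) (fun i => 2 / 2 ^ g i) (l + 1) n (X ω)
        (fun o => MvPolynomial.eval (yy y (ζ ω)) (p (c ω) o)) := by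
      intro y
      refine ⟨fun i hi => ?_, fun i hi hin => ?_⟩ <;> beta_reduce
      · rcases Nat.lt_or_ge i l with h2 | h2
        · rw [(hp2 (c ω) _).1 i h2, hcx ω i h2]
        · have h3 : i = l := by omega
          subst h3
          rw [(hp2 (c ω) _).2.1, hxΦ, hyy, hζ]
          simp
      · rw [(hp2 (c ω) _).2.2 i hin (by omega), hcv, add_sub_cancel_left, hyy]
        beta_reduce
        rw [if_neg (by intro h; rw [Fin.mk.injEq] at h; omega), abs_mul,
          abs_of_nonneg (nod_le y _).1, abs_of_pos (by positivity)]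
        exact mul_le_of_le_one_right (by positivity) (nod_le y _).2
    have h1 : ∀ y : Fin n → Fin (E + 1),
        (MvPolynomial.eval (yy y (ζ ω)) (Q (c ω))) ^ 2 ≤ τ ^ 2 := by
      intro y
      rw [hQe, hcv]
      have h2 := abs_le.1 (hbox ω hω _ (hbx y))
      exact sq_le_sq' h2.1 h2.2
    refine (Finset.sum_le_sum fun y _ => h1 y).trans (le_of_eq ?_)
    rw [Finset.sum_const, Finset.card_univ, Fintype.card_fun, Fintype.card_fin, Fintype.card_fin,
      nsmul_eq_mul, hN]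
    push_cast
    ring
  -- the growth
  have hτ' : 0 < N * τ ^ 2 := by positivity
  have hη2 : 0 < η / 2 := half_pos hη
  have hfull' : ((1 : ℕ) : ℝ) * (L * Real.log 2) - θ ≤
      CH q (fun ω => cel (fun i : Fin 1 => (fun _ => g l) i + L) ((fun ω _ => ζ ω) ω))
        (fun ω => (cel (fun _ : Fin 1 => g l) ((fun ω _ => ζ ω) ω), c ω)) := by
    have e1 : CH q (fun ω => cel (fun i : Fin 1 => (fun _ => g l) i + L) ((fun ω _ => ζ ω) ω))
        (fun ω => (cel (fun _ : Fin 1 => g l) ((fun ω _ => ζ ω) ω), c ω)) =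
        CH q (fun ω => ⌊(2 : ℝ) ^ (g l + L) *
          (X ω (u l) - MvPolynomial.eval (X ω) (Φ (v ω) l))⌋)
          (fun ω => (⌊(2 : ℝ) ^ g l * (X ω (u l) - MvPolynomial.eval (X ω) (Φ (v ω) l))⌋,
            ((fun i : Fin l => X ω (u i)), v ω))) := by
      refine CH_congr h0 ?_ ?_ ?_ ?_
      · intro ω ω' _ _ h
        have h1 := congrFun (Prod.ext_iff.mp h).1 0
        unfold cel at h1
        rw [hζ] at h1
        exact h1
      · intro ω ω' _ _ h
        funext i
        unfold cel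
        rw [hζ]
        exact (Prod.ext_iff.mp h).1
      · intro ω ω' _ _ h
        rw [hc] at h
        have h1 := congrFun (Prod.ext_iff.mp h).1 0
        unfold cel at h1
        rw [hζ] at h1
        exact Prod.ext h1 (Prod.ext_iff.mp h).2
      · intro ω ω' _ _ h
        rw [hc]
        refine Prod.ext ?_ (Prod.ext_iff.mp h).2
        funext i
        unfold cel
        rw [hζ]
        exact (Prod.ext_iff.mp h).1
    rw [e1, Nat.cast_one, one_mul]
    exact hfull
  have hLb : C₁ * (θ + 1) / (η / 2) ≤ L * Real.log 2 := by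
    refine le_trans ?_ hL
    have e1 : C₁ * (θ + 1) / (η / 2) = 2 * C₁ * ((θ + 1) / η) := by field_simp
    have e2 : (2 * C₁ + Real.log (C₂ * N)) * (θ + 1) / η =
        (2 * C₁ + Real.log (C₂ * N)) * ((θ + 1) / η) := by ring
    rw [e1, e2]
    refine mul_le_mul_of_nonneg_right (by linarith) (by linarith)
  have hbad := hcore Ω ((Fin l → ℝ) × V) q L (fun _ => g l) (fun ω _ => ζ ω) c D' Gd
    (fun _ => N * τ ^ 2) θ (η / 2) hq hD'd hθ hη2 (by linarith) (fun _ => hτ') hfull'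
    (by linarith) hLb hsm
  have hor := Pb_mono25 h0 (A := fun ω => ¬ ∀ b, DBx u (Φ (v ω)) (fun i => 2 / 2 ^ g i) l n (X ω)
      b → |MvPolynomial.eval b (D (v ω))| ≤
        Real.exp ((2 * C₁ + Real.log (C₂ * N)) * (θ + 1) / η) * τ)
    (B := fun ω => (¬ ∀ b : Fin 1 → ℝ, (∀ i, |b i - (fun ω _ => ζ ω) ω i| ≤
      4 / 2 ^ (fun _ : Fin 1 => g l) i) → |MvPolynomial.eval b (D' (c ω))| ≤
        Real.exp (C₁ * (θ + 1) / (η / 2)) * (N * τ ^ 2)) ∨ ¬ Gd ω) (fun ω _ hω => ?_)
  · refine hor.trans ((Pb_or25 h0 _ _).trans ?_)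
    linarith
  · by_contra hcon
    rw [not_or, not_not, not_not] at hcon
    obtain ⟨hall, hG⟩ := hcon
    refine hω fun b hb => ?_
    obtain ⟨s, hs⟩ : ∃ s, s = b (u l) - MvPolynomial.eval b (Φ (v ω) l) := ⟨_, rfl⟩
    have hbl : ∀ i < l, b (u i) = X ω (u i) := hb.1
    have hs2 : |s| ≤ 2 / 2 ^ g l := by rw [hs]; exact hb.2 l le_rfl hl
    have hsζ : |s - ζ ω| ≤ 4 / 2 ^ g l := by
      have h1 := hown ω hG
      have h2 : |ζ ω| ≤ 2 / 2 ^ g l := by rw [hζ]; exact h1
      have e1 : (4 : ℝ) / 2 ^ g l = 2 / 2 ^ g l + 2 / 2 ^ g l := by ring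
      rw [e1]
      rw [abs_le] at hs2 h2 ⊢
      constructor <;> linarith [hs2.1, hs2.2, h2.1, h2.2]
    have h3 := hall (fun _ => s) (fun _ => hsζ)
    rw [hD'e, abs_of_nonneg (Finset.sum_nonneg fun _ _ => sq_nonneg _)] at h3
    obtain ⟨T, hT⟩ : ∃ T, T = Real.exp (C₁ * (θ + 1) / η) * (N * τ) := ⟨_, rfl⟩
    have hT0 : 0 ≤ T := by rw [hT]; positivity
    have hTsq : Real.exp (C₁ * (θ + 1) / (η / 2)) * (N * τ ^ 2) ≤ T ^ 2 := by
      rw [hT, mul_pow, ← Real.exp_nat_mul]
      have e1 : ((2 : ℕ) : ℝ) * (C₁ * (θ + 1) / η) = C₁ * (θ + 1) / (η / 2) := by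
        push_cast
        field_simp
      rw [e1]
      refine mul_le_mul_of_nonneg_left ?_ (Real.exp_pos _).le
      rw [mul_pow]
      refine mul_le_mul_of_nonneg_right ?_ (sq_nonneg _)
      nlinarith
    have hnode : ∀ y : Fin n → Fin (E + 1), |MvPolynomial.eval (yy y s) (Q (c ω))| ≤ T := by
      intro y
      refine abs_le_of_sq_le_sq ?_ hT0
      refine le_trans ?_ (h3.trans hTsq)
      exact Finset.single_le_sum (f := fun y => (MvPolynomial.eval (yy y s) (Q (c ω))) ^ 2)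
        (fun _ _ => sq_nonneg _) (Finset.mem_univ y)
    -- the polynomial in the other variables
    obtain ⟨Qs, hQs⟩ : ∃ Qs : MvPolynomial (Fin n) ℝ, Qs = MvPolynomial.aeval
      (fun i : Fin n => if i = ⟨l, hl⟩ then MvPolynomial.C s else MvPolynomial.X i) (Q (c ω)) :=
      ⟨_, rfl⟩
    have hQse : ∀ y : Fin n → ℝ, MvPolynomial.eval y Qs =
        MvPolynomial.eval (fun i => if i = ⟨l, hl⟩ then s else y i) (Q (c ω)) := by
      intro y
      rw [hQs, eval_aevalσ]
      congr 2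
      funext i
      split_ifs
      · rw [MvPolynomial.eval_C]
      · rw [MvPolynomial.eval_X]
    have hQsd : Qs.totalDegree ≤ E := by
      rw [hQs]
      have := totalDegree_aevalσ (g := fun i : Fin n => if i = ⟨l, hl⟩ then
        (MvPolynomial.C s : MvPolynomial (Fin n) ℝ) else MvPolynomial.X i) (d := 1) (fun i => by
          split_ifs
          · rw [MvPolynomial.totalDegree_C]
            exact Nat.zero_le _
          · rw [MvPolynomial.totalDegree_X]) (hQd (c ω))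
      rwa [one_mul] at this
    obtain ⟨y, hy⟩ : ∃ y : Fin n → ℝ, y = fun i : Fin n => if (i : ℕ) ≤ l then 0 else
      (b (u i) - MvPolynomial.eval b (Φ (v ω) i)) / (2 / 2 ^ g (i : ℕ)) := ⟨_, rfl⟩
    have hyl : ∀ i, |y i| ≤ 1 := by
      intro i
      rw [hy]
      simp only
      split_ifs with h4
      · rw [abs_zero]
        exact zero_le_one
      · rw [abs_div, abs_of_pos (show (0 : ℝ) < 2 / 2 ^ g (i : ℕ) by positivity),
          div_le_one (by positivity)]
        exact hb.2 i (by omega) i.2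
    have h5 := hlag Qs T hQsd (fun y' => by
      rw [hQse]
      have e1 : (fun i => if i = ⟨l, hl⟩ then s else
          (fun k => (((y' k : Fin (E + 1)) : ℕ) : ℝ) / ((E : ℝ) + 1)) i) = yy y' s := by
        rw [hyy]
        rfl
      rw [e1]
      exact hnode y') y hyl
    rw [hQse, hQe] at h5
    -- the point of the chart is `b`
    obtain ⟨y₁, hy₁⟩ : ∃ y₁ : Fin n → ℝ, y₁ = fun i => if i = ⟨l, hl⟩ then s else y i := ⟨_, rfl⟩
    rw [← hy₁] at h5
    have hpt : ∀ i, i < n → MvPolynomial.eval y₁ (p (c ω) (u i)) = b (u i) := by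
      intro i
      induction i using Nat.strong_induction_on with
      | _ i ih =>
        intro hi
        rcases Nat.lt_trichotomy i l with h6 | h6 | h6
        · rw [(hp2 (c ω) _).1 i h6, hcx ω i h6, hbl i h6]
        · subst h6
          rw [(hp2 (c ω) _).2.1, hxΦ, hy₁, ← hΦl ω b hbl]
          simp only [if_true]
          rw [hs]
          ring
        · rw [(hp2 (c ω) _).2.2 i hi h6, hcv]
          have e1 : MvPolynomial.eval (fun o => MvPolynomial.eval y₁ (p (c ω) o)) (Φ (v ω) i) =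
              MvPolynomial.eval b (Φ (v ω) i) :=
            hdep _ i _ _ fun i' hi' => ih i' hi' (hi'.trans hi)
          have e2 : y₁ ⟨i, hi⟩ = (b (u i) - MvPolynomial.eval b (Φ (v ω) i)) / (2 / 2 ^ g i) := by
            rw [hy₁]
            simp only
            rw [if_neg (by intro h; rw [Fin.mk.injEq] at h; omega), hy]
            simp only
            rw [if_neg (by omega)]
          rw [e1, e2]
          field_simp
          ring
    have h7 : MvPolynomial.eval (fun o => MvPolynomial.eval y₁ (p (c ω) o)) (D (c ω).2) =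
        MvPolynomial.eval b (D (v ω)) := by
      rw [hcv]
      exact hdepD _ _ _ fun i hi => hpt i hi
    rw [h7] at h5
    refine h5.trans ?_
    rw [hT]
    have h8 : C₂ * (Real.exp (C₁ * (θ + 1) / η) * (N * τ)) =
        (C₂ * N) * Real.exp (C₁ * (θ + 1) / η) * τ := by ring
    rw [h8]
    refine mul_le_mul_of_nonneg_right ?_ hτ.le
    have h9 : C₂ * N = Real.exp (Real.log (C₂ * N)) := (Real.exp_log (by nlinarith)).symm
    rw [h9, ← Real.exp_add]
    refine Real.exp_le_exp.2 ?_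
    have e1 : (2 * C₁ + Real.log (C₂ * N)) * (θ + 1) / η =
        2 * C₁ * ((θ + 1) / η) + Real.log (C₂ * N) * ((θ + 1) / η) := by ring
    have e2 : C₁ * (θ + 1) / η = C₁ * ((θ + 1) / η) := by ring
    rw [Real.log_exp, e1, e2]
    have e3 : Real.log (C₂ * N) ≤ Real.log (C₂ * N) * ((θ + 1) / η) :=
      le_mul_of_one_le_right hlog0 hθη
    have e4 : 0 ≤ C₁ * ((θ + 1) / η) := by
      have : 0 ≤ (θ + 1) / η := by linarith
      positivity
    linarith

/-- The constant of one direction. -/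
noncomputable def Cg (n K : ℕ) : ℝ := (gstep n K).choose

theorem one_le_Cg (n K : ℕ) : 1 ≤ Cg n K := (gstep n K).choose_spec.1

/-- The degrees of the polynomials after `l`. -/
def kmx (K : ℕ → ℕ) (l n : ℕ) : ℕ := (Finset.Ioc l n).sup K

theorem le_kmx {K : ℕ → ℕ} {l n i : ℕ} (h1 : l < i) (h2 : i ≤ n) : K i ≤ kmx K l n :=
  Finset.le_sup (f := K) (Finset.mem_Ioc.2 ⟨h1, h2⟩)

/-- **All directions.** The loss in the direction `l` depends on the degrees of the polynomials
after `l` only. -/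
theorem gall (n : ℕ) {σ Ω V : Type} [Fintype Ω] {q : Ω → ℝ} {u : ℕ → σ} {X : Ω → σ → ℝ}
    {v : Ω → V} {Φ : V → ℕ → MvPolynomial σ ℝ} {D : V → MvPolynomial σ ℝ} {g K L : ℕ → ℕ}
    {A : Ω → Prop} {θ : ℕ → ℝ} {τ η : ℝ} (hq : IsLaw q) (hu : Set.InjOn u (Set.Iio n))
    (hdeg : ∀ x, ∀ i < n, (Φ x i).totalDegree ≤ K i) (hdegD : ∀ x, (D x).totalDegree ≤ K n)
    (hdep : ∀ x i, DepU u i (Φ x i)) (hdepD : ∀ x, DepU u n (D x)) (hθ : ∀ l, 0 ≤ θ l)
    (hη : 0 < η) (hη1 : η ≤ 1) (hτ : 0 < τ)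
    (hfull : ∀ l < n, L l * Real.log 2 - θ l ≤
        CH q (fun ω => ⌊(2 : ℝ) ^ (g l + L l) *
          (X ω (u l) - MvPolynomial.eval (X ω) (Φ (v ω) l))⌋)
          (fun ω => (⌊(2 : ℝ) ^ g l * (X ω (u l) - MvPolynomial.eval (X ω) (Φ (v ω) l))⌋,
            ((fun i : Fin l => X ω (u i)), v ω))))
    (hL : ∀ l < n, Cg n (kmx K l n) * (θ l + 1) / (η / 8 ^ l) ≤ L l * Real.log 2)
    (hA : Pb q (fun ω => ¬ A ω) ≤ 0)
    (hown : ∀ ω, A ω → ∀ l < n,
      |X ω (u l) - MvPolynomial.eval (X ω) (Φ (v ω) l)| ≤ 2 / 2 ^ g l)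
    (hsm : ∀ ω, A ω → |MvPolynomial.eval (X ω) (D (v ω))| ≤ τ) :
    Pb q (fun ω => ¬ ∀ b, DBx u (Φ (v ω)) (fun i => 2 / 2 ^ g i) 0 n (X ω) b →
      |MvPolynomial.eval b (D (v ω))| ≤ Real.exp (∑ l ∈ range n,
        Cg n (kmx K l n) * (θ l + 1) / (η / 8 ^ l)) * τ) ≤ η := by
  have h0 := hq.nonneg
  obtain ⟨a, ha⟩ : ∃ a : ℕ → ℝ, a = fun l => Cg n (kmx K l n) * (θ l + 1) / (η / 8 ^ l) :=
    ⟨_, rfl⟩
  have haj : ∀ l, a l = Cg n (kmx K l n) * (θ l + 1) / (η / 8 ^ l) := fun l => by rw [ha]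
  obtain ⟨Gd, hGd⟩ : ∃ Gd : ℕ → Ω → Prop, Gd = fun l ω => A ω ∧
    ∀ b, DBx u (Φ (v ω)) (fun i => 2 / 2 ^ g i) l n (X ω) b →
      |MvPolynomial.eval b (D (v ω))| ≤ Real.exp (∑ i ∈ Finset.Ico l n, a i) * τ := ⟨_, rfl⟩
  have key : ∀ k ≤ n, Pb q (fun ω => ¬ Gd (n - k) ω) ≤ η / 8 ^ (n - k) := by
    intro k
    induction k with
    | zero =>
      intro _
      rw [Nat.sub_zero]
      refine le_trans ?_ (show (0 : ℝ) ≤ η / 8 ^ n by positivity)
      refine le_trans (Pb_mono25 h0 fun ω _ hω hAω => ?_) hA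
      rw [hGd] at hω
      refine hω ⟨hAω, fun b hb => ?_⟩
      rw [Finset.Ico_self, Finset.sum_empty, Real.exp_zero, one_mul,
        hdepD (v ω) b (X ω) fun i hi => hb.1 i hi]
      exact hsm ω hAω
    | succ k ih =>
      intro hk
      obtain ⟨l, hl⟩ : ∃ l, l = n - (k + 1) := ⟨_, rfl⟩
      have hln : l < n := by omega
      have e1 : n - k = l + 1 := by omega
      have ih' := ih (by omega)
      rw [e1] at ih'
      rw [← hl]
      have h8 : (0 : ℝ) < 8 ^ l := by positivity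
      have hη' : 0 < η / 8 ^ l := by positivity
      have hη'1 : η / 8 ^ l ≤ 1 := by
        rw [div_le_one h8]
        exact hη1.trans (one_le_pow₀ (by norm_num))
      have h1 := (gstep n (kmx K l n)).choose_spec.2 q u l X v Φ D g (L l) (Gd (l + 1))
        (Real.exp (∑ i ∈ Finset.Ico (l + 1) n, a i) * τ) (θ l) (η / 8 ^ l) hq hu hln
        (fun x i k1 k2 => (hdeg x i k2).trans (le_kmx k1 k2.le))
        (fun x => (hdegD x).trans (le_kmx hln le_rfl)) hdep hdepD (hθ l) hη' hη'1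
        (by positivity) (hfull l hln) (by
          refine ih'.trans (le_of_eq ?_)
          rw [pow_succ]
          field_simp) (hL l hln) (fun ω hω => by
          rw [hGd] at hω
          exact hown ω hω.1 l hln) (fun ω hω b hb => by
          rw [hGd] at hω
          exact hω.2 b hb)
      have h2 : Pb q (fun ω => ¬ Gd l ω) ≤ Pb q (fun ω => (¬ A ω) ∨
          ¬ ∀ b, DBx u (Φ (v ω)) (fun i => 2 / 2 ^ g i) l n (X ω) b →
          |MvPolynomial.eval b (D (v ω))| ≤
            Real.exp ((gstep n (kmx K l n)).choose * (θ l + 1) / (η / 8 ^ l)) *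
              (Real.exp (∑ i ∈ Finset.Ico (l + 1) n, a i) * τ)) := by
        refine Pb_mono25 h0 fun ω _ hω => ?_
        by_contra hcon
        rw [not_or, not_not, not_not] at hcon
        rw [hGd] at hω
        refine hω ⟨hcon.1, fun b hb => (hcon.2 b hb).trans (le_of_eq ?_)⟩
        rw [← mul_assoc, ← Real.exp_add]
        congr 2
        have e2 : ∑ i ∈ Finset.Ico l n, a i = a l + ∑ i ∈ Finset.Ico (l + 1) n, a i :=
          (Finset.sum_eq_sum_Ico_succ_bot hln a)
        rw [e2, haj l]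
        rfl
      refine h2.trans ((Pb_or25 h0 _ _).trans ?_)
      linarith
  have h3 := key n le_rfl
  rw [Nat.sub_self, pow_zero, div_one] at h3
  refine le_trans (Pb_mono25 h0 (B := fun ω => ¬ Gd 0 ω) fun ω _ hω => ?_) h3
  intro hG
  rw [hGd] at hG
  refine hω ?_
  rw [← ha, Finset.range_eq_Ico]
  exact hG.2

end Pool.GRW
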