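import Pool.Agent.H45.EXA.Sbs
import Pool.Agent.H71.GEN.Comp
import Pool.Agent.H54.GN.Lb

/-!
# A label of one coordinate of the zoom is a label of the family
-/

set_option autoImplicit false

namespace Pool.GEN

open Finset Real MvPolynomial
open Pool.Agent.H49.Ent Pool.Agent.H32.Dense Pool.STK Pool.KA Pool.KSAT Pool.K2S Pool.PB Pool.S6C
open Pool.FLF (Fam.sub)

variable {m n J : ℕ} {κ : Type}

/-- The constants of the substitution: the ball, the slopes and the position. -/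
theorem lbz_pos {F : Fam m J} {w J' ρ P₁ e₀ c₀ : ℕ} (hc₀ : (n : ℝ) + 6 ≤ 2 ^ c₀)
    (hρ : ρ + 3 ≤ J') (hP : P₁ + e₀ ≤ J') {ω : F.Ω} {e : Fin n → Fin m} {i : Fin n}
    {G : MvPolynomial (Option (Fin n)) ℝ} {zb : Option (Fin n) → ℝ}
    (hx : ∀ k, |zb (some k) - (2 ^ w * F.x ω (e k) - cl F w ω (e k) - tb F w ω * vl F ω (e k))| ≤
      3 / 2 ^ J')
    (ht : |zb none - tb F w ω| ≤ 1 / 2 ^ J')
    (hG : |zb (some i) - eval zb G| ≤ 1 / 2 ^ P₁)
    (hl : ∀ b : Option (Fin n) → ℝ, (∀ o, |b o - zb o| ≤ 1 / 2 ^ ρ) →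
      ∀ o, |eval b (pderiv o G)| ≤ 2 ^ e₀) :
    (∀ b : Option (Fin m) → ℝ, (∀ o, |b o - bt F ω o| ≤ 1 / 2 ^ (w + ρ + c₀)) → ∀ o,
      |eval b (pderiv o (qs w (F.T1 w ω) (fun i => cl F w ω i) (fun i => vl F ω i) e
        (fun _ => G) i))| ≤ 2 ^ (e₀ + c₀)) ∧
    |F.x ω (e i) - eval (bt F ω) (qs w (F.T1 w ω) (fun i => cl F w ω i) (fun i => vl F ω i) e
      (fun _ => G) i)| ≤ (3 * n + 7) / 2 ^ (w + P₁) := by
  classical
  have pw : (0 : ℝ) < 2 ^ w := by positivity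
  have pr : (0 : ℝ) < 2 ^ ρ := by positivity
  have pc : (0 : ℝ) < 2 ^ c₀ := by positivity
  have pP : (0 : ℝ) < 2 ^ P₁ := by positivity
  have pJ : (0 : ℝ) < 2 ^ J' := by positivity
  have pe : (0 : ℝ) < 2 ^ e₀ := by positivity
  have hn : (0 : ℝ) ≤ n := Nat.cast_nonneg n
  obtain ⟨S, hS⟩ : ∃ S, S = sb w (F.T1 w ω : ℝ) (fun i => (cl F w ω i : ℝ))
    (fun i => (vl F ω i : ℝ)) e := ⟨_, rfl⟩
  have hv : ∀ i, |(fun i => (vl F ω i : ℝ)) i| ≤ 1 := by
    intro i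
    have h1 := vl_near F ω i
    have h2 : (-1 : ℝ) ≤ vl F ω i := by exact_mod_cast h1.1
    have h3 : (vl F ω i : ℝ) ≤ 1 := by exact_mod_cast h1.2
    exact abs_le.2 ⟨h2, h3⟩
  have hSbt : ∀ o, |eval (bt F ω) (S o) - zb o| ≤ 3 / 2 ^ J' := by
    intro o
    rw [hS]
    rcases o with _ | k
    · rw [eval_sb_none]
      have e1 : 2 ^ w * bt F ω none - (F.T1 w ω : ℝ) = tb F w ω := rfl
      rw [e1, abs_sub_comm]
      refine ht.trans (div_le_div_of_nonneg_right (by norm_num) pJ.le)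
    · rw [eval_sb_some]
      have h1 := hx k
      rw [abs_sub_comm] at h1
      refine le_trans (le_of_eq ?_) h1
      congr 1
      have e1 : 2 ^ w * bt F ω none - (F.T1 w ω : ℝ) = tb F w ω := rfl
      have e2 : bt F ω (some (e k)) = F.x ω (e k) := rfl
      rw [e1, e2]
      ring
  have hSb : ∀ b : Option (Fin m) → ℝ, ∀ δ : ℝ, (∀ o, |b o - bt F ω o| ≤ δ) → ∀ o,
      |eval b (S o) - eval (bt F ω) (S o)| ≤ 2 * (2 ^ w * δ) := by
    intro b δ hb o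
    have hδ : 0 ≤ δ := (abs_nonneg _).trans (hb none)
    have h0 : 0 ≤ 2 ^ w * δ := by positivity
    rw [hS]
    rcases o with _ | k
    · rw [eval_sb_none, eval_sb_none]
      have e1 : 2 ^ w * b none - (F.T1 w ω : ℝ) - (2 ^ w * bt F ω none - F.T1 w ω) =
          2 ^ w * (b none - bt F ω none) := by ring
      rw [e1, abs_mul, abs_of_pos pw]
      have := mul_le_mul_of_nonneg_left (hb none) pw.le
      linarith
    · rw [eval_sb_some, eval_sb_some]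
      have e1 : 2 ^ w * b (some (e k)) - (cl F w ω (e k) : ℝ) -
          vl F ω (e k) * (2 ^ w * b none - F.T1 w ω) -
          (2 ^ w * bt F ω (some (e k)) - cl F w ω (e k) -
          vl F ω (e k) * (2 ^ w * bt F ω none - F.T1 w ω)) =
          2 ^ w * (b (some (e k)) - bt F ω (some (e k))) -
          vl F ω (e k) * (2 ^ w * (b none - bt F ω none)) := by ring
      rw [e1]
      have h1 := mul_le_mul_of_nonneg_left (hb none) pw.le
      have h2 := mul_le_mul_of_nonneg_left (hb (some (e k))) pw.le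
      have h3 : |2 ^ w * (b (some (e k)) - bt F ω (some (e k)))| ≤ 2 ^ w * δ := by
        rw [abs_mul, abs_of_pos pw]
        exact h2
      have h4 : |(vl F ω (e k) : ℝ) * (2 ^ w * (b none - bt F ω none))| ≤ 2 ^ w * δ := by
        rw [abs_mul, abs_mul, abs_of_pos pw]
        calc _ ≤ 1 * (2 ^ w * δ) := mul_le_mul (hv (e k)) h1 (by positivity) zero_le_one
          _ = _ := one_mul _
      have h5 := abs_sub (2 ^ w * (b (some (e k)) - bt F ω (some (e k))))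
        ((vl F ω (e k) : ℝ) * (2 ^ w * (b none - bt F ω none)))
      linarith
  have h8 : (8 : ℝ) * (3 / 2 ^ J') ≤ 3 * (1 / 2 ^ ρ) := by
    have h1 : (2 : ℝ) ^ ρ * 8 ≤ 2 ^ J' := by
      calc (2 : ℝ) ^ ρ * 8 = 2 ^ (ρ + 3) := by rw [pow_add]; norm_num
        _ ≤ 2 ^ J' := pow_le_pow_right₀ one_le_two hρ
    have e1 : (8 : ℝ) * (3 / 2 ^ J') = 24 / 2 ^ J' := by ring
    have e2 : (3 : ℝ) * (1 / 2 ^ ρ) = 3 / 2 ^ ρ := by ring
    rw [e1, e2, div_le_div_iff₀ pJ pr]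
    linarith
  have hrad : ∀ b : Option (Fin m) → ℝ, (∀ o, |b o - bt F ω o| ≤ 1 / 2 ^ (w + ρ + c₀)) →
      ∀ o, |eval b (S o) - zb o| ≤ 1 / 2 ^ ρ := by
    intro b hb o
    have h1 := hSb b _ hb o
    have h2 := hSbt o
    have h3 : 2 * (2 ^ w * (1 / 2 ^ (w + ρ + c₀))) ≤ 1 / 3 * ((1 : ℝ) / 2 ^ ρ) := by
      have e1 : 2 * (2 ^ w * (1 / 2 ^ (w + ρ + c₀))) = (2 : ℝ) / 2 ^ c₀ * (1 / 2 ^ ρ) := by
        rw [pow_add, pow_add]
        field_simp
      rw [e1]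
      refine mul_le_mul_of_nonneg_right ?_ (by positivity)
      rw [div_le_div_iff₀ pc (by norm_num)]
      linarith
    have e3 : eval b (S o) - zb o = (eval b (S o) - eval (bt F ω) (S o)) +
        (eval (bt F ω) (S o) - zb o) := by ring
    rw [e3]
    refine (abs_add_le _ _).trans ((add_le_add (h1.trans h3) h2).trans ?_)
    have h4 : (0 : ℝ) ≤ 1 / 2 ^ ρ := by positivity
    linarith
  refine ⟨fun b hb o => ?_, ?_⟩
  · have h1 := pd_qs (w := w) (a := (F.T1 w ω : ℝ)) (cv := fun i => (cl F w ω i : ℝ))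
      (vv := fun i => (vl F ω i : ℝ)) (e := e) (Q := fun _ => G) (Cn := 2 ^ e₀) hv b i
      (fun o' => by
        rw [← hS]
        exact hl _ (hrad b hb) o') o
    refine h1.trans ?_
    rw [pow_add]
    have h2 : (1 : ℝ) ≤ 2 ^ e₀ := one_le_pow₀ one_le_two
    have h3 := mul_le_mul_of_nonneg_left hc₀ pe.le
    have h4 : (n : ℝ) * 1 ≤ n * 2 ^ e₀ := mul_le_mul_of_nonneg_left h2 hn
    linarith
  · have h1 : |eval (fun o => eval (bt F ω) (S o)) G - eval zb G| ≤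
        2 ^ e₀ * ((n + 1) * (3 / 2 ^ J')) := by
      have h2 := mvσ G zb (fun o => eval (bt F ω) (S o)) (2 ^ e₀) (fun y hy o => by
        refine hl y (fun o' => ?_) o
        refine (hy o').trans ((hSbt o').trans ?_)
        have h4 : (0 : ℝ) ≤ 1 / 2 ^ ρ := by positivity
        linarith)
      refine h2.trans (mul_le_mul_of_nonneg_left ?_ pe.le)
      calc ∑ o, |eval (bt F ω) (S o) - zb o| ≤ ∑ _o : Option (Fin n), 3 / 2 ^ J' :=
            Finset.sum_le_sum fun o _ => hSbt o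
        _ = (n + 1) * (3 / 2 ^ J') := by
            rw [Finset.sum_const, Finset.card_univ, Fintype.card_option, Fintype.card_fin,
              nsmul_eq_mul]
            push_cast
            ring
    have h3 := hx i
    have e1 : F.x ω (e i) - eval (bt F ω) (qs w (F.T1 w ω) (fun i => cl F w ω i)
        (fun i => vl F ω i) e (fun _ => G) i) = 1 / 2 ^ w *
        ((2 ^ w * F.x ω (e i) - cl F w ω (e i) - tb F w ω * vl F ω (e i)) -
          eval (fun o => eval (bt F ω) (S o)) G) := by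
      rw [eval_qs, ← hS]
      have e2 : 2 ^ w * bt F ω none - (F.T1 w ω : ℝ) = tb F w ω := rfl
      rw [e2]
      field_simp
      ring
    rw [e1, abs_mul, abs_of_pos (by positivity : (0 : ℝ) < 1 / 2 ^ w)]
    have h4 : |(2 ^ w * F.x ω (e i) - cl F w ω (e i) - tb F w ω * vl F ω (e i)) -
          eval (fun o => eval (bt F ω) (S o)) G| ≤ 3 / 2 ^ J' + 1 / 2 ^ P₁ +
          2 ^ e₀ * ((n + 1) * (3 / 2 ^ J')) := by
      rw [abs_le] at h1 h3 hG ⊢
      constructor <;> linarith [h1.1, h1.2, h3.1, h3.2, hG.1, hG.2]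
    have h5 : 2 ^ e₀ * ((1 : ℝ) / 2 ^ J') ≤ 1 / 2 ^ P₁ := by
      rw [mul_one_div, div_le_div_iff₀ pJ pP, one_mul, ← pow_add]
      exact pow_le_pow_right₀ one_le_two (by omega)
    have h5' : (1 : ℝ) / 2 ^ J' ≤ 1 / 2 ^ P₁ := inv_mono (by omega)
    have h6 : (3 : ℝ) / 2 ^ J' + 1 / 2 ^ P₁ + 2 ^ e₀ * (((n : ℝ) + 1) * (3 / 2 ^ J')) ≤
        (3 * n + 7) * (1 / 2 ^ P₁) := by
      have e2 : (3 : ℝ) / 2 ^ J' + 1 / 2 ^ P₁ + 2 ^ e₀ * (((n : ℝ) + 1) * (3 / 2 ^ J')) =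
          3 * (1 / 2 ^ J') + 1 / 2 ^ P₁ + 3 * ((n : ℝ) + 1) * (2 ^ e₀ * (1 / 2 ^ J')) := by ring
      rw [e2]
      have := mul_le_mul_of_nonneg_left h5 (by positivity : 0 ≤ 3 * ((n : ℝ) + 1))
      linarith
    refine (mul_le_mul_of_nonneg_left (h4.trans h6) (by positivity)).trans (le_of_eq ?_)
    rw [pow_add]
    field_simp

/-- **A label of one coordinate of the zoom is a label of the family.** -/
theorem lb_zoom (m n K : ℕ) : ∃ (c C : ℝ) (c₀ : ℕ), 0 < c ∧ 1 ≤ C ∧ ∀ (J : ℕ) (F : Fam m J)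
    (w J' : ℕ) (h : w + J' ≤ J) (κ : Type) (g : F.Ω → κ) (B : F.Ω → Prop),
    (∀ ω ω', B ω → B ω' → ptr F J ω = ptr F J ω' → g ω = g ω') →
    (∀ ω ω', B ω → B ω' → slam F w ω = slam F w ω' → g ω = g ω') →
    ∀ (e : Fin n → Fin m), Function.Injective e →
    ∀ (I' : Finset (Fin n)) (i : Fin n) (e₀ w₁ ρ P₁ : ℕ), w₁ ≤ J' → ρ + 3 ≤ J' → P₁ + e₀ ≤ J' →
    Lb (zf F w J' h g e) I' i K e₀ J' w₁ ρ P₁ B →
    ∀ (θ : ℝ) (l : ℕ), 0 < Pe F.p B → 0 ≤ θ → C * (θ + 1) ≤ l →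
    (l : ℝ) ≤ ((J : ℝ) - (w + w₁ : ℕ)) * Real.log 2 → l ≤ w + P₁ →
    (∀ (B' : F.Ω → Prop) (hB' : 0 < Pe F.p B'), Sub B' B → c * Pe F.p B ≤ Pe F.p B' →
      (Fam.sub F B' hB').Tm θ) →
    ∃ B' : F.Ω → Prop, Sub B' B ∧ c * Pe F.p B ≤ Pe F.p B' ∧
      Lb F (I'.image e) (e i) (K + 1) (e₀ + c₀) J (w + w₁) (w + ρ + c₀) (w + P₁ - l) B' := by
  classical
  have hm0 : (0 : ℝ) ≤ m := Nat.cast_nonneg m
  have hn0 : (0 : ℝ) ≤ n := Nat.cast_nonneg n
  obtain ⟨C₂, hC₂, hvel⟩ := vel_of_pos m (K + 1)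
  obtain ⟨D₀, hD₀⟩ : ∃ D₀ : ℝ, D₀ = 3 * n + 7 := ⟨_, rfl⟩
  have hD1 : 1 ≤ D₀ := by rw [hD₀]; linarith
  obtain ⟨c₀, hc₀⟩ := pow_unbounded_of_one_lt ((n : ℝ) + 6) (one_lt_two : (1 : ℝ) < 2)
  obtain ⟨D, hD⟩ : ∃ D : ℝ, D = 5 ^ m * (5 ^ m * 17 ^ n) := ⟨_, rfl⟩
  have hDpos : 0 < D := by rw [hD]; positivity
  have hl2 : 0 < Real.log 2 := Real.log_pos (by norm_num)
  have hl1 : Real.log 2 ≤ 1 := by
    have := Real.log_two_lt_d9
    linarith
  have hlD : 0 ≤ Real.log D₀ := Real.log_nonneg hD1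
  obtain ⟨C, hC⟩ : ∃ C : ℝ, C = (C₂ + Real.log D₀) / Real.log 2 := ⟨_, rfl⟩
  have hC2 : C₂ ≤ C := by
    rw [hC, le_div_iff₀ hl2]
    nlinarith
  refine ⟨1 / D / 2, C, c₀, by positivity, hC₂.trans hC2, ?_⟩
  intro J F w J' h κ g B hgp hgl e hinj I' i e₀ w₁ ρ P₁ hw₁ hρ hP hL θ l hB0 hθ hCl hlJ hlP hTm
  have hwJ : w ≤ J := by omega
  obtain ⟨V, z, z', G, hlab⟩ := hL
  obtain ⟨B₂, hB2, hP2, hdet⟩ := pt_zoom F h h g e B (fun ω ω' h1 h2 hpt =>
    hgp ω ω' h1 h2 hpt)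
  rw [← hD] at hP2
  have hPB2 : 1 / D * Pe F.p B ≤ Pe F.p B₂ := by
    rw [div_mul_eq_mul_div, one_mul, div_le_iff₀ hDpos, mul_comm (Pe F.p B₂) D]
    exact hP2
  have hB2pos : 0 < Pe F.p B₂ := lt_of_lt_of_le (by positivity) hPB2
  -- the value of the new label
  obtain ⟨w₂, hw₂⟩ : ∃ w₂, w₂ = w + w₁ := ⟨_, rfl⟩
  have hw2J : w₂ ≤ J := by omega
  obtain ⟨Y, hY⟩ : ∃ Y : F.Ω → V × (((ℕ × κ) × ((Fin m → ℤ) × (Fin m → ℤ))) × F.ζ),
      Y = fun ω => (z' (slam (zf F w J' h g e) w₁ ω), lb F w g ω) := ⟨_, rfl⟩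
  obtain ⟨y, hy⟩ := fac (f := ptr F J) (Y := Y) (B := B₂) (by
    intro ω ω' h1 h2 hpt
    obtain ⟨a1, a2⟩ := hdet ω ω' h1 h2 hpt
    have a3 := hlab.cls ω (hB2 ω h1)
    have a4 := hlab.cls ω' (hB2 ω' h2)
    rw [hY]
    exact Prod.ext (a3.symm.trans ((congrArg z (a2 J' le_rfl)).trans a4)) a1)
  obtain ⟨y', hy'⟩ := fac (f := slam F w₂) (Y := Y) (B := B₂) (by
    intro ω ω' h1 h2 hsl
    obtain ⟨a1, a2⟩ := Prod.ext_iff.1 hsl
    obtain ⟨a3, a4⟩ := Prod.ext_iff.1 a2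
    have b1 : F.l ω = F.l ω' := a1
    have b2 : F.Z ω = F.Z ω' := a3
    have b3 : F.T1 w₂ ω = F.T1 w₂ ω' := a4
    rw [hw₂] at b3
    have b5 : F.T1 w ω = F.T1 w ω' := by
      rw [T1_div F (w := w) (K := w₁) (by omega) ω, T1_div F (w := w) (K := w₁) (by omega) ω', b3]
    have b6 : slam F w ω = slam F w ω' := Prod.ext b1 (Prod.ext b2 b5)
    have b7 : g ω = g ω' := hgl ω ω' (hB2 ω h1) (hB2 ω' h2) b6
    obtain ⟨d1, d2, -⟩ := zf_det F h g e (v := w₁) (by omega) b1 b3 b7 b2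
    rw [hY]
    exact Prod.ext (congrArg z' d1) d2)
  -- the new polynomials
  obtain ⟨G', hG'⟩ : ∃ G' : Option (V × (((ℕ × κ) × ((Fin m → ℤ) × (Fin m → ℤ))) × F.ζ)) →
      MvPolynomial (Option (Fin m)) ℝ, G' = fun o => match o with
      | none => 0
      | some v => qs w (v.2.1.1.1 : ℝ) (fun i => (v.2.1.2.1 i : ℝ))
          (fun i => (v.2.1.2.2 i : ℝ)) e (fun _ => G v.1) i := ⟨_, rfl⟩
  have hG'Y : ∀ ω, G' (some (Y ω)) = qs w (F.T1 w ω : ℝ) (fun i => (cl F w ω i : ℝ))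
      (fun i => (vl F ω i : ℝ)) e (fun _ => G (z' (slam (zf F w J' h g e) w₁ ω))) i := by
    intro ω
    rw [hG', hY]
    rfl
  have hdeg : ∀ v, (G' v).totalDegree ≤ K + 1 := by
    intro v
    rw [hG']
    rcases v with _ | v
    · simp only
      rw [totalDegree_zero]
      exact Nat.zero_le _
    · exact deg_qs (hlab.deg _)
  -- the analysis on the event
  have hcomp := fun ω (hω : B₂ ω) => lbz_pos (F := F) (n := n) (w := w) (J' := J') (ρ := ρ)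
    (P₁ := P₁) (e₀ := e₀) (c₀ := c₀) (e := e) (i := i)
    (G := G (z' (slam (zf F w J' h g e) w₁ ω))) (zb := bt (zf F w J' h g e) ω) (ω := ω)
    hc₀.le hρ hP (fun i => zf_x F h g e ω i) (by
      have h1 := zf_t F h g e ω
      have e1 : bt (zf F w J' h g e) ω none = (zf F w J' h g e).t ω := rfl
      rw [e1, abs_le]
      have : (0 : ℝ) ≤ 1 / 2 ^ J' := by positivity
      constructor <;> linarith [h1.1, h1.2]) (hlab.pos ω (hB2 ω hω)) (hlab.lip ω (hB2 ω hω))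
  have hpos : ∀ ω, B₂ ω → |F.x ω (e i) - eval (bt F ω) (G' (some (Y ω)))| ≤
      D₀ / 2 ^ (w + P₁) := by
    intro ω hω
    rw [hG'Y, hD₀]
    exact (hcomp ω hω).2
  -- the velocities
  obtain ⟨B₃, hB3, hP3, hB3v⟩ := hvel J F B₂ hB2pos w₂
    (fun σ j => if j = e i then G' (y' σ) else X (some j))
    (D₀ / 2 ^ (w + P₁)) θ hw2J (fun σ j => by
      split_ifs
      · exact hdeg _
      · rw [totalDegree_X]
        omega) (by positivity) hθ
    (hTm B₂ hB2pos hB2 (by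
      refine le_trans ?_ hPB2
      refine mul_le_mul_of_nonneg_right ?_ hB0.le
      have : 0 < 1 / D := by positivity
      linarith)) (by
      have h1 : C₂ * (θ + 1) ≤ C * (θ + 1) := mul_le_mul_of_nonneg_right hC2 (by linarith)
      rw [hw₂]
      linarith) (fun ω hω j => by
      by_cases hj : j = e i
      · simp only [if_pos hj]
        rw [hy' ω hω, hj]
        exact hpos ω hω
      · simp only [if_neg hj]
        rw [eval_X]
        change |F.x ω j - F.x ω j| ≤ _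
        rw [sub_self, abs_zero]
        positivity)
  have hexp : Real.exp (C₂ * (θ + 1)) * D₀ ≤ 2 ^ l := by
    have e1 : (2 : ℝ) ^ l = Real.exp (l * Real.log 2) := by
      rw [mul_comm, Real.exp_mul, Real.exp_log (by norm_num)]
      exact (Real.rpow_natCast 2 l).symm
    have e2 : D₀ = Real.exp (Real.log D₀) := (Real.exp_log (by linarith)).symm
    rw [e1, e2, ← Real.exp_add]
    refine Real.exp_le_exp.2 ?_
    have e3 : C * (θ + 1) * Real.log 2 = (C₂ + Real.log D₀) * (θ + 1) := by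
      rw [hC]
      field_simp
    have e4 := mul_le_mul_of_nonneg_right hCl hl2.le
    rw [e3] at e4
    have e5 : Real.log D₀ ≤ Real.log D₀ * (θ + 1) := by nlinarith
    have e6 : (C₂ + Real.log D₀) * (θ + 1) = C₂ * (θ + 1) + Real.log D₀ * (θ + 1) := by ring
    linarith
  have hexp1 : D₀ ≤ 2 ^ l := by
    refine le_trans ?_ hexp
    have h1 : 1 ≤ Real.exp (C₂ * (θ + 1)) := by
      rw [Real.one_le_exp_iff]
      have : 0 ≤ θ + 1 := by linarith
      nlinarith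
    nlinarith
  have hpow : (2 : ℝ) ^ (w + P₁) = 2 ^ (w + P₁ - l) * 2 ^ l := by
    rw [← pow_add]
    congr 1
    omega
  have hprec : ∀ x : ℝ, x ≤ 2 ^ l → x / 2 ^ (w + P₁) ≤ 1 / 2 ^ (w + P₁ - l) := by
    intro x hx
    rw [hpow, div_le_div_iff₀ (by positivity) (by positivity), one_mul, mul_comm]
    exact mul_le_mul_of_nonneg_left hx (by positivity)
  refine ⟨B₃, hB3.trans hB2, ?_, ?_⟩
  · have h1 : 1 / D / 2 * Pe F.p B = (1 / D * Pe F.p B) / 2 := by ring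
    rw [h1]
    linarith
  · refine ⟨_, y, y', G', hdeg, ?_, ?_, ?_, ?_, ?_⟩
    · intro v b b' h0 h1
      rw [hG']
      rcases v with _ | v
      · simp only [map_zero]
      · simp only
        rw [eval_qs, eval_qs, h0]
        congr 3
        refine hlab.dep _ _ _ ?_ fun i' hi' => ?_
        · rw [eval_sb_none, eval_sb_none, h0]
        · rw [eval_sb_some, eval_sb_some, h0, h1 (e i') (Finset.mem_image_of_mem e hi')]
    · intro ω hω
      rw [hy ω (hB3 ω hω), ← hw₂, hy' ω (hB3 ω hω)]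
    · intro ω hω
      rw [← hw₂, hy' ω (hB3 ω hω)]
      exact (hpos ω (hB3 ω hω)).trans (hprec _ hexp1)
    · intro ω hω
      have h1 := hB3v ω hω (e i)
      simp only [if_true] at h1
      rw [hy' ω (hB3 ω hω)] at h1
      rw [← hw₂, hy' ω (hB3 ω hω)]
      refine h1.trans ?_
      have h2 := hprec _ hexp
      have h3 : Real.exp (C₂ * (θ + 1)) * 2 ^ w₂ * (D₀ / 2 ^ (w + P₁)) =
          2 ^ w₂ * (Real.exp (C₂ * (θ + 1)) * D₀ / 2 ^ (w + P₁)) := by ring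
      have h4 : (2 : ℝ) ^ w₂ / 2 ^ (w + P₁ - l) = 2 ^ w₂ * (1 / 2 ^ (w + P₁ - l)) := by ring
      rw [h3, h4]
      exact mul_le_mul_of_nonneg_left h2 (by positivity)
    · intro ω hω b hb o
      rw [← hw₂, hy' ω (hB3 ω hω), hG'Y]
      exact (hcomp ω (hB3 ω hω)).1 b hb o

end Pool.GEN
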