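import Pool.Agent.H45.EXA.Nfm

/-!
# Closed labels on natural boxes, for families

`nat_fam`: closed labels whose gradients are small near the own points form a chain, on an event of
half the probability, if the coordinates are full beyond the precisions.
-/

set_option autoImplicit false

namespace Pool.GRW

open Finset Real MvPolynomial
open Pool.Agent.H49.Ent Pool.Agent.H32.Dense Pool.STK Pool.BFL Pool.KA Pool.KSAT Pool.K2S Pool.PB
open Pool.GEN Pool.S6C
open Pool.LIV (Pb_mono25 Pb_or25 Pb_ex25)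
open Pool.FLF (Fam.sub)

variable {m J : ℕ}

/-- **One gradient on the natural box.** -/
theorem nat_one {r : ℕ} {F : Fam m J} {A : F.Ω → Prop} {q : F.Ω → ℝ} (hq : IsLaw q)
    (hqA : ∀ ω, 0 < q ω → A ω) {c : ℕ → Fin m} (hc : Set.InjOn c (Set.Iio r)) {b : ℕ → ℕ}
    (hb : ∀ i, b i ≤ i) {K e ρ g M : ℕ → ℕ} {w L Mt : ℕ} {W : Type} {z : PtT F → W}
    {z' : LnT F → W} {G : W → ℕ → MvPolynomial (Option (Fin m)) ℝ}
    (hG : ∀ i < r, LbOK F ((range (b i)).image c) (c i) (K i) (e i) J w (ρ i) (g i) A z z'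
      (fun v => G v i))
    (hG0 : ∀ v i, r ≤ i → G v i = 0) (hρ : ∀ i < r, ρ i ≤ J) (hw : w + L ≤ J)
    (hgJ : ∀ i < r, ∀ l < b i, g l + e l + m + 2 + L ≤ J)
    (hM : ∀ l i, l < i → i < r → K i ≤ M l) (hMt : ∀ i < r, K i ≤ Mt)
    {θ : ℕ → ℝ} (hθ : ∀ l, 0 ≤ θ l) {θt : ℝ} (hθt : 0 ≤ θt)
    (htime : (L : ℝ) * Real.log 2 - θt ≤ CH q (F.T1 (w + L)) (slam F w))
    (hfull : ∀ i < r, ∀ l < b i, ((J : ℝ) - g l) * Real.log 2 - θ l ≤
      CH q (fun ω => F.X J ω (c l))
        (fun ω => ((fun l' : Fin l => F.X J ω (c l')), z' (slam F w ω), F.W ω)))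
    {γ : ℝ} (h1 : ∀ i < r, ∀ l < b i,
      Cm r (M l) * (θ l + 5) * (8 ^ r * (2 * ((r : ℝ) + 1) ^ 2)) ≤ γ)
    (h1t : Cm r Mt * (θt + 1) * (8 ^ r * (2 * ((r : ℝ) + 1) ^ 2)) ≤ γ)
    (hγL : γ ≤ L * Real.log 2) {i : ℕ} (hi : i < r) {l' : ℕ} (hl' : l' < b i) :
    Pb q (fun ω => ¬ ∀ x : Option (Fin m) → ℝ,
      DBx (uc c) (fun x => if x = 0 then C ((F.T1 w ω : ℝ) / 2 ^ w) else
        G (z' (slam F w ω)) (x - 1)) (fun x => 2 / 2 ^ (if x = 0 then w else g (x - 1))) 0
        (b i + 1) (xr F ω) x →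
      |eval x (pderiv (some (c l')) (G (z' (slam F w ω)) i))| ≤ Real.exp (r * γ) * 2 ^ e i) ≤
      1 / (2 * ((r : ℝ) + 1) ^ 2) := by
  classical
  have h0 := hq.nonneg
  have hwJ : w ≤ J := by omega
  have hγ0 : 0 ≤ γ := by
    refine le_trans ?_ h1t
    have := one_le_Cm r Mt
    positivity
  have hbi : b i < r := (hb i).trans_lt hi
  -- the data of the chain
  obtain ⟨v, hv⟩ : ∃ v : F.Ω → ℕ × W, v = fun ω => (F.T1 w ω, z' (slam F w ω)) := ⟨_, rfl⟩
  obtain ⟨Φ, hΦ⟩ : ∃ Φ : ℕ × W → ℕ → MvPolynomial (Option (Fin m)) ℝ, Φ = fun s x =>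
    if x = 0 then C ((s.1 : ℝ) / 2 ^ w) else G s.2 (x - 1) := ⟨_, rfl⟩
  have hΦ0 : ∀ s, Φ s 0 = C ((s.1 : ℝ) / 2 ^ w) := fun s => by rw [hΦ]; rfl
  have hΦs : ∀ s x, Φ s (x + 1) = G s.2 x := fun s x => by
    rw [hΦ]
    simp only [Nat.add_sub_cancel, if_neg (Nat.succ_ne_zero x)]
  obtain ⟨g', hg'⟩ : ∃ g' : ℕ → ℕ, g' = fun x => if x = 0 then w else g (x - 1) := ⟨_, rfl⟩
  have hg'0 : g' 0 = w := by rw [hg']; rfl
  have hg's : ∀ x, g' (x + 1) = g x := fun x => by
    rw [hg']
    simp only [Nat.add_sub_cancel, if_neg (Nat.succ_ne_zero x)]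
  obtain ⟨K', hK'⟩ : ∃ K' : ℕ → ℕ, K' = fun x => if x = b i + 1 then K i else
    if x = 0 then 0 else K (x - 1) := ⟨_, rfl⟩
  have hK'n : K' (b i + 1) = K i := by rw [hK']; exact if_pos rfl
  have hK'0 : K' 0 = 0 := by
    rw [hK']
    simp
  have hK's : ∀ x, x < b i → K' (x + 1) = K x := fun x hx => by
    rw [hK']
    simp only [Nat.add_sub_cancel, if_neg (Nat.succ_ne_zero x)]
    rw [if_neg (by omega)]
  obtain ⟨D, hD⟩ : ∃ D : ℕ × W → MvPolynomial (Option (Fin m)) ℝ, D = fun s =>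
    pderiv (some (c l')) (G s.2 i) := ⟨_, rfl⟩
  have hdepC : ∀ s j, DepC c (b j) (G s j) := by
    intro s j
    rcases Nat.lt_or_ge j r with hj | hj
    · intro b₁ b₂ hn hbb
      refine (hG j hj).dep s b₁ b₂ hn fun k hk => ?_
      obtain ⟨x, hx, rfl⟩ := mem_image.1 hk
      exact hbb x (mem_range.1 hx)
    · intro b₁ b₂ _ _
      rw [hG0 s j hj, map_zero, map_zero]
  have hdep : ∀ s x, DepU (uc c) x (Φ s x) := by
    intro s x
    rcases x with - | x
    · intro b₁ b₂ _
      rw [hΦ0, eval_C, eval_C]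
    · rw [hΦs]
      exact depU_of (hdepC s.2 x) (Nat.succ_le_succ (hb x))
  have hdepD : ∀ s, DepU (uc c) (b i + 1) (D s) := by
    intro s
    rw [hD]
    exact depU_of (DepC.pderiv (hdepC s.2 i) l') le_rfl
  have hdegG : ∀ s j, j < r → (G s j).totalDegree ≤ K j := fun s j hj => (hG j hj).deg s
  have hdeg : ∀ s, ∀ x < b i + 1, (Φ s x).totalDegree ≤ K' x := by
    intro s x hx
    rcases x with - | x
    · rw [hΦ0, totalDegree_C]
      exact Nat.zero_le _
    · rw [hΦs, hK's x (by omega)]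
      exact hdegG _ x (by omega)
  have hdegD : ∀ s, (D s).totalDegree ≤ K' (b i + 1) := by
    intro s
    rw [hD, hK'n]
    exact totalDegree_pdσ (hdegG _ i hi) _
  -- the own points
  have hloc : ∀ ω, A ω → ∀ l < b i, |xr F ω (some (c l)) - eval (xr F ω) (G (z' (slam F w ω)) l)| ≤
      2 / 2 ^ g l := by
    intro ω hω l hl
    have hlr : l < r := by omega
    have hb' := hG l hlr
    have hgl := hgJ i hi l hl
    have k1 := hb'.pos ω hω
    have k2 := xr_near F ω (some (c l))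
    have k3 := mvσ (G (z' (slam F w ω)) l) (bt F ω) (xr F ω) (2 ^ e l) fun y hy o =>
      hb'.lip ω hω y (fun o' => ((hy o').trans (xr_near F ω o')).trans
        (Pool.PB.inv_mono (hρ l hlr))) o
    have k4 : ∑ o, |xr F ω o - bt F ω o| ≤ (m + 1) * (1 / 2 ^ J) := by
      refine (Finset.sum_le_sum fun o _ => xr_near F ω o).trans (le_of_eq ?_)
      rw [Finset.sum_const, Finset.card_univ, Fintype.card_option, Fintype.card_fin, nsmul_eq_mul]
      push_cast
      ring
    have k5 := k3.trans (mul_le_mul_of_nonneg_left k4 (by positivity))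
    have k6 : |xr F ω (some (c l)) - eval (xr F ω) (G (z' (slam F w ω)) l)| ≤
        1 / 2 ^ J + (1 / 2 ^ g l + 2 ^ e l * ((m + 1) * (1 / 2 ^ J))) := by
      have e1 : xr F ω (some (c l)) - eval (xr F ω) (G (z' (slam F w ω)) l) =
          (xr F ω (some (c l)) - bt F ω (some (c l))) +
          ((F.x ω (c l) - eval (bt F ω) (G (z' (slam F w ω)) l)) +
          -(eval (xr F ω) (G (z' (slam F w ω)) l) - eval (bt F ω) (G (z' (slam F w ω)) l))) := by
        show _ = (xr F ω (some (c l)) - F.x ω (c l)) + _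
        ring
      rw [e1]
      refine (abs_add_le _ _).trans (add_le_add k2 ((abs_add_le _ _).trans (add_le_add k1 ?_)))
      rw [abs_neg]
      exact k5
    refine k6.trans ?_
    have hJ0 : (0 : ℝ) < 2 ^ J := by positivity
    have hg0 : (0 : ℝ) < 2 ^ g l := by positivity
    have k7 : (1 + 2 ^ e l * ((m : ℝ) + 1)) * 2 ^ g l ≤ 2 ^ J := by
      have e2 : (m : ℝ) + 1 ≤ 2 ^ m := by
        have := Nat.lt_two_pow_self (n := m)
        exact_mod_cast this
      have e3 : (1 : ℝ) ≤ 2 ^ e l := one_le_pow₀ (by norm_num)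
      have e4 : (1 : ℝ) ≤ 2 ^ m := one_le_pow₀ (by norm_num)
      have e5 : (1 : ℝ) + 2 ^ e l * ((m : ℝ) + 1) ≤ 2 ^ e l * 2 ^ m * 2 := by
        have := mul_le_mul_of_nonneg_left e2 (by positivity : (0 : ℝ) ≤ 2 ^ e l)
        nlinarith
      calc _ ≤ 2 ^ e l * 2 ^ m * 2 * 2 ^ g l := mul_le_mul_of_nonneg_right e5 hg0.le
        _ = 2 ^ (e l + m + 1 + g l) := by
          rw [pow_add, pow_add, pow_add, pow_one]
        _ ≤ 2 ^ J := pow_le_pow_right₀ (by norm_num) (by omega)
    have k8 : (1 : ℝ) / 2 ^ J + 2 ^ e l * ((m + 1) * (1 / 2 ^ J)) ≤ 1 / 2 ^ g l := by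
      have e1 : (1 : ℝ) / 2 ^ J + 2 ^ e l * ((m + 1) * (1 / 2 ^ J)) =
          (1 + 2 ^ e l * ((m : ℝ) + 1)) / 2 ^ J := by ring
      rw [e1, div_le_div_iff₀ hJ0 hg0, one_mul]
      exact k7
    have e6 : (2 : ℝ) / 2 ^ g l = 1 / 2 ^ g l + 1 / 2 ^ g l := by ring
    rw [e6]
    linarith
  have hft : ∀ ω, (F.t ω : ℝ) * 2 ^ w - F.T1 w ω = 2 ^ w * F.t ω - F.T1 w ω := fun ω => by ring
  have hown : ∀ ω, A ω → ∀ x < b i + 1,
      |xr F ω (uc c x) - eval (xr F ω) (Φ (v ω) x)| ≤ 2 / 2 ^ g' x := by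
    intro ω hω x hx
    rcases x with - | x
    · rw [hΦ0, eval_C, hg'0, uc_zero, hv]
      show |F.t ω - (F.T1 w ω : ℝ) / 2 ^ w| ≤ _
      have hw0 : (0 : ℝ) < 2 ^ w := by positivity
      have k1 := T1_real F hwJ ω
      have e1 : F.t ω - (F.T1 w ω : ℝ) / 2 ^ w = (2 ^ w * F.t ω - F.T1 w ω) / 2 ^ w := by
        field_simp
      rw [e1, abs_div, abs_of_pos hw0]
      refine div_le_div_of_nonneg_right ?_ hw0.le
      rw [abs_le]
      constructor <;> linarith [k1.1, k1.2]
    · rw [hΦs, hg's, uc_succ, hv]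
      exact hloc ω hω x (by omega)
  have hsm : ∀ ω, A ω → |eval (xr F ω) (D (v ω))| ≤ 2 ^ e i := by
    intro ω hω
    rw [hD, hv]
    exact (hG i hi).lip ω hω _ (fun o => (xr_near F ω o).trans (Pool.PB.inv_mono (hρ i hi))) _
  -- the losses
  obtain ⟨θ', hθ'⟩ : ∃ θ' : ℕ → ℝ, θ' = fun x => if x = 0 then θt else θ (x - 1) + 4 := ⟨_, rfl⟩
  have hθ'0 : θ' 0 = θt := by rw [hθ']; rfl
  have hθ's : ∀ x, θ' (x + 1) = θ x + 4 := fun x => by
    rw [hθ']
    simp only [Nat.add_sub_cancel, if_neg (Nat.succ_ne_zero x)]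
  have hθ'n : ∀ x, 0 ≤ θ' x := by
    intro x
    rcases x with - | x
    · rw [hθ'0]
      exact hθt
    · rw [hθ's]
      have := hθ x
      linarith
  obtain ⟨η, hη⟩ : ∃ η : ℝ, η = 1 / (2 * ((r : ℝ) + 1) ^ 2) := ⟨_, rfl⟩
  have hr0 : (0 : ℝ) ≤ r := Nat.cast_nonneg r
  have hη0 : 0 < η := by rw [hη]; positivity
  have hη1 : η ≤ 1 := by
    rw [hη, div_le_one (by positivity)]
    nlinarith
  have hγx : ∀ x < b i + 1, Cg (b i + 1) (kmx K' x (b i + 1)) * (θ' x + 1) / (η / 8 ^ x) ≤ γ := by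
    intro x hx
    have e1 : ∀ a : ℝ, a / (η / 8 ^ x) = a * (8 ^ x * (2 * ((r : ℝ) + 1) ^ 2)) := by
      intro a
      rw [hη]
      field_simp
    rw [e1]
    have h8 : (8 : ℝ) ^ x * (2 * ((r : ℝ) + 1) ^ 2) ≤ 8 ^ r * (2 * ((r : ℝ) + 1) ^ 2) :=
      mul_le_mul_of_nonneg_right (pow_le_pow_right₀ (by norm_num) (by omega)) (by positivity)
    have hC0 : 0 ≤ Cg (b i + 1) (kmx K' x (b i + 1)) := zero_le_one.trans (one_le_Cg _ _)
    have hx1 : 0 ≤ θ' x + 1 := by linarith [hθ'n x]
    refine (mul_le_mul_of_nonneg_left h8 (mul_nonneg hC0 hx1)).trans ?_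
    rcases x with - | x
    · rw [hθ'0]
      refine le_trans ?_ h1t
      refine mul_le_mul_of_nonneg_right (mul_le_mul_of_nonneg_right ?_ (by linarith))
        (by positivity)
      refine Cg_le_Cm (by omega) (Finset.sup_le fun y hy => ?_)
      have hy' := Finset.mem_Ioc.1 hy
      rcases Nat.lt_or_ge y (b i + 1) with k1 | k1
      · obtain ⟨y, rfl⟩ : ∃ y', y = y' + 1 := ⟨y - 1, by omega⟩
        rw [hK's y (by omega)]
        exact hMt y (by omega)
      · rw [show y = b i + 1 by omega, hK'n]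
        exact hMt i hi
    · rw [hθ's]
      refine le_trans ?_ (h1 i hi x (by omega))
      have e2 : θ x + 4 + 1 = θ x + 5 := by ring
      rw [e2]
      refine mul_le_mul_of_nonneg_right (mul_le_mul_of_nonneg_right ?_ (by linarith [hθ x]))
        (by positivity)
      refine Cg_le_Cm (by omega) (Finset.sup_le fun y hy => ?_)
      have hy' := Finset.mem_Ioc.1 hy
      rcases Nat.lt_or_ge y (b i + 1) with k1 | k1
      · obtain ⟨y, rfl⟩ : ∃ y', y = y' + 1 := ⟨y - 1, by omega⟩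
        rw [hK's y (by omega)]
        exact hM x y (by omega) (by omega)
      · rw [show y = b i + 1 by omega, hK'n]
        exact hM x i ((by omega : x < b i).trans_le (hb i)) hi
  have hA0 : Pb q (fun ω => ¬ A ω) ≤ 0 := by
    have h2 : Pb q (fun ω => ¬ A ω) ≤ Pb q (fun _ => False) :=
      Pb_mono25 h0 fun ω hω hn => hn (hqA ω hω)
    refine h2.trans (le_of_eq ?_)
    unfold Pb
    simp
  have key := gall (b i + 1) (q := q) (u := uc c) (X := xr F) (v := v) (Φ := Φ) (D := D)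
    (g := g') (K := K') (L := fun _ => L) (A := A) (θ := θ') (τ := 2 ^ e i) (η := η) hq
    ((uc_inj hc).mono fun x hx => by
      simp only [Set.mem_Iio] at hx ⊢
      omega) hdeg hdegD hdep hdepD hθ'n hη0 hη1 (by positivity) ?_
    (fun x hx => (hγx x hx).trans hγL) hA0 hown hsm
  · rw [hη] at key
    refine le_trans (Pb_mono25 h0 fun ω hω hn => ?_) key
    intro hall
    refine hn fun x hx => ?_
    have e1 : (fun x => if x = 0 then C ((F.T1 w ω : ℝ) / 2 ^ w) else
        G (z' (slam F w ω)) (x - 1)) = Φ (v ω) := by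
      rw [hΦ, hv]
    have e2 : (fun x => (2 : ℝ) / 2 ^ (if x = 0 then w else g (x - 1))) =
        fun x => 2 / 2 ^ g' x := by rw [hg']
    rw [e1, e2] at hx
    have k1 := hall x hx
    have e3 : D (v ω) = pderiv (some (c l')) (G (z' (slam F w ω)) i) := by rw [hD, hv]
    rw [e3] at k1
    refine k1.trans (mul_le_mul_of_nonneg_right (Real.exp_le_exp.2 ?_) (by positivity))
    refine (Finset.sum_le_sum fun y hy => ?_).trans (?_ : ∑ y ∈ range (b i + 1), γ ≤ r * γ)
    · have := hγx y (Finset.mem_range.1 hy)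
      rw [hη] at this
      exact this
    · rw [Finset.sum_const, Finset.card_range, nsmul_eq_mul]
      refine mul_le_mul_of_nonneg_right ?_ hγ0
      exact_mod_cast hbi
  · intro x hx
    rcases x with - | x
    · -- the time
      have k1 := htime
      rw [hθ'0, hg'0]
      refine k1.trans ?_
      have e0 : ∀ ω, eval (xr F ω) (Φ (v ω) 0) = (F.T1 w ω : ℝ) / 2 ^ w := by
        intro ω
        rw [hΦ0, eval_C, hv]
      have e1 : ∀ ω (k : ℕ), (2 : ℝ) ^ (w + k) * (xr F ω (uc c 0) - eval (xr F ω) (Φ (v ω) 0)) =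
          2 ^ (w + k) * F.t ω - ((2 ^ k * F.T1 w ω : ℕ) : ℝ) := by
        intro ω k
        rw [e0, uc_zero]
        show (2 : ℝ) ^ (w + k) * (F.t ω - _) = _
        push_cast
        rw [pow_add]
        field_simp
      have e2 : ∀ ω, ∀ k, w + k ≤ J → ⌊(2 : ℝ) ^ (w + k) *
          (xr F ω (uc c 0) - eval (xr F ω) (Φ (v ω) 0))⌋ =
          (F.T1 (w + k) ω : ℤ) - (2 ^ k * F.T1 w ω : ℕ) := by
        intro ω k hk
        rw [e1 ω k, Int.floor_sub_natCast, Pool.UNJ.floor_t F hk]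
      refine (CH_mono_left h0 (X' := fun ω => ⌊(2 : ℝ) ^ (w + L) *
        (xr F ω (uc c 0) - eval (xr F ω) (Φ (v ω) 0))⌋) fun ω ω' _ _ hh => ?_).trans
        (CH_mono_cond h0 fun ω ω' _ _ hh => ?_)
      · have k2 := Prod.ext_iff.mp hh
        have k3 : ⌊(2 : ℝ) ^ (w + L) * (xr F ω (uc c 0) - eval (xr F ω) (Φ (v ω) 0))⌋ =
          ⌊(2 : ℝ) ^ (w + L) * (xr F ω' (uc c 0) - eval (xr F ω') (Φ (v ω') 0))⌋ := k2.1
        rw [e2 ω L hw, e2 ω' L hw] at k3
        have k4 : F.T1 w ω = F.T1 w ω' := congrArg (fun s => s.2.2) k2.2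
        rw [k4] at k3
        have k5 : (F.T1 (w + L) ω : ℤ) = F.T1 (w + L) ω' := by linarith
        exact_mod_cast k5
      · refine Prod.ext ?_ (Prod.ext ?_ ?_)
        · have k3 := e2 ω 0 (by omega)
          have k4 := e2 ω' 0 (by omega)
          rw [Nat.add_zero] at k3 k4
          show ⌊(2 : ℝ) ^ w * (xr F ω (uc c 0) - eval (xr F ω) (Φ (v ω) 0))⌋ =
            ⌊(2 : ℝ) ^ w * (xr F ω' (uc c 0) - eval (xr F ω') (Φ (v ω') 0))⌋
          rw [k3, k4]
          push_cast
          ring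
        · funext k
          exact absurd k.2 (Nat.not_lt_zero _)
        · rw [hv]
          exact Prod.ext (congrArg (fun s => s.2.2) hh) (congrArg z' hh)
    · -- a coordinate
      have hxb : x < b i := by omega
      have k1 := hfull i hi x hxb
      rw [hθ's, hg's]
      have hgx := hgJ i hi x hxb
      -- the context
      obtain ⟨cc, hcc⟩ : ∃ cc : F.Ω → (Fin (x + 1) → ℝ) × (ℕ × W), cc = fun ω =>
        ((fun k : Fin (x + 1) => xr F ω (uc c k)), v ω) := ⟨_, rfl⟩
      have k2 : CH q (fun ω => F.X J ω (c x))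
          (fun ω => ((fun l' : Fin x => F.X J ω (c l')), z' (slam F w ω), F.W ω)) ≤
          CH q (fun ω => F.X J ω (c x)) cc := by
        refine CH_mono_cond h0 fun ω ω' _ _ hh => ?_
        have k3 := Prod.ext_iff.mp hh
        have k4 := Prod.ext_iff.mp k3.2
        have k5 : F.T ω = F.T ω' := congrArg Prod.fst k4.2
        rw [hcc]
        refine Prod.ext (funext fun k => ?_) ?_
        · rcases k with ⟨k, hk⟩
          rcases k with - | k
          · show F.t ω = F.t ω'
            unfold Fam.t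
            rw [k5]
          · show xr F ω (uc c (k + 1)) = xr F ω' (uc c (k + 1))
            rw [uc_succ]
            show (F.X J ω (c k) : ℝ) / 2 ^ J = (F.X J ω' (c k) : ℝ) / 2 ^ J
            have k6 := congrFun k3.1 ⟨k, by omega⟩
            have k7 : F.X J ω (c k) = F.X J ω' (c k) := k6
            rw [k7]
        · rw [hv]
          refine Prod.ext ?_ k4.1
          show F.T1 w ω = F.T1 w ω'
          unfold Fam.T1
          rw [k5]
      have k3 := off_full hq (J := J) (g := g x) (L := L) (by omega)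
        (Y := fun ω => F.X J ω (c x))
        (ξ := fun ω => xr F ω (uc c (x + 1)) - eval (xr F ω) (Φ (v ω) (x + 1))) (c := cc)
        (fun ω hω => by
          have := hown ω (hqA ω hω) (x + 1) hx
          rwa [hg's] at this) (fun ω ω' _ _ hh => by
          rw [hcc] at hh
          have k4 := Prod.ext_iff.mp hh
          have k5 : v ω = v ω' := k4.2
          have k6 : eval (xr F ω) (Φ (v ω) (x + 1)) = eval (xr F ω') (Φ (v ω') (x + 1)) := by
            rw [← k5]
            refine hdep (v ω) (x + 1) _ _ fun k hk => ?_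
            exact congrFun k4.1 ⟨k, hk⟩
          rw [k6, uc_succ]
          show (F.X J ω (c x) : ℝ) / 2 ^ J - (F.X J ω' (c x) : ℝ) / 2 ^ J =
            (F.X J ω (c x) : ℝ) / 2 ^ J - _ - ((F.X J ω' (c x) : ℝ) / 2 ^ J - _)
          ring) (k1.trans k2)
      rw [hcc] at k3
      exact k3

/-- **Closed labels with small own gradients are chains.** -/
theorem nat_fam {r : ℕ} {F : Fam m J} {A : F.Ω → Prop} (hA : 0 < Pe F.p A) {c : ℕ → Fin m}
    (hc : Set.InjOn c (Set.Iio r)) {b : ℕ → ℕ} (hb : ∀ i, b i ≤ i) {K e ρ g M : ℕ → ℕ}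
    {w L Mt : ℕ} {W : Type} {z : PtT F → W} {z' : LnT F → W}
    {G : W → ℕ → MvPolynomial (Option (Fin m)) ℝ}
    (hG : ∀ i < r, LbOK F ((range (b i)).image c) (c i) (K i) (e i) J w (ρ i) (g i) A z z'
      (fun v => G v i))
    (hG0 : ∀ v i, r ≤ i → G v i = 0) (hρ : ∀ i < r, ρ i ≤ J) (hw : w + L ≤ J)
    (hgJ : ∀ i < r, ∀ l < b i, g l + e l + m + 2 + L ≤ J)
    (hM : ∀ l i, l < i → i < r → K i ≤ M l) (hMt : ∀ i < r, K i ≤ Mt)
    {θ : ℕ → ℝ} (hθ : ∀ l, 0 ≤ θ l) {θt : ℝ} (hθt : 0 ≤ θt)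
    (htime : (L : ℝ) * Real.log 2 - θt ≤
      CH (Pool.Agent.H49.Ent.cond F.p A True) (F.T1 (w + L)) (slam F w))
    (hfull : ∀ i < r, ∀ l < b i, ((J : ℝ) - g l) * Real.log 2 - θ l ≤
      CH (Pool.Agent.H49.Ent.cond F.p A True) (fun ω => F.X J ω (c l))
        (fun ω => ((fun l' : Fin l => F.X J ω (c l')), z' (slam F w ω), F.W ω)))
    {γ : ℝ} (h1 : ∀ i < r, ∀ l < b i,
      Cm r (M l) * (θ l + 5) * (8 ^ r * (2 * ((r : ℝ) + 1) ^ 2)) ≤ γ)
    (h1t : Cm r Mt * (θt + 1) * (8 ^ r * (2 * ((r : ℝ) + 1) ^ 2)) ≤ γ)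
    (hγL : γ ≤ L * Real.log 2) {e' : ℕ}
    (he' : ∀ i < r, r * γ + e i * Real.log 2 ≤ e' * Real.log 2) :
    ∃ B : F.Ω → Prop, Sub B A ∧ Pe F.p A ≤ 2 * Pe F.p B ∧ ChOK F c r K w w e' g B
      (fun y i => G (z y) i) (fun s i => G (z' s) i) := by
  classical
  have hq := isLaw_cond F.isLaw hA
  have h0 := hq.nonneg
  have hqA : ∀ ω, 0 < Pool.Agent.H49.Ent.cond F.p A True ω → A ω := fun ω hω =>
    of_eq_true ((cond_pos_iff F.isLaw.nonneg A True ω).1 hω).2
  obtain ⟨q, hqd⟩ : ∃ q, q = Pool.Agent.H49.Ent.cond F.p A True := ⟨_, rfl⟩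
  -- the bad events
  obtain ⟨Bd, hBd⟩ : ∃ Bd : ℕ → ℕ → F.Ω → Prop, Bd = fun i l' ω => i < r ∧ l' < b i ∧
      ¬ ∀ x : Option (Fin m) → ℝ,
      DBx (uc c) (fun x => if x = 0 then C ((F.T1 w ω : ℝ) / 2 ^ w) else
        G (z' (slam F w ω)) (x - 1)) (fun x => 2 / 2 ^ (if x = 0 then w else g (x - 1))) 0
        (b i + 1) (xr F ω) x →
      |eval x (pderiv (some (c l')) (G (z' (slam F w ω)) i))| ≤ Real.exp (r * γ) * 2 ^ e i :=
    ⟨_, rfl⟩
  have hone : ∀ i l', Pb (Pool.Agent.H49.Ent.cond F.p A True) (Bd i l') ≤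
      1 / (2 * ((r : ℝ) + 1) ^ 2) := by
    intro i l'
    by_cases h2 : i < r ∧ l' < b i
    · refine le_trans (Pb_mono25 h0 fun ω _ hω => ?_) (nat_one hq hqA hc hb hG hG0 hρ hw hgJ hM
        hMt hθ hθt htime hfull h1 h1t hγL h2.1 h2.2)
      rw [hBd] at hω
      exact hω.2.2
    · have h3 : Pb (Pool.Agent.H49.Ent.cond F.p A True) (Bd i l') ≤
          Pb (Pool.Agent.H49.Ent.cond F.p A True) (fun _ => False) :=
        Pb_mono25 h0 fun ω _ hω => by
          rw [hBd] at hω
          exact h2 ⟨hω.1, hω.2.1⟩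
      refine h3.trans ?_
      have : Pb (Pool.Agent.H49.Ent.cond F.p A True) (fun _ => False) = 0 := by
        unfold Pb
        simp
      rw [this]
      positivity
  obtain ⟨N, hN⟩ : ∃ N : F.Ω → Prop, N = fun ω => ∃ i < r, ∃ l' < r, Bd i l' ω := ⟨_, rfl⟩
  have hr0 : (0 : ℝ) ≤ r := Nat.cast_nonneg r
  have hbad : Pb (Pool.Agent.H49.Ent.cond F.p A True) N ≤ 1 / 2 := by
    rw [hN]
    have h2 := Pb_ex25 h0 (fun i ω => ∃ l' < r, Bd i l' ω) r (e := r * (1 / (2 * ((r : ℝ) + 1) ^ 2)))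
      fun i _ => Pb_ex25 h0 (fun l' ω => Bd i l' ω) r fun l' _ => hone i l'
    refine h2.trans ?_
    have e1 : (r : ℝ) * (r * (1 / (2 * ((r : ℝ) + 1) ^ 2))) = r ^ 2 / (2 * ((r : ℝ) + 1) ^ 2) := by
      ring
    rw [e1, div_le_div_iff₀ (by positivity) (by norm_num)]
    nlinarith
  rw [show Pb (Pool.Agent.H49.Ent.cond F.p A True) N =
    Pe (Pool.Agent.H49.Ent.cond F.p A True) N by rw [Pe_eq]; rfl, Pe_cond,
    div_le_iff₀ hA] at hbad
  have hγ0 : 0 ≤ γ := by
    refine le_trans ?_ h1t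
    have := one_le_Cm r Mt
    positivity
  refine ⟨fun ω => A ω ∧ ¬ N ω, fun ω hω => hω.1, ?_, fun y i => ?_, fun s i => ?_,
    fun y i => ?_, fun s i => ?_, fun ω hω i hi => ?_, fun ω hω i hi x _ => ?_,
    fun ω hω i hi x hx l hl => ?_⟩
  · have h3 := Pool.GRD.Pe_minus (A := A) (B := A) (N := N) F.isLaw.nonneg fun ω hω => hω
    linarith
  · rcases Nat.lt_or_ge i r with hi | hi
    · exact (hG i hi).deg _
    · rw [hG0 _ i hi, totalDegree_zero]
      exact Nat.zero_le _
  · rcases Nat.lt_or_ge i r with hi | hi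
    · exact (hG i hi).deg _
    · rw [hG0 _ i hi, totalDegree_zero]
      exact Nat.zero_le _
  · rcases Nat.lt_or_ge i r with hi | hi
    · intro b₁ b₂ hn hbb
      refine (hG i hi).dep _ b₁ b₂ hn fun k hk => ?_
      obtain ⟨x, hx, rfl⟩ := mem_image.1 hk
      exact hbb x ((mem_range.1 hx).trans_le (hb i))
    · intro b₁ b₂ _ _
      rw [hG0 _ i hi, map_zero, map_zero]
  · rcases Nat.lt_or_ge i r with hi | hi
    · intro b₁ b₂ hn hbb
      refine (hG i hi).dep _ b₁ b₂ hn fun k hk => ?_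
      obtain ⟨x, hx, rfl⟩ := mem_image.1 hk
      exact hbb x ((mem_range.1 hx).trans_le (hb i))
    · intro b₁ b₂ _ _
      rw [hG0 _ i hi, map_zero, map_zero]
  · rw [(hG i hi).cls ω hω.1]
    exact (hG i hi).pos ω hω.1
  · rw [(hG i hi).cls ω hω.1, sub_self, abs_zero]
    positivity
  · have hcls := (hG i hi).cls ω hω.1
    rw [hcls]
    rw [hcls] at hx
    have hwJ : w ≤ J := by omega
    by_cases hlb : l < b i
    · have h4 : ¬ Bd i l ω := fun h5 => hω.2 (by
        rw [hN]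
        exact ⟨i, hi, l, by have := hb i; omega, h5⟩)
      rw [hBd] at h4
      have h5 : ∀ x : Option (Fin m) → ℝ,
          DBx (uc c) (fun x => if x = 0 then C ((F.T1 w ω : ℝ) / 2 ^ w) else
            G (z' (slam F w ω)) (x - 1)) (fun x => 2 / 2 ^ (if x = 0 then w else g (x - 1))) 0
            (b i + 1) (xr F ω) x →
          |eval x (pderiv (some (c l)) (G (z' (slam F w ω)) i))| ≤
            Real.exp (r * γ) * 2 ^ e i := by
        by_contra hcon
        exact h4 ⟨hi, hlb, hcon⟩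
      refine (h5 x ⟨fun k hk => absurd hk (Nat.not_lt_zero _), fun k _ hk => ?_⟩).trans ?_
      · rcases k with - | k
        · simp only [if_true]
          rw [uc_zero, eval_C]
          have k1 := hx.1
          have k2 := T1_real F hwJ ω
          have hw0 : (0 : ℝ) < 2 ^ w := by positivity
          have e1 : F.t ω - (F.T1 w ω : ℝ) / 2 ^ w = (2 ^ w * F.t ω - F.T1 w ω) / 2 ^ w := by
            field_simp
          have k3 : |F.t ω - (F.T1 w ω : ℝ) / 2 ^ w| ≤ 1 / 2 ^ w := by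
            rw [e1, abs_div, abs_of_pos hw0]
            refine div_le_div_of_nonneg_right ?_ hw0.le
            rw [abs_le]
            constructor <;> linarith [k2.1, k2.2]
          have e2 : (2 : ℝ) / 2 ^ w = 1 / 2 ^ w + 1 / 2 ^ w := by ring
          rw [e2]
          rw [abs_le] at k1 k3 ⊢
          constructor <;> linarith [k1.1, k1.2, k3.1, k3.2]
        · simp only [Nat.add_sub_cancel, if_neg (Nat.succ_ne_zero k)]
          rw [uc_succ]
          have k1 := hx.2 k (by have := hb i; omega)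
          refine k1.trans ?_
          exact div_le_div_of_nonneg_right (by norm_num) (by positivity)
      · have k1 : Real.exp (r * γ) * 2 ^ e i ≤ 2 ^ e' := by
          have e1 : (2 : ℝ) ^ e i = Real.exp (e i * Real.log 2) := by
            rw [Real.exp_nat_mul, Real.exp_log (by norm_num)]
          have e2 : (2 : ℝ) ^ e' = Real.exp (e' * Real.log 2) := by
            rw [Real.exp_nat_mul, Real.exp_log (by norm_num)]
          rw [e1, e2, ← Real.exp_add]
          exact Real.exp_le_exp.2 (he' i hi)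
        exact k1.trans (pow_le_pow_right₀ (by norm_num) (Nat.le_add_right _ _))
    · -- the label does not depend on the coordinate
      have hdc : DepC c (b i) (G (z' (slam F w ω)) i) := by
        intro b₁ b₂ hn hbb
        refine (hG i hi).dep _ b₁ b₂ hn fun k hk => ?_
        obtain ⟨x, hx, rfl⟩ := mem_image.1 hk
        exact hbb x (mem_range.1 hx)
      have h4 : eval x (pderiv (some (c l)) (G (z' (slam F w ω)) i)) = 0 := by
        obtain ⟨gg, hgg⟩ : ∃ gg : Option (Fin m) → Polynomial ℝ, gg = fun o =>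
            Polynomial.C (x o) + Polynomial.C (if o = some (c l) then 1 else 0) *
              Polynomial.X := ⟨_, rfl⟩
        have hge : ∀ (Q : MvPolynomial (Option (Fin m)) ℝ) (t : ℝ),
            (MvPolynomial.aeval gg Q).eval t =
              eval (fun o => x o + (if o = some (c l) then 1 else 0) * t) Q := by
          intro Q t
          rw [Pool.KBX.eval_aeval_poly]
          congr 1
          congr 1
          funext o
          rw [hgg]
          simp only [Polynomial.eval_add, Polynomial.eval_mul, Polynomial.eval_C,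
            Polynomial.eval_X]
        have hd : (Polynomial.derivative (MvPolynomial.aeval gg
            (G (z' (slam F w ω)) i))).eval 0 =
            eval x (pderiv (some (c l)) (G (z' (slam F w ω)) i)) := by
          rw [der_aevalσ, Polynomial.eval_finsetSum, Finset.sum_eq_single (some (c l))]
          · rw [Polynomial.eval_mul, hge]
            rw [hgg]
            simp
          · intro o _ ho
            rw [Polynomial.eval_mul, hgg]
            simp [ho]
          · intro h'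
            exact absurd (Finset.mem_univ _) h'
        have hcst : MvPolynomial.aeval gg (G (z' (slam F w ω)) i) =
            Polynomial.C (eval x (G (z' (slam F w ω)) i)) := by
          refine Polynomial.funext fun t => ?_
          rw [hge, Polynomial.eval_C]
          refine hdc _ _ ?_ fun k hk => ?_
          · show x none + (if (none : Option (Fin m)) = some (c l) then (1 : ℝ) else 0) * t =
              x none
            rw [if_neg (by simp)]
            ring
          · have hne : (some (c k) : Option (Fin m)) ≠ some (c l) := fun h5 => by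
              have := hc (show k ∈ Set.Iio r from by simp only [Set.mem_Iio]; have := hb i; omega)
                (show l ∈ Set.Iio r from by simp only [Set.mem_Iio]; omega)
                (Option.some_injective _ h5)
              omega
            show x (some (c k)) + (if some (c k) = some (c l) then (1 : ℝ) else 0) * t =
              x (some (c k))
            rw [if_neg hne]
            ring
        rw [← hd, hcst, Polynomial.derivative_C, Polynomial.eval_zero]
      rw [h4, abs_zero]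
      positivity

end Pool.GRW
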