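import Pool.Agent.H45.EXA.Gst
import Pool.Agent.H80.GEN.Chn
import Pool.Agent.H99.GEN.Gr
import Pool.Agent.H25.M5.H1F

/-!
# Closed labels on natural boxes

`nat_fam`: closed labels of the coordinates `c i`, each over the coordinates `c l`, `l < b i`, whose
gradients are small near the own points. If the coordinates `c l` are full beyond the precisions of
their labels, up to `θ l`, given the coordinates before them and any closed function, then the
gradients are small on the natural boxes, for most samples: the labels form a chain. The loss in the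
direction `l` is `θ l`, times a constant which depends on the degrees of the labels after `l` only.
-/

set_option autoImplicit false

namespace Pool.GRW

open Finset Real MvPolynomial
open Pool.Agent.H49.Ent Pool.Agent.H32.Dense Pool.STK Pool.BFL Pool.KA Pool.KSAT Pool.K2S Pool.PB
open Pool.GEN Pool.S6C
open Pool.LIV (Pb_mono25 Pb_or25 Pb_ex25)
open Pool.FLF (Fam.sub)

variable {m J : ℕ}

/-- The variables of the chain: the time is the variable `0`. -/
def uc (c : ℕ → Fin m) (x : ℕ) : Option (Fin m) := if x = 0 then none else some (c (x - 1))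

theorem uc_zero (c : ℕ → Fin m) : uc c 0 = none := rfl

theorem uc_succ (c : ℕ → Fin m) (x : ℕ) : uc c (x + 1) = some (c x) := by
  unfold uc
  rw [if_neg (Nat.succ_ne_zero x), Nat.add_sub_cancel]

theorem uc_inj {c : ℕ → Fin m} {r : ℕ} (hc : Set.InjOn c (Set.Iio r)) :
    Set.InjOn (uc c) (Set.Iio (r + 1)) := by
  intro x hx y hy h
  rw [Set.mem_Iio] at hx hy
  rcases x with - | x <;> rcases y with - | y
  · rfl
  · rw [uc_zero, uc_succ] at h
    exact absurd h (by simp)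
  · rw [uc_zero, uc_succ] at h
    exact absurd h (by simp)
  · rw [uc_succ, uc_succ] at h
    rw [hc (show x ∈ Set.Iio r from by simp only [Set.mem_Iio]; omega)
      (show y ∈ Set.Iio r from by simp only [Set.mem_Iio]; omega) (Option.some_injective _ h)]

theorem depU_of {c : ℕ → Fin m} {i j : ℕ} {G : MvPolynomial (Option (Fin m)) ℝ}
    (h : DepC c i G) (hij : i + 1 ≤ j) : DepU (uc c) j G := by
  intro b b' hb
  refine h b b' (hb 0 (by omega)) fun l hl => ?_
  have := hb (l + 1) (by omega)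
  rwa [uc_succ] at this

/-- The sum of the constants. -/
noncomputable def Cm (N M : ℕ) : ℝ := ∑ n ∈ range (N + 1), ∑ k ∈ range (M + 1), Cg n k

theorem Cg_le_Cm {n N k M : ℕ} (h : n ≤ N) (hk : k ≤ M) : Cg n k ≤ Cm N M := by
  have h0 : ∀ n k, 0 ≤ Cg n k := fun n k => zero_le_one.trans (one_le_Cg n k)
  unfold Cm
  refine le_trans ?_ (Finset.single_le_sum (f := fun n => ∑ k ∈ range (M + 1), Cg n k)
    (fun n _ => Finset.sum_nonneg fun k _ => h0 n k) (Finset.mem_range.2 (by omega : n < N + 1)))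
  exact Finset.single_le_sum (f := fun k => Cg n k) (fun k _ => h0 n k)
    (Finset.mem_range.2 (by omega : k < M + 1))

theorem one_le_Cm (N M : ℕ) : 1 ≤ Cm N M := (one_le_Cg 0 0).trans (Cg_le_Cm (by omega) (by omega))

theorem Cm_mono {N M M' : ℕ} (h : M ≤ M') : Cm N M ≤ Cm N M' := by
  have h0 : ∀ n k, 0 ≤ Cg n k := fun n k => zero_le_one.trans (one_le_Cg n k)
  unfold Cm
  refine Finset.sum_le_sum fun n _ => ?_
  exact Finset.sum_le_sum_of_subset_of_nonneg (Finset.range_subset_range.2 (by omega))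
    fun k _ _ => h0 n k

/-- The own point, rounded. -/
noncomputable def xr (F : Fam m J) (ω : F.Ω) (o : Option (Fin m)) : ℝ :=
  match o with
  | none => F.t ω
  | some k => (F.X J ω k : ℝ) / 2 ^ J

theorem xr_near (F : Fam m J) (ω : F.Ω) (o : Option (Fin m)) :
    |xr F ω o - bt F ω o| ≤ 1 / 2 ^ J := by
  cases o with
  | none =>
    show |F.t ω - F.t ω| ≤ _
    rw [sub_self, abs_zero]
    positivity
  | some k =>
    show |(F.X J ω k : ℝ) / 2 ^ J - F.x ω k| ≤ _
    have hr0 : (0 : ℝ) < 2 ^ J := by positivity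
    have a1 := Int.floor_le ((2 : ℝ) ^ J * F.x ω k)
    have a2 := Int.lt_floor_add_one ((2 : ℝ) ^ J * F.x ω k)
    have e : (F.X J ω k : ℝ) / 2 ^ J - F.x ω k =
        (((⌊(2 : ℝ) ^ J * F.x ω k⌋ : ℤ) : ℝ) - 2 ^ J * F.x ω k) / 2 ^ J := by
      change ((⌊(2 : ℝ) ^ J * F.x ω k⌋ : ℤ) : ℝ) / 2 ^ J - F.x ω k = _
      field_simp
    rw [e, abs_div, abs_of_pos hr0]
    refine div_le_div_of_nonneg_right ?_ hr0.le
    rw [abs_le]
    constructor <;> linarith

/-- The digits of the distance to the label are full. -/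
theorem off_full {Ω S : Type} [Fintype Ω] {q : Ω → ℝ} (hq : IsLaw q) {J g L : ℕ} (hgL : g + L ≤ J)
    {Y : Ω → ℤ} {ξ : Ω → ℝ} {c : Ω → S} (hξ : ∀ ω, 0 < q ω → |ξ ω| ≤ 2 / 2 ^ g)
    (hY : ∀ ω ω', 0 < q ω → 0 < q ω' → c ω = c ω' → (Y ω : ℝ) / 2 ^ J - (Y ω' : ℝ) / 2 ^ J =
      ξ ω - ξ ω') {θ : ℝ} (h : ((J : ℝ) - g) * Real.log 2 - θ ≤ CH q Y c) :
    L * Real.log 2 - (θ + 4) ≤ CH q (fun ω => ⌊(2 : ℝ) ^ (g + L) * ξ ω⌋)
      (fun ω => (⌊(2 : ℝ) ^ g * ξ ω⌋, c ω)) := by
  have h0 := hq.nonneg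
  have hg0 : (0 : ℝ) < 2 ^ g := by positivity
  have hJ0 : (0 : ℝ) < 2 ^ J := by positivity
  have hgL0 : (0 : ℝ) < 2 ^ (g + L) := by positivity
  have h1 := CH_le_add h0 Y (fun ω => ⌊(2 : ℝ) ^ g * ξ ω⌋) c
  have h2 := CH_le_add h0 Y (fun ω => ⌊(2 : ℝ) ^ (g + L) * ξ ω⌋)
    (fun ω => (⌊(2 : ℝ) ^ g * ξ ω⌋, c ω))
  -- the cell
  have h3 : CH q (fun ω => ⌊(2 : ℝ) ^ g * ξ ω⌋) c ≤ Real.log 9 := by
    have h4 := CH_le_int h0 hq.sum_one (fun ω => ⌊(2 : ℝ) ^ g * ξ ω⌋) c (fun _ => 4)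
      (fun ω ω' hω hω' _ => by
        have key : ∀ ω, 0 < q ω → -2 ≤ ⌊(2 : ℝ) ^ g * ξ ω⌋ ∧ ⌊(2 : ℝ) ^ g * ξ ω⌋ ≤ 2 := by
          intro ω hω
          have h5 := hξ ω hω
          rw [abs_le] at h5
          have h6 : (2 : ℝ) ^ g * ξ ω ≤ 2 := by
            have := mul_le_mul_of_nonneg_left h5.2 hg0.le
            rwa [mul_div_cancel₀ _ hg0.ne'] at this
          have h7 : -2 ≤ (2 : ℝ) ^ g * ξ ω := by
            have := mul_le_mul_of_nonneg_left h5.1 hg0.le
            rwa [mul_neg, mul_div_cancel₀ _ hg0.ne'] at this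
          refine ⟨Int.le_floor.2 (by push_cast; exact h7), ?_⟩
          have h8 := Int.floor_le ((2 : ℝ) ^ g * ξ ω)
          have h9 : ((⌊(2 : ℝ) ^ g * ξ ω⌋ : ℤ) : ℝ) ≤ 2 := h8.trans h6
          exact_mod_cast h9
        have k1 := key ω hω
        have k2 := key ω' hω'
        have k3 : |⌊(2 : ℝ) ^ g * ξ ω⌋ - ⌊(2 : ℝ) ^ g * ξ ω'⌋| ≤ 4 := by
          rw [abs_le]
          omega
        exact_mod_cast k3)
    rw [Ex_const hq.sum_one] at h4
    norm_num at h4 ⊢
    exact h4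
  -- the rest
  have h4 : CH q Y (fun ω => (⌊(2 : ℝ) ^ (g + L) * ξ ω⌋, (⌊(2 : ℝ) ^ g * ξ ω⌋, c ω))) ≤
      ((J : ℝ) - g - L) * Real.log 2 + Real.log 3 := by
    have h5 := CH_le_int h0 hq.sum_one Y
      (fun ω => (⌊(2 : ℝ) ^ (g + L) * ξ ω⌋, (⌊(2 : ℝ) ^ g * ξ ω⌋, c ω)))
      (fun _ => 2 ^ (J - g - L)) (fun ω ω' hω hω' hh => by
        have e1 := Prod.ext_iff.mp hh
        have e2 := Prod.ext_iff.mp e1.2
        have e3 := hY ω ω' hω hω' e2.2
        have e4 := Int.abs_sub_lt_one_of_floor_eq_floor e1.1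
        rw [← mul_sub, ← e3, abs_mul, abs_of_pos hgL0, ← sub_div, abs_div, abs_of_pos hJ0] at e4
        have e5 : (2 : ℝ) ^ J = 2 ^ (g + L) * 2 ^ (J - g - L) := by
          rw [← pow_add]
          congr 1
          omega
        push_cast
        rw [e5] at e4
        have p0 : (0 : ℝ) < 2 ^ (J - g - L) := by positivity
        have e6 : (2 : ℝ) ^ (g + L) * (|(Y ω : ℝ) - Y ω'| / (2 ^ (g + L) * 2 ^ (J - g - L))) =
            |(Y ω : ℝ) - Y ω'| / 2 ^ (J - g - L) := by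
          field_simp
        rw [e6, div_lt_one p0] at e4
        exact e4.le)
    rw [Ex_const hq.sum_one] at h5
    refine h5.trans ?_
    have p1 : (1 : ℝ) ≤ 2 ^ (J - g - L) := one_le_pow₀ (by norm_num)
    have h6 : 2 * (2 : ℝ) ^ (J - g - L) + 1 ≤ 2 ^ (J - g - L) * 3 := by linarith
    refine (Real.log_le_log (by positivity) h6).trans ?_
    rw [Real.log_mul (by positivity) (by norm_num), Real.log_pow]
    have e1 : ((J - g - L : ℕ) : ℝ) = (J : ℝ) - g - L := by
      rw [Nat.cast_sub (by omega), Nat.cast_sub (by omega)]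
    rw [e1]
  have h5 : Real.log 9 = 2 * Real.log 3 := by
    rw [show (9 : ℝ) = 3 ^ 2 by norm_num, Real.log_pow]
    norm_num
  have h6 : Real.log 3 ≤ 4 / 3 := by
    have h7 : (3 : ℝ) ≤ Real.exp (4 / 3) := by
      have h8 := Real.add_one_le_exp (1 / 3 : ℝ)
      have h9 := Real.exp_one_gt_d9
      have h10 : Real.exp (4 / 3) = Real.exp 1 * Real.exp (1 / 3) := by
        rw [← Real.exp_add]
        norm_num
      rw [h10]
      nlinarith [Real.exp_pos (1 / 3 : ℝ)]
    calc Real.log 3 ≤ Real.log (Real.exp (4 / 3)) := Real.log_le_log (by norm_num) h7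
      _ = 4 / 3 := Real.log_exp _
  have h7 : ((J : ℝ) - g) * Real.log 2 = ((J : ℝ) - g - L) * Real.log 2 + L * Real.log 2 := by
    ring
  linarith

end Pool.GRW
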