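import Pool.Agent.H1.GEN.Clx
import Pool.Agent.H45.EXA.Zlb
import Pool.Agent.H45.EXA.Dwn

/-!
# Labels, velocities and graphs of some of the coordinates
-/

set_option autoImplicit false

namespace Pool.GEN

open Finset Real MvPolynomial
open Pool.Agent.H49.Ent Pool.Agent.H32.Dense Pool.STK Pool.KA Pool.KSAT Pool.K2S Pool.PB Pool.S6C

variable {m n J : ℕ}

theorem bt_prj (F : Fam m J) (ε : Fin n → Fin m) (ω : F.Ω) (o : Option (Fin n)) :
    bt (prj F ε) ω o = bt F ω (Option.map ε o) := by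
  cases o <;> rfl

theorem bd_prj (F : Fam m J) (ε : Fin n → Fin m) (ω : F.Ω) (o : Option (Fin n)) :
    bd (prj F ε) ω o = bd F ω (Option.map ε o) := by
  cases o <;> rfl

/-- The label as a polynomial in all the coordinates. -/
theorem eval_up (ε : Fin n → Fin m) (b : Option (Fin m) → ℝ)
    (G : MvPolynomial (Option (Fin n)) ℝ) :
    eval b (rename (Option.map ε) G) = eval (fun o => b (Option.map ε o)) G := by
  rw [eval_rename]
  rfl

theorem pd_up {ε : Fin n → Fin m} (hinj : Function.Injective ε) (b : Option (Fin m) → ℝ)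
    (G : MvPolynomial (Option (Fin n)) ℝ) (o : Option (Fin n)) :
    eval b (pderiv (Option.map ε o) (rename (Option.map ε) G)) =
      eval (fun o => b (Option.map ε o)) (pderiv o G) := by
  rw [pderiv_rename (Option.map_injective hinj)]
  exact eval_up ε b _

theorem pd_up_ne {ε : Fin n → Fin m} (G : MvPolynomial (Option (Fin n)) ℝ)
    {o : Option (Fin m)} (ho : ∀ o', Option.map ε o' ≠ o) :
    pderiv o (rename (Option.map ε) G) = 0 := by
  classical
  refine pderiv_eq_zero_of_notMem_vars fun h => ?_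
  have h1 := vars_rename (Option.map ε) G h
  obtain ⟨o', -, h2⟩ := Finset.mem_image.1 h1
  exact ho o' h2

/-- **A label of the projected family is a label of the family.** -/
theorem lb_prj {F : Fam m J} {ε : Fin n → Fin m} (hinj : Function.Injective ε)
    {I : Finset (Fin n)} {k : Fin n} {K e r w ρ P : ℕ} {A : F.Ω → Prop}
    (h : Lb (prj F ε) I k K e r w ρ P A) : Lb F (I.image ε) (ε k) K e r w ρ P A := by
  classical
  obtain ⟨V, z, z', G, h⟩ := h
  obtain ⟨z₁, hz₁⟩ : ∃ z₁ : PtT F → V, z₁ = fun y => z (fun i => y.1 (ε i), y.2) := ⟨_, rfl⟩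
  obtain ⟨z₁', hz₁'⟩ : ∃ z₁' : LnT F → V, z₁' = fun s =>
      z' ((fun i => s.1.1 (ε i), fun i => s.1.2 (ε i)), s.2) := ⟨_, rfl⟩
  have e1 : ∀ ω, z₁ (ptr F r ω) = z (ptr (prj F ε) r ω) := by
    intro ω
    rw [hz₁]
    rfl
  have e2 : ∀ ω, z₁' (slam F w ω) = z' (slam (prj F ε) w ω) := by
    intro ω
    rw [hz₁']
    rfl
  have e3 : ∀ ω, (fun o => bt F ω (Option.map ε o)) = bt (prj F ε) ω := by
    intro ω
    funext o
    exact (bt_prj F ε ω o).symm
  refine ⟨V, z₁, z₁', fun v => rename (Option.map ε) (G v), fun v => ?_, fun v b b' hn hb => ?_,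
    fun ω hω => ?_, fun ω hω => ?_, fun ω hω => ?_, fun ω hω b hb o => ?_⟩
  · exact (totalDegree_rename_le _ _).trans (h.deg v)
  · rw [eval_up, eval_up]
    exact h.dep v _ _ hn fun i hi => hb (ε i) (Finset.mem_image_of_mem ε hi)
  · rw [e1, e2]
    exact h.cls ω hω
  · rw [e2, eval_up, e3]
    exact h.pos ω hω
  · have h1 := h.vel ω hω
    have e4 : ∑ o, bd F ω o * eval (bt F ω) (pderiv o (rename (Option.map ε)
        (G (z₁' (slam F w ω))))) = ∑ o, bd (prj F ε) ω o * eval (bt (prj F ε) ω)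
        (pderiv o (G (z' (slam (prj F ε) w ω)))) := by
      rw [e2]
      have e5 : ∀ o : Option (Fin n), bd (prj F ε) ω o * eval (bt (prj F ε) ω)
          (pderiv o (G (z' (slam (prj F ε) w ω)))) = bd F ω (Option.map ε o) * eval (bt F ω)
          (pderiv (Option.map ε o) (rename (Option.map ε) (G (z' (slam (prj F ε) w ω))))) := by
        intro o
        rw [pd_up hinj, e3, bd_prj]
      rw [Finset.sum_congr rfl fun o _ => e5 o]
      symm
      refine Finset.sum_of_injOn (Option.map ε) (Option.map_injective hinj).injOn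
        (fun _ _ => Finset.mem_coe.2 (Finset.mem_univ _)) (fun o _ ho => ?_) (fun o _ => rfl)
      rw [pd_up_ne (G (z' (slam (prj F ε) w ω))) (fun o' ho' => ho ⟨o', Finset.mem_coe.2
        (Finset.mem_univ _), ho'⟩), map_zero, mul_zero]
    rw [e4]
    exact h1
  · rw [e2]
    by_cases ho : ∃ o', Option.map ε o' = o
    · obtain ⟨o', rfl⟩ := ho
      rw [pd_up hinj]
      refine h.lip ω hω _ (fun o => ?_) o'
      rw [← e3]
      exact hb _
    · push Not at ho
      rw [pd_up_ne _ ho, map_zero, abs_zero]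
      positivity

/-- The labels of a part of the sample space. -/
theorem lb_part {F : Fam m J} {I : Finset (Fin m)} {k : Fin m} {K e r w ρ P : ℕ}
    {A : F.Ω → Prop} (hl : IsLaw (Pool.Agent.H49.Ent.cond F.p A True)) {B : F.Ω → Prop}
    (h : Lb (F.res A True hl) I k K e r w ρ P B) : Lb F I k K e r w ρ P (fun ω => A ω ∧ B ω) := by
  obtain ⟨V, z, z', g, hg⟩ := h
  exact ⟨V, z, z', g, hg.deg, hg.dep, fun ω hω => hg.cls ω hω.2,
    fun ω hω => hg.pos ω hω.2, fun ω hω => hg.vel ω hω.2, fun ω hω => hg.lip ω hω.2⟩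

/-- The velocities of the projected family. -/
theorem actF_prj {F : Fam m J} {ε : Fin n → Fin m} {N : ℚ → ℚ → ℝ} {q q' : ℚ} {h : ℝ}
    {k : Fin n} {A : F.Ω → Prop} (hA : ActF N q q' h k J (prj F ε) A) (hP : 0 < Pe F.p A) :
    ActF N q q' h (ε k) J F A := by
  unfold ActF at hA ⊢
  refine lt_of_le_of_lt ?_ hA
  refine CH_mono_cond (isLaw_cond F.isLaw hP).nonneg fun ω ω' _ _ hh => ?_
  have h1 := Prod.ext_iff.1 hh
  have h2 := Prod.ext_iff.1 h1.2
  refine Prod.ext ?_ (Prod.ext ?_ h2.2)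
  · funext i
    exact congrFun h1.1 (ε i)
  · funext i
    exact congrFun h2.1 (ε i)

end Pool.GEN
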