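import Pool.Agent.H71.GEN.Poly

/-!
# Substitution of a label of the zoom, with several coordinates, in a label of the family
-/

set_option autoImplicit false

namespace Pool.GEN

open Finset Real MvPolynomial

variable {m n : ℕ}

/-- The time and the coordinates of the zoom. -/
noncomputable def sb (w : ℕ) (a : ℝ) (cv vv : Fin m → ℝ) (e : Fin n → Fin m) :
    Option (Fin n) → MvPolynomial (Option (Fin m)) ℝ
  | none => tbx m w a
  | some k => C (2 ^ w) * X (some (e k)) - C (cv (e k)) - C (vv (e k)) * tbx m w a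

/-- The coordinate `e k`, by the label `Q` of the zoom. -/
noncomputable def qs (w : ℕ) (a : ℝ) (cv vv : Fin m → ℝ) (e : Fin n → Fin m)
    (Q : Fin n → MvPolynomial (Option (Fin n)) ℝ) (k : Fin n) : MvPolynomial (Option (Fin m)) ℝ :=
  C (1 / 2 ^ w) * (aeval (sb w a cv vv e) (Q k) + C (cv (e k)) + C (vv (e k)) * tbx m w a)

open Classical in
/-- The substitution. -/
noncomputable def rs (w : ℕ) (a : ℝ) (cv vv : Fin m → ℝ) (e : Fin n → Fin m)
    (Q : Fin n → MvPolynomial (Option (Fin n)) ℝ) :
    Option (Fin m) → MvPolynomial (Option (Fin m)) ℝ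
  | none => X none
  | some k => if h : ∃ i, e i = k then qs w a cv vv e Q h.choose else X (some k)

open Classical in
/-- The free coordinates of the composed label. -/
noncomputable def fI (I : Finset (Fin m)) (e : Fin n → Fin m) (I' : Finset (Fin n)) :
    Finset (Fin m) := I.filter (fun k => ∀ i, e i = k → i ∈ I')

section

variable {w : ℕ} {a : ℝ} {cv vv : Fin m → ℝ} {e : Fin n → Fin m}
  {Q : Fin n → MvPolynomial (Option (Fin n)) ℝ}

open Classical in
theorem rs_some (k : Fin m) : rs w a cv vv e Q (some k) =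
    if h : ∃ i, e i = k then qs w a cv vv e Q h.choose else X (some k) := rfl

theorem rs_e (he : Function.Injective e) (k : Fin n) :
    rs w a cv vv e Q (some (e k)) = qs w a cv vv e Q k := by
  classical
  rw [rs_some]
  have h : ∃ i, e i = e k := ⟨k, rfl⟩
  rw [dif_pos h, he h.choose_spec]

theorem rs_ne {k : Fin m} (hk : ∀ i, e i ≠ k) :
    rs w a cv vv e Q (some k) = X (some k) := by
  classical
  rw [rs_some, dif_neg (by push Not; exact hk)]

theorem rs_none : rs w a cv vv e Q none = X none := rfl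

theorem eval_sb_none (b : Option (Fin m) → ℝ) :
    eval b (sb w a cv vv e none) = 2 ^ w * b none - a := eval_tbx b

theorem eval_sb_some (b : Option (Fin m) → ℝ) (k : Fin n) :
    eval b (sb w a cv vv e (some k)) =
      2 ^ w * b (some (e k)) - cv (e k) - vv (e k) * (2 ^ w * b none - a) := by
  unfold sb
  rw [map_sub, map_sub, map_mul, map_mul, eval_C, eval_C, eval_C, eval_X, eval_tbx]

theorem eval_qs (b : Option (Fin m) → ℝ) (k : Fin n) :
    eval b (qs w a cv vv e Q k) = 1 / 2 ^ w * (eval (fun o => eval b (sb w a cv vv e o)) (Q k) +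
      cv (e k) + vv (e k) * (2 ^ w * b none - a)) := by
  unfold qs
  rw [map_mul, map_add, map_add, map_mul, eval_C, eval_C, eval_C, eval_tbx, eval_aevalσ]

/-- A free coordinate. -/
theorem qs_X {k : Fin n} (hQ : Q k = X (some k)) :
    qs w a cv vv e Q k = X (some (e k)) := by
  unfold qs
  rw [hQ, aeval_X]
  have e1 : sb w a cv vv e (some k) + C (cv (e k)) + C (vv (e k)) * tbx m w a =
      C (2 ^ w) * X (some (e k)) := by
    unfold sb
    ring
  rw [e1, ← mul_assoc, ← C_mul]
  have e2 : (1 / 2 ^ w * 2 ^ w : ℝ) = 1 := by field_simp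
  rw [e2, C_1, one_mul]

theorem deg_sb (o : Option (Fin n)) : (sb w a cv vv e o).totalDegree ≤ 1 := by
  rcases o with _ | k
  · exact deg_tbx
  · unfold sb
    refine (totalDegree_sub _ _).trans (max_le ((totalDegree_sub _ _).trans (max_le ?_ ?_)) ?_)
    · refine (totalDegree_mul _ _).trans ?_
      rw [totalDegree_C, totalDegree_X]
    · rw [totalDegree_C]
      exact Nat.zero_le _
    · refine (totalDegree_mul _ _).trans ?_
      rw [totalDegree_C, zero_add]
      exact deg_tbx

theorem deg_qs {K : ℕ} {k : Fin n} (hQ : (Q k).totalDegree ≤ K) :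
    (qs w a cv vv e Q k).totalDegree ≤ K + 1 := by
  unfold qs
  refine (totalDegree_mul _ _).trans ?_
  rw [totalDegree_C, zero_add]
  refine (totalDegree_add _ _).trans (max_le ((totalDegree_add _ _).trans (max_le ?_ ?_)) ?_)
  · have := totalDegree_aevalσ (g := sb w a cv vv e) (fun k => deg_sb k) hQ
    omega
  · rw [totalDegree_C]
    exact Nat.zero_le _
  · refine (totalDegree_mul _ _).trans ?_
    rw [totalDegree_C, zero_add]
    exact deg_tbx.trans (by omega)

theorem deg_rs {K : ℕ} (hQ : ∀ k, (Q k).totalDegree ≤ K) (o : Option (Fin m)) :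
    (rs w a cv vv e Q o).totalDegree ≤ K + 1 := by
  rcases o with _ | k
  · rw [rs_none, totalDegree_X]
    omega
  · classical
    rw [rs_some]
    split_ifs
    · exact deg_qs (hQ _)
    · rw [totalDegree_X]
      omega

/-- The degree of the composed label. -/
theorem deg_cs {K K₁ : ℕ} (hQ : ∀ k, (Q k).totalDegree ≤ K₁)
    {G : MvPolynomial (Option (Fin m)) ℝ} (hG : G.totalDegree ≤ K) :
    (aeval (rs w a cv vv e Q) G).totalDegree ≤ (K₁ + 1) * (K + 1) := by
  refine (totalDegree_aevalσ (fun o => deg_rs hQ o) hG).trans ?_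
  exact Nat.mul_le_mul_left _ (Nat.le_succ K)

/-- The dependence of the composed label. -/
theorem dep_cs {I : Finset (Fin m)} {I' : Finset (Fin n)} (hinj : Function.Injective e)
    (he : ∀ i, e i ∈ I)
    (hQ : ∀ k, ∀ b b' : Option (Fin n) → ℝ, b none = b' none →
      (∀ i ∈ I', b (some i) = b' (some i)) → eval b (Q k) = eval b' (Q k))
    {G : MvPolynomial (Option (Fin m)) ℝ} (hG : ∀ b b' : Option (Fin m) → ℝ, b none = b' none →
      (∀ k ∈ I, b (some k) = b' (some k)) → eval b G = eval b' G)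
    (b b' : Option (Fin m) → ℝ) (h0 : b none = b' none)
    (h1 : ∀ k ∈ fI I e I', b (some k) = b' (some k)) :
    eval b (aeval (rs w a cv vv e Q) G) = eval b' (aeval (rs w a cv vv e Q) G) := by
  classical
  rw [eval_aevalσ, eval_aevalσ]
  refine hG _ _ ?_ fun k hk => ?_
  · rw [rs_none, eval_X, eval_X, h0]
  · by_cases hke : ∃ i, e i = k
    · obtain ⟨i, rfl⟩ := hke
      rw [rs_e hinj, eval_qs, eval_qs, h0]
      congr 3
      refine hQ i _ _ ?_ fun i' hi' => ?_
      · rw [eval_sb_none, eval_sb_none, h0]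
      · rw [eval_sb_some, eval_sb_some, h0, h1 (e i') (by
          unfold fI
          rw [Finset.mem_filter]
          refine ⟨he i', fun i'' h => ?_⟩
          rw [hinj h]
          exact hi')]
    · push Not at hke
      rw [rs_ne hke, eval_X, eval_X]
      refine h1 k ?_
      unfold fI
      rw [Finset.mem_filter]
      exact ⟨hk, fun i h => absurd h (hke i)⟩

/-! ### Derivatives -/

theorem pd_sb_abs (hv : ∀ i, |vv i| ≤ 1) (b : Option (Fin m) → ℝ) (o : Option (Fin m))
    (k : Option (Fin n)) : |eval b (pderiv o (sb w a cv vv e k))| ≤ 2 ^ w := by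
  classical
  rcases k with _ | k
  · exact pd_tbx_abs b o
  · unfold sb
    rw [map_sub, map_sub, map_sub, map_sub, pderiv_C_mul, pderiv_C_mul, pderiv_C, map_zero,
      sub_zero, map_mul, map_mul, eval_C, eval_C, pd_tbx, pderiv_X]
    by_cases ho : o = none
    · subst ho
      rw [if_pos rfl, Pi.single_eq_of_ne (by simp), map_zero, mul_zero, zero_sub, abs_neg, abs_mul,
        abs_of_pos (by positivity : (0 : ℝ) < 2 ^ w)]
      have := hv (e k)
      have p0 : (0 : ℝ) < 2 ^ w := by positivity
      nlinarith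
    · rw [if_neg ho, mul_zero, sub_zero]
      by_cases hk : o = some (e k)
      · subst hk
        rw [Pi.single_eq_same, map_one, mul_one, abs_of_pos (by positivity)]
      · rw [Pi.single_eq_of_ne (Ne.symm hk), map_zero, mul_zero, abs_zero]
        positivity

/-- The slopes of the coordinates `e k`. -/
theorem pd_qs {Cn : ℝ} (hv : ∀ i, |vv i| ≤ 1) (b : Option (Fin m) → ℝ) (k : Fin n)
    (hQ : ∀ o, |eval (fun o => eval b (sb w a cv vv e o)) (pderiv o (Q k))| ≤ Cn)
    (o : Option (Fin m)) : |eval b (pderiv o (qs w a cv vv e Q k))| ≤ (n + 1) * Cn + 1 := by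
  have p0 : (0 : ℝ) < 2 ^ w := by positivity
  unfold qs
  rw [pderiv_C_mul, map_add, map_add, pderiv_C_mul, pderiv_C, add_zero, map_mul, map_add,
    map_mul, eval_C, eval_C, pd_aeval, map_sum, abs_mul,
    abs_of_pos (by positivity : (0 : ℝ) < 1 / 2 ^ w)]
  have h1 : |∑ o', eval b (aeval (sb w a cv vv e) (pderiv o' (Q k)) *
      pderiv o (sb w a cv vv e o'))| ≤ (n + 1) * Cn * 2 ^ w := by
    refine (Finset.abs_sum_le_sum_abs _ _).trans ?_
    have h2 : ∀ o' ∈ (Finset.univ : Finset (Option (Fin n))), |eval b (aeval (sb w a cv vv e)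
        (pderiv o' (Q k)) * pderiv o (sb w a cv vv e o'))| ≤ Cn * 2 ^ w := by
      intro o' _
      rw [map_mul, eval_aevalσ, abs_mul]
      exact mul_le_mul (hQ o') (pd_sb_abs hv b o o') (abs_nonneg _)
        ((abs_nonneg _).trans (hQ o'))
    refine (Finset.sum_le_sum h2).trans (le_of_eq ?_)
    rw [Finset.sum_const, Finset.card_univ, Fintype.card_option, Fintype.card_fin, nsmul_eq_mul]
    push_cast
    ring
  have h3 : |vv (e k) * eval b (pderiv o (tbx m w a))| ≤ 2 ^ w := by
    rw [abs_mul]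
    have := pd_tbx_abs (w := w) (a := a) b o
    have h4 := hv (e k)
    have h5 := abs_nonneg (vv (e k))
    have h6 := abs_nonneg (eval b (pderiv o (tbx m w a)))
    nlinarith
  have h7 := (abs_add_le (∑ o', eval b (aeval (sb w a cv vv e) (pderiv o' (Q k)) *
      pderiv o (sb w a cv vv e o'))) (vv (e k) * eval b (pderiv o (tbx m w a)))).trans
      (add_le_add h1 h3)
  calc _ ≤ 1 / 2 ^ w * ((n + 1) * Cn * 2 ^ w + 2 ^ w) :=
        mul_le_mul_of_nonneg_left h7 (by positivity)
    _ = (n + 1) * Cn + 1 := by field_simp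

theorem pd_rs {Cn : ℝ} (hv : ∀ i, |vv i| ≤ 1) (hCn : 0 ≤ Cn) (b : Option (Fin m) → ℝ)
    (hQ : ∀ k o, |eval (fun o => eval b (sb w a cv vv e o)) (pderiv o (Q k))| ≤ Cn)
    (o o' : Option (Fin m)) : |eval b (pderiv o (rs w a cv vv e Q o'))| ≤ (n + 1) * Cn + 1 := by
  classical
  have hX : ∀ o' : Option (Fin m), |eval b (pderiv o (X o' : MvPolynomial (Option (Fin m)) ℝ))| ≤
      (n + 1) * Cn + 1 := by
    intro o'
    have h0 : (0 : ℝ) ≤ (n + 1) * Cn := by positivity
    rw [pderiv_X]
    by_cases ho : o = o'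
    · subst ho
      rw [Pi.single_eq_same, map_one, abs_one]
      linarith
    · rw [Pi.single_eq_of_ne (Ne.symm ho), map_zero, abs_zero]
      linarith
  rcases o' with _ | k
  · exact hX none
  · rw [rs_some]
    split_ifs
    · exact pd_qs hv b _ (hQ _) o
    · exact hX _

/-- The slopes of the composed label. -/
theorem pd_cs {Cn K : ℝ} (hv : ∀ i, |vv i| ≤ 1) (hCn : 0 ≤ Cn) (hK : 0 ≤ K)
    (b : Option (Fin m) → ℝ)
    (hQ : ∀ k o, |eval (fun o => eval b (sb w a cv vv e o)) (pderiv o (Q k))| ≤ Cn)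
    {G : MvPolynomial (Option (Fin m)) ℝ}
    (hG : ∀ o, |eval (fun o => eval b (rs w a cv vv e Q o)) (pderiv o G)| ≤ K)
    (o : Option (Fin m)) : |eval b (pderiv o (aeval (rs w a cv vv e Q) G))| ≤
      (m + 1) * (K * ((n + 1) * Cn + 1)) := by
  classical
  rw [pd_aeval, map_sum]
  refine (Finset.abs_sum_le_sum_abs _ _).trans ?_
  have h3 : ∀ o' ∈ (Finset.univ : Finset (Option (Fin m))), |eval b (aeval (rs w a cv vv e Q)
      (pderiv o' G) * pderiv o (rs w a cv vv e Q o'))| ≤ K * ((n + 1) * Cn + 1) := by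
    intro o' _
    rw [map_mul, eval_aevalσ, abs_mul]
    exact mul_le_mul (hG o') (pd_rs hv hCn b hQ o o') (abs_nonneg _) hK
  refine (Finset.sum_le_sum h3).trans (le_of_eq ?_)
  rw [Finset.sum_const, Finset.card_univ, Fintype.card_option, Fintype.card_fin, nsmul_eq_mul]
  push_cast
  ring

end

end Pool.GEN
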