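import Pool.Agent.H45.EXA.Lam
import Pool.Agent.H71.GEN.Zab

/-!
# The greedy orders of the closed labels at all windows

`vs L ε w j`: the precisions of the labels of the coordinates in the order `ε` at the window `w`,
`vs L ε w 0 = w`, `vs L ε w (j + 1)` is the number of the coordinate `ε j` over the coordinates
before it on the balls of radius `vs L ε w j`. `Vgr L ε w`: the order is greedy at the window `w`.
`Vct`: the numbers are continuous at the window; this holds outside a countable set (`vct_ae`).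
`vst_att`, `vst_abs`: then labels with the precisions `vs` are attained, better ones are absent.
-/

set_option autoImplicit false

namespace Pool.GEN

open Finset Real MvPolynomial
open Pool.Agent.H49.Ent Pool.Agent.H32.Dense Pool.STK Pool.KA Pool.KSAT Pool.K2S Pool.PB Pool.S6C

variable {m n J : ℕ}

/-- The precisions of the labels in the order `ε` at the window `w`. -/
noncomputable def vs (L : Finset (Fin m) → Fin m → ℝ → ℝ → ℝ) (ε : Fin n → Fin m) (w : ℝ) :
    ℕ → ℝ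
  | 0 => w
  | j + 1 => if h : j < n then
      L ((Finset.Iio (⟨j, h⟩ : Fin n)).image ε) (ε ⟨j, h⟩) w (vs L ε w j) else 1

/-- The number of the coordinate `k` over the first `j` coordinates of the order. -/
noncomputable def vn (L : Finset (Fin m) → Fin m → ℝ → ℝ → ℝ) (ε : Fin n → Fin m) (j : Fin n)
    (k : Fin m) (w : ℝ) : ℝ :=
  L ((Finset.Iio j).image ε) k w (vs L ε w j)

/-- The order is greedy at the window `w`. -/
def Vgr (L : Finset (Fin m) → Fin m → ℝ → ℝ → ℝ) (ε : Fin n → Fin m) (w : ℝ) : Prop :=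
  ∀ j k : Fin n, j ≤ k → vs L ε w (j + 1) ≤ vn L ε j (ε k) w

/-- The numbers of the order are continuous at the window `w`. -/
def Vct (L : Finset (Fin m) → Fin m → ℝ → ℝ → ℝ) (ε : Fin n → Fin m) (w : ℝ) : Prop :=
  ∀ (j : Fin n) (k : Fin m), ContinuousAt (vn L ε j k) w

theorem vs_succ (L : Finset (Fin m) → Fin m → ℝ → ℝ → ℝ) (ε : Fin n → Fin m) (w : ℝ) (j : Fin n) :
    vs L ε w (j + 1) = vn L ε j (ε j) w := by
  unfold vn
  rw [vs, dif_pos j.2]

theorem vs_mono {S : PCl m} {L : Finset (Fin m) → Fin m → ℝ → ℝ → ℝ} (hL : LamW S L)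
    (ε : Fin n → Fin m) (j : ℕ) : Monotone fun w => vs L ε w j := by
  induction j with
  | zero => exact fun a b h => h
  | succ j ih =>
    intro a b h
    simp only [vs]
    split_ifs with hj
    · exact hL.mono _ _ _ _ _ _ _ (Finset.Subset.refl _) h (ih h)
    · exact le_rfl

theorem vn_mono {S : PCl m} {L : Finset (Fin m) → Fin m → ℝ → ℝ → ℝ} (hL : LamW S L)
    (ε : Fin n → Fin m) (j : Fin n) (k : Fin m) : Monotone (vn L ε j k) :=
  fun _ _ h => hL.mono _ _ _ _ _ _ _ (Finset.Subset.refl _) h (vs_mono hL ε j h)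

/-- The numbers are continuous outside a countable set. -/
theorem vct_ae {S : PCl m} {L : Finset (Fin m) → Fin m → ℝ → ℝ → ℝ} (hL : LamW S L)
    (ε : Fin n → Fin m) : {w | ¬ Vct L ε w}.Countable := by
  have h1 : {w | ¬ Vct L ε w} ⊆ ⋃ j : Fin n, ⋃ k : Fin m, {w | ¬ ContinuousAt (vn L ε j k) w} := by
    intro w hw
    have h2 : ¬ Vct L ε w := hw
    unfold Vct at h2
    push Not at h2
    obtain ⟨j, k, h3⟩ := h2
    exact Set.mem_iUnion.2 ⟨j, Set.mem_iUnion.2 ⟨k, h3⟩⟩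
  refine Set.Countable.mono h1 (Set.countable_iUnion fun j => Set.countable_iUnion fun k => ?_)
  exact (vn_mono hL ε j k).countable_not_continuousAt

theorem vs_le1 {S : PCl m} {L : Finset (Fin m) → Fin m → ℝ → ℝ → ℝ} (hL : LamW S L)
    (ε : Fin n → Fin m) {w : ℝ} (hw : w ≤ 1) (j : ℕ) : vs L ε w j ≤ 1 := by
  cases j with
  | zero => exact hw
  | succ j =>
    simp only [vs]
    split_ifs
    · exact hL.le1 _ _ _ _
    · exact le_rfl

theorem le_vs {S : PCl m} {L : Finset (Fin m) → Fin m → ℝ → ℝ → ℝ} (hL : LamW S L)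
    (ε : Fin n → Fin m) {w : ℝ} (hw : w ≤ 1) (j : ℕ) : w ≤ vs L ε w j := by
  cases j with
  | zero => exact le_rfl
  | succ j =>
    simp only [vs]
    split_ifs
    · exact hL.low _ _ _ _ hw
    · exact hw

/-- In a greedy order the precisions increase. -/
theorem Vgr.step {S : PCl m} {L : Finset (Fin m) → Fin m → ℝ → ℝ → ℝ} (hL : LamW S L)
    {ε : Fin n → Fin m} {w : ℝ} (hw : w ≤ 1) (hg : Vgr L ε w) (j : ℕ) :
    vs L ε w j ≤ vs L ε w (j + 1) := by
  induction j with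
  | zero => exact le_vs hL ε hw _
  | succ j ih =>
    by_cases hj : j + 1 < n
    · have hj' : j < n := by omega
      have h1 := hg ⟨j, hj'⟩ ⟨j + 1, hj⟩ (by rw [Fin.le_def]; simp only; omega)
      have h2 := vs_succ L ε w ⟨j + 1, hj⟩
      simp only at h1 h2
      rw [h2]
      refine h1.trans (hL.mono _ _ _ _ _ _ _ (Finset.image_subset_image ?_) le_rfl ih)
      intro x hx
      rw [Finset.mem_Iio] at hx ⊢
      refine hx.trans ?_
      rw [Fin.lt_def]
      simp only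
      omega
    · have h1 : vs L ε w (j + 1 + 1) = 1 := by
        rw [vs, dif_neg hj]
      rw [h1]
      exact vs_le1 hL ε hw _

theorem Vgr.mono {S : PCl m} {L : Finset (Fin m) → Fin m → ℝ → ℝ → ℝ} (hL : LamW S L)
    {ε : Fin n → Fin m} {w : ℝ} (hw : w ≤ 1) (hg : Vgr L ε w) : Monotone (vs L ε w) :=
  monotone_nat_of_le_succ (Vgr.step hL hw hg)

/-- The radii of the labels. -/
theorem rad_vs (L : Finset (Fin m) → Fin m → ℝ → ℝ → ℝ) (ε : Fin n → Fin m) (w : ℝ) (j : Fin n) :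
    rad (fun j : Fin n => vs L ε w (j + 1)) w j = vs L ε w j := by
  unfold rad
  split_ifs with h
  · rw [h]
    rfl
  · simp only
    congr 1
    omega

/-- **The labels are attained.** -/
theorem vst_att1 {S : PCl m} {L : Finset (Fin m) → Fin m → ℝ → ℝ → ℝ} (hL : LamW S L)
    {ε : Fin n → Fin m} {w : ℝ} (hw0 : 0 < w) (hw : w < 1) (hg : Vgr L ε w) (hc : Vct L ε w)
    (i : ℕ) : ∀ j : Fin n, (j : ℕ) = i → ∀ k, j ≤ k → ∀ e : ℝ, 0 < e → ∃ K,
      Bas S (fun J F A => Lb F ((Finset.Iio j).image ε) (ε k) K ⌊e * J⌋₊ J ⌊w * J⌋₊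
        ⌊min (vs L ε w j + e) 1 * J⌋₊ ⌊(vs L ε w (j + 1) - e) * J⌋₊ A) := by
  have direct : ∀ j : Fin n, vs L ε w j < 1 → ∀ k, j ≤ k → ∀ e : ℝ, 0 < e → ∃ K,
      Bas S (fun J F A => Lb F ((Finset.Iio j).image ε) (ε k) K ⌊e * J⌋₊ J ⌊w * J⌋₊
        ⌊min (vs L ε w j + e) 1 * J⌋₊ ⌊(vs L ε w (j + 1) - e) * J⌋₊ A) := by
    intro j hj1 k hjk e he
    have h1 := hc j (ε k)
    rw [Metric.continuousAt_iff] at h1
    obtain ⟨δ, hδ, h2⟩ := h1 (e / 2) (half_pos he)
    obtain ⟨w', hw'⟩ : ∃ w', w' = w - δ / 2 := ⟨_, rfl⟩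
    have h3 : |vn L ε j (ε k) w' - vn L ε j (ε k) w| < e / 2 := by
      have := @h2 w' (by rw [Real.dist_eq, hw', abs_lt]; constructor <;> linarith)
      rwa [Real.dist_eq] at this
    have h4 := (abs_lt.1 h3).1
    have h5 := hg j k hjk
    obtain ⟨e', he'⟩ : ∃ e', e' = min (e / 2) (1 - vs L ε w j) := ⟨_, rfl⟩
    have he'0 : 0 < e' := by rw [he']; exact lt_min (half_pos he) (by linarith)
    have he'1 : e' ≤ e / 2 := by rw [he']; exact min_le_left _ _
    have he'2 : e' ≤ 1 - vs L ε w j := by rw [he']; exact min_le_right _ _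
    obtain ⟨K, hK⟩ := hL.att ((Finset.Iio j).image ε) (ε k) w' w (vs L ε w' j) e' hw0 hw.le
      (by rw [hw']; linarith) he'0
    refine ⟨K, Bas.mono 0 hK ?_⟩
    intro J _ F A hG
    have hJ : (0 : ℝ) ≤ J := Nat.cast_nonneg J
    have hr : vs L ε w' j ≤ vs L ε w j := vs_mono hL ε j (by rw [hw']; linarith)
    refine hG.mono (Finset.Subset.refl _) le_rfl
      (Nat.floor_le_floor (mul_le_mul_of_nonneg_right (by linarith) hJ)) le_rfl le_rfl
      (fl_le hw.le J) (Nat.floor_le_floor (mul_le_mul_of_nonneg_right ?_ hJ))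
      (Nat.floor_le_floor (mul_le_mul_of_nonneg_right ?_ hJ))
    · exact le_min (by linarith) (by linarith)
    · have h6 : L ((Finset.Iio j).image ε) (ε k) w' (vs L ε w' j) = vn L ε j (ε k) w' := rfl
      rw [h6]
      linarith
  induction i with
  | zero =>
    intro j hj k hjk e he
    refine direct j ?_ k hjk e he
    rw [hj]
    exact hw
  | succ i ih =>
    intro j hj k hjk e he
    have hle1 := vs_le1 hL ε hw.le (j : ℕ)
    rcases hle1.lt_or_eq with h | h
    · exact direct j h k hjk e he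
    · have hi : i < n := by omega
      have hij : (⟨i, hi⟩ : Fin n) ≤ j := by
        rw [Fin.le_def]
        simp only
        omega
      obtain ⟨K, hK⟩ := ih ⟨i, hi⟩ rfl k (hij.trans hjk) e he
      refine ⟨K, Bas.mono 0 hK ?_⟩
      intro J _ F A hG
      have hJ : (0 : ℝ) ≤ J := Nat.cast_nonneg J
      have h1 : vs L ε w i ≤ vs L ε w j := hg.mono hL hw.le (by omega)
      have h2 : vs L ε w (j + 1) ≤ vs L ε w (i + 1) := by
        have e1 : i + 1 = (j : ℕ) := by omega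
        rw [e1, h]
        exact vs_le1 hL ε hw.le _
      refine hG.mono (Finset.image_subset_image ?_) le_rfl le_rfl le_rfl le_rfl
        (fl_le hw.le J) (Nat.floor_le_floor (mul_le_mul_of_nonneg_right ?_ hJ))
        (Nat.floor_le_floor (mul_le_mul_of_nonneg_right (by simp only; linarith) hJ))
      · intro x hx
        rw [Finset.mem_Iio] at hx ⊢
        exact hx.trans_le hij
      · exact min_le_min (by simp only; linarith) le_rfl

/-- **The labels are attained**, with one bound of the class. -/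
theorem vst_att {S : PCl m} {L : Finset (Fin m) → Fin m → ℝ → ℝ → ℝ} (hL : LamW S L)
    {ε : Fin n → Fin m} {w : ℝ} (hw0 : 0 < w) (hw : w < 1) (hg : Vgr L ε w) (hc : Vct L ε w)
    {e : ℝ} (he : 0 < e) : ∃ K, ∀ j k : Fin n, j ≤ k →
      Bas S (fun J F A => Lb F ((Finset.Iio j).image ε) (ε k) K ⌊e * J⌋₊ J ⌊w * J⌋₊
        ⌊min (vs L ε w j + e) 1 * J⌋₊ ⌊(vs L ε w (j + 1) - e) * J⌋₊ A) := by
  classical
  have h1 : ∀ j k : Fin n, ∃ K, j ≤ k →
      Bas S (fun J F A => Lb F ((Finset.Iio j).image ε) (ε k) K ⌊e * J⌋₊ J ⌊w * J⌋₊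
        ⌊min (vs L ε w j + e) 1 * J⌋₊ ⌊(vs L ε w (j + 1) - e) * J⌋₊ A) := by
    intro j k
    by_cases hjk : j ≤ k
    · obtain ⟨K, hK⟩ := vst_att1 hL hw0 hw hg hc j j rfl k hjk e he
      exact ⟨K, fun _ => hK⟩
    · exact ⟨0, fun h => absurd h hjk⟩
  choose K hK using h1
  refine ⟨univ.sup fun j => univ.sup (K j), fun j k hjk => Bas.mono 0 (hK j k hjk) ?_⟩
  intro J _ F A hG
  have hKle : K j k ≤ univ.sup fun j => univ.sup (K j) :=
    (Finset.le_sup (f := K j) (mem_univ k)).trans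
      (Finset.le_sup (f := fun j => univ.sup (K j)) (mem_univ j))
  exact hG.mono (Finset.Subset.refl _) hKle le_rfl le_rfl le_rfl (fl_le hw.le J) le_rfl le_rfl

/-- **Better labels are absent**, with a modulus. -/
theorem vst_abs {S : PCl m} {L : Finset (Fin m) → Fin m → ℝ → ℝ → ℝ} (hL : LamW S L)
    (ε : Fin n → Fin m) {w : ℝ} (hw : w < 1) : ∃ d : ℕ → ℝ, (∀ l, 0 < d l) ∧
      (∀ l, w + d l < 1) ∧ ∀ (l K : ℕ) (j : Fin n), vs L ε w (j + 1) + 1 / ((l : ℝ) + 1) ≤ 1 →
      Bas S (fun J F A => ¬ Lb F ((Finset.Iio j).image ε) (ε j) K ⌊d l * J⌋₊ J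
        ⌊(w + d l) * J⌋₊ ⌊(vs L ε w j + d l) * J⌋₊
        ⌊(vs L ε w (j + 1) + 1 / ((l : ℝ) + 1)) * J⌋₊ A) := by
  have h1 : ∀ (l : ℕ) (j : Fin n), ∃ d : ℝ, 0 < d ∧ (vs L ε w (j + 1) + 1 / ((l : ℝ) + 1) ≤ 1 →
      ∀ d' ≤ d, ∀ K, Bas S (fun J F A => ¬ Lb F ((Finset.Iio j).image ε) (ε j) K ⌊d' * J⌋₊ J
        ⌊(w + d') * J⌋₊ ⌊(vs L ε w j + d') * J⌋₊
        ⌊(vs L ε w (j + 1) + 1 / ((l : ℝ) + 1)) * J⌋₊ A)) := by
    intro l j
    by_cases hl : vs L ε w (j + 1) + 1 / ((l : ℝ) + 1) ≤ 1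
    · have hlt : L ((Finset.Iio j).image ε) (ε j) w (vs L ε w j) <
          vs L ε w (j + 1) + 1 / ((l : ℝ) + 1) := by
        have h2 := vs_succ L ε w j
        unfold vn at h2
        rw [← h2]
        have : (0 : ℝ) < 1 / ((l : ℝ) + 1) := by positivity
        linarith
      obtain ⟨d, hd, -, h3⟩ := hL.abs _ _ _ _ _ hlt hl
      exact ⟨d, hd, fun _ => h3⟩
    · exact ⟨1, one_pos, fun h => absurd h hl⟩
  choose D hD0 hD using h1
  have h2 : ∀ l : ℕ, ∃ d : ℝ, 0 < d ∧ w + d < 1 ∧ ∀ j, d ≤ D l j := by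
    intro l
    rcases isEmpty_or_nonempty (Fin n) with hem | hne
    · exact ⟨(1 - w) / 2, by linarith, by linarith, fun j => hem.elim j⟩
    · obtain ⟨j0, -, hj0⟩ := Finset.exists_min_image univ (D l) univ_nonempty
      refine ⟨min ((1 - w) / 2) (D l j0), lt_min (by linarith) (hD0 _ _), ?_, fun j =>
        (min_le_right _ _).trans (hj0 j (mem_univ j))⟩
      have := min_le_left ((1 - w) / 2) (D l j0)
      linarith
  choose d hd0 hd1 hd2 using h2
  exact ⟨d, hd0, hd1, fun l K j hl => hD l j hl (d l) (hd2 l j) K⟩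

/-- **The closed labels of a greedy order are exact at the window `w`**, given any function which
is closed at the window. -/
theorem vst_exa (hF : FZX n) {S : PCl m} (hS : S.Ne) {C₀ : ℝ} (hC : 0 ≤ C₀) (htm : TmC S C₀)
    {L : Finset (Fin m) → Fin m → ℝ → ℝ → ℝ} (hL : LamW S L) {N : ℚ → ℚ → ℝ} {al : ℝ}
    (hal : 0 < al) {g₀ : ℝ → ℝ} (hg₀ : ∀ ε : ℝ, 0 < ε → 0 < g₀ ε) (hN : ActM N al g₀)
    (hpos : Bas S (fun _ F A => 0 < Pe F.p A))
    {ε : Fin n → Fin m} (hε : Function.Injective ε) (hact : ∀ k : Fin n, (k : ℕ) = 0 →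
      ActB N S (ε k)) {w : ℝ} (hw0 : 0 < w) (hw : w < 1) (hg : Vgr L ε w) (hc : Vct L ε w)
    {ρ : ℝ} (hρ : 0 < ρ) : Bas S (fun J F A => ∀ (V : Type) (z : PtT F → V) (z' : LnT F → V),
      (∀ ω, A ω → z (ptr F J ω) = z' (slam F ⌊w * J⌋₊ ω)) →
      ((∑ j : Fin n, (1 - vs L ε w (j + 1))) - ρ) * Real.log 2 * J ≤
        CH (Pool.Agent.H49.Ent.cond F.p A True)
        (fun ω j => F.X J ω (ε j)) (fun ω => (z' (slam F ⌊w * J⌋₊ ω), F.W ω))) := by
  obtain ⟨d, hd0, hd1, hd⟩ := vst_abs hL ε hw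
  obtain ⟨s, hs⟩ : ∃ s : Fin n → ℝ, s = fun j : Fin n => vs L ε w (j + 1) := ⟨_, rfl⟩
  have hsj : ∀ j, s j = vs L ε w (j + 1) := fun j => by rw [hs]
  have hrad : ∀ j, rad s w j = vs L ε w j := fun j => by rw [hs]; exact rad_vs L ε w j
  have hnum : NumW w s d := by
    refine ⟨fun a b hab => ?_, fun j => ?_, fun j => ?_, fun j hj => ?_, hd0, hd1⟩
    · rw [hsj, hsj]
      have : (a : ℕ) ≤ b := hab
      exact hg.mono hL hw.le (by omega)
    · rw [hsj]
      exact le_vs hL ε hw.le _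
    · rw [hsj]
      exact vs_le1 hL ε hw.le _
    · rw [hsj, vs_succ]
      unfold vn
      have h1 : (Finset.Iio j).image ε = ∅ := by
        rw [Finset.image_eq_empty]
        ext x
        simp only [Finset.mem_Iio, Finset.notMem_empty, iff_false, not_lt, Fin.le_def]
        omega
      rw [h1]
      exact hL.act hS hal (hN.q hg₀) (hact j hj) hpos hw0.le hw
  obtain ⟨e, he, hex⟩ := exar n hF ρ al hρ hal g₀ hg₀ w hw0 hw s d hnum
  obtain ⟨K₀, hatt⟩ := vst_att hL hw0 hw hg hc he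
  have h2 := hex K₀ N hN m C₀ S ε hε hC htm (fun j k hjk => by
      rw [hrad, hsj]
      exact hatt j k hjk)
    (fun l K _ j hj => by
      rw [hrad, hsj]
      rw [hsj] at hj
      exact hd l K j hj) hact
  refine Bas.mono 0 h2 ?_
  intro J _ F A h3
  rw [hs] at h3
  exact h3

end Pool.GEN
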