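import Pool.Agent.H45.EXA.Zlb
import Pool.Agent.H71.GEN.Nst

/-!
# No better labels in the zooms of the families of a class

`uz`: the thresholds of the zooms. `zbt`: the zooms have no labels of the list `Btr`.
-/

set_option autoImplicit false

namespace Pool.GEN

open Finset Real MvPolynomial
open Pool.Agent.H49.Ent Pool.Agent.H32.Dense Pool.STK Pool.KA Pool.KSAT Pool.K2S Pool.PB Pool.S6C
open Pool.FLF (Fam.sub)

variable {m n J : ℕ} {κ : Type}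

open Classical in
/-- The threshold of the zoom. -/
noncomputable def uz (w₁ w₂ dd t : ℝ) : ℝ :=
  if t ≤ 1 - 3 * w₂ then (t - w₁) / (1 - w₁) + dd else 1

section

variable {w₁ w₂ dd t t' : ℝ}

theorem uz_of_le (h : t ≤ 1 - 3 * w₂) : uz w₁ w₂ dd t = (t - w₁) / (1 - w₁) + dd := if_pos h

theorem uz_of_gt (h : ¬ t ≤ 1 - 3 * w₂) : uz w₁ w₂ dd t = 1 := if_neg h

theorem uz_aux (hw₁ : 0 ≤ w₁) (hw₁1 : w₁ < 1) (hw₂ : 0 ≤ w₂) (h : t ≤ 1 - 3 * w₂) :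
    (t - w₁) / (1 - w₁) ≤ 1 - 3 * w₂ := by
  have h0 : 0 < 1 - w₁ := by linarith
  rw [div_le_iff₀ h0]
  nlinarith

theorem uz_le_one (hw₁ : 0 ≤ w₁) (hw₁1 : w₁ < 1) (hw₂ : 0 ≤ w₂) (hdd : dd ≤ 3 * w₂) :
    uz w₁ w₂ dd t ≤ 1 := by
  by_cases h : t ≤ 1 - 3 * w₂
  · rw [uz_of_le h]
    have := uz_aux hw₁ hw₁1 hw₂ h
    linarith
  · rw [uz_of_gt h]

theorem uz_mono (hw₁ : 0 ≤ w₁) (hw₁1 : w₁ < 1) (hw₂ : 0 ≤ w₂) (hdd : dd ≤ 3 * w₂) :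
    Monotone (uz w₁ w₂ dd) := by
  intro a b hab
  by_cases hb : b ≤ 1 - 3 * w₂
  · rw [uz_of_le (hab.trans hb), uz_of_le hb]
    have h0 : 0 < 1 - w₁ := by linarith
    have := div_le_div_of_nonneg_right (sub_le_sub_right hab w₁) h0.le
    linarith
  · rw [uz_of_gt hb]
    exact uz_le_one hw₁ hw₁1 hw₂ hdd

theorem uz_ge (hw₁1 : w₁ < 1) (hdd : 0 ≤ dd) (ht : t ≤ 1) :
    (t - w₁) / (1 - w₁) ≤ uz w₁ w₂ dd t := by
  by_cases h : t ≤ 1 - 3 * w₂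
  · rw [uz_of_le h]
    linarith
  · rw [uz_of_gt h]
    have h0 : 0 < 1 - w₁ := by linarith
    rw [div_le_one h0]
    linarith

theorem uz_le (hw₁1 : w₁ < 1) (hw₂ : 0 ≤ w₂) (hdd : 0 ≤ dd) :
    uz w₁ w₂ dd t ≤ (t - w₁) / (1 - w₁) + 3 * w₂ / (1 - w₁) + dd := by
  have h0 : 0 < 1 - w₁ := by linarith
  by_cases h : t ≤ 1 - 3 * w₂
  · rw [uz_of_le h]
    have : 0 ≤ 3 * w₂ / (1 - w₁) := by positivity
    linarith
  · rw [uz_of_gt h]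
    push Not at h
    have h1 : 1 ≤ (t - w₁) / (1 - w₁) + 3 * w₂ / (1 - w₁) := by
      rw [← add_div, le_div_iff₀ h0]
      linarith
    linarith

end

/-- The labels do not depend on the law. -/
theorem lb_zf_res {F : Fam m J} {A : F.Ω → Prop}
    (hl : IsLaw (Pool.Agent.H49.Ent.cond F.p A True)) {w J' : ℕ} {h : w + J' ≤ J}
    {g : F.Ω → κ} {ε : Fin n → Fin m} {I : Finset (Fin n)} {k : Fin n} {K e r w' ρ P : ℕ}
    {B : F.Ω → Prop} (hL : Lb (zf (F.res A True hl) w J' h g ε) I k K e r w' ρ P B) :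
    Lb (zf F w J' h g ε) I k K e r w' ρ P B := by
  obtain ⟨V, z, z', G, hG⟩ := hL
  exact ⟨V, z, z', G, hG.deg, hG.dep, hG.cls, hG.pos, hG.vel, hG.lip⟩

/-- **No better labels in the zooms**, general windows. The absent labels of the class have the
exponent `e₂` for the gradient and `rad u w₂ j + r₂` for the radius. -/
theorem zbt' {S : PCl m} {C₀ : ℝ} (hC₀ : 0 ≤ C₀) (hbs : TmC S C₀)
    {w₁ w₂ w₃ dd wZ e₂ r₂ : ℝ} (hw0 : 0 < w₁) (hw11 : w₁ < 1) (hw21 : w₂ < 1) (hw3 : 0 < w₃)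
    (hdd : 0 < dd) (hwZ : 0 < wZ) (hwZ1 : wZ ≤ 1 / 2) (hw : w₁ + wZ * (1 - w₁) < w₂)
    (he₂ : wZ * (1 - w₁) < e₂) (hr₂ : (dd + wZ) * (1 - w₁) < r₂) (hdw : dd + wZ ≤ 3 * w₃)
    {u : Fin n → ℝ} (humono : Monotone u) (hu : ∀ j, w₁ ≤ u j)
    {ε : Fin n → Fin m} (hinj : Function.Injective ε)
    (habs : ∀ (j : Fin n) (K : ℕ) (h : ℝ), 0 < h → u j + h ≤ 1 → Bas S (fun J F A =>
      ¬ Lb F ((Finset.Iio j).image ε) (ε j) K ⌊e₂ * J⌋₊ J ⌊w₂ * J⌋₊ ⌊(rad u w₂ j + r₂) * J⌋₊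
        ⌊(u j + h) * J⌋₊ A)) (K : ℕ) {h₀ : ℝ} (hh₀ : 0 < h₀) :
    ∃ ψ : ℝ, 0 < ψ ∧ ∃ τ₀ : ℝ, 0 < τ₀ ∧ ∃ J₀ : ℕ, ∀ J ≥ J₀, ∀ (F : Fam m J) (A : F.Ω → Prop),
    S.St τ₀ J F A → ∀ (κ : Type) (g : F.Ω → κ),
    (∀ ω ω', A ω → A ω' → ptr F J ω = ptr F J ω' → g ω = g ω') →
    (∀ ω ω', A ω → A ω' → slam F ⌊w₁ * J⌋₊ ω = slam F ⌊w₁ * J⌋₊ ω' → g ω = g ω') →
    ∀ (J' : ℕ) (h : ⌊w₁ * J⌋₊ + J' ≤ J), J' = J - ⌊w₁ * J⌋₊ →
    ∀ (hl : IsLaw (Pool.Agent.H49.Ent.cond F.p A True)) (B : F.Ω → Prop),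
    Real.exp (-(3 * ψ * J')) ≤ Pe (Pool.Agent.H49.Ent.cond F.p A True) B →
    ¬ Btr (fun j => uz w₁ w₃ dd (u j)) wZ h₀ K J' (zf (F.res A True hl) ⌊w₁ * J⌋₊ J' h g ε) B := by
  classical
  have h01 : 0 < 1 - w₁ := by linarith
  have hone : ∀ j : Fin n, ∃ ψ : ℝ, 0 < ψ ∧ ∃ τ₀ : ℝ, 0 < τ₀ ∧ ∃ J₀ : ℕ, ∀ J ≥ J₀,
      ∀ (F : Fam m J) (A : F.Ω → Prop),
      S.St τ₀ J F A → ∀ (κ : Type) (g : F.Ω → κ),
      (∀ ω ω', A ω → A ω' → ptr F J ω = ptr F J ω' → g ω = g ω') →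
      (∀ ω ω', A ω → A ω' → slam F ⌊w₁ * J⌋₊ ω = slam F ⌊w₁ * J⌋₊ ω' → g ω = g ω') →
      ∀ (J' : ℕ) (h : ⌊w₁ * J⌋₊ + J' ≤ J), J' = J - ⌊w₁ * J⌋₊ →
      ∀ (hl : IsLaw (Pool.Agent.H49.Ent.cond F.p A True)) (B : F.Ω → Prop),
      Real.exp (-(3 * ψ * J')) ≤ Pe (Pool.Agent.H49.Ent.cond F.p A True) B →
      uz w₁ w₃ dd (u j) + h₀ ≤ 1 →
      ¬ Lb (zf (F.res A True hl) ⌊w₁ * J⌋₊ J' h g ε) (Finset.Iio j) j K ⌊wZ * J'⌋₊ J' ⌊wZ * J'⌋₊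
        ⌊(rad (fun j => uz w₁ w₃ dd (u j)) wZ j + wZ) * J'⌋₊ ⌊(uz w₁ w₃ dd (u j) + h₀) * J'⌋₊ B := by
    intro j
    by_cases hj : uz w₁ w₃ dd (u j) + h₀ ≤ 1
    swap
    · exact ⟨1, one_pos, 1, one_pos, 0, fun J _ F A _ κ g _ _ J' h _ hl B _ h1 => absurd h1 hj⟩
    have hju : u j ≤ 1 - 3 * w₃ := by
      by_contra hc
      rw [uz_of_gt hc] at hj
      linarith
    have hju' := uz_of_le (w₁ := w₁) (dd := dd) hju
    have hj1 : (u j - w₁) / (1 - w₁) ≤ 1 - 3 * w₃ := uz_aux hw0.le hw11 hw3.le hju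
    have hj0 : 0 ≤ (u j - w₁) / (1 - w₁) := div_nonneg (by linarith [hu j]) h01.le
    have e1 : (u j - w₁) / (1 - w₁) * (1 - w₁) = u j - w₁ := by
      field_simp
    obtain ⟨h', hh'⟩ : ∃ h', h' = dd * (1 - w₁) / 2 := ⟨_, rfl⟩
    have hh'0 : 0 < h' := by
      rw [hh']
      have := mul_pos hdd h01
      linarith
    have hh'1 : h' ≤ dd / 2 := by
      rw [hh']
      nlinarith
    have hwd : wZ * (1 - w₁) < r₂ := by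
      have := mul_pos hdd h01
      have e2 : (dd + wZ) * (1 - w₁) = dd * (1 - w₁) + wZ * (1 - w₁) := by ring
      linarith
    -- the radius
    have hrad : 0 ≤ rad (fun j => uz w₁ w₃ dd (u j)) wZ j + wZ ∧
        rad (fun j => uz w₁ w₃ dd (u j)) wZ j + wZ ≤ 1 ∧
        w₁ + (rad (fun j => uz w₁ w₃ dd (u j)) wZ j + wZ) * (1 - w₁) < rad u w₂ j + r₂ := by
      unfold rad
      by_cases h0 : (j : ℕ) = 0
      · rw [if_pos h0, if_pos h0]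
        refine ⟨by linarith, by linarith, ?_⟩
        have e2 : (wZ + wZ) * (1 - w₁) = wZ * (1 - w₁) + wZ * (1 - w₁) := by ring
        linarith
      · rw [if_neg h0, if_neg h0]
        have hle : u ⟨(j : ℕ) - 1, by omega⟩ ≤ u j := by
          refine humono ?_
          rw [Fin.le_def]
          simp only
          omega
        have hk : u ⟨(j : ℕ) - 1, by omega⟩ ≤ 1 - 3 * w₃ := hle.trans hju
        have hk1 : (u ⟨(j : ℕ) - 1, by omega⟩ - w₁) / (1 - w₁) ≤ 1 - 3 * w₃ :=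
          uz_aux hw0.le hw11 hw3.le hk
        have hk0 : 0 ≤ (u ⟨(j : ℕ) - 1, by omega⟩ - w₁) / (1 - w₁) :=
          div_nonneg (by linarith [hu ⟨(j : ℕ) - 1, by omega⟩]) h01.le
        simp only
        rw [uz_of_le hk]
        refine ⟨by linarith, by linarith, ?_⟩
        have e2 : (u ⟨(j : ℕ) - 1, by omega⟩ - w₁) / (1 - w₁) * (1 - w₁) =
            u ⟨(j : ℕ) - 1, by omega⟩ - w₁ := by
          field_simp
        have e3 : ((u ⟨(j : ℕ) - 1, by omega⟩ - w₁) / (1 - w₁) + dd + wZ) * (1 - w₁) =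
            (u ⟨(j : ℕ) - 1, by omega⟩ - w₁) / (1 - w₁) * (1 - w₁) + (dd + wZ) * (1 - w₁) := by
          ring
        rw [e3, e2]
        linarith
    obtain ⟨hr0, hr1, hr2⟩ := hrad
    have hwZw : wZ * (1 - w₁) ≤ wZ := by nlinarith
    obtain ⟨ψ, hψ, τ₀, hτ₀, J₀, hz⟩ := zlb hC₀ hbs (w₁ := w₁) (w₂ := w₂) (w' := wZ)
      (R := rad u w₂ j + r₂) (R' := rad (fun j => uz w₁ w₃ dd (u j)) wZ j + wZ)
      (P := u j + h') (P' := uz w₁ w₃ dd (u j) + h₀) (e := e₂) (e' := wZ) hw0 hw11 hwZ.le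
      (by linarith) hw hw21 hr0 hr1 hr2 hwZ.le (by linarith) he₂
      (by linarith [hu j]) (by rw [hju']; linarith) (by
        rw [hju']
        have e5 : ((u j - w₁) / (1 - w₁) + dd + h₀) * (1 - w₁) =
            (u j - w₁) / (1 - w₁) * (1 - w₁) + dd * (1 - w₁) + h₀ * (1 - w₁) := by ring
        rw [e5, e1, hh']
        have h5 := mul_pos hdd h01
        have h6 := mul_pos hh₀ h01
        linarith) (by
        have e6 : (1 - wZ) * (1 - w₁) = 1 - w₁ - wZ * (1 - w₁) := by ring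
        rw [e6]
        linarith) (Finset.Iio j) j ε hinj K
      (habs j (K + 1) h' hh'0 (by linarith))
    refine ⟨ψ, hψ, τ₀, hτ₀, J₀, ?_⟩
    intro J hJ F A hS κ g hgp hgl J' h hJ' hl B hB _ hL
    exact hz J hJ F A hS κ g hgp hgl J' h hJ' B hB (lb_zf_res hl hL)
  choose ψ hψ τ₀ hτ₀ J₀ hz using hone
  obtain ⟨ψm, hψm, hψm'⟩ : ∃ ψm : ℝ, 0 < ψm ∧ ∀ j, ψm ≤ ψ j := by
    rcases isEmpty_or_nonempty (Fin n) with he | he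
    · exact ⟨1, one_pos, fun j => he.elim j⟩
    · obtain ⟨j₀, -, hj₀⟩ := Finset.exists_min_image (Finset.univ : Finset (Fin n)) ψ
        Finset.univ_nonempty
      exact ⟨ψ j₀, hψ j₀, fun j => hj₀ j (Finset.mem_univ j)⟩
  obtain ⟨τm, hτm, hτm'⟩ : ∃ τm : ℝ, 0 < τm ∧ ∀ j, τm ≤ τ₀ j := by
    rcases isEmpty_or_nonempty (Fin n) with he | he
    · exact ⟨1, one_pos, fun j => he.elim j⟩
    · obtain ⟨j₀, -, hj₀⟩ := Finset.exists_min_image (Finset.univ : Finset (Fin n)) τ₀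
        Finset.univ_nonempty
      exact ⟨τ₀ j₀, hτ₀ j₀, fun j => hj₀ j (Finset.mem_univ j)⟩
  refine ⟨ψm, hψm, τm, hτm, ∑ j, J₀ j, ?_⟩
  intro J hJ F A hS κ g hgp hgl J' h hJ' hl B hB hbt
  obtain ⟨j, h1, h2⟩ := hbt
  refine hz j J ((Finset.single_le_sum (f := J₀) (fun _ _ => Nat.zero_le _)
    (Finset.mem_univ j)).trans hJ) F A (S.mono (hτm' j) hS) κ g hgp hgl J' h hJ' hl B ?_ h1 h2
  refine le_trans (Real.exp_le_exp.2 ?_) hB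
  have h3 : ψm * (J' : ℝ) ≤ ψ j * J' := mul_le_mul_of_nonneg_right (hψm' j) (Nat.cast_nonneg _)
  linarith

/-- **No better labels in the zooms.** The absent labels of the class have the radius exponent
`rad u w₂ j + c w₂`. -/
theorem zbt {S : PCl m} {C₀ : ℝ} (hC₀ : 0 ≤ C₀) (hbs : TmC S C₀)
    {w₁ w₂ dd wZ c : ℝ} (hw0 : 0 < w₁) (hw21 : 3 * w₂ < 1) (hdd : 0 < dd) (hwZ : 0 < wZ)
    (hw : w₁ + wZ < w₂) (hwc : dd + wZ < c * w₂) (hdw : dd + wZ ≤ 3 * w₂)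
    {u : Fin n → ℝ} (humono : Monotone u) (hu : ∀ j, w₂ ≤ u j)
    {ε : Fin n → Fin m} (hinj : Function.Injective ε)
    (habs : ∀ (j : Fin n) (K : ℕ) (h : ℝ), 0 < h → u j + h ≤ 1 → Bas S (fun J F A =>
      ¬ Lb F ((Finset.Iio j).image ε) (ε j) K ⌊w₂ * J⌋₊ J ⌊w₂ * J⌋₊ ⌊(rad u w₂ j + c * w₂) * J⌋₊
        ⌊(u j + h) * J⌋₊ A)) (K : ℕ) {h₀ : ℝ} (hh₀ : 0 < h₀) :
    ∃ ψ : ℝ, 0 < ψ ∧ ∃ τ₀ : ℝ, 0 < τ₀ ∧ ∃ J₀ : ℕ, ∀ J ≥ J₀, ∀ (F : Fam m J) (A : F.Ω → Prop),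
    S.St τ₀ J F A → ∀ (κ : Type) (g : F.Ω → κ),
    (∀ ω ω', A ω → A ω' → ptr F J ω = ptr F J ω' → g ω = g ω') →
    (∀ ω ω', A ω → A ω' → slam F ⌊w₁ * J⌋₊ ω = slam F ⌊w₁ * J⌋₊ ω' → g ω = g ω') →
    ∀ (J' : ℕ) (h : ⌊w₁ * J⌋₊ + J' ≤ J), J' = J - ⌊w₁ * J⌋₊ →
    ∀ (hl : IsLaw (Pool.Agent.H49.Ent.cond F.p A True)) (B : F.Ω → Prop),
    Real.exp (-(3 * ψ * J')) ≤ Pe (Pool.Agent.H49.Ent.cond F.p A True) B →
    ¬ Btr (fun j => uz w₁ w₂ dd (u j)) wZ h₀ K J' (zf (F.res A True hl) ⌊w₁ * J⌋₊ J' h g ε) B := by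
  have hw11 : w₁ < 1 := by linarith
  have h01 : 0 < 1 - w₁ := by linarith
  have h1 : wZ * (1 - w₁) ≤ wZ := by nlinarith
  have h2 : (dd + wZ) * (1 - w₁) ≤ dd + wZ := by nlinarith
  exact zbt' hC₀ hbs (w₂ := w₂) (w₃ := w₂) (e₂ := w₂) (r₂ := c * w₂) hw0 hw11 (by linarith)
    (by linarith) hdd hwZ (by linarith) (by linarith) (by linarith) (by linarith) hdw humono
    (fun j => by linarith [hu j]) hinj habs K hh₀

end Pool.GEN
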